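import Pool.Agent.Work.MP_274aea_ag.Maps

-- merged part: Pool.Agent.Work.MP_274aea_ag.Num
section
set_option autoImplicit false

open MvPolynomial Matrix

namespace Pool.Agent.GM16

section

variable {R : Type*} [CommRing R]

omit [CommRing R] in
theorem Num_ext {A B : Matrix (Fin 4) (Fin 4) R}
    (h00 : A 0 0 = B 0 0) (h01 : A 0 1 = B 0 1) (h02 : A 0 2 = B 0 2) (h03 : A 0 3 = B 0 3)
    (h10 : A 1 0 = B 1 0) (h11 : A 1 1 = B 1 1) (h12 : A 1 2 = B 1 2) (h13 : A 1 3 = B 1 3)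
    (h20 : A 2 0 = B 2 0) (h21 : A 2 1 = B 2 1) (h22 : A 2 2 = B 2 2) (h23 : A 2 3 = B 2 3)
    (h30 : A 3 0 = B 3 0) (h31 : A 3 1 = B 3 1) (h32 : A 3 2 = B 3 2) (h33 : A 3 3 = B 3 3) : A = B := by
  ext a c
  fin_cases a <;> fin_cases c <;> assumption

theorem TT_sq (b : R) (x : Fin 3 → R) :
    TT b x * TT b x = ee b x • (1 : Matrix (Fin 4) (Fin 4) R) + (2 : R) • Ps b x := by
  apply Num_ext <;>
    simp only [Matrix.mul_apply, Fin.sum_univ_four, Matrix.add_apply, Matrix.smul_apply,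
      smul_eq_mul, Matrix.one_apply, Fin.reduceEq, reduceIte] <;>
    dsimp only [TT, Ps, ee, Matrix.of_apply, Matrix.cons_val] <;>
    dsimp only [Matrix.cons_val] <;> ring

theorem Ps_sq (b : R) (x : Fin 3 → R) :
    Ps b x * Ps b x = F4 b x • (1 : Matrix (Fin 4) (Fin 4) R) + (2 * F3 b x) • TT b x := by
  apply Num_ext <;>
    simp only [Matrix.mul_apply, Fin.sum_univ_four, Matrix.add_apply, Matrix.smul_apply,
      smul_eq_mul, Matrix.one_apply, Fin.reduceEq, reduceIte] <;>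
    dsimp only [TT, Ps, F4, F3, Matrix.of_apply, Matrix.cons_val] <;>
    dsimp only [Matrix.cons_val] <;> ring

theorem Ps_TT (b : R) (x : Fin 3 → R) : Ps b x * TT b x = TT b x * Ps b x := by
  apply Num_ext <;>
    simp only [Matrix.mul_apply, Fin.sum_univ_four] <;>
    dsimp only [TT, Ps, Matrix.of_apply, Matrix.cons_val] <;>
    dsimp only [Matrix.cons_val] <;> ring

theorem N0_sq : (N0 : Matrix (Fin 4) (Fin 4) R) * N0 = 1 := by
  ext a c
  fin_cases a <;> fin_cases c <;> simp [N0, Matrix.mul_apply, Fin.sum_univ_four]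

theorem N0_tr : (N0 : Matrix (Fin 4) (Fin 4) R)ᵀ = N0 := by
  ext a c
  fin_cases a <;> fin_cases c <;> simp [N0]

theorem N0_det : (N0 : Matrix (Fin 4) (Fin 4) R).det = 1 := by
  simp [N0, Matrix.det_succ_row_zero, Fin.sum_univ_succ, Fin.succAbove]
  ring

theorem N0_adj : (N0 : Matrix (Fin 4) (Fin 4) R).adjugate = N0 := by
  have h : (N0 : Matrix (Fin 4) (Fin 4) R).adjugate * N0 = 1 := by
    rw [Matrix.adjugate_mul, N0_det, one_smul]
  calc (N0 : Matrix (Fin 4) (Fin 4) R).adjugate = N0.adjugate * (N0 * N0) := by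
        rw [N0_sq, mul_one]
    _ = N0 := by rw [← mul_assoc, h, one_mul]

theorem Ps_self (b : R) (x : Fin 3 → R) : (Ps b x)ᵀ * N0 = N0 * Ps b x := by
  apply Num_ext <;>
    simp only [Matrix.mul_apply, Fin.sum_univ_four, Matrix.transpose_apply] <;>
    dsimp only [N0, Ps, Matrix.of_apply, Matrix.cons_val] <;>
    dsimp only [Matrix.cons_val] <;> ring

theorem TT_self (b : R) (x : Fin 3 → R) : (TT b x)ᵀ * N0 = N0 * TT b x := by
  apply Num_ext <;>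
    simp only [Matrix.mul_apply, Fin.sum_univ_four, Matrix.transpose_apply] <;>
    dsimp only [N0, TT, Matrix.of_apply, Matrix.cons_val] <;>
    dsimp only [Matrix.cons_val] <;> ring

theorem Ns_eq (b : R) (x : Fin 4 → R) :
    Ns b x = N0 * (x 0 • (1 : Matrix (Fin 4) (Fin 4) R) + TT b fun k => x k.succ) := by
  apply Num_ext <;>
    simp only [Matrix.mul_apply, Fin.sum_univ_four, Matrix.add_apply, Matrix.smul_apply,
      smul_eq_mul, Matrix.one_apply, Fin.reduceEq, reduceIte] <;>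
    simp only [Ns, NN, lf, vth, Kb, N0, TT, Matrix.mulVec, dotProduct, Fin.sum_univ_three,
      Matrix.of_apply, Matrix.cons_val, Fin.reduceSucc] <;> ring

theorem qs_eq (b : R) (x : Fin 4 → R) : qs b x = x 0 ^ 2 - ee b fun k => x k.succ := by
  simp [qs, qq, Rr, lf, vth, ee]
  ring

theorem det_four (A : Matrix (Fin 4) (Fin 4) R) : A.det =
    A 0 0 * (A 1 1 * (A 2 2 * A 3 3 - A 2 3 * A 3 2) - A 1 2 * (A 2 1 * A 3 3 - A 2 3 * A 3 1) +
      A 1 3 * (A 2 1 * A 3 2 - A 2 2 * A 3 1)) -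
    A 0 1 * (A 1 0 * (A 2 2 * A 3 3 - A 2 3 * A 3 2) - A 1 2 * (A 2 0 * A 3 3 - A 2 3 * A 3 0) +
      A 1 3 * (A 2 0 * A 3 2 - A 2 2 * A 3 0)) +
    A 0 2 * (A 1 0 * (A 2 1 * A 3 3 - A 2 3 * A 3 1) - A 1 1 * (A 2 0 * A 3 3 - A 2 3 * A 3 0) +
      A 1 3 * (A 2 0 * A 3 1 - A 2 1 * A 3 0)) -
    A 0 3 * (A 1 0 * (A 2 1 * A 3 2 - A 2 2 * A 3 1) - A 1 1 * (A 2 0 * A 3 2 - A 2 2 * A 3 0) +
      A 1 2 * (A 2 0 * A 3 1 - A 2 1 * A 3 0)) := by
  simp [Matrix.det_succ_row_zero, Fin.sum_univ_succ, Fin.succAbove]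
  ring

theorem Gs_eq (b : R) (x : Fin 4 → R) : qs b x ^ 2 - (Ns b x).det =
    4 * F4 b (fun k => x k.succ) - 8 * F3 b (fun k => x k.succ) * x 0 := by
  rw [qs_eq, Ns_eq, Matrix.det_mul, N0_det, one_mul, det_four]
  simp [TT, ee, F4, F3]
  ring

theorem TT_smul (b c : R) (x : Fin 3 → R) : TT b (fun k => c * x k) = c • TT b x := by
  apply Num_ext <;> simp only [Matrix.smul_apply, smul_eq_mul] <;>
    dsimp only [TT, Matrix.of_apply, Matrix.cons_val] <;>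
    dsimp only [Matrix.cons_val] <;> ring

theorem ee_smul (b c : R) (x : Fin 3 → R) : ee b (fun k => c * x k) = c ^ 2 * ee b x := by
  simp [ee]
  ring

theorem Kb_det (b : R) : (Kb b).det = 160288104 * (1 - b) := by
  simp [Kb, Matrix.det_fin_three]
  ring

theorem Ps_side (b bi : R) (hb : b * bi = 1) (x : Fin 3 → R) (i : Fin 3) (hx : x i = 0) :
    Ps b x = (![1, b, 1] i : R) • kron (kk KA ![b, 1, 1] x i) (kk KB ![1, bi, 1] x i) := by
  have h0 : ∀ (c : R) (A B : Matrix (Fin 2) (Fin 2) R), c • kron A B = kron A (c • B) := by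
    intro c A B
    apply Num_ext <;> simp only [kron, Matrix.smul_apply, smul_eq_mul, Matrix.of_apply,
      Matrix.cons_val] <;> ring
  rw [h0]
  fin_cases i
  · have hx' : x 0 = 0 := hx
    change Ps b x = kron (x 1 • KA 1 + (b * x 2) • KA 2) ((1 : R) • (x 1 • KB 1 + (1 * x 2) • KB 2))
    apply Num_ext <;> simp only [kron, Matrix.smul_apply, Matrix.add_apply, smul_eq_mul,
      Matrix.of_apply, Matrix.cons_val, Ps, KA, KB, hx'] <;> ring
  · have hx' : x 1 = 0 := hx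
    have h1 : b • kk KB ![1, bi, 1] x 1 = (b * x 2) • KB 2 + x 0 • KB 0 := by
      ext a d
      simp [kk]
      linear_combination (x 0 * KB 0 a d) * hb
    change Ps b x = kron (x 2 • KA 2 + (1 * x 0) • KA 0) (b • kk KB ![1, bi, 1] x 1)
    rw [h1]
    apply Num_ext <;> simp only [kron, Matrix.smul_apply, Matrix.add_apply, smul_eq_mul,
      Matrix.of_apply, Matrix.cons_val, Ps, KA, KB, hx'] <;> ring
  · have hx' : x 2 = 0 := hx
    change Ps b x = kron (x 0 • KA 0 + (1 * x 1) • KA 1) ((1 : R) • (x 0 • KB 0 + (1 * x 1) • KB 1))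
    apply Num_ext <;> simp only [kron, Matrix.smul_apply, Matrix.add_apply, smul_eq_mul,
      Matrix.of_apply, Matrix.cons_val, Ps, KA, KB, hx'] <;> ring

theorem NN_tr (θ : Th → R) (m μ : Fin 3 → R) (l : R) : (NN θ m μ l)ᵀ = NN θ m μ l := by
  ext a c
  fin_cases a <;> fin_cases c <;> simp [NN]

theorem NN_P0 (θ : Th → R) : NN θ 0 0 1 = N0 := by
  ext a c
  fin_cases a <;> fin_cases c <;> simp [NN, N0, lf]

theorem qq_P0 (θ : Th → R) : qq θ 0 1 = 1 := by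
  simp [qq, Rr, lf]

theorem kron_vec (A B M : Matrix (Fin 2) (Fin 2) R) :
    kron A B *ᵥ vec M = vec (A * M * Bᵀ) := by
  ext a
  fin_cases a <;>
    simp [kron, vec, Matrix.mulVec, dotProduct, Fin.sum_univ_four, Matrix.mul_apply,
      Fin.sum_univ_two] <;> ring

theorem vec_mat (z : Fin 4 → R) : vec (mat z) = z := by
  ext a
  fin_cases a <;> simp [vec, mat]

theorem mat_vec (M : Matrix (Fin 2) (Fin 2) R) : mat (vec M) = M := by
  ext a c
  fin_cases a <;> fin_cases c <;> simp [vec, mat]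

theorem Num_fin {P : Fin 11 → Prop} (h0 : P 0) (h1 : P 1) (h2 : P 2) (h3 : P 3) (h4 : P 4)
    (h5 : P 5) (h6 : P 6) (h7 : P 7) (h8 : P 8) (h9 : P 9) (h10 : P 10) (a : Fin 11) : P a := by
  fin_cases a <;> assumption

theorem lf_act (κ : Matrix (Fin 3) (Fin 3) R) (θ : Th → R) (μ : Fin 3 → R) (a : Fin 11)
    (ha : a ≠ 7 ∧ a ≠ 8 ∧ a ≠ 9) : lf (act κ θ) a μ = lf θ a (κ *ᵥ μ) := by
  revert a
  apply Num_fin <;> intro ha <;> first
    | exact absurd ha (by decide)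
    | (simp only [act, lf, Matrix.mulVec, dotProduct, Fin.sum_univ_three, Matrix.transpose_apply,
        Matrix.cons_val]; ring)

theorem Rr_act (κ : Matrix (Fin 3) (Fin 3) R) (θ : Th → R) (μ : Fin 3 → R) (l : R) :
    Rr (act κ θ) μ l = Rr θ (κ *ᵥ μ) l := by
  simp only [Rr, act, lf, Matrix.mulVec, dotProduct, Fin.sum_univ_three, Matrix.transpose_apply,
    Matrix.cons_val]
  ring

theorem NN_act (κ : Matrix (Fin 3) (Fin 3) R) (θ : Th → R) (m μ : Fin 3 → R) (l : R) :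
    NN (act κ θ) m μ l = NN θ m (κ *ᵥ μ) l := by
  simp only [NN]
  rw [lf_act, lf_act, lf_act, lf_act, lf_act, lf_act, lf_act] <;> decide

theorem qq_act (κ : Matrix (Fin 3) (Fin 3) R) (θ : Th → R) (μ : Fin 3 → R) (l : R) :
    qq (act κ θ) μ l = qq θ (κ *ᵥ μ) l := by
  simp only [qq, Rr_act]
  rw [lf_act, lf_act, lf_act, lf_act] <;> decide

theorem act_act (κ κ' : Matrix (Fin 3) (Fin 3) R) (θ : Th → R) :
    act κ' (act κ θ) = act (κ * κ') θ := by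
  ext ⟨k, a⟩
  revert a
  apply Num_fin <;> simp only [act, lf, Matrix.mul_apply, Fin.sum_univ_three,
    Matrix.transpose_apply, Matrix.cons_val] <;> ring

theorem act_one (θ : Th → R) : act 1 θ = θ := by
  ext ⟨k, a⟩
  revert a
  fin_cases k <;> apply Num_fin <;> simp only [act, lf, Matrix.transpose_apply, Matrix.cons_val,
    Matrix.one_apply, Fin.zero_eta, Fin.mk_one, Fin.reduceFinMk, Fin.reduceEq, reduceIte] <;> ring

theorem AA_eq (θ : Th → R) (μ : Fin 3 → R) (s t : Fin 2 → R) (l : R) :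
    AA θ μ s t l = l • A1 θ μ s t + AA θ μ s t 0 := by
  ext a c
  fin_cases a <;> fin_cases c <;> simp [AA, A1, Rr] <;> ring

theorem det_AA (θ : Th → R) (s t : Fin 2 → R) (l : R) :
    4 * (AA θ ![s 0 * t 0, s 0 * t 1 + s 1 * t 0, s 1 * t 1] s t l).det =
      -(s 0 * t 1 - s 1 * t 0) * GG θ ![s 0 * t 0, s 0 * t 1 + s 1 * t 0, s 1 * t 1] l := by
  rw [GG, det_four, Matrix.det_fin_three]
  simp only [AA, NN, qq]
  generalize Rr θ _ l = r
  generalize lf θ 0 _ = l0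
  generalize lf θ 1 _ = l1
  generalize lf θ 2 _ = l2
  generalize lf θ 3 _ = l3
  generalize lf θ 4 _ = l4
  generalize lf θ 5 _ = l5
  generalize lf θ 6 _ = l6
  simp
  ring

end

end Pool.Agent.GM16
end

-- merged part: Pool.Agent.Work.MP_274aea_ag.Coef
section
set_option autoImplicit false

open MvPolynomial Matrix

namespace Pool.Agent.GM16

variable {R : Type*} [CommRing R]

def Bq (θ : Th → R) (μ : Fin 3 → R) : R := lf θ 7 μ * μ 0 + lf θ 8 μ * μ 1 + lf θ 9 μ * μ 2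

def g2 (θ : Th → R) (μ : Fin 3 → R) : R :=
  lf θ 10 μ ^ 2 + lf θ 10 μ * (lf θ 1 μ - lf θ 2 μ) - Bq θ μ -
    (lf θ 4 μ * μ 0 + lf θ 5 μ * μ 1 + lf θ 6 μ * μ 2)

def g1 (θ : Th → R) (μ : Fin 3 → R) : R :=
  -2 * Bq θ μ * lf θ 10 μ + lf θ 10 μ * (lf θ 0 μ * lf θ 3 μ - lf θ 1 μ * lf θ 2 μ) -
    Bq θ μ * (lf θ 1 μ - lf θ 2 μ) -
    (μ 0 * (2 * lf θ 5 μ * lf θ 0 μ - 2 * lf θ 4 μ * lf θ 2 μ) +
      μ 1 * (lf θ 6 μ * lf θ 0 μ - lf θ 5 μ * (lf θ 2 μ - lf θ 1 μ) - lf θ 4 μ * lf θ 3 μ) +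
      μ 2 * (2 * lf θ 6 μ * lf θ 1 μ - 2 * lf θ 5 μ * lf θ 3 μ))

def g0 (θ : Th → R) (μ : Fin 3 → R) : R :=
  Bq θ μ ^ 2 - Bq θ μ * (lf θ 0 μ * lf θ 3 μ - lf θ 1 μ * lf θ 2 μ) +
    (μ 1 ^ 2 - 4 * μ 0 * μ 2) * (lf θ 4 μ * lf θ 6 μ - lf θ 5 μ ^ 2) -
    (μ 0 * (lf θ 6 μ * lf θ 0 μ ^ 2 - 2 * lf θ 5 μ * lf θ 0 μ * lf θ 2 μ +
        lf θ 4 μ * lf θ 2 μ ^ 2) +
      μ 1 * (lf θ 6 μ * lf θ 0 μ * lf θ 1 μ -
        lf θ 5 μ * (lf θ 0 μ * lf θ 3 μ + lf θ 1 μ * lf θ 2 μ) + lf θ 4 μ * lf θ 2 μ * lf θ 3 μ) +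
      μ 2 * (lf θ 6 μ * lf θ 1 μ ^ 2 - 2 * lf θ 5 μ * lf θ 1 μ * lf θ 3 μ +
        lf θ 4 μ * lf θ 3 μ ^ 2))

theorem GG_eq (θ : Th → R) (μ : Fin 3 → R) (l : R) :
    GG θ μ l = 4 * (lf θ 10 μ * l ^ 3 + g2 θ μ * l ^ 2 + g1 θ μ * l + g0 θ μ) := by
  rw [GG, det_four]
  simp only [NN, qq, Rr, g2, g1, g0, Bq]
  generalize lf θ 0 _ = l0
  generalize lf θ 1 _ = l1
  generalize lf θ 2 _ = l2
  generalize lf θ 3 _ = l3
  generalize lf θ 4 _ = l4
  generalize lf θ 5 _ = l5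
  generalize lf θ 6 _ = l6
  generalize lf θ 7 _ = l7
  generalize lf θ 8 _ = l8
  generalize lf θ 9 _ = l9
  generalize lf θ 10 _ = l10
  simp
  ring

section

variable {S F : Type*} [CommRing S] [FunLike F R S] [RingHomClass F R S] (f : F)

theorem map_g2 (θ : Th → R) (μ : Fin 3 → R) :
    f (g2 θ μ) = g2 (fun s => f (θ s)) (fun k => f (μ k)) := by
  simp [g2, Bq, map_lf]

theorem map_g1 (θ : Th → R) (μ : Fin 3 → R) :
    f (g1 θ μ) = g1 (fun s => f (θ s)) (fun k => f (μ k)) := by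
  simp [g1, Bq, map_lf, map_ofNat]

theorem map_g0 (θ : Th → R) (μ : Fin 3 → R) :
    f (g0 θ μ) = g0 (fun s => f (θ s)) (fun k => f (μ k)) := by
  simp [g0, Bq, map_lf, map_ofNat]

end

theorem Gp_eq (θ : Th → R) (μ : Fin 3 → R) :
    Gp θ μ = Polynomial.C (4 * lf θ 10 μ) * Polynomial.X ^ 3 +
      Polynomial.C (4 * g2 θ μ) * Polynomial.X ^ 2 + Polynomial.C (4 * g1 θ μ) * Polynomial.X +
        Polynomial.C (4 * g0 θ μ) := by
  rw [Gp, GG_eq, ← map_lf, ← map_g2, ← map_g1, ← map_g0]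
  simp only [map_mul, map_ofNat]
  ring

end Pool.Agent.GM16
end
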