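import Pool.Agent.Work.MP_274aea_ag.Maps

-- merged part: Pool.Agent.Work.MP_274aea_ag.Hom
section
set_option autoImplicit false

open MvPolynomial Matrix

namespace Pool.Agent.GM16

theorem dvd_aeval_sub {σ E A : Type*} [CommRing E] [CommRing A] [Algebra E A] (p : A)
    (f g : σ → A) (h : ∀ i, p ∣ f i - g i) (Φ : MvPolynomial σ E) :
    p ∣ aeval f Φ - aeval g Φ := by
  induction Φ using MvPolynomial.induction_on with
  | C a => simp
  | add a b ha hb =>
    have := dvd_add ha hb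
    simp only [map_add]
    rwa [show aeval f a + aeval f b - (aeval g a + aeval g b) =
      aeval f a - aeval g a + (aeval f b - aeval g b) by ring]
  | mul_X a i ha =>
    simp only [map_mul, aeval_X]
    rw [show aeval f a * f i - aeval g a * g i =
      (aeval f a - aeval g a) * f i + aeval g a * (f i - g i) by ring]
    exact dvd_add (ha.mul_right _) ((h i).mul_left _)

theorem aeval_smul_hom {σ E A : Type*} [CommRing E] [CommRing A] [Algebra E A]
    {Φ : MvPolynomial σ E} {d : ℕ} (hΦ : Φ.IsHomogeneous d) (c : A) (f : σ → A) :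
    aeval (fun i => c * f i) Φ = c ^ d * aeval f Φ := by
  classical
  rw [aeval_def, aeval_def, eval₂_eq, eval₂_eq, Finset.mul_sum]
  refine Finset.sum_congr rfl fun m hm => ?_
  simp only [mul_pow, Finset.prod_mul_distrib, Finset.prod_pow_eq_pow_sum]
  rw [← hΦ.degree_eq_sum_deg_support hm]
  ring

section

variable {σ E : Type*} [Field E]

/-- The scaling `Φ (T x)`. -/
noncomputable def scal : MvPolynomial σ E →ₐ[E] Polynomial (MvPolynomial σ E) :=
  aeval fun i => Polynomial.X * Polynomial.C (X i)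

theorem scal_hom {Φ : MvPolynomial σ E} {d : ℕ} (h : Φ.IsHomogeneous d) :
    scal Φ = Polynomial.X ^ d * Polynomial.C Φ := by
  rw [scal, aeval_smul_hom h]
  congr 1
  have : (aeval fun i => Polynomial.C (X i) : MvPolynomial σ E →ₐ[E] Polynomial (MvPolynomial σ E))
      = Polynomial.CAlgHom := by
    ext1 i
    simp
  rw [this]
  rfl

theorem coeff_scal (Φ : MvPolynomial σ E) (k : ℕ) :
    (scal Φ).coeff k = homogeneousComponent k Φ := by
  conv_lhs => rw [← sum_homogeneousComponent Φ]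
  rw [map_sum, Polynomial.finset_sum_coeff]
  simp only [scal_hom (homogeneousComponent_isHomogeneous _ _), Polynomial.X_pow_mul_C,
    Polynomial.coeff_C_mul_X_pow]
  rw [Finset.sum_ite_eq]
  split_ifs with h
  · rfl
  · rw [homogeneousComponent_eq_zero]
    simpa using h

theorem scal_ne_zero {Φ : MvPolynomial σ E} (h : Φ ≠ 0) : scal Φ ≠ 0 := by
  intro h0
  apply h
  rw [← sum_homogeneousComponent Φ]
  exact Finset.sum_eq_zero fun k _ => by rw [← coeff_scal, h0, Polynomial.coeff_zero]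

theorem hom_of_scal {Φ : MvPolynomial σ E}
    (h : (scal Φ).natDegree ≤ (scal Φ).natTrailingDegree) :
    Φ.IsHomogeneous (scal Φ).natDegree := by
  have : Φ = homogeneousComponent (scal Φ).natDegree Φ := by
    conv_lhs => rw [← sum_homogeneousComponent Φ]
    rw [Finset.sum_eq_single (scal Φ).natDegree]
    · intro k _ hk
      rw [← coeff_scal]
      rcases lt_or_gt_of_ne hk with h1 | h1
      · exact Polynomial.coeff_eq_zero_of_lt_natTrailingDegree (h1.trans_le h)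
      · exact Polynomial.coeff_eq_zero_of_natDegree_lt h1
    · intro hk
      rw [homogeneousComponent_eq_zero]
      simpa using hk
  rw [this]
  conv => enter [2]; rw [← this]
  exact homogeneousComponent_isHomogeneous _ _

theorem hom_of_dvd {g Φ : MvPolynomial σ E} {D : ℕ} (hΦ : Φ.IsHomogeneous D) (h0 : Φ ≠ 0)
    (h : g ∣ Φ) : ∃ e, g.IsHomogeneous e := by
  obtain ⟨q, rfl⟩ := h
  have hg : scal g ≠ 0 := scal_ne_zero (left_ne_zero_of_mul h0)
  have hq : scal q ≠ 0 := scal_ne_zero (right_ne_zero_of_mul h0)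
  have h1 := Polynomial.natDegree_mul hg hq
  have h2 := Polynomial.natTrailingDegree_mul hg hq
  rw [← map_mul, scal_hom hΦ, Polynomial.X_pow_mul_C, Polynomial.C_mul_X_pow_eq_monomial] at h1 h2
  rw [Polynomial.natDegree_monomial_eq _ h0] at h1
  rw [Polynomial.natTrailingDegree_monomial h0] at h2
  have h3 := Polynomial.natTrailingDegree_le_natDegree (scal g)
  have h4 := Polynomial.natTrailingDegree_le_natDegree (scal q)
  exact ⟨_, hom_of_scal (by omega)⟩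

theorem hom_quot {a b : MvPolynomial σ E} {m D : ℕ} (ha : a.IsHomogeneous m) (ha0 : a ≠ 0)
    (h : (a * b).IsHomogeneous D) : b.IsHomogeneous (D - m) ∧ (b ≠ 0 → m ≤ D) := by
  by_cases hb : b = 0
  · exact ⟨hb ▸ isHomogeneous_zero _ _ _, fun h => (h hb).elim⟩
  obtain ⟨e, he⟩ := hom_of_dvd h (mul_ne_zero ha0 hb) (dvd_mul_left b a)
  have := (ha.mul he).inj_right h (mul_ne_zero ha0 hb)
  subst this
  exact ⟨by simpa using he, fun _ => Nat.le_add_right _ _⟩

theorem hom_zero_eq_C {Φ : MvPolynomial σ E} (h : Φ.IsHomogeneous 0) : ∃ c, Φ = C c :=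
  ⟨_, totalDegree_eq_zero_iff_eq_C.mp ((totalDegree_zero_iff_isHomogeneous σ).mpr h)⟩

theorem prime_lin {l : MvPolynomial σ E} (h : l.IsHomogeneous 1) (h0 : l ≠ 0) : Prime l := by
  apply Irreducible.prime
  refine irreducible_of_totalDegree_eq_one (h.totalDegree h0) fun x hx => ?_
  refine IsUnit.mk0 x fun hx0 => h0 ?_
  ext i
  simpa [hx0] using hx i

theorem card_mon (n d : ℕ) :
    ((Finset.univ : Finset (Fin (n + 1))).finsuppAntidiag d).card = (d + n).choose n := by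
  rw [Finset.card_finsuppAntidiag_nat_eq_choose]
  simp only [Finset.card_univ, Fintype.card_fin]
  rw [show n + 1 + d - 1 = d + n by omega, Nat.choose_symm_add]

theorem mem_mon {n d : ℕ} (m : Fin n →₀ ℕ) :
    m ∈ (Finset.univ : Finset (Fin n)).finsuppAntidiag d ↔ m.degree = d := by
  simp [Finset.mem_finsuppAntidiag, Finsupp.degree_eq_sum]

theorem finrank_hom (n d : ℕ) :
    Module.finrank E (homogeneousSubmodule (Fin (n + 1)) E d) = (d + n).choose n := by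
  have h : {m : Fin (n + 1) →₀ ℕ | m.degree = d} =
      ((Finset.univ : Finset (Fin (n + 1))).finsuppAntidiag d : Set _) := by
    ext m
    simp only [Set.mem_setOf_eq, Finset.mem_coe, mem_mon]
  rw [homogeneousSubmodule_eq_finsupp_supported, h,
    (AddMonoidAlgebra.supportedEquivFinsupp _).finrank_eq, Module.finrank_finsupp_self,
    ← card_mon]
  simp

end

end Pool.Agent.GM16
end

-- merged part: Pool.Agent.Work.MP_274aea_ag.Mult
section
set_option autoImplicit false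

open MvPolynomial Matrix

namespace Pool.Agent.GM16

variable {P : Fin 3 → ℂ} {a b Φ : S3} {m n k : ℕ}

theorem Mult.zero (P : Fin 3 → ℂ) (Φ : S3) : Mult 0 P Φ := by
  simp [Mult]

theorem Mult.of_zero (n : ℕ) (P : Fin 3 → ℂ) : Mult n P 0 := by
  simp [Mult]

theorem Mult.mono (h : Mult n P Φ) (hm : m ≤ n) : Mult m P Φ :=
  (pow_dvd_pow _ hm).trans h

theorem Mult.add (ha : Mult n P a) (hb : Mult n P b) : Mult n P (a + b) := by
  rw [Mult, map_add]
  exact dvd_add ha hb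

theorem Mult.sub (ha : Mult n P a) (hb : Mult n P b) : Mult n P (a - b) := by
  rw [Mult, map_sub]
  exact dvd_sub ha hb

theorem Mult.neg (ha : Mult n P a) : Mult n P (-a) := by
  rw [Mult, map_neg]
  exact dvd_neg.mpr ha

theorem Mult.mul (ha : Mult m P a) (hb : Mult n P b) : Mult (m + n) P (a * b) := by
  rw [Mult, map_mul, pow_add]
  exact mul_dvd_mul ha hb

theorem Mult.mul_left (hb : Mult n P b) (a : S3) : Mult n P (a * b) := by
  rw [Mult, map_mul]
  exact Dvd.dvd.mul_left hb _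

theorem Mult.mul_right (ha : Mult n P a) (b : S3) : Mult n P (a * b) := by
  rw [Mult, map_mul]
  exact Dvd.dvd.mul_right ha _

theorem Mult.pow (ha : Mult m P a) (k : ℕ) : Mult (k * m) P (a ^ k) := by
  rw [Mult, map_pow, mul_comm, pow_mul]
  exact pow_dvd_pow_of_dvd ha k

theorem Mult.sum {ι : Type*} (s : Finset ι) (f : ι → S3) (h : ∀ i ∈ s, Mult n P (f i)) :
    Mult n P (∑ i ∈ s, f i) := by
  rw [Mult, map_sum]
  exact Finset.dvd_sum h

theorem Mult.spec (h : Mult n P Φ) {A : Type*} [CommRing A] [Algebra ℂ A] (μ ε : A)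
    (v : Fin 3 → A) : ε ^ n ∣ aeval (fun i => algebraMap ℂ A (P i) * μ + ε * v i) Φ := by
  let ψ : Polynomial S4 →ₐ[ℂ] A :=
    Polynomial.eval₂AlgHom (aeval (Fin.cons μ v : Fin 4 → A)) ε fun _ => Commute.all _ _
  have h1 : aeval (fun i => algebraMap ℂ A (P i) * μ + ε * v i) = ψ.comp (blow P) := by
    ext1 i
    simp [ψ, blow, mul_comm ε]
  have h2 := map_dvd ψ h
  rw [h1]
  simpa [ψ] using h2

theorem blow_ne_zero (h : a ≠ 0) (P : Fin 3 → ℂ) : blow P a ≠ 0 := by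
  intro h0
  apply h
  let ψ : Polynomial S4 →ₐ[ℂ] S3 :=
    Polynomial.eval₂AlgHom (aeval (Fin.cons 0 X : Fin 4 → S3)) 1 fun _ => Commute.all _ _
  have h1 : ψ.comp (blow P) = AlgHom.id ℂ S3 := by
    ext1 i
    simp [ψ, blow]
  have h2 : ψ (blow P a) = a := congrArg (fun f : S3 →ₐ[ℂ] S3 => f a) h1
  rw [← h2, h0, map_zero]

theorem mult_iff (h : a ≠ 0) : Mult n P a ↔ n ≤ (blow P a).natTrailingDegree := by
  rw [Mult, Polynomial.X_pow_dvd_iff]
  constructor
  · intro h1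
    exact Polynomial.le_natTrailingDegree (blow_ne_zero h P) h1
  · intro h1 d hd
    exact Polynomial.coeff_eq_zero_of_lt_natTrailingDegree (hd.trans_le h1)

theorem ord_mul (ha : a ≠ 0) (hb : b ≠ 0) : (blow P (a * b)).natTrailingDegree =
    (blow P a).natTrailingDegree + (blow P b).natTrailingDegree := by
  rw [map_mul, Polynomial.natTrailingDegree_mul (blow_ne_zero ha P) (blow_ne_zero hb P)]

theorem ne_zero_of_not_mult (h : ¬ Mult n P a) : a ≠ 0 := by
  rintro rfl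
  exact h (Mult.of_zero _ _)

theorem Mult.cancel (h : Mult n P (a * b)) (ha : ¬ Mult (k + 1) P a) : Mult (n - k) P b := by
  by_cases hb : b = 0
  · exact hb ▸ Mult.of_zero _ _
  have ha0 := ne_zero_of_not_mult ha
  rw [mult_iff (mul_ne_zero ha0 hb), ord_mul ha0 hb] at h
  rw [mult_iff ha0] at ha
  rw [mult_iff hb]
  omega

theorem not_mult_mul (ha : ¬ Mult (m + 1) P a) (hb : ¬ Mult (n + 1) P b) :
    ¬ Mult (m + n + 1) P (a * b) := by
  have ha0 := ne_zero_of_not_mult ha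
  have hb0 := ne_zero_of_not_mult hb
  rw [mult_iff (mul_ne_zero ha0 hb0), ord_mul ha0 hb0]
  rw [mult_iff ha0] at ha
  rw [mult_iff hb0] at hb
  omega

theorem not_mult_one (h : eval P a ≠ 0) : ¬ Mult 1 P a := by
  intro h1
  have := h1.spec (1 : ℂ) 0 0
  apply h
  simpa [aeval_eq_eval] using this

theorem not_mult_pow (ha : ¬ Mult (m + 1) P a) (k : ℕ) : ¬ Mult (k * m + 1) P (a ^ k) := by
  induction k with
  | zero => simpa using not_mult_one (P := P) (a := 1) (by simp)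
  | succ k ih =>
    rw [pow_succ, Nat.succ_mul]
    exact not_mult_mul ih ha

theorem coeff_zero_blow {d : ℕ} (h : a.IsHomogeneous d) :
    (blow P a).coeff 0 = X 0 ^ d * C (eval P a) := by
  let ψ : Polynomial S4 →ₐ[ℂ] S4 :=
    Polynomial.eval₂AlgHom (AlgHom.id ℂ S4) 0 fun _ => Commute.all _ _
  have h1 : ψ.comp (blow P) = aeval fun i => X 0 * C (P i) := by
    ext1 i
    simp [ψ, blow, mul_comm (X 0 : S4)]
  have h2 : ψ (blow P a) = aeval (fun i => (X 0 * C (P i) : S4)) a :=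
    congrArg (fun f : S3 →ₐ[ℂ] S4 => f a) h1
  have h3 : ψ (blow P a) = (blow P a).coeff 0 := by
    simp [ψ, Polynomial.eval₂_at_zero]
  rw [← h3, h2, aeval_smul_hom h]
  congr 1
  have : (aeval fun i => (C (P i) : S4)) = (Algebra.ofId ℂ S4).comp (aeval P) := by
    ext1 i
    simp
  rw [this]
  simp [aeval_eq_eval]

theorem mult_one_of_hom {d : ℕ} (h : a.IsHomogeneous d) (h0 : eval P a = 0) : Mult 1 P a := by
  rw [Mult, pow_one, Polynomial.X_dvd_iff, coeff_zero_blow h, h0, map_zero, mul_zero]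

theorem not_mult_two (h : a.IsHomogeneous 1) (h0 : a ≠ 0) : ¬ Mult 2 P a := by
  intro h2
  have h3 := h2.spec (0 : Polynomial S3) Polynomial.X fun i => Polynomial.C (X i)
  simp only [mul_zero, zero_add] at h3
  have h4 : Polynomial.X ^ 2 ∣ scal a := h3
  rw [scal_hom h, Polynomial.X_pow_dvd_iff] at h4
  have := h4 1 (by norm_num)
  simp at this
  exact h0 this

theorem exists_exact (h : a ≠ 0) (P : Fin 3 → ℂ) : ∃ m, Mult m P a ∧ ¬ Mult (m + 1) P a :=
  ⟨(blow P a).natTrailingDegree, (mult_iff h).mpr le_rfl, by rw [mult_iff h]; omega⟩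

theorem mult_aeval_of_hom {σ : Type*} {y : MvPolynomial σ ℂ} {d : ℕ} (hy : y.IsHomogeneous d)
    (f : σ → S3) (hf : ∀ i, Mult 1 P (f i)) : Mult d P (aeval f y) := by
  choose g hg using hf
  have h1 : blow P (aeval f y) = aeval (fun i => Polynomial.X * g i) y := by
    rw [← AlgHom.comp_apply, comp_aeval]
    simp only [hg, pow_one]
  rw [Mult, h1, aeval_smul_hom hy]
  exact dvd_mul_right _ _

theorem mult_comp {Q : Fin 3 → ℂ} {e : ℕ} (f : Fin 3 → S3) (hf : ∀ i, (f i).IsHomogeneous e)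
    (c : ℂ) (hc : ∀ i, eval Q (f i) = c * P i) (h : Mult n P Φ) : Mult n Q (aeval f Φ) := by
  have h1 : blow Q (aeval f Φ) = aeval (fun i => algebraMap ℂ (Polynomial S4) (P i) *
      Polynomial.C (X 0 ^ e * C c) + Polynomial.X * (blow Q (f i)).divX) Φ := by
    rw [← AlgHom.comp_apply, comp_aeval]
    congr 2
    ext1 i
    conv_lhs => rw [← Polynomial.X_mul_divX_add (blow Q (f i)), coeff_zero_blow (hf i), hc]
    simp only [map_mul, Polynomial.algebraMap_apply, algebraMap_eq]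
    ring
  rw [Mult, h1]
  exact h.spec _ _ _

/-- Local coordinates at a point of a side. -/
noncomputable def loc (i : Fin 3) (u : ℂ) : S3 →ₐ[ℂ] MvPolynomial (Fin 2) ℂ :=
  aeval fun m => if m = i then X 1 else if m = i + 1 then 1 else X 0 - C u

theorem mult_of_loc' {L : Type} [Field L] [Algebra ℂ L] (ι : Polynomial S4 →ₐ[ℂ] L)
    (hι : Function.Injective ι) (i : Fin 3) (u : ℂ) {D : ℕ} (hΦ : Φ.IsHomogeneous D)
    (h : ∀ m : Fin 2 →₀ ℕ, m 0 + m 1 < n → coeff m (loc i u Φ) = 0) : Mult n (Pt i u) Φ := by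
  classical
  let μ : Polynomial S4 := Polynomial.C (X 0) + Polynomial.X * Polynomial.C (X (i + 1).succ)
  have hμ : ¬ Polynomial.X ∣ μ := by
    simp [μ, Polynomial.X_dvd_iff]
  have hμ0 : ι μ ≠ 0 := by
    intro h0
    apply hμ
    rw [(map_eq_zero_iff ι hι).mp h0]
    exact dvd_zero _
  let w : Fin 2 → Polynomial S4 :=
    ![Polynomial.C (X (i + 2).succ + C u * X (i + 1).succ), Polynomial.C (X i.succ)]
  have h1 : ι (blow (Pt i u) Φ) =
      ι μ ^ D * aeval (fun l => ι (Polynomial.X * w l) / ι μ) (loc i u Φ) := by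
    rw [loc, ← AlgHom.comp_apply (aeval _), comp_aeval, ← aeval_smul_hom hΦ, blow,
      ← AlgHom.comp_apply, comp_aeval]
    congr 2
    ext1 m
    have e1 : ∀ c : ℂ, ι (Polynomial.C (C c)) = algebraMap ℂ L c := fun c => ι.commutes c
    fin_cases i <;> fin_cases m <;> simp [Pt, w, e1] <;> field_simp <;> simp [μ] <;> ring
  set N := (loc i u Φ).totalDegree
  have h2 : μ ^ N * blow (Pt i u) Φ = μ ^ D * ∑ m ∈ (loc i u Φ).support,
      Polynomial.C (C (coeff m (loc i u Φ))) * Polynomial.X ^ (m 0 + m 1) *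
        (w 0 ^ m 0 * w 1 ^ m 1) * μ ^ (N - (m 0 + m 1)) := by
    apply hι
    rw [map_mul, h1, aeval_def, eval₂_eq', map_mul, map_sum, map_pow, map_pow, mul_left_comm,
      Finset.mul_sum]
    congr 1
    refine Finset.sum_congr rfl fun m hm => ?_
    have h3 : m 0 + m 1 ≤ N := by
      have := le_totalDegree hm
      rwa [Finsupp.sum_fintype _ _ (by simp), Fin.sum_univ_two] at this
    obtain ⟨r, hr⟩ := Nat.exists_eq_add_of_le h3
    have e1 : ι (Polynomial.C (C (coeff m (loc i u Φ)))) = algebraMap ℂ L _ := ι.commutes _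
    rw [hr, Nat.add_sub_cancel_left]
    simp only [map_mul, map_pow, e1, Fin.prod_univ_two, div_pow, mul_pow, pow_add]
    field_simp
  have h3 : Polynomial.X ^ n ∣ μ ^ N * blow (Pt i u) Φ := by
    rw [h2]
    refine Dvd.dvd.mul_left (Finset.dvd_sum fun m hm => ?_) _
    have : n ≤ m 0 + m 1 := by
      by_contra h4
      exact (mem_support_iff.mp hm) (h m (by omega))
    exact (((pow_dvd_pow _ this).mul_left _).mul_right _).mul_right _
  exact Polynomial.prime_X.pow_dvd_of_dvd_mul_left n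
    (fun h4 => hμ (Polynomial.prime_X.dvd_of_dvd_pow h4)) h3

theorem mult_of_loc (i : Fin 3) (u : ℂ) {D : ℕ} (hΦ : Φ.IsHomogeneous D)
    (h : ∀ m : Fin 2 →₀ ℕ, m 0 + m 1 < n → coeff m (loc i u Φ) = 0) : Mult n (Pt i u) Φ :=
  mult_of_loc' (IsScalarTower.toAlgHom ℂ _ (FractionRing (Polynomial S4)))
    (IsFractionRing.injective (Polynomial S4) _) i u hΦ h

theorem card_tri (n : ℕ) : Fintype.card (Σ k : Fin (n - 1), Fin (k + 1)) = n.choose 2 := by
  rw [Fintype.card_sigma]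
  simp only [Fintype.card_fin]
  rw [Fin.sum_univ_eq_sum_range (fun k => k + 1)]
  induction n with
  | zero => simp
  | succ n ih =>
    rcases n with _ | n
    · simp
    · rw [Nat.add_sub_cancel, Finset.sum_range_succ, Nat.choose_succ_succ' (n + 1) 1]
      rw [Nat.add_sub_cancel] at ih
      rw [ih]
      simp [add_comm]

/-- Multiplicity `n` at a point of a side costs `n.choose 2` conditions once the restriction to
the side vanishes to order `n`. -/
theorem exists_cond (i : Fin 3) (u : ℂ) (n : ℕ) :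
    ∃ L : S3 →ₗ[ℂ] (Fin (n.choose 2) → ℂ), ∀ (Φ : S3) (D : ℕ), Φ.IsHomogeneous D →
      ell i u ^ n ∣ res i Φ → L Φ = 0 → Mult n (Pt i u) Φ := by
  classical
  let e := Fintype.equivFinOfCardEq (card_tri n)
  let mo : (Σ k : Fin (n - 1), Fin (k + 1)) → Fin 2 →₀ ℕ := fun p =>
    Finsupp.single 0 p.2.val + Finsupp.single 1 (p.1.val - p.2.val + 1)
  refine ⟨LinearMap.pi fun j => (lcoeff ℂ (mo (e.symm j))).comp (loc i u).toLinearMap,
    fun Φ D hΦ hd hL => mult_of_loc i u hΦ fun m hm => ?_⟩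
  by_cases h1 : m 1 = 0
  · have h2 : X i ∣ Φ - res i Φ := by
      have := dvd_aeval_sub (X i : S3) X (fun m => if m = i then 0 else X m)
        (fun m => by split_ifs with h <;> simp [h]) Φ
      rwa [aeval_X_left_apply] at this
    obtain ⟨q, hq⟩ := h2
    obtain ⟨q', hq'⟩ := hd
    have h3 : loc i u Φ = X 1 * loc i u q + X 0 ^ n * loc i u q' := by
      rw [sub_eq_iff_eq_add.mp hq, hq', map_add, map_mul, map_mul, map_pow]
      congr 2
      · simp [loc]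
      · congr 1
        fin_cases i <;> simp [loc, ell]
    rw [h3, coeff_add, coeff_X_mul', X_pow_eq_monomial, coeff_monomial_mul', if_neg, if_neg,
      add_zero]
    · rw [Finsupp.single_le_iff]
      omega
    · simpa using h1
  · have h2 := congrFun hL (e ⟨⟨m 0 + m 1 - 1, by omega⟩, ⟨m 0, by simp; omega⟩⟩)
    have h3 : mo ⟨⟨m 0 + m 1 - 1, by omega⟩, ⟨m 0, by simp; omega⟩⟩ = m := by
      ext l
      fin_cases l
      · simp [mo]
      · simp [mo]
        omega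
    simpa [h3] using h2

end Pool.Agent.GM16
end

-- merged part: Pool.Agent.Work.MP_274aea_ag.Side
section
set_option autoImplicit false

open MvPolynomial Matrix

namespace Pool.Agent.GM16

section

variable {E : Type*} [Field E]

theorem X_dvd_sub_res (i : Fin 3) (Φ : MvPolynomial (Fin 3) E) : X i ∣ Φ - res i Φ := by
  have := dvd_aeval_sub (X i : MvPolynomial (Fin 3) E) X (fun m => if m = i then 0 else X m)
    (fun m => by split_ifs with h <;> simp [h]) Φ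
  rwa [aeval_X_left_apply] at this

theorem X_dvd_iff (i : Fin 3) (Φ : MvPolynomial (Fin 3) E) : X i ∣ Φ ↔ res i Φ = 0 := by
  constructor
  · rintro ⟨q, rfl⟩
    simp [res]
  · intro h
    simpa [h] using X_dvd_sub_res i Φ

theorem res_hom (i : Fin 3) {Φ : MvPolynomial (Fin 3) E} {D : ℕ} (h : Φ.IsHomogeneous D) :
    (res i Φ).IsHomogeneous D := by
  have := h.aeval (fun m => if m = i then 0 else (X m : MvPolynomial (Fin 3) E)) (n := 1)
    (fun m => by
      split_ifs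
      · exact isHomogeneous_zero _ _ _
      · exact isHomogeneous_X _ _)
  rwa [one_mul] at this

theorem eval_res (i : Fin 3) (x : Fin 3 → E) (hx : x i = 0) (Φ : MvPolynomial (Fin 3) E) :
    eval x (res i Φ) = eval x Φ := by
  obtain ⟨q, hq⟩ := X_dvd_sub_res i Φ
  have := congrArg (eval x) hq
  simp only [map_sub, map_mul, eval_X, hx, zero_mul] at this
  exact (sub_eq_zero.mp this).symm

theorem res_ell (i : Fin 3) (u : E) : res i (ell i u) = ell i u := by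
  fin_cases i <;> simp [res, ell]

theorem res_kS (K : Fin 3 → Matrix (Fin 2) (Fin 2) E) (γ : Fin 3 → E) (i : Fin 3) (a b : Fin 2) :
    res i (kS K γ i a b) = kS K γ i a b := by
  fin_cases i <;> simp [res, kS, kk]

theorem ell_hom (i : Fin 3) (u : E) : (ell i u).IsHomogeneous 1 := by
  exact (isHomogeneous_X _ _).add (isHomogeneous_C_mul_X _ _)

theorem ell_ne_zero (i : Fin 3) (u : E) : ell i u ≠ 0 := by
  intro h
  have := congrArg (eval (Pi.single (i + 2) 1)) h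
  fin_cases i <;> simp [ell] at this

theorem lin_hom (d : Fin 3 → E) (i : Fin 3) : (lin d i).IsHomogeneous 1 := by
  exact ((isHomogeneous_C_mul_X _ _).add (isHomogeneous_X _ _)).add (isHomogeneous_C_mul_X _ _)

theorem lin_ne_zero (d : Fin 3 → E) (i : Fin 3) : lin d i ≠ 0 := by
  intro h
  have := congrArg (eval (Pi.single (i + 1) 1)) h
  fin_cases i <;> simp [lin] at this

theorem kS_hom (K : Fin 3 → Matrix (Fin 2) (Fin 2) E) (γ : Fin 3 → E) (i : Fin 3) (a b : Fin 2) :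
    (kS K γ i a b).IsHomogeneous 1 := by
  simp only [kS, kk, Matrix.add_apply, Matrix.smul_apply, Matrix.map_apply, smul_eq_mul]
  refine IsHomogeneous.add ?_ ?_
  · rw [mul_comm]
    exact isHomogeneous_C_mul_X _ _
  · rw [mul_comm]
    exact (isHomogeneous_C_mul_X _ _).C_mul _

theorem eval_kS (K : Fin 3 → Matrix (Fin 2) (Fin 2) E) (γ x : Fin 3 → E) (i : Fin 3)
    (a b : Fin 2) : eval x (kS K γ i a b) = kk K γ x i a b := by
  simp [kS, kk]

theorem eval_ell (i : Fin 3) (u v : E) : eval (Pt i v) (ell i u) = u - v := by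
  fin_cases i <;> simp [ell, Pt] <;> ring

theorem eval_ell_start (i : Fin 3) (u : E) : eval (Pi.single (i + 1) 1) (ell i u) = u := by
  fin_cases i <;> simp [ell]

theorem eval_ell_end (i : Fin 3) (u : E) : eval (Pi.single (i + 2) 1) (ell i u) = 1 := by
  fin_cases i <;> simp [ell]

theorem eval_lin_self (d : Fin 3 → E) (i : Fin 3) (v : E) :
    eval (Pt i v) (lin d i) = 1 - d (i + 1) * d (i + 2) * v := by
  fin_cases i <;> simp [lin, Pt] <;> ring

theorem eval_lin_one (d : Fin 3 → E) (i : Fin 3) (v : E) :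
    eval (Pt i v) (lin d (i + 1)) = d i - v := by
  fin_cases i <;> simp [lin, Pt] <;> ring

theorem eval_lin_two (d : Fin 3 → E) (i : Fin 3) (v : E) :
    eval (Pt i v) (lin d (i + 2)) = d (i + 1) * (d i - v) := by
  fin_cases i <;> simp [lin, Pt] <;> ring

theorem prime_X' (i : Fin 3) : Prime (X i : MvPolynomial (Fin 3) E) :=
  prime_lin (isHomogeneous_X _ _) (X_ne_zero i)

theorem relPrime_of_eval {p q : MvPolynomial (Fin 3) E} (hp : Prime p) (x : Fin 3 → E)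
    (h1 : eval x p = 0) (h2 : eval x q ≠ 0) : IsRelPrime p q := by
  rw [hp.irreducible.isRelPrime_iff_not_dvd]
  rintro ⟨r, rfl⟩
  simp [h1] at h2

theorem prod_X_dvd {Φ : MvPolynomial (Fin 3) E} (h : ∀ i, res i Φ = 0) :
    X 0 * X 1 * X 2 ∣ Φ := by
  have h01 : IsRelPrime (X 0 : MvPolynomial (Fin 3) E) (X 1) :=
    relPrime_of_eval (prime_X' 0) (Pi.single 1 1) (by simp) (by simp)
  have h20 : IsRelPrime (X 2 : MvPolynomial (Fin 3) E) (X 0 * X 1) :=
    relPrime_of_eval (prime_X' 2) ![1, 1, 0] (by simp) (by simp)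
  exact h20.symm.mul_dvd (h01.mul_dvd ((X_dvd_iff _ _).mpr (h 0)) ((X_dvd_iff _ _).mpr (h 1)))
    ((X_dvd_iff _ _).mpr (h 2))

theorem res_res {g : MvPolynomial (Fin 3) E} {D : ℕ} (hg : g.IsHomogeneous D) (i : Fin 3) :
    res (i + 1) (res (i + 2) g) = X i ^ D * C (eval (Pi.single i 1) g) ∧
      res (i + 2) (res (i + 1) g) = X i ^ D * C (eval (Pi.single i 1) g) := by
  have h1 : aeval (fun m => (X i * C ((Pi.single i 1 : Fin 3 → E) m) : MvPolynomial (Fin 3) E)) g =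
      X i ^ D * C (eval (Pi.single i 1) g) := by
    rw [aeval_smul_hom hg]
    congr 1
    have : (aeval fun m => (C ((Pi.single i 1 : Fin 3 → E) m) : MvPolynomial (Fin 3) E)) =
        (Algebra.ofId E _).comp (aeval (Pi.single i 1 : Fin 3 → E)) := by
      ext1 m
      simp
    rw [this]
    simp [aeval_eq_eval]
  constructor <;> rw [← h1, res, res, ← AlgHom.comp_apply, comp_aeval] <;> congr 2 <;>
    ext1 m <;> fin_cases i <;> fin_cases m <;> simp

theorem res_idem (i : Fin 3) (g : MvPolynomial (Fin 3) E) : res i (res i g) = res i g := by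
  have := (X_dvd_iff i _).mp (X_dvd_sub_res i g)
  rw [map_sub] at this
  exact (sub_eq_zero.mp this).symm

theorem glue (g : Fin 3 → MvPolynomial (Fin 3) E) (D : ℕ) (hg : ∀ i, (g i).IsHomogeneous D)
    (hv : ∀ i, eval (Pi.single (i + 2) 1) (g i) = eval (Pi.single (i + 2) 1) (g (i + 1))) :
    ∃ B : MvPolynomial (Fin 3) E, B.IsHomogeneous D ∧ ∀ i, res i B = res i (g i) := by
  rcases Nat.eq_zero_or_pos D with rfl | hD
  · choose c hc using fun i => hom_zero_eq_C (hg i)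
    have h0 := hv 0
    have h1 := hv 1
    simp only [hc, eval_C] at h0 h1
    refine ⟨g 0, hg 0, fun i => ?_⟩
    rw [hc, hc]
    congr 2
    fin_cases i
    · rfl
    · exact h0
    · exact h0.trans h1
  · have h0 : eval (Pi.single 2 1) (g 0) = eval (Pi.single 2 1) (g 1) := hv 0
    have h1 : eval (Pi.single 0 1) (g 1) = eval (Pi.single 0 1) (g 2) := hv 1
    have h2 : eval (Pi.single 1 1) (g 2) = eval (Pi.single 1 1) (g 0) := hv 2
    have hX : ∀ (i : Fin 3) (c : E), (X i ^ D * C c : MvPolynomial (Fin 3) E).IsHomogeneous D :=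
      fun i c => by
        rw [mul_comm]
        exact isHomogeneous_C_mul_X_pow _ _ _
    refine ⟨res 0 (g 0) + res 1 (g 1) + res 2 (g 2) - X 0 ^ D * C (eval (Pi.single 0 1) (g 1)) -
      X 1 ^ D * C (eval (Pi.single 1 1) (g 2)) - X 2 ^ D * C (eval (Pi.single 2 1) (g 0)),
      (((((res_hom _ (hg 0)).add (res_hom _ (hg 1))).add (res_hom _ (hg 2))).sub
        (hX _ _)).sub (hX _ _)).sub (hX _ _), fun i => ?_⟩
    have a0 : res 1 (res 2 (g 2)) = _ := (res_res (hg 2) 0).1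
    have a1 : res 2 (res 1 (g 1)) = _ := (res_res (hg 1) 0).2
    have b0 : res 2 (res 0 (g 0)) = _ := (res_res (hg 0) 1).1
    have b1 : res 0 (res 2 (g 2)) = _ := (res_res (hg 2) 1).2
    have c0 : res 0 (res 1 (g 1)) = _ := (res_res (hg 1) 2).1
    have c1 : res 1 (res 0 (g 0)) = _ := (res_res (hg 0) 2).2
    have hr : ∀ (i m : Fin 3) (c : E), res i (X m ^ D * C c) =
        if m = i then 0 else X m ^ D * C c := by
      intro i m c
      split_ifs with h <;> simp [res, h, hD.ne']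
    simp only [map_sub, map_add, hr]
    fin_cases i
    · simp only [Fin.zero_eta, res_idem, b1, c0, h0]
      simp
    · simp only [Fin.mk_one, res_idem, a0, c1, h1]
      simp
    · simp only [Fin.reduceFinMk, res_idem, a1, b0, h2]
      simp
      ring

end

variable {Φ : S3} {D : ℕ}

theorem ell_pow_dvd {i : Fin 3} {u : ℂ} {n : ℕ} (h : Mult n (Pt i u) Φ) :
    ell i u ^ n ∣ res i Φ := by
  have := h.spec (X (i + 1) : S3) (ell i u) (Pi.single (i + 2) 1)
  have e : (fun m => algebraMap ℂ S3 (Pt i u m) * X (i + 1) +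
      ell i u * (Pi.single (i + 2) 1 : Fin 3 → S3) m) = fun m => if m = i then 0 else X m := by
    ext1 m
    fin_cases i <;> fin_cases m <;> simp [Pt, ell]
  rwa [e] at this

theorem ell_relPrime (i : Fin 3) {u v : ℂ} (h : u ≠ v) : IsRelPrime (ell i u) (ell i v) :=
  relPrime_of_eval (prime_lin (ell_hom i u) (ell_ne_zero i u)) (Pt i u)
    (by rw [eval_ell, sub_self]) (by rw [eval_ell]; exact sub_ne_zero.mpr h.symm)

theorem prod_ell_hom (i : Fin 3) (u : Fin 4 → ℂ) (n : Fin 4 → ℕ) :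
    (∏ t, ell i (u t) ^ n t).IsHomogeneous (∑ t, n t) :=
  IsHomogeneous.prod _ _ _ fun t _ => by simpa using (ell_hom i (u t)).pow (n t)

theorem prod_ell_ne_zero (i : Fin 3) (u : Fin 4 → ℂ) (n : Fin 4 → ℕ) :
    ∏ t, ell i (u t) ^ n t ≠ 0 :=
  Finset.prod_ne_zero_iff.mpr fun t _ => pow_ne_zero _ (ell_ne_zero _ _)

theorem prod_ell_dvd {i : Fin 3} {u : Fin 4 → ℂ} (hu : Function.Injective u) (n : Fin 4 → ℕ)
    (h : ∀ t, Mult (n t) (Pt i (u t)) Φ) : ∏ t, ell i (u t) ^ n t ∣ res i Φ := by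
  refine Finset.prod_dvd_of_isRelPrime (fun t _ t' _ htt => ?_) fun t _ => ell_pow_dvd (h t)
  exact (ell_relPrime i fun h => htt (hu h)).pow

theorem side_le {i : Fin 3} {u : Fin 4 → ℂ} (hu : Function.Injective u) (n : Fin 4 → ℕ)
    (hΦ : Φ.IsHomogeneous D) (h0 : res i Φ ≠ 0) (h : ∀ t, Mult (n t) (Pt i (u t)) Φ) :
    ∑ t, n t ≤ D := by
  obtain ⟨q, hq⟩ := prod_ell_dvd hu n h
  have h1 := res_hom i hΦ
  rw [hq] at h1 h0
  exact (hom_quot (prod_ell_hom i u n) (prod_ell_ne_zero i u n) h1).2 (right_ne_zero_of_mul h0)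

theorem side_eq {i : Fin 3} {u : Fin 4 → ℂ} (hu : Function.Injective u) (n : Fin 4 → ℕ)
    (hΦ : Φ.IsHomogeneous D) (hD : ∑ t, n t = D) (h : ∀ t, Mult (n t) (Pt i (u t)) Φ) :
    ∃ c : ℂ, res i Φ = C c * ∏ t, ell i (u t) ^ n t := by
  obtain ⟨q, hq⟩ := prod_ell_dvd hu n h
  have h1 := res_hom i hΦ
  rw [hq] at h1
  have h2 := (hom_quot (prod_ell_hom i u n) (prod_ell_ne_zero i u n) h1).1
  rw [hD, Nat.sub_self] at h2
  obtain ⟨c, rfl⟩ := hom_zero_eq_C h2
  exact ⟨c, by rw [hq, mul_comm]⟩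

theorem not_mult_of_res {i : Fin 3} {u : Fin 4 → ℂ} (hu : Function.Injective u) (n : Fin 4 → ℕ)
    {c : ℂ} (hc : c ≠ 0) (h : res i Φ = C c * ∏ t, ell i (u t) ^ n t) (t : Fin 4) :
    ¬ Mult (n t + 1) (Pt i (u t)) Φ := by
  intro h1
  have h2 := ell_pow_dvd h1
  rw [h, ← Finset.mul_prod_erase _ _ (Finset.mem_univ t), mul_left_comm, pow_succ,
    mul_dvd_mul_iff_left (pow_ne_zero _ (ell_ne_zero _ _))] at h2
  obtain ⟨q, hq⟩ := h2
  have h3 := congrArg (eval (Pt i (u t))) hq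
  simp only [map_mul, eval_C, map_prod, map_pow, eval_ell, sub_self, zero_mul, mul_eq_zero, hc,
    false_or, Finset.prod_eq_zero_iff] at h3
  obtain ⟨t', ht', h4⟩ := h3
  exact (Finset.ne_of_mem_erase ht') (hu (sub_eq_zero.mp (pow_eq_zero_iff
    (by rintro h5; simp [h5] at h4) |>.mp h4)))

theorem lin_dvd (d : Fin 3 → ℂ) (i : Fin 3) {n n' : ℕ} (hΦ : Φ.IsHomogeneous D)
    (h1 : Mult n (Pt (i + 1) (d (i + 1))) Φ) (h2 : Mult n' (Pt (i + 2) (d (i + 2))) Φ)
    (hD : D < n + n') : lin d i ∣ Φ := by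
  let μ : S3 := X (i + 2)
  let ν : S3 := X i + C (d (i + 1)) * X (i + 2)
  let f : Fin 3 → S3 := fun m => C (Pt (i + 1) (d (i + 1)) m) * μ +
    ν * C (Pt (i + 2) (d (i + 2)) m)
  have hμ : μ.IsHomogeneous 1 := isHomogeneous_X _ _
  have hν : ν.IsHomogeneous 1 := (isHomogeneous_X _ _).add (isHomogeneous_C_mul_X _ _)
  have e1 : ν ^ n ∣ aeval f Φ := h1.spec μ ν _
  have e2 : μ ^ n' ∣ aeval f Φ := by
    have := h2.spec ν μ fun m => C (Pt (i + 1) (d (i + 1)) m)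
    have e : (fun m => algebraMap ℂ S3 (Pt (i + 2) (d (i + 2)) m) * ν +
        μ * C (Pt (i + 1) (d (i + 1)) m)) = f := by
      ext1 m
      simp only [f, algebraMap_eq]
      ring
    rwa [e] at this
  have hr : IsRelPrime μ ν := relPrime_of_eval (prime_X' _) (Pi.single i 1)
    (by fin_cases i <;> simp [μ]) (by fin_cases i <;> simp [ν])
  have hν0 : ν ≠ 0 := by
    intro h
    have := congrArg (eval (Pi.single i 1)) h
    fin_cases i <;> simp [ν] at this
  obtain ⟨q, hq⟩ := (hr.symm.pow (m := n) (n := n')).mul_dvd e1 e2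
  have hf : (aeval f Φ).IsHomogeneous D := by
    have := hΦ.aeval f (n := 1) fun m => (hμ.C_mul _).add (by rw [mul_comm]; exact hν.C_mul _)
    rwa [one_mul] at this
  have hz : aeval f Φ = 0 := by
    have h3 := hf
    rw [hq] at h3
    have h4 : (ν ^ n * μ ^ n').IsHomogeneous (n + n') := by
      simpa using (hν.pow n).mul (hμ.pow n')
    have h5 := (hom_quot h4 (mul_ne_zero (pow_ne_zero _ hν0) (pow_ne_zero _ (X_ne_zero _))) h3).2
    have : q = 0 := by
      by_contra h6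
      exact absurd (h5 h6) (by omega)
    rw [hq, this, mul_zero]
  have := dvd_aeval_sub (lin d i) X f (fun m => ?_) Φ
  · rwa [hz, sub_zero, aeval_X_left_apply] at this
  · by_cases hm : m = i + 1
    · refine ⟨1, ?_⟩
      subst hm
      fin_cases i <;> simp [f, μ, ν, Pt, lin] <;> ring
    · refine ⟨0, ?_⟩
      fin_cases i <;> fin_cases m <;> simp [f, μ, ν, Pt] at hm ⊢

end Pool.Agent.GM16
end

-- merged part: Pool.Agent.Work.MP_274aea_ag.Scalar
section
set_option autoImplicit false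

open MvPolynomial Matrix

namespace Pool.Agent.GM16

theorem Scalar_base (F G : S3) {B : S3} {e : ℕ} (hB : B.IsHomogeneous e) :
    aeval ![F, G * X 0, G * X 1, G * X 2] (rename Fin.succ B : S4) = G ^ e * B := by
  rw [aeval_rename]
  have : (![F, G * X 0, G * X 1, G * X 2] ∘ Fin.succ : Fin 3 → S3) = fun i => G * X i := by
    funext i
    fin_cases i <;> rfl
  rw [this, aeval_smul_hom hB, aeval_X_left_apply]

theorem Scalar_tri (i : Fin 3) {u : ℂ} (hu : u ≠ 0) :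
    ¬ Mult (1 + 1) (Pt i u) (X 0 * X 1 * X 2 : S3) := by
  have h0 : ¬ Mult (1 + 1) (Pt i u) (X i : S3) := not_mult_two (isHomogeneous_X _ _) (X_ne_zero i)
  have h1 : ¬ Mult (0 + 1) (Pt i u) (X (i + 1) : S3) :=
    not_mult_one (by fin_cases i <;> simp [Pt])
  have h2 : ¬ Mult (0 + 1) (Pt i u) (X (i + 2) : S3) :=
    not_mult_one (by fin_cases i <;> simp [Pt, hu])
  have h3 := not_mult_mul (not_mult_mul h0 h1) h2
  have e : (X i * X (i + 1) * X (i + 2) : S3) = X 0 * X 1 * X 2 := by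
    fin_cases i <;> simp <;> ring
  rwa [e] at h3

theorem Scalar_step (u : Fin 3 → Fin 4 → ℂ) (hu : ∀ i, Function.Injective (u i))
    (F : S3) (hF : F.IsHomogeneous 4) (f : Fin 3 → ℂ)
    (hf : ∀ i, f i ≠ 0) (hres : ∀ i, res i F = C (f i) * ∏ t, ell i (u i t)) (k e : ℕ) (Φ : S3)
    (hΦ : Φ.IsHomogeneous (4 * k + e)) (hm : ∀ i t, Mult k (Pt i (u i t)) Φ) :
    ∃ B : S3, B.IsHomogeneous e ∧ X 0 * X 1 * X 2 ∣ Φ - F ^ k * B := by
  have hF0 : ∀ i, res i F ≠ 0 := fun i => by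
    rw [hres]
    exact mul_ne_zero (by simpa using hf i) (Finset.prod_ne_zero_iff.mpr fun t _ => ell_ne_zero _ _)
  have h1 : ∀ i, ∃ g : S3, g.IsHomogeneous e ∧ res i Φ = res i F ^ k * g := fun i => by
    obtain ⟨q, hq⟩ := prod_ell_dvd (hu i) (fun _ => k) (hm i)
    have h2 : res i Φ = res i F ^ k * (C ((f i)⁻¹ ^ k) * q) := by
      rw [hq, hres, mul_pow, Finset.prod_pow, mul_mul_mul_comm, ← map_pow, ← map_mul, ← mul_pow,
        mul_inv_cancel₀ (hf i), one_pow, map_one, one_mul]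
    have h3 := res_hom i hΦ
    rw [h2] at h3
    have h4 := (hom_quot ((res_hom i hF).pow k) (pow_ne_zero _ (hF0 i)) h3).1
    rw [Nat.add_sub_cancel_left] at h4
    exact ⟨_, h4, h2⟩
  choose g hg hq using h1
  obtain ⟨B, hB, hr⟩ := glue g e hg fun i => by
    have a0 : (Pi.single (i + 2) 1 : Fin 3 → ℂ) i = 0 := by fin_cases i <;> simp
    have a1 : (Pi.single (i + 2) 1 : Fin 3 → ℂ) (i + 1) = 0 := by fin_cases i <;> simp
    have b0 := congrArg (eval (Pi.single (i + 2) 1)) (hq i)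
    have b1 := congrArg (eval (Pi.single (i + 2) 1)) (hq (i + 1))
    rw [map_mul, map_pow, eval_res _ _ a0, eval_res _ _ a0] at b0
    rw [map_mul, map_pow, eval_res _ _ a1, eval_res _ _ a1] at b1
    have b2 : eval (Pi.single (i + 2) 1) F ≠ 0 := by
      rw [← eval_res _ _ a0, hres]
      simpa [eval_ell_end] using hf i
    exact mul_left_cancel₀ (pow_ne_zero k b2) (b0.symm.trans b1)
  refine ⟨B, hB, prod_X_dvd fun i => ?_⟩
  rw [map_sub, map_mul, map_pow, hr, ← res_idem i Φ, hq, map_mul, map_pow, res_idem, sub_self]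

theorem Scalar_gen (u : Fin 3 → Fin 4 → ℂ) (hu : ∀ i, Function.Injective (u i))
    (hu0 : ∀ i t, u i t ≠ 0) (F : S3) (hF : F.IsHomogeneous 4) (f : Fin 3 → ℂ)
    (hf : ∀ i, f i ≠ 0) (hres : ∀ i, res i F = C (f i) * ∏ t, ell i (u i t)) (G : S3) (c : ℂ)
    (hc : c ≠ 0) (hG : G = C c * (X 0 * X 1 * X 2)) (k : ℕ) : ∀ (e : ℕ) (Φ : S3),
    Φ.IsHomogeneous (4 * k + e) → (∀ i t, Mult k (Pt i (u i t)) Φ) →
    ∃ y : S4, y.IsHomogeneous (k + e) ∧ aeval ![F, G * X 0, G * X 1, G * X 2] y = G ^ e * Φ := by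
  induction k with
  | zero =>
    intro e Φ hΦ _
    rw [mul_zero, zero_add] at hΦ
    exact ⟨rename Fin.succ Φ, by rw [zero_add]; exact hΦ.rename_isHomogeneous, Scalar_base F G hΦ⟩
  | succ k ih =>
    intro e Φ hΦ hm
    obtain ⟨B, hB, q, hq⟩ := Scalar_step u hu F hF f hf hres (k + 1) e Φ hΦ hm
    have hX : (X 0 * X 1 * X 2 : S3).IsHomogeneous (1 + 1 + 1) :=
      ((isHomogeneous_X _ _).mul (isHomogeneous_X _ _)).mul (isHomogeneous_X _ _)
    have h1 : (Φ - F ^ (k + 1) * B).IsHomogeneous (4 * (k + 1) + e) :=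
      hΦ.sub ((hF.pow (k + 1)).mul hB)
    rw [hq] at h1
    have h2 := (hom_quot hX (mul_ne_zero (mul_ne_zero (X_ne_zero _) (X_ne_zero _))
      (X_ne_zero _)) h1).1
    have e1 : 4 * (k + 1) + e - (1 + 1 + 1) = 4 * k + (e + 1) := by omega
    rw [e1] at h2
    have h3 : ∀ i t, Mult k (Pt i (u i t)) (C c⁻¹ * q) := fun i t => by
      have a0 : Pt i (u i t) i = 0 := by fin_cases i <;> simp [Pt]
      have a1 : Mult 1 (Pt i (u i t)) F := mult_one_of_hom hF (by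
        rw [← eval_res _ _ a0, hres, map_mul, map_prod,
          Finset.prod_eq_zero (Finset.mem_univ t) (by rw [eval_ell, sub_self]), mul_zero])
      have a2 := (a1.pow (k + 1)).mul_right B
      rw [mul_one] at a2
      have a3 := (hm i t).sub a2
      rw [hq] at a3
      exact (a3.cancel (Scalar_tri i (hu0 i t))).mul_left _
    obtain ⟨y, hy, hy'⟩ := ih (e + 1) _ (h2.C_mul c⁻¹) h3
    refine ⟨X 0 ^ (k + 1) * rename Fin.succ B + y, ?_, ?_⟩
    · refine IsHomogeneous.add ?_ ?_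
      · simpa using ((isHomogeneous_X ℂ (0 : Fin 4)).pow (k + 1)).mul
          (hB.rename_isHomogeneous (f := Fin.succ))
      · rwa [show k + 1 + e = k + (e + 1) by omega]
    · have h4 : G * (C c⁻¹ * q) = Φ - F ^ (k + 1) * B := by
        rw [hq, hG, mul_mul_mul_comm, ← map_mul, mul_inv_cancel₀ hc, map_one, one_mul]
      rw [map_add, map_mul, map_pow, aeval_X, Scalar_base F G hB, hy', pow_succ G, mul_assoc, h4]
      simp only [cons_val_zero]
      ring

theorem scalar (u : Fin 3 → Fin 4 → ℂ) (hu : ∀ i, Function.Injective (u i))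
    (hu0 : ∀ i t, u i t ≠ 0) (F : S3) (hF : F.IsHomogeneous 4) (f : Fin 3 → ℂ)
    (hf : ∀ i, f i ≠ 0) (hres : ∀ i, res i F = C (f i) * ∏ t, ell i (u i t)) (G : S3) (c : ℂ)
    (hc : c ≠ 0) (hG : G = C c * (X 0 * X 1 * X 2)) (k : ℕ) (Φ : S3)
    (hΦ : Φ.IsHomogeneous (4 * k)) (hm : ∀ i t, Mult k (Pt i (u i t)) Φ) :
    ∃ y : S4, y.IsHomogeneous k ∧ aeval ![F, G * X 0, G * X 1, G * X 2] y = Φ := by
  obtain ⟨y, hy, hy'⟩ := Scalar_gen u hu hu0 F hF f hf hres G c hc hG k 0 Φ hΦ hm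
  exact ⟨y, hy, by rw [hy', pow_zero, one_mul]⟩

end Pool.Agent.GM16
end

-- merged part: Pool.Agent.Work.MP_274aea_ag.Cremona
section
set_option autoImplicit false

open MvPolynomial Matrix

namespace Pool.Agent.GM16

theorem Cremona_cases (i j : Fin 3) : j = i ∨ j = i + 1 ∨ j = i + 2 := by
  revert i j
  decide

theorem Cremona_Pt0 (i : Fin 3) (u : ℂ) : Pt i u i = 0 := by
  fin_cases i <;> simp [Pt]

theorem Cremona_Pt1 (i : Fin 3) (u : ℂ) : Pt i u (i + 1) = 1 := by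
  fin_cases i <;> simp [Pt]

theorem Cremona_Pt2 (i : Fin 3) (u : ℂ) : Pt i u (i + 2) = -u := by
  fin_cases i <;> simp [Pt]

theorem Cremona_C {A : Fin 3 → ℂ} (hA : ∀ i, A i ≠ 0) (i : Fin 3) :
    (C (A i) * C (A i)⁻¹ : S3) = 1 := by
  rw [← map_mul, mul_inv_cancel₀ (hA i), map_one]

/-- The quadratic map modulo one of the three lines. -/
theorem Cremona_mod (A : Fin 3 → ℂ) (hA : ∀ i, A i ≠ 0) (i : Fin 3) :
    (fun j => algebraMap ℂ S3 (Pt i (A i) j) * (X (i + 1) * lin (fun i => (A (i + 1))⁻¹) (i + 1)) +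
      lin (fun i => (A (i + 1))⁻¹) i * if j = i then X i else if j = i + 1 then 0
        else C (A i * (A (i + 1))⁻¹) * X (i + 1) + C (A i) * X (i + 2)) =
    fun j => X j * lin (fun i => (A (i + 1))⁻¹) j := by
  have h := Cremona_C hA i
  ext1 j
  rcases Cremona_cases i j with rfl | rfl | rfl
  · simp [Cremona_Pt0, mul_comm]
  · have : i + 1 ≠ i := by fin_cases i <;> simp
    simp [Cremona_Pt1, this]
  · fin_cases i <;> simp [Pt, lin] at h ⊢
    · linear_combination (X 0 * X 2 + C (A 2)⁻¹ * X 2 ^ 2 + C (A 2)⁻¹ * C (A 1)⁻¹ * X 1 * X 2) * h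
    · linear_combination (X 1 * X 0 + C (A 0)⁻¹ * X 0 ^ 2 + C (A 0)⁻¹ * C (A 2)⁻¹ * X 2 * X 0) * h
    · linear_combination (X 2 * X 1 + C (A 1)⁻¹ * X 1 ^ 2 + C (A 1)⁻¹ * C (A 0)⁻¹ * X 0 * X 1) * h

theorem Cremona_inj (A : Fin 3 → ℂ) (hA : ∀ i, A i ≠ 0) {Φ : S3} {D : ℕ}
    (hΦ : Φ.IsHomogeneous D) (h0 : Φ ≠ 0) :
    aeval (fun i => (X i * lin (fun i => (A (i + 1))⁻¹) i : S3)) Φ ≠ 0 := by
  intro h
  have h1 := congrArg (aeval fun i => (C (A i) * (X i * lin A i) : S3)) h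
  have e : (fun i => aeval (fun i => (C (A i) * (X i * lin A i) : S3))
      (X i * lin (fun i => (A (i + 1))⁻¹) i : S3)) =
      fun i => lin A 0 * lin A 1 * lin A 2 * X i := by
    have a0 := Cremona_C hA 0
    have a1 := Cremona_C hA 1
    have a2 := Cremona_C hA 2
    have key : ∀ x y z a b c a' c' : S3, a * a' = 1 → c * c' = 1 →
        a * (x * (c * x + y + b * c * z)) * (a' * (a * (x * (c * x + y + b * c * z))) +
          b * (y * (a * y + z + c * a * x)) + c' * a' * (c * (z * (b * z + x + a * b * y)))) =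
        (c * x + y + b * c * z) * (a * y + z + c * a * x) * (b * z + x + a * b * y) * x := by
      intro x y z a b c a' c' h1 h2
      linear_combination (x * (c * x + y + b * c * z) * (a * x * (c * x + y + b * c * z) +
        c * c' * z * (b * z + x + a * b * y))) * h1 +
        (x * (c * x + y + b * c * z) * z * (b * z + x + a * b * y)) * h2
    ext1 i
    fin_cases i
    · simpa [lin] using key (X 0) (X 1) (X 2) _ (C (A 1)) _ _ _ a0 a2
    · simp [lin]
      linear_combination key (X 1) (X 2) (X 0) _ (C (A 2)) _ _ _ a1 a0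
    · simp [lin]
      linear_combination key (X 2) (X 0) (X 1) _ (C (A 0)) _ _ _ a2 a1
  rw [← AlgHom.comp_apply, comp_aeval, e, aeval_smul_hom hΦ, aeval_X_left_apply, map_zero] at h1
  exact mul_ne_zero (pow_ne_zero _ (mul_ne_zero (mul_ne_zero (lin_ne_zero _ _)
    (lin_ne_zero _ _)) (lin_ne_zero _ _))) h0 h1

theorem Cremona_ne {A B : Fin 3 → ℂ} (hA : ∀ i, A i ≠ 0)
    (h : ∀ (x y : Fin 3 → ℤ) (d : ℤ), (∀ i, x i + y i = d) → ∏ i, (A i ^ x i * B i ^ y i) = 1 →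
      ∀ i, y i = y 0) (i : Fin 3) : B i ≠ A i ∧ A (i + 1) * A (i + 2) * B i ≠ 1 := by
  have h0 : ¬ ∀ j, (Pi.single i 1 : Fin 3 → ℤ) j = (Pi.single i 1 : Fin 3 → ℤ) 0 := by
    revert i
    decide
  refine ⟨fun e => h0 (h (-Pi.single i 1) _ 0 (by simp) ?_),
    fun e => h0 (h (1 - Pi.single i 1) _ 1 (by simp) ?_)⟩
  · have := hA i
    fin_cases i <;> simp [Fin.prod_univ_three] at e this ⊢ <;> rw [e] <;> field_simp
  · fin_cases i <;> simp [Fin.prod_univ_three] at e ⊢ <;> linear_combination e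

theorem Cremona_inv {A B D : Fin 3 → ℂ} (h : Inv9 A B D) :
    Inv9 (fun i => A (i + 2) * B i) (fun i => A (i + 2) * D i) fun i => (A (i + 1))⁻¹ := by
  refine ⟨fun i => ⟨mul_ne_zero (h.1 _).1 (h.1 _).2.1, mul_ne_zero (h.1 _).1 (h.1 _).2.2,
    inv_ne_zero (h.1 _).1⟩, fun x y z d h1 h2 => ?_⟩
  have a0 := h1 0
  have a1 := h1 1
  have a2 := h1 2
  obtain ⟨h3, h4⟩ := h.2 (fun j => x (j + 1) + y (j + 1) + -z (j + 2)) x y
    (2 * d - (z 0 + z 1 + z 2)) (fun j => by fin_cases j <;> simp <;> omega) (by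
      rw [← h2]
      simp only [Fin.prod_univ_three, zpow_add₀ (h.1 _).1, mul_zpow, _root_.inv_zpow']
      simp
      ring)
  have b1 := (h3 1).2
  have b2 := (h3 2).2
  refine ⟨fun i => ⟨(h3 i).2.1, (h3 i).2.2, ?_⟩, by omega⟩
  have := h1 i
  have := (h3 i).2
  omega

theorem cremona_step (A : Fin 3 → ℂ) (hA : ∀ i, A i ≠ 0) (hA1 : A 0 * A 1 * A 2 ≠ 1) {Φ : S3}
    {D m : ℕ} (hΦ : Φ.IsHomogeneous D) (h0 : Φ ≠ 0) (hm : ∀ i, Mult m (Pt i (A i)) Φ) :
    ∃ Φ' : S3, Φ' ≠ 0 ∧ 3 * m ≤ 2 * D ∧ Φ'.IsHomogeneous (2 * D - 3 * m) ∧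
      (∀ i, Mult (D - 2 * m) (Pt i (A (i + 1))⁻¹) Φ') ∧
      ∀ (i : Fin 3) (B : ℂ) (n : ℕ), B ≠ A i → A (i + 1) * A (i + 2) * B ≠ 1 →
        Mult n (Pt i B) Φ → Mult n (Pt i (A (i + 2) * B)) Φ' := by
  let E : Fin 3 → ℂ := fun i => (A (i + 1))⁻¹
  let σ : Fin 3 → S3 := fun i => X i * lin E i
  have hσ : ∀ i, (σ i).IsHomogeneous 2 := fun i => (isHomogeneous_X _ _).mul (lin_hom E i)
  have hE : ∀ i, 1 - E (i + 1) * E (i + 2) * E i ≠ 0 := fun i h => by
    have a0 := hA 0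
    have a1 := hA 1
    have a2 := hA 2
    apply hA1
    fin_cases i <;> simp [E] at h <;> field_simp at h <;> linear_combination h
  have hd : ∀ i, lin E i ^ m ∣ aeval σ Φ := fun i => by
    have := (hm i).spec (σ (i + 1)) (lin E i) fun j => if j = i then X i else if j = i + 1 then 0
      else C (A i * E i) * X (i + 1) + C (A i) * X (i + 2)
    rwa [Cremona_mod A hA i] at this
  have hr : ∀ i, IsRelPrime (lin E (i + 1)) (lin E i) ∧ IsRelPrime (lin E (i + 2)) (lin E i) :=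
    fun i => ⟨relPrime_of_eval (prime_lin (lin_hom _ _) (lin_ne_zero _ _)) (Pt i (E i))
      (by rw [eval_lin_one, sub_self]) (by rw [eval_lin_self]; exact hE i),
      relPrime_of_eval (prime_lin (lin_hom _ _) (lin_ne_zero _ _)) (Pt i (E i))
      (by rw [eval_lin_two, sub_self, mul_zero]) (by rw [eval_lin_self]; exact hE i)⟩
  have hdd : (lin E 0 * lin E 1 * lin E 2) ^ m ∣ aeval σ Φ := by
    rw [mul_pow, mul_pow]
    exact (((hr 2).1.pow.mul_left (hr 2).2.pow)).mul_dvd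
      ((hr 0).1.symm.pow.mul_dvd (hd 0) (hd 1)) (hd 2)
  obtain ⟨Φ', e⟩ := hdd
  have hL : ∀ i : Fin 3, lin E 0 * lin E 1 * lin E 2 = lin E i * lin E (i + 1) * lin E (i + 2) :=
    fun i => by fin_cases i <;> simp <;> ring
  have h1 : Φ' ≠ 0 := fun h => Cremona_inj A hA hΦ h0 (by
    change aeval σ Φ = 0
    rw [e, h, mul_zero])
  have h2 : (aeval σ Φ).IsHomogeneous (2 * D) := hΦ.aeval σ hσ
  have h3 : ((lin E 0 * lin E 1 * lin E 2) ^ m).IsHomogeneous (3 * m) :=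
    (((lin_hom E 0).mul (lin_hom E 1)).mul (lin_hom E 2)).pow m
  rw [e] at h2
  obtain ⟨h4, h5⟩ := hom_quot h3 (pow_ne_zero _ (mul_ne_zero (mul_ne_zero (lin_ne_zero _ _)
    (lin_ne_zero _ _)) (lin_ne_zero _ _))) h2
  refine ⟨Φ', h1, h5 h1, h4, fun i => ?_, fun i B n b1 b2 hn => ?_⟩
  · have a1 : Mult D (Pt i (E i)) (aeval σ Φ) :=
      mult_aeval_of_hom hΦ σ fun j => mult_one_of_hom (hσ j) (by
        rcases Cremona_cases i j with rfl | rfl | rfl
        · simp only [σ, map_mul, eval_X, Cremona_Pt0, zero_mul]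
        · simp only [σ, map_mul, eval_lin_one, sub_self, mul_zero]
        · simp only [σ, map_mul, eval_lin_two, sub_self, mul_zero])
    have c0 : ¬ Mult (0 + 1) (Pt i (E i)) (lin E i) :=
      not_mult_one (by rw [eval_lin_self]; exact hE i)
    have c1 : ∀ j, ¬ Mult (1 + 1) (Pt i (E i)) (lin E j) := fun j =>
      not_mult_two (lin_hom _ _) (lin_ne_zero _ _)
    have a2 := not_mult_mul (not_mult_mul c0 (c1 (i + 1))) (c1 (i + 2))
    rw [← hL i] at a2
    rw [e] at a1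
    exact (a1.cancel (not_mult_pow a2 m)).mono (by omega)
  · have e1 : E (i + 1) * A (i + 2) = 1 := by
      simp only [E, add_assoc]
      exact inv_mul_cancel₀ (hA _)
    have e2 : E (i + 2) * A i = 1 := by
      have : i + 2 + 1 = i := by fin_cases i <;> rfl
      simp only [E, this]
      exact inv_mul_cancel₀ (hA _)
    have e3 : E i * A (i + 1) = 1 := inv_mul_cancel₀ (hA _)
    have n1 : E i - A (i + 2) * B ≠ 0 := fun h => b2 (by
      linear_combination e3 - A (i + 1) * h)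
    have n2 : 1 - E (i + 1) * E (i + 2) * (A (i + 2) * B) ≠ 0 := fun h => b1 (by
      linear_combination (-A i) * h - B * e2 - (A i * E (i + 2) * B) * e1)
    have a1 : Mult n (Pt i (A (i + 2) * B)) (aeval σ Φ) :=
      mult_comp σ hσ (E i - A (i + 2) * B) (fun j => by
        rcases Cremona_cases i j with rfl | rfl | rfl
        · simp only [σ, map_mul, eval_X, Cremona_Pt0, zero_mul, mul_zero]
        · simp only [σ, map_mul, eval_X, Cremona_Pt1, eval_lin_one, one_mul, mul_one]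
        · simp only [σ, map_mul, eval_X, Cremona_Pt2, eval_lin_two]
          linear_combination (-B * (E i - A (i + 2) * B)) * e1) hn
    rw [e] at a1
    refine a1.cancel (k := 0) (not_mult_one ?_)
    rw [hL i, map_pow, map_mul, map_mul, eval_lin_self, eval_lin_one, eval_lin_two]
    exact pow_ne_zero _ (mul_ne_zero (mul_ne_zero n2 n1)
      (mul_ne_zero (left_ne_zero_of_mul_eq_one e1) n1))

theorem van9 (k : ℕ) (A B D : Fin 3 → ℂ) (h : Inv9 A B D) {Φ : S3}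
    (hΦ : Φ.IsHomogeneous (3 * k))
    (hm : ∀ i, Mult (k + 1) (Pt i (A i)) Φ ∧ Mult k (Pt i (B i)) Φ ∧
      Mult (k - 1) (Pt i (D i)) Φ) : Φ = 0 := by
  induction k generalizing A B D Φ with
  | zero =>
    obtain ⟨c, rfl⟩ := hom_zero_eq_C hΦ
    by_contra h0
    exact not_mult_one (by simpa using h0) (hm 0).1
  | succ k ih =>
    by_contra h0
    have hA : ∀ i, A i ≠ 0 := fun i => (h.1 i).1
    have h1 : A 0 * A 1 * A 2 ≠ 1 := fun e => by
      have := (h.2 1 0 0 1 (by simp) (by simpa [Fin.prod_univ_three] using e)).2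
      omega
    have hB := Cremona_ne hA fun x y d h2 h3 i =>
      ((h.2 x y 0 d (by simpa using h2) (by simpa using h3)).1 i).2.1
    have hD := Cremona_ne hA fun x y d h2 h3 i =>
      ((h.2 x 0 y d (by simpa using h2) (by simpa using h3)).1 i).2.2
    obtain ⟨Φ', a1, -, a3, a4, a5⟩ := cremona_step A hA h1 hΦ h0 fun i => (hm i).1
    refine a1 (ih _ _ _ (Cremona_inv h) (by rwa [show 3 * k = 2 * (3 * (k + 1)) - 3 * (k + 1 + 1) by
      omega]) fun i => ⟨a5 i _ _ (hB i).1 (hB i).2 (hm i).2.1, a5 i _ _ (hD i).1 (hD i).2 (hm i).2.2,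
        (a4 i).mono (by omega)⟩)

theorem vanD1 {r : ℕ} (hr : 1 ≤ r) {u : Fin 3 → Fin 4 → ℂ} (hu : ∀ i t, u i t ≠ 0)
    (h : RelOK r u) {Φ : S3} (hΦ : Φ.IsHomogeneous (6 * r))
    (hm : ∀ i, Mult (2 * r + 1) (Pt i (u i 0)) Φ ∧ Mult (2 * r - 1) (Pt i (u i 1)) Φ ∧
      Mult (2 * r) (Pt i (u i 2)) Φ) : Φ = 0 := by
  have _ := hr
  refine van9 (2 * r) (fun i => u i 0) (fun i => u i 2) (fun i => u i 1)
    ⟨fun i => ⟨hu _ _, hu _ _, hu _ _⟩, fun x y z d h1 h2 => ?_⟩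
    (by rwa [show 3 * (2 * r) = 6 * r by ring]) fun i => ⟨(hm i).1, (hm i).2.2, (hm i).2.1⟩
  obtain ⟨a, b, hab⟩ := h (fun i => ![x i, z i, y i, 0]) (by
    rw [← h2]
    refine Finset.prod_congr rfl fun i _ => ?_
    simp [Fin.prod_univ_four]
    ring)
  simp only [Matrix.cons_val] at hab
  refine ⟨fun i => ⟨(hab i).1.trans (hab 0).1.symm, (hab i).2.2.1.trans (hab 0).2.2.1.symm,
    (hab i).2.1.trans (hab 0).2.1.symm⟩, b * (2 * r), ?_⟩
  obtain ⟨b1, b2, b3, b4⟩ := hab 0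
  rw [← h1 0, b1, b2, b3, ← b4]
  ring

theorem vanD2 {r : ℕ} (hr : 1 ≤ r) {u : Fin 3 → Fin 4 → ℂ} (hu : ∀ i t, u i t ≠ 0)
    (h : RelOK r u) {Φ : S3} (hΦ : Φ.IsHomogeneous (6 * r))
    (hm : ∀ i, Mult (r - 1) (Pt i (u i 0)) Φ ∧ Mult (r + 1) (Pt i (u i 1)) Φ ∧
      Mult r (Pt i (u i 2)) Φ ∧ Mult (3 * r) (Pt i (u i 3)) Φ) : Φ = 0 := by
  have _ := hr
  by_contra h0
  have hA : ∀ i, u i 3 ≠ 0 := fun i => hu i 3
  have key : ∀ x y z w : Fin 3 → ℤ,
      ∏ i, (u i 3 ^ w i * (u i 1 ^ x i * u i 2 ^ y i * u i 0 ^ z i)) = 1 → ∃ a b : ℤ, ∀ i,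
      z i = a + b * (2 * r + 1) ∧ x i = a + b * (2 * r - 1) ∧ y i = a + b * (2 * r) ∧ w i = a :=
    fun x y z w h2 => h (fun i => ![z i, x i, y i, w i]) (by
      rw [← h2]
      refine Finset.prod_congr rfl fun i _ => ?_
      simp [Fin.prod_univ_four]
      ring)
  have h1 : u 0 3 * u 1 3 * u 2 3 ≠ 1 := fun e => by
    obtain ⟨a, b, hab⟩ := key 0 0 0 1 (by simpa [Fin.prod_univ_three] using e)
    obtain ⟨b1, b2, -, b4⟩ := hab 0
    simp only [Pi.zero_apply, Pi.one_apply] at b1 b2 b4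
    have : b = 0 := by linarith
    rw [this] at b1
    omega
  have n0 := Cremona_ne (B := fun i => u i 0) hA fun x y d _ h3 i => by
    obtain ⟨a, b, hab⟩ := key 0 0 y x (by simpa using h3)
    exact (hab i).1.trans (hab 0).1.symm
  have n1 := Cremona_ne (B := fun i => u i 1) hA fun x y d _ h3 i => by
    obtain ⟨a, b, hab⟩ := key y 0 0 x (by simpa using h3)
    exact (hab i).2.1.trans (hab 0).2.1.symm
  have n2 := Cremona_ne (B := fun i => u i 2) hA fun x y d _ h3 i => by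
    obtain ⟨a, b, hab⟩ := key 0 y 0 x (by simpa using h3)
    exact (hab i).2.2.1.trans (hab 0).2.2.1.symm
  obtain ⟨Φ', a1, -, a3, -, a5⟩ := cremona_step (fun i => u i 3) hA h1 hΦ h0 fun i => (hm i).2.2.2
  refine a1 (van9 r (fun i => u (i + 2) 3 * u i 1) (fun i => u (i + 2) 3 * u i 2)
    (fun i => u (i + 2) 3 * u i 0) ⟨fun i => ⟨mul_ne_zero (hu _ _) (hu _ _),
      mul_ne_zero (hu _ _) (hu _ _), mul_ne_zero (hu _ _) (hu _ _)⟩, fun x y z d h2 h3 => ?_⟩
    (by rwa [show 3 * r = 2 * (6 * r) - 3 * (3 * r) by omega]) fun i =>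
      ⟨a5 i _ _ (n1 i).1 (n1 i).2 (hm i).2.1, a5 i _ _ (n2 i).1 (n2 i).2 (hm i).2.2.1,
        a5 i _ _ (n0 i).1 (n0 i).2 (hm i).1⟩)
  obtain ⟨a, b, hab⟩ := key x y z (fun _ => d) (by
    have e : ∀ i, (u (i + 2) 3 * u i 1) ^ x i * (u (i + 2) 3 * u i 2) ^ y i *
        (u (i + 2) 3 * u i 0) ^ z i =
        u (i + 2) 3 ^ d * (u i 1 ^ x i * u i 2 ^ y i * u i 0 ^ z i) := fun i => by
      rw [← h2 i, zpow_add₀ (hu _ _), zpow_add₀ (hu _ _), mul_zpow, mul_zpow, mul_zpow]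
      ring
    rw [← h3, Finset.prod_congr rfl fun i _ => e i]
    simp [Fin.prod_univ_three]
    ring)
  refine ⟨fun i => ⟨(hab i).2.1.trans (hab 0).2.1.symm, (hab i).2.2.1.trans (hab 0).2.2.1.symm,
    (hab i).1.trans (hab 0).1.symm⟩, a + b * (2 * r), ?_⟩
  obtain ⟨b1, b2, b3, -⟩ := hab 0
  rw [← h2 0, b1, b2, b3]
  ring

end Pool.Agent.GM16
end

-- merged part: Pool.Agent.Work.MP_274aea_ag.Prim
section
set_option autoImplicit false

open MvPolynomial Matrix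

namespace Pool.Agent.GM16

theorem RelOK.of_nat {r : ℕ} {u : Fin 3 → Fin 4 → ℂ} (h : RelOK r u) (n : Fin 3 → Fin 4 → ℕ)
    (hn : ∏ i, ∏ t, u i t ^ n i t = 1) : ∃ x y : ℤ, ∀ i,
    (n i 0 : ℤ) = x + y * (2 * r + 1) ∧ (n i 1 : ℤ) = x + y * (2 * r - 1) ∧
      (n i 2 : ℤ) = x + y * (2 * r) ∧ (n i 3 : ℤ) = x :=
  h (fun i t => n i t) (by simpa using hn)

theorem RelOK.sym {r : ℕ} {u : Fin 3 → Fin 4 → ℂ} (h : RelOK r u) (n : Fin 3 → Fin 4 → ℤ)
    (hn : ∏ i, ∏ t, u i t ^ n i t = 1) (i j : Fin 3) (t : Fin 4) : n i t = n j t := by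
  obtain ⟨x, y, hxy⟩ := h n hn
  obtain ⟨a0, a1, a2, a3⟩ := hxy i
  obtain ⟨b0, b1, b2, b3⟩ := hxy j
  fin_cases t
  exacts [a0.trans b0.symm, a1.trans b1.symm, a2.trans b2.symm, a3.trans b3.symm]

theorem RelOK.inj {r : ℕ} {u : Fin 3 → Fin 4 → ℂ} (h : RelOK r u) (hu0 : ∀ i t, u i t ≠ 0)
    (i : Fin 3) : Function.Injective (u i) := by
  intro t t' htt
  by_contra hne
  have := h.sym (fun j p => if j = i then (if p = t then 1 else if p = t' then -1 else 0) else 0)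
    (by
      rw [Finset.prod_eq_single i (fun j _ hj => by simp [hj]) (by simp)]
      rw [Fintype.prod_eq_mul t t' hne (fun p hp => by simp [hp.1, hp.2])]
      simp [Ne.symm hne, htt, hu0]) i (i + 1) t
  fin_cases i <;> simp at this

theorem RelOK.line {r : ℕ} {u : Fin 3 → Fin 4 → ℂ} (h : RelOK r u) (i : Fin 3) (t : Fin 4) :
    u (i + 1) 3 * u (i + 2) 3 * u i t ≠ 1 := by
  intro h1
  by_cases ht : t = 3
  · subst ht
    obtain ⟨x, y, hxy⟩ := h.of_nat (fun _ p => if p = 3 then 1 else 0) (by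
      simp only [Fin.prod_univ_four, Fin.prod_univ_three]
      fin_cases i <;> simp at h1 ⊢ <;> linear_combination h1)
    obtain ⟨a0, a1, -, a3⟩ := hxy 0
    simp at a0 a1 a3
    have : y = 0 := by linarith
    rw [this] at a0
    omega
  · have := h.sym (fun j p => if j = i then (if p = t then 1 else 0) else if p = 3 then 1 else 0)
      (by
        simp only [Fin.prod_univ_four, Fin.prod_univ_three]
        fin_cases i <;> fin_cases t <;> simp at h1 ht ⊢ <;> linear_combination h1) i (i + 1) t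
    fin_cases i <;> simp [ht] at this

theorem Prim_extract {s : Fin 2 → S3} {D : ℕ} (h0 : s ≠ 0) (hs : ∀ a, (s a).IsHomogeneous D) :
    ∃ (g : S3) (s' : Fin 2 → S3) (e : ℕ), g ≠ 0 ∧ g.IsHomogeneous e ∧ e ≤ D ∧ s = g • s' ∧
      IsRelPrime (s' 0) (s' 1) ∧ ∀ a, (s' a).IsHomogeneous (D - e) := by
  obtain ⟨g, s', h1, h2⟩ : ∃ (g : S3) (s' : Fin 2 → S3), s = g • s' ∧
      IsRelPrime (s' 0) (s' 1) := by
    by_cases h : s 0 = 0
    · have h1 : s 1 ≠ 0 := fun h1 => h0 (by ext1 a; fin_cases a; exacts [h, h1])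
      obtain ⟨a, b, c, h2, h3, h4⟩ :=
        UniqueFactorizationMonoid.exists_reduced_factors' (s 0) (s 1) h1
      exact ⟨c, ![a, b], by ext1 l; fin_cases l; exacts [h3.symm, h4.symm], h2⟩
    · obtain ⟨a, b, c, h2, h3, h4⟩ :=
        UniqueFactorizationMonoid.exists_reduced_factors (s 0) h (s 1)
      exact ⟨c, ![a, b], by ext1 l; fin_cases l; exacts [h3.symm, h4.symm], h2⟩
  obtain ⟨a, ha⟩ := Function.ne_iff.mp h0
  have h3 : ∀ a, s a = g * s' a := fun a => congrFun h1 a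
  have hg : g ≠ 0 := by
    rintro rfl
    exact ha (by simp [h3])
  obtain ⟨e, he⟩ := hom_of_dvd (hs a) ha ⟨_, h3 a⟩
  refine ⟨g, s', e, hg, he, (hom_quot he hg (h3 a ▸ hs a)).2 fun h => ha (by simp [h3, h]), h1, h2,
    fun c => (hom_quot he hg (h3 c ▸ hs c)).1⟩

theorem Prim_factor (l : Fin 3 → S3) (hl : ∀ i, (l i).IsHomogeneous 1) (hl0 : ∀ i, l i ≠ 0)
    {g : S3} {e : ℕ} (hg : g ≠ 0) (he : g.IsHomogeneous e) :
    ∃ (k : Fin 3 → ℕ) (g1 : S3) (e1 : ℕ), g = (∏ i, l i ^ k i) * g1 ∧ (∀ i, ¬ l i ∣ g1) ∧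
      g1 ≠ 0 ∧ g1.IsHomogeneous e1 ∧ e = k 0 + k 1 + k 2 + e1 := by
  have hp := fun i => (prime_lin (hl i) (hl0 i)).irreducible
  obtain ⟨k0, a, ha, h0⟩ := WfDvdMonoid.max_power_factor hg (hp 0)
  have ha0 : a ≠ 0 := right_ne_zero_of_mul (h0 ▸ hg)
  obtain ⟨k1, b, hb, h1⟩ := WfDvdMonoid.max_power_factor ha0 (hp 1)
  have hb0 : b ≠ 0 := right_ne_zero_of_mul (h1 ▸ ha0)
  obtain ⟨k2, c, hc, h2⟩ := WfDvdMonoid.max_power_factor hb0 (hp 2)
  have hc0 : c ≠ 0 := right_ne_zero_of_mul (h2 ▸ hb0)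
  have e0 : g = (l 0 ^ k0 * l 1 ^ k1 * l 2 ^ k2) * c := by rw [h0, h1, h2]; ring
  have hh : (l 0 ^ k0 * l 1 ^ k1 * l 2 ^ k2).IsHomogeneous (k0 + k1 + k2) := by
    simpa using (((hl 0).pow k0).mul ((hl 1).pow k1)).mul ((hl 2).pow k2)
  have := hom_quot hh (left_ne_zero_of_mul (e0 ▸ hg)) (e0 ▸ he)
  refine ⟨![k0, k1, k2], c, e - (k0 + k1 + k2), by simpa [Fin.prod_univ_three] using e0,
    fun i => ?_, hc0, this.1, by have := this.2 hc0; simp; omega⟩
  fin_cases i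
  · exact fun h => ha (by rw [h1, h2]; exact (h.mul_left _).mul_left _)
  · exact fun h => hb (by rw [h2]; exact h.mul_left _)
  · exact hc

theorem Prim_prod {P : Fin 3 → ℂ} (l : Fin 3 → S3) (k m : Fin 3 → ℕ)
    (h : ∀ i, ¬ Mult (m i + 1) P (l i)) :
    ¬ Mult (k 0 * m 0 + k 1 * m 1 + k 2 * m 2 + 1) P (∏ i, l i ^ k i) := by
  rw [Fin.prod_univ_three]
  exact not_mult_mul (not_mult_mul (not_mult_pow (h 0) _) (not_mult_pow (h 1) _))
    (not_mult_pow (h 2) _)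

theorem Prim_X {u : ℂ} (hu : u ≠ 0) (i : Fin 3) (k : Fin 3 → ℕ) :
    ¬ Mult (k i + 1) (Pt i u) (∏ m, X m ^ k m) := by
  have := Prim_prod (P := Pt i u) X k (fun m => if m = i then 1 else 0) fun m => by
    split_ifs with h
    · exact not_mult_two (isHomogeneous_X _ _) (X_ne_zero _)
    · apply not_mult_one
      fin_cases i <;> fin_cases m <;> simp [Pt, hu] at h ⊢
  fin_cases i <;> simpa using this

section

variable {u : Fin 3 → Fin 4 → ℂ} {K : Fin 3 → Matrix (Fin 2) (Fin 2) ℂ} {γ : Fin 3 → ℂ}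
  {dr n : Fin 4 → ℕ} {D : ℕ} {s : Fin 2 → S3}

theorem Prim_res (hB : Bun u K γ dr) (hs : IsRelPrime (s 0) (s 1)) (i : Fin 3) :
    ∃ a, res i ((kS K γ i *ᵥ s) a) ≠ 0 := by
  by_contra h
  push Not at h
  obtain ⟨c, hc, hk⟩ := hB.sq i
  have h1 : kS K γ i *ᵥ (fun a => res i (s a)) = 0 := by
    ext1 a
    rw [Pi.zero_apply, ← h a]
    simp [Matrix.mulVec, dotProduct, res_kS]
  have h2 := congrArg (kS K γ i *ᵥ ·) h1
  simp only [Matrix.mulVec_mulVec, hk, Matrix.smul_mulVec, Matrix.one_mulVec,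
    Matrix.mulVec_zero] at h2
  have h3 : ∀ a, X i ∣ s a := fun a => (X_dvd_iff _ _).mpr
    ((mul_eq_zero.mp (congrFun h2 a)).resolve_left
      (mul_ne_zero (by simpa using hc) (prod_ell_ne_zero _ _ _)))
  exact (prime_X' i).not_unit (hs (h3 0) (h3 1))

theorem Prim_hom (hs : ∀ a, (s a).IsHomogeneous D) (i : Fin 3) (a : Fin 2) :
    ((kS K γ i *ᵥ s) a).IsHomogeneous (D + 1) := by
  rw [add_comm]
  exact IsHomogeneous.sum _ _ _ fun c _ => (kS_hom K γ i a c).mul (hs c)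

theorem Prim_mono (hu : ∀ i, Function.Injective (u i)) (hB : Bun u K γ dr)
    (hp : IsRelPrime (s 0) (s 1)) (hs : ∀ a, (s a).IsHomogeneous D) (m : Fin 3 → Fin 4 → ℕ)
    (hD : ∀ i, ∑ t, m i t = D + 1)
    (hm : ∀ i t a, Mult (m i t) (Pt i (u i t)) ((kS K γ i *ᵥ s) a)) :
    (∏ i, γ i) * ∏ i, ∏ t, u i t ^ m i t = 1 ∧
      ∀ i t, ∃ a, ¬ Mult (m i t + 1) (Pt i (u i t)) ((kS K γ i *ᵥ s) a) := by
  choose ξ hξ using fun i a => side_eq (hu i) (m i) (Prim_hom hs i a) (hD i) fun t => hm i t a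
  have hne : ∀ i, ∃ a, ξ i a ≠ 0 := fun i => by
    obtain ⟨a, ha⟩ := Prim_res hB hp i
    exact ⟨a, fun h => ha (by rw [hξ, h, map_zero, zero_mul])⟩
  refine ⟨?_, fun i t => ?_⟩
  · have e1 : ∀ i a, (K (i + 1) *ᵥ fun c => eval (Pi.single (i + 1) 1) (s c)) a =
        ξ i a * ∏ t, u i t ^ m i t := by
      intro i a
      have := congrArg (eval (Pi.single (i + 1) 1)) (hξ i a)
      rw [eval_res i _ (by fin_cases i <;> simp)] at this
      simp only [map_mul, eval_C, map_prod, map_pow, eval_ell_start] at this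
      rw [← this]
      simp only [Matrix.mulVec, dotProduct, map_sum, map_mul, eval_kS]
      fin_cases i <;> simp [kk]
    have e2 : ∀ i a, γ i * (K (i + 2) *ᵥ fun c => eval (Pi.single (i + 2) 1) (s c)) a = ξ i a := by
      intro i a
      have := congrArg (eval (Pi.single (i + 2) 1)) (hξ i a)
      rw [eval_res i _ (by fin_cases i <;> simp)] at this
      simp only [map_mul, eval_C, map_prod, map_pow, eval_ell_end, one_pow, Finset.prod_const_one,
        mul_one] at this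
      rw [← this]
      simp only [Matrix.mulVec, dotProduct, map_sum, map_mul, eval_kS]
      fin_cases i <;> simp [kk] <;> ring
    obtain ⟨a, ha⟩ := hne 0
    have a0 : γ 0 * (K 2 *ᵥ fun c => eval (Pi.single 2 1) (s c)) a = ξ 0 a := e2 0 a
    have a1 : γ 1 * (K 0 *ᵥ fun c => eval (Pi.single 0 1) (s c)) a = ξ 1 a := e2 1 a
    have a2 : γ 2 * (K 1 *ᵥ fun c => eval (Pi.single 1 1) (s c)) a = ξ 2 a := e2 2 a
    have b0 : (K 1 *ᵥ fun c => eval (Pi.single 1 1) (s c)) a = _ := e1 0 a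
    have b1 : (K 2 *ᵥ fun c => eval (Pi.single 2 1) (s c)) a = _ := e1 1 a
    have b2 : (K 0 *ᵥ fun c => eval (Pi.single 0 1) (s c)) a = _ := e1 2 a
    rw [b0] at a2
    rw [b1] at a0
    rw [b2] at a1
    apply mul_left_cancel₀ ha
    rw [Fin.prod_univ_three, Fin.prod_univ_three]
    rw [← a2] at a1
    rw [← a1] at a0
    linear_combination a0
  · obtain ⟨a, ha⟩ := hne i
    exact ⟨a, not_mult_of_res (hu i) (m i) ha (hξ i a) t⟩

theorem Prim_red (hs : Sec u K γ dr n D s) {g : S3} {s' : Fin 2 → S3} (hg : s = g • s')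
    {i : Fin 3} {t : Fin 4} {b : ℕ} (hb : ¬ Mult (b + 1) (Pt i (u i t)) g) (a : Fin 2) :
    Mult (n t + dr t - b) (Pt i (u i t)) ((kS K γ i *ᵥ s') a) := by
  have := (hs.2 i t a).2
  rw [hg, Matrix.mulVec_smul] at this
  exact this.cancel hb

theorem Prim_rel (hu : ∀ i, Function.Injective (u i)) (hB : Bun u K γ dr)
    (hp : IsRelPrime (s 0) (s 1)) (hs : ∀ a, (s a).IsHomogeneous D) (m b : Fin 3 → Fin 4 → ℕ)
    (hD : ∀ i, ∑ t, m i t = D + 1)
    (hm : ∀ i t a, Mult (m i t) (Pt i (u i t)) ((kS K γ i *ᵥ s) a))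
    (hmb : ∀ i t, m i t + b i t = n t + dr t)
    (hmon : (∏ i, γ i) * ∏ i, ∏ t, u i t ^ (n t + dr t) = 1) :
    ∏ i, ∏ t, u i t ^ b i t = 1 := by
  have h1 := (Prim_mono hu hB hp hs m hD hm).1
  have h2 : ∏ i, ∏ t, u i t ^ (n t + dr t) =
      (∏ i, ∏ t, u i t ^ m i t) * ∏ i, ∏ t, u i t ^ b i t := by
    rw [← Finset.prod_mul_distrib]
    refine Finset.prod_congr rfl fun i _ => ?_
    rw [← Finset.prod_mul_distrib]
    exact Finset.prod_congr rfl fun t _ => by rw [← pow_add, hmb]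
  rw [h2, ← mul_assoc, h1, one_mul] at hmon
  exact hmon

theorem Prim_final (hu : ∀ i, Function.Injective (u i)) (hB : Bun u K γ dr)
    (hs : Sec u K γ dr n D s) (hD : ∑ t, (n t + dr t) = D + 1) {g : S3} {s' : Fin 2 → S3}
    (hg : s = g • s') (hg0 : g ≠ 0) (he : g.IsHomogeneous 0) (hp : IsRelPrime (s' 0) (s' 1)) :
    Prim u K γ dr n s := by
  obtain ⟨c, rfl⟩ := hom_zero_eq_C he
  have hc : IsUnit (C c : S3) := (IsUnit.mk0 c (by simpa using hg0)).map C
  have h1 : IsRelPrime (s 0) (s 1) := by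
    rw [hg]
    intro d h0 h1
    exact hp (hc.dvd_mul_left.mp h0) (hc.dvd_mul_left.mp h1)
  exact ⟨h1, (Prim_mono hu hB h1 hs.1 (fun _ t => n t + dr t) (fun _ => hD)
    fun i t a => (hs.2 i t a).2).2⟩

theorem Prim_dir (hs : Sec u K γ dr n D s) (i : Fin 3) (t : Fin 4) (ht : dr t = 1) :
    Mult (n t + 1) (Pt i (u i t)) (C (kk K γ (Pt i (u i t)) i 1 0) * s 0 +
      C (kk K γ (Pt i (u i t)) i 1 1) * s 1) := by
  have h1 := (hs.2 i t 1).2
  rw [ht] at h1
  have h2 : X (i + 1) * (C (kk K γ (Pt i (u i t)) i 1 0) * s 0 +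
      C (kk K γ (Pt i (u i t)) i 1 1) * s 1) = (kS K γ i *ᵥ s) 1 - ell i (u i t) *
        (C (γ i * K (i + 2) 1 0) * s 0 + C (γ i * K (i + 2) 1 1) * s 1) := by
    fin_cases i <;> simp [kS, kk, Pt, ell, Matrix.mulVec, dotProduct] <;> ring
  have h3 : Mult 1 (Pt i (u i t)) (ell i (u i t)) :=
    mult_one_of_hom (ell_hom _ _) (by rw [eval_ell, sub_self])
  have h4 := h1.sub ((h3.mul (((hs.2 i t 0).1.mul_left (C (γ i * K (i + 2) 1 0))).add
    ((hs.2 i t 1).1.mul_left (C (γ i * K (i + 2) 1 1))))).mono (by omega))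
  rw [← h2] at h4
  exact h4.cancel (k := 0) (not_mult_one (by fin_cases i <;> simp [Pt]))

end

theorem Prim_arithA {k e e1 D : ℕ} {κ : Fin 3 → ℕ} {μ m : Fin 3 → Fin 4 → ℕ}
    (hD : e + D = 6 * k + 3) (he : e = κ 0 + κ 1 + κ 2 + e1)
    (h1 : ∀ i, μ i 0 + μ i 1 + μ i 2 + μ i 3 ≤ e1)
    (h2 : ∀ i, m i 0 + m i 1 + m i 2 + m i 3 ≤ D + 1)
    (h3 : ∀ i, 2 * k + 2 ≤ m i 0 + (κ i + μ i 0) ∧ 2 * k + 1 ≤ m i 1 + (κ i + μ i 1) ∧
      2 * k + 1 ≤ m i 2 + (κ i + μ i 2) ∧ m i 3 = 0) (i : Fin 3) :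
    m i 0 + (κ i + μ i 0) = 2 * k + 2 ∧ m i 1 + (κ i + μ i 1) = 2 * k + 1 ∧
      m i 2 + (κ i + μ i 2) = 2 * k + 1 ∧ m i 0 + m i 1 + m i 2 + m i 3 = D + 1 ∧
      e = 3 * κ i + μ i 0 + μ i 1 + μ i 2 := by
  have a : ∀ i, κ 0 + κ 1 + κ 2 ≤ 3 * κ i := fun i => by
    have := h1 i; have := h2 i; have := h3 i
    omega
  have b : κ 0 + κ 1 + κ 2 = 3 * κ i := by
    have := a 0; have := a 1; have := a 2
    fin_cases i <;> simp only [Fin.zero_eta, Fin.mk_one, Fin.reduceFinMk] <;> omega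
  have := h1 i; have := h2 i; have := h3 i
  omega

theorem Prim_arithB {k e e1 D : ℕ} {κ α : Fin 3 → ℕ} {μ m b : Fin 3 → Fin 4 → ℕ}
    (hD : e + D = 6 * k + 3) (he : e = κ 0 + κ 1 + κ 2 + (α 0 + α 1 + α 2 + e1))
    (h1 : ∀ i, μ i 0 + μ i 1 + μ i 2 + μ i 3 ≤ e1) (h1' : ∀ i, μ (i + 1) 3 + μ (i + 2) 3 ≤ e1)
    (h2 : ∀ i, m i 0 + m i 1 + m i 2 + m i 3 ≤ D + 1)
    (h2' : ∀ i, 6 * k + 3 ≤ D + b (i + 1) 3 + b (i + 2) 3)
    (h3 : ∀ i, k ≤ m i 0 + b i 0 ∧ k + 1 ≤ m i 1 + b i 1 ∧ k + 1 ≤ m i 2 + b i 2 ∧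
      3 * k + 2 ≤ m i 3 + b i 3)
    (h3' : ∀ i, b i 0 = κ i + μ i 0 ∧ b i 1 = κ i + μ i 1 ∧ b i 2 = κ i + μ i 2 ∧
      b i 3 = κ i + (α (i + 1) + α (i + 2) + μ i 3)) :
    (∀ i, m i 0 + b i 0 = k ∧ m i 1 + b i 1 = k + 1 ∧ m i 2 + b i 2 = k + 1 ∧
      m i 3 + b i 3 = 3 * k + 2 ∧ m i 0 + m i 1 + m i 2 + m i 3 = D + 1 ∧
      b i 0 + b i 1 + b i 2 + b i 3 = e) ∧ b 1 3 + b 2 3 = e := by
  have s : ∀ i, α i + α (i + 1) + α (i + 2) = α 0 + α 1 + α 2 := fun i => by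
    fin_cases i <;> simp <;> ring
  have a : ∀ i, κ 0 + κ 1 + κ 2 + α i ≤ 4 * κ i := fun i => by
    have := h1 i; have := h2 i; have := h3 i; have := h3' i; have := s i
    omega
  have r0 : b 0 3 = κ 0 + (α 1 + α 2 + μ 0 3) := (h3' 0).2.2.2
  have r1 : b 1 3 = κ 1 + (α 2 + α 0 + μ 1 3) := (h3' 1).2.2.2
  have r2 : b 2 3 = κ 2 + (α 0 + α 1 + μ 2 3) := (h3' 2).2.2.2
  have c0 : κ 0 ≤ α 0 := by
    have p : μ 1 3 + μ 2 3 ≤ e1 := h1' 0
    have q : 6 * k + 3 ≤ D + b 1 3 + b 2 3 := h2' 0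
    omega
  have c1 : κ 1 ≤ α 1 := by
    have p : μ 2 3 + μ 0 3 ≤ e1 := h1' 1
    have q : 6 * k + 3 ≤ D + b 2 3 + b 0 3 := h2' 1
    omega
  have c2 : κ 2 ≤ α 2 := by
    have p : μ 0 3 + μ 1 3 ≤ e1 := h1' 2
    have q : 6 * k + 3 ≤ D + b 0 3 + b 1 3 := h2' 2
    omega
  have d : ∀ i, κ 0 + κ 1 + κ 2 + α i = 4 * κ i := fun i => by
    have := a 0; have := a 1; have := a 2
    fin_cases i <;> simp only [Fin.zero_eta, Fin.mk_one, Fin.reduceFinMk] <;> omega
  refine ⟨fun i => ?_, ?_⟩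
  · have := h1 i; have := h2 i; have := h3 i; have := h3' i; have := s i; have := d i
    clear a h1 h1' h2 h2' h3 h3' s d r0 r1 r2 c0 c1 c2
    omega
  · have p : μ 1 3 + μ 2 3 ≤ e1 := h1' 0
    have q : 6 * k + 3 ≤ D + b 1 3 + b 2 3 := h2' 0
    have := d 0; have := d 1; have := d 2
    omega

theorem primA {k : ℕ} (hk : 1 ≤ k) (u : Fin 3 → Fin 4 → ℂ)
    (K : Fin 3 → Matrix (Fin 2) (Fin 2) ℂ) (γ : Fin 3 → ℂ) (hu0 : ∀ i t, u i t ≠ 0)
    (hγ : ∀ i, γ i ≠ 0) (hrel : RelOK (2 * k + 1) u) (hB : Bun u K γ drA)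
    (hmon : (∏ i, γ i) * ∏ i, ∏ t, u i t ^ (nA k t + drA t) = 1) (s : Fin 2 → S3) (h0 : s ≠ 0)
    (hs : Sec u K γ drA (nA k) (6 * k + 3) s) : Prim u K γ drA (nA k) s := by
  have hu := hrel.inj hu0
  obtain ⟨g, s', e, hg0, he, heD, hg, hp, hs'⟩ := Prim_extract h0 hs.1
  obtain ⟨κ, g1, e1, hg1, hn, h10, h1e, hee⟩ :=
    Prim_factor X (fun _ => isHomogeneous_X _ _) (fun _ => X_ne_zero _) hg0 he
  choose μ hμ hμ' using fun i t => exists_exact h10 (Pt i (u i t))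
  have hb : ∀ i t, ¬ Mult (κ i + μ i t + 1) (Pt i (u i t)) g := fun i t =>
    hg1 ▸ not_mult_mul (Prim_X (hu0 i t) i κ) (hμ' i t)
  have h1 : ∀ i, ∑ t, μ i t ≤ e1 := fun i =>
    side_le (hu i) _ h1e (fun h => hn i ((X_dvd_iff _ _).mpr h)) (hμ i)
  obtain ⟨m, hm⟩ : ∃ m : Fin 3 → Fin 4 → ℕ, ∀ i t, m i t = nA k t + drA t - (κ i + μ i t) :=
    ⟨_, fun _ _ => rfl⟩
  have hmm : ∀ i t a, Mult (m i t) (Pt i (u i t)) ((kS K γ i *ᵥ s') a) := fun i t a =>
    hm i t ▸ Prim_red hs hg (hb i t) a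
  have h2 : ∀ i, ∑ t, m i t ≤ 6 * k + 3 - e + 1 := fun i => by
    obtain ⟨a, ha⟩ := Prim_res hB hp i
    exact side_le (hu i) _ (Prim_hom hs' i a) ha fun t => hmm i t a
  have h3 : ∀ i, 2 * k + 2 ≤ m i 0 + (κ i + μ i 0) ∧ 2 * k + 1 ≤ m i 1 + (κ i + μ i 1) ∧
      2 * k + 1 ≤ m i 2 + (κ i + μ i 2) ∧ m i 3 = 0 := fun i => by
    simp only [hm]
    simp [nA, drA]
    omega
  simp only [Fin.sum_univ_four] at h1 h2
  have h4 := Prim_arithA (Nat.add_sub_cancel' heD) hee h1 h2 h3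
  have h5 := Prim_rel (n := nA k) hu hB hp hs' m
    (fun i t => if t = 3 then 0 else κ i + μ i t)
    (fun i => by rw [Fin.sum_univ_four]; exact (h4 i).2.2.2.1) hmm (fun i t => by
      have := h4 i
      have := h3 i
      fin_cases t <;> simp [nA, drA] <;> omega) hmon
  obtain ⟨x, y, hxy⟩ := hrel.of_nat _ h5
  obtain ⟨a0, a1, a2, a3⟩ := hxy 0
  simp at a0 a1 a2 a3
  obtain ⟨h6, -, -, -, h7⟩ := h4 0
  clear h1 h2 h3 h4 h5 hxy
  have hy : y = 0 := by
    rcases lt_trichotomy y 0 with h | h | h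
    · nlinarith [Int.natCast_nonneg (κ 0), Int.natCast_nonneg (μ 0 0), Int.natCast_nonneg k]
    · exact h
    · have : (κ 0 : ℤ) + μ 0 0 ≤ 2 * k + 2 := by omega
      nlinarith [Int.natCast_nonneg k]
  rw [hy, zero_mul] at a0 a1 a2
  have h8 : e = 0 := by omega
  exact Prim_final hu hB hs (by simp [Fin.sum_univ_four, nA, drA]; ring) hg hg0 (h8 ▸ he) hp

theorem primB {k : ℕ} (hk : 1 ≤ k) (u : Fin 3 → Fin 4 → ℂ)
    (K : Fin 3 → Matrix (Fin 2) (Fin 2) ℂ) (γ : Fin 3 → ℂ) (hu0 : ∀ i t, u i t ≠ 0)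
    (hγ : ∀ i, γ i ≠ 0) (hrel : RelOK (2 * k + 1) u) (hB : Bun u K γ drB)
    (hdir : ∀ i, kk K γ (Pt (i + 1) (u (i + 1) 3)) (i + 1) 1 0 *
        kk K γ (Pt (i + 2) (u (i + 2) 3)) (i + 2) 1 1 -
      kk K γ (Pt (i + 1) (u (i + 1) 3)) (i + 1) 1 1 *
        kk K γ (Pt (i + 2) (u (i + 2) 3)) (i + 2) 1 0 ≠ 0)
    (hmon : (∏ i, γ i) * ∏ i, ∏ t, u i t ^ (nB k t + drB t) = 1) (s : Fin 2 → S3) (h0 : s ≠ 0)
    (hs : Sec u K γ drB (nB k) (6 * k + 3) s) : Prim u K γ drB (nB k) s := by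
  have hu := hrel.inj hu0
  obtain ⟨g, s', e, hg0, he, heD, hg, hp, hs'⟩ := Prim_extract h0 hs.1
  obtain ⟨κ, g2, e2, hg2, hn2, h20, h2e, hee2⟩ :=
    Prim_factor X (fun _ => isHomogeneous_X _ _) (fun _ => X_ne_zero _) hg0 he
  obtain ⟨α, g1, e1, hg1, hn1, h10, h1e, hee⟩ :=
    Prim_factor (lin fun i => u i 3) (lin_hom _) (lin_ne_zero _) h20 h2e
  have hn : ∀ i, ¬ X i ∣ g1 := fun i h => hn2 i (hg1 ▸ h.mul_left _)
  choose μ hμ hμ' using fun i t => exists_exact h10 (Pt i (u i t))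
  obtain ⟨b, hbd⟩ : ∃ b : Fin 3 → Fin 4 → ℕ, ∀ i t,
      b i t = κ i + ((if t = 3 then α (i + 1) + α (i + 2) else 0) + μ i t) := ⟨_, fun _ _ => rfl⟩
  have hb : ∀ i t, ¬ Mult (b i t + 1) (Pt i (u i t)) g := fun i t => by
    rw [hbd, hg2, hg1]
    refine not_mult_mul (Prim_X (hu0 i t) i κ) (not_mult_mul ?_ (hμ' i t))
    have := Prim_prod (P := Pt i (u i t)) (lin fun i => u i 3) α
      (fun m => if m = i then 0 else if t = 3 then 1 else 0) fun m => by
        split_ifs with h ht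
        · apply not_mult_one
          rw [h, eval_lin_self]
          exact sub_ne_zero.mpr (hrel.line i t).symm
        · exact not_mult_two (lin_hom _ _) (lin_ne_zero _ _)
        · apply not_mult_one
          have h3 : u i 3 - u i t ≠ 0 := sub_ne_zero.mpr fun h4 => ht (hu i h4).symm
          have : m = i + 1 ∨ m = i + 2 := by
            revert h
            fin_cases i <;> fin_cases m <;> simp
          rcases this with rfl | rfl
          · rwa [eval_lin_one]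
          · rw [eval_lin_two]
            exact mul_ne_zero (hu0 _ _) h3
    by_cases ht : t = 3 <;> fin_cases i <;> simp [ht, add_comm] at this ⊢ <;> exact this
  have h1 : ∀ i, ∑ t, μ i t ≤ e1 := fun i =>
    side_le (hu i) _ h1e (fun h => hn i ((X_dvd_iff _ _).mpr h)) (hμ i)
  have h1' : ∀ i, μ (i + 1) 3 + μ (i + 2) 3 ≤ e1 := fun i => by
    by_contra h
    exact hn1 i (lin_dvd _ i h1e (hμ _ _) (hμ _ _) (by omega))
  obtain ⟨m, hm⟩ : ∃ m : Fin 3 → Fin 4 → ℕ, ∀ i t, m i t = nB k t + drB t - b i t :=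
    ⟨_, fun _ _ => rfl⟩
  have hmm : ∀ i t a, Mult (m i t) (Pt i (u i t)) ((kS K γ i *ᵥ s') a) := fun i t a =>
    hm i t ▸ Prim_red hs hg (hb i t) a
  have h2 : ∀ i, ∑ t, m i t ≤ 6 * k + 3 - e + 1 := fun i => by
    obtain ⟨a, ha⟩ := Prim_res hB hp i
    exact side_le (hu i) _ (Prim_hom hs' i a) ha fun t => hmm i t a
  have h2' : ∀ i, 6 * k + 3 ≤ 6 * k + 3 - e + b (i + 1) 3 + b (i + 2) 3 := fun i => by
    by_contra hlt
    have k1 : ∀ (l : Fin 3) (c0 c1 : ℂ) (N : ℕ), Mult N (Pt l (u l 3)) (C c0 * s 0 + C c1 * s 1) →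
        Mult (N - b l 3) (Pt l (u l 3)) (C c0 * s' 0 + C c1 * s' 1) := by
      intro l c0 c1 N h
      refine Mult.cancel (a := g) ?_ (hb l 3)
      rw [hg] at h
      simp only [Pi.smul_apply, smul_eq_mul] at h
      rwa [show g * (C c0 * s' 0 + C c1 * s' 1) = C c0 * (g * s' 0) + C c1 * (g * s' 1) by ring]
    have k2 : ∀ (l : Fin 3) (c0 c1 : ℂ),
        Mult (3 * k + 1) (Pt l (u l 3)) (C c0 * s 0 + C c1 * s 1) := fun l c0 c1 =>
      ((hs.2 l 3 0).1.mul_left _).add ((hs.2 l 3 1).1.mul_left _)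
    have k3 : ∀ c0 c1 : ℂ, (C c0 * s' 0 + C c1 * s' 1).IsHomogeneous (6 * k + 3 - e) :=
      fun c0 c1 => ((hs' 0).C_mul _).add ((hs' 1).C_mul _)
    have d1 := lin_dvd (fun i => u i 3) i (k3 _ _)
      (k1 _ _ _ _ (Prim_dir hs (i + 1) 3 rfl)) (k1 _ _ _ _ (k2 (i + 2) _ _))
      (by change _ < 3 * k + 1 + 1 - _ + _; omega)
    have d2 := lin_dvd (fun i => u i 3) i (k3 _ _) (k1 _ _ _ _ (k2 (i + 1) _ _))
      (k1 _ _ _ _ (Prim_dir hs (i + 2) 3 rfl)) (by change _ < _ + (3 * k + 1 + 1 - _); omega)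
    have hc := (IsUnit.mk0 _ (hdir i)).map (C : ℂ →+* S3)
    refine (prime_lin (lin_hom (fun i => u i 3) i) (lin_ne_zero _ _)).not_unit
      (hp (hc.dvd_mul_left.mp ?_) (hc.dvd_mul_left.mp ?_))
    · have := dvd_sub (d1.mul_left (C (kk K γ (Pt (i + 2) (u (i + 2) 3)) (i + 2) 1 1)))
        (d2.mul_left (C (kk K γ (Pt (i + 1) (u (i + 1) 3)) (i + 1) 1 1)))
      refine dvd_trans this (Dvd.intro 1 ?_)
      simp only [map_sub, map_mul]
      ring
    · have := dvd_sub (d2.mul_left (C (kk K γ (Pt (i + 1) (u (i + 1) 3)) (i + 1) 1 0)))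
        (d1.mul_left (C (kk K γ (Pt (i + 2) (u (i + 2) 3)) (i + 2) 1 0)))
      refine dvd_trans this (Dvd.intro 1 ?_)
      simp only [map_sub, map_mul]
      ring
  have h3 : ∀ i, k ≤ m i 0 + b i 0 ∧ k + 1 ≤ m i 1 + b i 1 ∧ k + 1 ≤ m i 2 + b i 2 ∧
      3 * k + 2 ≤ m i 3 + b i 3 := fun i => by
    simp only [hm]
    simp [nB, drB]
    omega
  have h3' : ∀ i, b i 0 = κ i + μ i 0 ∧ b i 1 = κ i + μ i 1 ∧ b i 2 = κ i + μ i 2 ∧
      b i 3 = κ i + (α (i + 1) + α (i + 2) + μ i 3) := fun i => by simp [hbd]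
  simp only [Fin.sum_univ_four] at h1 h2
  have h4 := Prim_arithB (Nat.add_sub_cancel' heD) (hee2.trans (by rw [hee])) h1 h1' h2 h2' h3 h3'
  have h5 := Prim_rel (n := nB k) hu hB hp hs' m b
    (fun i => by rw [Fin.sum_univ_four]; exact (h4.1 i).2.2.2.2.1) hmm (fun i t => by
      have := h4.1 i
      fin_cases t <;> simp [nB, drB] <;> omega) hmon
  obtain ⟨x, y, hxy⟩ := hrel.of_nat _ h5
  obtain ⟨a0, a1, a2, a3⟩ := hxy 0
  obtain ⟨-, -, -, b3⟩ := hxy 1
  obtain ⟨-, -, -, c3⟩ := hxy 2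
  obtain ⟨h60, -, -, h63, -, h6⟩ := h4.1 0
  have h7 := h4.2
  clear h1 h1' h2 h2' h3 h3' h4 h5 hxy hee hee2
  push_cast at a0 a1 a2
  have hy : y = 0 := by
    rcases lt_trichotomy y 0 with h | h | h
    · have : (b 0 3 : ℤ) ≤ 3 * k + 2 := by omega
      nlinarith [Int.natCast_nonneg (b 0 0), Int.natCast_nonneg k]
    · exact h
    · have : (b 0 0 : ℤ) ≤ k := by omega
      nlinarith [Int.natCast_nonneg k, Int.natCast_nonneg (b 0 3)]
  rw [hy, zero_mul] at a0 a1 a2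
  have h8 : e = 0 := by omega
  exact Prim_final hu hB hs (by simp [Fin.sum_univ_four, nB, drB]; ring) hg hg0 (h8 ▸ he) hp

end Pool.Agent.GM16
end
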