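import Pool.Agent.Work.MP_274aea_ag.Maps
import Pool.Agent.Work.MP_274aea_ag.Coef
import Pool.Agent.Work.MP_274aea_ag.Scalar

-- merged part: Pool.Agent.Work.MP_274aea_ag.Arith
section
set_option autoImplicit false

open MvPolynomial Matrix

namespace Pool.Agent.GM16

/-- The value of `b ^ (2 k + 1)` at the special points. -/
noncomputable def cst (k : ℕ) : ℂ :=
  (∏ i, (u0 i 0 : ℂ)) * (∏ i, (u0 i 2 : ℂ)) ^ (2 * k + 1)

/-- The primes that occur in the parameters. -/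
def Arith_pr : Fin 10 → ℕ := ![2, 3, 5, 7, 11, 13, 17, 19, 23, 29]

/-- The exponents of the primes in the parameters. -/
def Arith_E : Fin 3 → Fin 4 → Fin 10 → ℤ :=
  ![![![-3, 1, 1, 0, 0, 0, -1, 1, 0, 0],
      ![3, -1, 0, 0, 0, 0, -1, 1, 0, 0],
      ![3, 0, 0, -1, -1, 1, 0, 0, -1, 1],
      ![1, 0, -1, 1, 0, 0, 0, 0, -1, 1]],
    ![![1, -1, 0, 0, 0, 0, 0, -1, 0, 0],
      ![2, 1, 0, 0, 0, 0, 0, -1, 0, 0],
      ![-1, -1, 0, 1, 0, 0, 0, 0, 0, -1],
      ![-1, -1, 1, 0, 1, 0, 0, 0, 0, -1]],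
    ![![-1, -1, 0, 0, 0, 0, 1, 0, 0, 0],
      ![-2, 1, -1, 0, 0, 0, 1, 0, 0, 0],
      ![-4, 1, 0, 0, 0, 0, 0, 0, 1, 0],
      ![2, 1, 0, -1, 0, -1, 0, 0, 1, 0]]]

theorem Arith_abs (i : Fin 3) (t : Fin 4) :
    |u0 i t| = ∏ j, (Arith_pr j : ℚ) ^ Arith_E i t j := by
  fin_cases i <;> fin_cases t <;> simp [u0, Arith_pr, Arith_E, Fin.prod_univ_succ] <;>
    norm_num [abs_of_pos, abs_div]

theorem Arith_prime (j : Fin 10) : (Arith_pr j).Prime := by
  fin_cases j <;> simp [Arith_pr] <;> norm_num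

theorem Arith_indep (a : Fin 10 → ℤ) (h : ∏ j, (Arith_pr j : ℚ) ^ a j = 1) (l : Fin 10) :
    a l = 0 := by
  have : Fact (Arith_pr l).Prime := ⟨Arith_prime l⟩
  have h1 := congrArg (Rat.padicValuation (Arith_pr l)) h
  rw [map_prod, map_one, Finset.prod_eq_single l, map_zpow₀, Rat.padicValuation_self,
    ← WithZero.exp_zsmul, WithZero.exp_eq_one] at h1
  · simpa using h1
  · intro j _ hj
    have h2 : ¬ (Arith_pr l : ℤ) ∣ Arith_pr j :=
      (by decide : ∀ j l, j ≠ l → ¬ (Arith_pr l : ℤ) ∣ Arith_pr j) j l hj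
    rw [map_zpow₀, ← Int.cast_natCast, Rat.padicValuation_cast, Int.padicValuation_eq_one_iff.2 h2,
      _root_.one_zpow]
  · simp

theorem Arith_zpow {K ι : Type*} [Field K] {x : K} (hx : x ≠ 0) (s : Finset ι) (a : ι → ℤ) :
    ∏ i ∈ s, x ^ a i = x ^ ∑ i ∈ s, a i := by
  classical
  induction s using Finset.induction_on with
  | empty => simp
  | insert i s hi ih => rw [Finset.prod_insert hi, Finset.sum_insert hi, zpow_add₀ hx, ih]

theorem lattice (n : Fin 3 → Fin 4 → ℤ) (h : ∏ i, ∏ t, u0 i t ^ n i t = 1) :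
    ∃ x y : ℤ, ∀ i, n i 0 = x ∧ n i 1 = x ∧ n i 2 = y ∧ n i 3 = y := by
  have h1 := congrArg abs h
  simp only [Finset.abs_prod, abs_zpow, abs_one, Arith_abs, ← Finset.prod_zpow, ← _root_.zpow_mul] at h1
  have h2 : ∏ j, (Arith_pr j : ℚ) ^ ∑ i, ∑ t, Arith_E i t j * n i t = 1 := by
    rw [← h1, Finset.prod_congr rfl fun i _ => Finset.prod_comm, Finset.prod_comm]
    refine Finset.prod_congr rfl fun j _ => ?_
    have hj : (Arith_pr j : ℚ) ≠ 0 := Nat.cast_ne_zero.2 (Arith_prime j).ne_zero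
    simp only [Arith_zpow hj]
  have h3 := Arith_indep _ h2
  simp [Fin.forall_fin_succ, Fin.sum_univ_succ, Arith_E] at h3
  refine ⟨n 0 0, n 0 2, fun i => ?_⟩
  fin_cases i <;> simp <;> omega

theorem Arith_u0 (i : Fin 3) (t : Fin 4) : u0 i t ≠ 0 := by
  fin_cases i <;> fin_cases t <;> simp [u0]

theorem Arith_cst (k : ℕ) : cst k = 5 / 24 * (13 / 44) ^ (2 * k + 1) := by
  simp only [cst, Fin.prod_univ_three]
  congr 1
  · simp [u0]
    norm_num
  · congr 1
    simp [u0]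
    norm_num

theorem Arith_cst_ne (k : ℕ) : cst k ≠ 0 := by
  rw [Arith_cst]
  exact mul_ne_zero (by norm_num) (pow_ne_zero _ (by norm_num))

theorem Arith_split {E : Type*} [Field E] [CharZero E] {b : E} (hb : b ≠ 0)
    (n : Fin 3 → Fin 4 → ℤ) : ∏ i, ∏ t, uu b i t ^ n i t =
      ((∏ i, ∏ t, u0 i t ^ n i t : ℚ) : E) * b ^ (n 1 2 + n 1 3 - n 0 0 - n 0 1) := by
  simp only [uu, mul_zpow, Finset.prod_mul_distrib, ← _root_.zpow_mul, Arith_zpow hb]
  push_cast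
  congr 2
  simp [Fin.sum_univ_succ, ex]
  ring

theorem Arith_col {b : ℂ} (n : Fin 4 → ℕ) : ∏ i, ∏ t, uu b i t ^ n t =
    (5 / 24 * b⁻¹) ^ n 0 * ((5 / 24)⁻¹ * b⁻¹) ^ n 1 * (13 / 44 * b) ^ n 2 *
      ((13 / 44)⁻¹ * b) ^ n 3 := by
  rw [Finset.prod_comm, Fin.prod_univ_four]
  simp only [Finset.prod_pow, Fin.prod_univ_three]
  congr 1
  · congr 1
    · congr 2 <;> simp [uu, u0, ex] <;> ring
    · congr 1
      simp [uu, u0, ex]
      ring
  · congr 1
    simp [uu, u0, ex]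
    ring

theorem uu_ne_zero {E : Type*} [Field E] [CharZero E] {b : E} (hb : b ≠ 0) (i : Fin 3)
    (t : Fin 4) : uu b i t ≠ 0 := by
  exact mul_ne_zero (Rat.cast_ne_zero.2 (Arith_u0 i t)) (zpow_ne_zero _ hb)

theorem cst_ne {k : ℕ} {b : ℂ} (hb : b ^ (2 * k + 1) = cst k) : b ≠ 0 ∧ b ≠ 1 := by
  refine ⟨fun h => Arith_cst_ne k (by rw [← hb, h, zero_pow (by omega)]), fun h => ?_⟩
  rw [h, one_pow, Arith_cst] at hb
  have h1 : (1 : ℚ) = 5 / 24 * (13 / 44) ^ (2 * k + 1) :=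
    Rat.cast_injective (α := ℂ) (by simpa using hb)
  have h2 : (13 / 44 : ℚ) ^ (2 * k + 1) ≤ 1 := pow_le_one₀ (by norm_num) (by norm_num)
  linarith

theorem relOK_uu {k : ℕ} {b : ℂ} (hb : b ^ (2 * k + 1) = cst k) : RelOK (2 * k + 1) (uu b) := by
  intro n h
  obtain ⟨r, hr⟩ : ∃ r : ℤ, r = ((2 * k + 1 : ℕ) : ℤ) := ⟨_, rfl⟩
  have hr0 : r ≠ 0 := by omega
  rw [Arith_split (cst_ne hb).1] at h
  obtain ⟨m, hm⟩ : ∃ m, m = n 1 2 + n 1 3 - n 0 0 - n 0 1 := ⟨_, rfl⟩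
  rw [← hm] at h
  have h1 := congrArg (· ^ r) h
  simp only [mul_zpow, _root_.one_zpow] at h1
  rw [← _root_.zpow_mul, mul_comm m, _root_.zpow_mul b, hr, _root_.zpow_natCast b, hb, cst, ← _root_.zpow_natCast, ← hr] at h1
  have h2 : (∏ i, ∏ t, u0 i t ^ n i t) ^ r * ((∏ i, u0 i 0) * (∏ i, u0 i 2) ^ r) ^ m = 1 := by
    exact_mod_cast h1
  obtain ⟨x, y, hx⟩ := lattice (fun i t => n i t * r + ![m, 0, r * m, 0] t) (by
    rw [← h2]
    simp only [zpow_add₀ (Arith_u0 _ _), Finset.prod_mul_distrib, mul_zpow, ← Finset.prod_zpow,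
      ← _root_.zpow_mul]
    congr 1
    simp [Fin.prod_univ_four, Finset.prod_mul_distrib])
  simp only [Matrix.cons_val, add_zero] at hx
  have e0 : ∀ i, n i 0 = n 0 0 := fun i => mul_right_cancel₀ hr0 (by linarith [hx i, hx 0])
  have e1 : ∀ i, n i 1 = n 0 1 := fun i => mul_right_cancel₀ hr0 (by linarith [hx i, hx 0])
  have e3 : ∀ i, n i 3 = n 0 3 := fun i => mul_right_cancel₀ hr0 (by linarith [hx i, hx 0])
  have e2 : ∀ i, n i 2 = n 0 3 - m := fun i => mul_right_cancel₀ hr0 (by linarith [hx i, hx 0])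
  obtain ⟨z, hz⟩ : ∃ z, n 0 0 = n 0 1 + 2 * z := ⟨(n 0 0 - n 0 1) / 2, by
    have := e2 1
    have := e3 1
    omega⟩
  have e4 : m = -(z * (2 * r)) := by linear_combination (hx 0).1 - (hx 0).2.1 - r * hz
  refine ⟨n 0 3, z, fun i => ?_⟩
  rw [← hr, e0 i, e1 i, e2 i, e3 i]
  have := e2 1
  have := e3 1
  refine ⟨?_, ?_, ?_, rfl⟩ <;> linarith

theorem monA {k : ℕ} {b : ℂ} (hb : b ^ (2 * k + 1) = cst k) :
    ∏ i, ∏ t, uu b i t ^ nA k t = ∏ i, gA b i := by
  have h0 := (cst_ne hb).1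
  rw [Arith_cst] at hb
  rw [Arith_col]
  simp only [nA, gA, Fin.prod_univ_three, Matrix.cons_val]
  generalize hα : (5 / 24 : ℂ) = α at hb ⊢
  generalize hβ : (13 / 44 : ℂ) = β at hb ⊢
  have hα0 : α ≠ 0 := by rw [← hα]; norm_num
  have hβ0 : β ≠ 0 := by rw [← hβ]; norm_num
  simp only [mul_pow, inv_pow]
  field_simp
  linear_combination (-α ^ (2 * k)) * hb

theorem monB {k : ℕ} {b : ℂ} (hb : b ^ (2 * k + 1) = cst k) :
    ∏ i, ∏ t, uu b i t ^ nB k t = ∏ i, gB b i := by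
  have h0 := (cst_ne hb).1
  rw [Arith_cst] at hb
  rw [Arith_col]
  simp only [nB, gB, Fin.prod_univ_three, Matrix.cons_val]
  generalize hα : (5 / 24 : ℂ) = α at hb ⊢
  generalize hβ : (13 / 44 : ℂ) = β at hb ⊢
  have hα0 : α ≠ 0 := by rw [← hα]; norm_num
  have hβ0 : β ≠ 0 := by rw [← hβ]; norm_num
  simp only [mul_pow, inv_pow]
  field_simp
  linear_combination (α ^ k * β ^ k * b ^ (k + 1)) * hb

theorem monA' {k : ℕ} {b : ℂ} (hb : b ^ (2 * k + 1) = cst k) :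
    (∏ i, gA b i) * ∏ i, ∏ t, uu b i t ^ (nA k t + drA t) = 1 := by
  have h0 := (cst_ne hb).1
  rw [Arith_cst] at hb
  rw [Arith_col fun t => nA k t + drA t]
  simp only [nA, gA, drA, Fin.prod_univ_three, Matrix.cons_val]
  generalize hα : (5 / 24 : ℂ) = α at hb ⊢
  generalize hβ : (13 / 44 : ℂ) = β at hb ⊢
  have hα0 : α ≠ 0 := by rw [← hα]; norm_num
  have hβ0 : β ≠ 0 := by rw [← hβ]; norm_num
  simp only [mul_pow, inv_pow]
  field_simp
  linear_combination (-b * α ^ (2 * k + 1)) * hb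

theorem monB' {k : ℕ} {b : ℂ} (hb : b ^ (2 * k + 1) = cst k) :
    (∏ i, gB b i) * ∏ i, ∏ t, uu b i t ^ (nB k t + drB t) = 1 := by
  have h0 := (cst_ne hb).1
  rw [Arith_cst] at hb
  rw [Arith_col fun t => nB k t + drB t]
  simp only [nB, gB, drB, Fin.prod_univ_three, Matrix.cons_val]
  generalize hα : (5 / 24 : ℂ) = α at hb ⊢
  generalize hβ : (13 / 44 : ℂ) = β at hb ⊢
  have hα0 : α ≠ 0 := by rw [← hα]; norm_num
  have hβ0 : β ≠ 0 := by rw [← hβ]; norm_num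
  simp only [mul_pow, inv_pow]
  field_simp
  linear_combination (α ^ k * β ^ (k + 1) * b ^ (k + 1)) * hb

theorem exists_special (g : Polynomial ℂ) (hg : g ≠ 0) :
    ∃ (k : ℕ) (b : ℂ), 1 ≤ k ∧ b ^ (2 * k + 1) = cst k ∧ g.eval b ≠ 0 := by
  by_contra h
  push Not at h
  obtain ⟨k, hk⟩ : ∃ k, k = g.natDegree + 1 := ⟨_, rfl⟩
  have h1 := Polynomial.nodup_roots (Polynomial.separable_X_pow_sub_C (n := 2 * k + 1) (cst k)
    (Nat.cast_ne_zero.2 (by omega)) (Arith_cst_ne k))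
  have h2 := Multiset.card_le_card ((Multiset.le_iff_subset (t := g.roots) h1).2 fun b hb => by
    rw [Polynomial.mem_roots hg]
    refine h k b (by omega) ?_
    simpa [sub_eq_zero] using (Polynomial.mem_roots'.1 hb).2)
  rw [IsAlgClosed.card_roots_eq_natDegree, IsAlgClosed.card_roots_eq_natDegree,
    Polynomial.natDegree_X_pow_sub_C] at h2
  omega

theorem trans_rel {E : Type*} [Field E] [Algebra ℂ E] {b : E} (hb : Transcendental ℂ b)
    (n : Fin 3 → Fin 4 → ℕ) : b * ∏ i, ∏ t, uu b i t ^ n i t ≠ 1 := by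
  have : CharZero E := Algebra.charZero_of_charZero ℂ E
  have h0 : b ≠ 0 := fun h => hb (h ▸ isAlgebraic_zero)
  intro h
  simp only [← _root_.zpow_natCast] at h
  rw [Arith_split h0 fun i t => n i t, mul_left_comm, ← zpow_one_add₀ h0] at h
  obtain ⟨m, hm⟩ : ∃ m : ℤ, m = 1 + ((n 1 2 : ℤ) + n 1 3 - n 0 0 - n 0 1) := ⟨_, rfl⟩
  rw [← hm] at h
  rcases eq_or_ne m 0 with e | e
  · rw [e, _root_.zpow_zero, mul_one] at h
    obtain ⟨x, y, hx⟩ := lattice (fun i t => n i t) (by exact_mod_cast h)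
    have := hx 0
    have := hx 1
    omega
  · have h1 : IsAlgebraic ℂ (b ^ m) := by
      rw [eq_inv_of_mul_eq_one_right h, ← map_ratCast (algebraMap ℂ E)]
      exact (isAlgebraic_algebraMap _).inv
    refine hb.pow (Int.natAbs_pos.2 e) ?_
    rw [← _root_.zpow_natCast]
    rcases Int.natAbs_eq m with k | k
    · rwa [← k]
    · rw [← neg_eq_iff_eq_neg.2 k, _root_.zpow_neg]
      exact h1.inv

end Pool.Agent.GM16
end

-- merged part: Pool.Agent.Work.MP_274aea_ag.Conf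
section
set_option autoImplicit false

open MvPolynomial Matrix

namespace Pool.Agent.GM16

section

variable {E : Type*} [Field E] [CharZero E]

theorem sq_of_eval (K : Fin 3 → Matrix (Fin 2) (Fin 2) E) (γ : Fin 3 → E) (i : Fin 3) (c : E)
    (u : Fin 4 → E) (dr : Fin 4 → ℕ)
    (h : ∀ x : Fin 3 → E, kk K γ x i * kk K γ x i =
      (c * ∏ t, (x (i + 2) + u t * x (i + 1)) ^ dr t) • (1 : Matrix (Fin 2) (Fin 2) E)) :
    kS K γ i * kS K γ i = (C c * ∏ t, ell i (u t) ^ dr t) •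
      (1 : Matrix (Fin 2) (Fin 2) (MvPolynomial (Fin 3) E)) := by
  ext1 a d
  apply MvPolynomial.funext
  intro x
  have := congrFun (congrFun (h x) a) d
  simp only [Matrix.mul_apply, map_sum, map_mul, eval_kS, Matrix.smul_apply, smul_eq_mul,
    map_prod, map_pow, eval_C, ell, map_add, eval_X] at this ⊢
  rw [this]
  congr 1
  by_cases had : a = d <;> simp [Matrix.one_apply, had]

theorem sqA {b : E} (hb : b ≠ 0) (i : Fin 3) : ∃ c : E, c ≠ 0 ∧
    kS KA (gA b) i * kS KA (gA b) i = (C c * ∏ t, ell i (uu b i t) ^ drA t) •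
      (1 : Matrix (Fin 2) (Fin 2) (MvPolynomial (Fin 3) E)) := by
  refine ⟨![27744 * b ^ 2, -1251948, 173280] i, by fin_cases i <;> simp [hb],
    sq_of_eval _ _ _ _ _ _ fun x => ?_⟩
  ext a d
  fin_cases i <;> fin_cases a <;> fin_cases d <;>
    simp [kk, KA, gA, uu, u0, ex, drA, Matrix.mul_apply, Fin.prod_univ_four] <;>
    field_simp <;> ring

theorem sqB {b : E} (hb : b ≠ 0) (i : Fin 3) : ∃ c : E, c ≠ 0 ∧
    kS KB (gB b) i * kS KB (gB b) i = (C c * ∏ t, ell i (uu b i t) ^ drB t) •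
      (1 : Matrix (Fin 2) (Fin 2) (MvPolynomial (Fin 3) E)) := by
  refine ⟨![814660, -64064016 / b ^ 2, 4897984] i, by fin_cases i <;> simp [hb],
    sq_of_eval _ _ _ _ _ _ fun x => ?_⟩
  ext a d
  fin_cases i <;> fin_cases a <;> fin_cases d <;>
    simp [kk, KB, gB, uu, u0, ex, drB, Matrix.mul_apply, Fin.prod_univ_four] <;>
    field_simp <;> ring

theorem kk_res (K : Fin 3 → Matrix (Fin 2) (Fin 2) (MvPolynomial (Fin 3) E))
    (γ : Fin 3 → MvPolynomial (Fin 3) E) (i : Fin 3) :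
    kk K γ (fun k => res i (X k)) i = kk K γ X i := by
  fin_cases i <;> simp [kk, res]

theorem res_Ps {b : E} (hb : b ≠ 0) (i : Fin 3) :
    (Ps (C b) X).map (res (E := E) i) =
      (C (gC b i) : MvPolynomial (Fin 3) E) • kron (kS KA (gA b) i) (kS KB (gB b) i) := by
  have hb' : (C b : MvPolynomial (Fin 3) E) * C b⁻¹ = 1 := by
    rw [← map_mul, mul_inv_cancel₀ hb, map_one]
  have h0 : res (E := E) i (C b) = C b := by simp [res]
  rw [map_Ps, h0, Ps_side (C b) (C b⁻¹) hb' _ i (by simp [res]), kk_res, kk_res, kS, kS]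
  simp only [map_KA, map_KB]
  have e1 : (fun l => C (gA b l) : Fin 3 → MvPolynomial (Fin 3) E) = ![C b, 1, 1] := by
    ext1 l
    fin_cases l <;> simp [gA]
  have e2 : (fun l => C (gB b l) : Fin 3 → MvPolynomial (Fin 3) E) = ![1, C b⁻¹, 1] := by
    ext1 l
    fin_cases l <;> simp [gB]
  rw [e1, e2]
  congr 1
  fin_cases i <;> simp [gC]

theorem res_F3 (b : E) (i : Fin 3) : res i (F3 (C b) X) = 0 := by
  rw [map_F3]
  fin_cases i <;> simp [F3, res]

theorem res_F4 {b : E} (hb : b ≠ 0) (i : Fin 3) :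
    ∃ f : E, f ≠ 0 ∧ res i (F4 (C b) X) = C f * ∏ t, ell i (uu b i t) := by
  refine ⟨![22601927040 * b ^ 2, 80204816703168, 848722667520] i,
    by fin_cases i <;> simp [hb], ?_⟩
  apply MvPolynomial.funext
  intro x
  rw [map_F4, map_F4]
  fin_cases i <;> simp [F4, res, uu, u0, ex, ell, Fin.prod_univ_four] <;> field_simp <;> ring

theorem F3_eq (b : E) : F3 (C b) (X : Fin 3 → MvPolynomial (Fin 3) E) =
    C (1522736988 * (1 - b)) * (X 0 * X 1 * X 2) := by
  simp [F3, map_ofNat]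

theorem hom_of_smul {σ : Type*} {Φ : MvPolynomial σ E} {d : ℕ}
    (h : scal Φ = Polynomial.X ^ d * Polynomial.C Φ) : Φ.IsHomogeneous d := by
  have h1 := coeff_scal Φ d
  rw [h, Polynomial.X_pow_mul_C, Polynomial.coeff_C_mul_X_pow, if_pos rfl] at h1
  rw [h1]
  exact homogeneousComponent_isHomogeneous _ _

theorem scal_C {σ : Type*} (b : E) :
    scal (C b : MvPolynomial σ E) = Polynomial.C (C b) := by simp [scal]

theorem scal_X {σ : Type*} (i : σ) :
    scal (X i : MvPolynomial σ E) = Polynomial.X * Polynomial.C (X i) := by simp [scal]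

theorem F3_hom (b : E) : (F3 (C b) (X : Fin 3 → MvPolynomial (Fin 3) E)).IsHomogeneous 3 := by
  apply hom_of_smul
  rw [map_F3, map_F3]
  simp only [scal_C, scal_X, F3]
  ring

theorem F4_hom (b : E) : (F4 (C b) (X : Fin 3 → MvPolynomial (Fin 3) E)).IsHomogeneous 4 := by
  apply hom_of_smul
  rw [map_F4, map_F4]
  simp only [scal_C, scal_X, F4]
  ring

theorem TT_hom (b : E) (a c : Fin 4) :
    (TT (C b) (X : Fin 3 → MvPolynomial (Fin 3) E) a c).IsHomogeneous 1 := by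
  apply hom_of_smul
  rw [← Matrix.map_apply (f := scal), ← Matrix.map_apply (f := Polynomial.C), map_TT, map_TT]
  simp only [scal_C, scal_X, TT_smul, pow_one, Matrix.smul_apply, smul_eq_mul]

theorem Conf_smul {R : Type*} [CommRing R] (b c : R) (x : Fin 3 → R) :
    Ps b (fun k => c * x k) = c ^ 2 • Ps b x := by
  apply Num_ext <;> simp only [Matrix.smul_apply, smul_eq_mul] <;>
    dsimp only [Ps, Matrix.of_apply, Matrix.cons_val] <;>
    dsimp only [Matrix.cons_val] <;> ring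

theorem Ps_hom (b : E) (a c : Fin 4) :
    (Ps (C b) (X : Fin 3 → MvPolynomial (Fin 3) E) a c).IsHomogeneous 2 := by
  apply hom_of_smul
  rw [← Matrix.map_apply (f := scal), ← Matrix.map_apply (f := Polynomial.C), map_Ps, map_Ps]
  simp only [scal_C, scal_X, Conf_smul, Matrix.smul_apply, smul_eq_mul]

theorem Pp_hom (b : E) (a c : Fin 4) :
    (Pp (C b) (X : Fin 3 → MvPolynomial (Fin 3) E) a c).IsHomogeneous 6 := by
  simp only [Pp, Matrix.add_apply, Matrix.sub_apply, Matrix.smul_apply, smul_eq_mul,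
    Matrix.mul_apply]
  have h2 : ∀ n : ℕ, ((n : MvPolynomial (Fin 3) E)).IsHomogeneous 0 := fun n => by
    simpa using isHomogeneous_C (Fin 3) (n : E)
  refine IsHomogeneous.add (IsHomogeneous.sub ((F4_hom b).mul (Ps_hom b a c)) ?_) ?_
  · exact ((h2 2).mul (F3_hom b)).mul
      (IsHomogeneous.sum _ _ 3 fun d _ => (Ps_hom b a d).mul (TT_hom b d c))
  · refine ((h2 8).mul ((F3_hom b).pow 2)).mul (n := 0) ?_
    rw [Matrix.one_apply]
    split_ifs
    · exact isHomogeneous_one _ _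
    · exact isHomogeneous_zero _ _ _

end

theorem bunA {b : ℂ} (hb : b ≠ 0) : Bun (uu b) KA (gA b) drA := by
  refine ⟨fun t => by fin_cases t <;> simp [drA], fun l => by fin_cases l <;> simp [KA],
    sqA hb, fun i t ht => ?_⟩
  fin_cases i <;> fin_cases t <;> simp [drA] at ht <;>
    simp [kk, KA, gA, Pt, uu, u0, ex] <;> field_simp <;> norm_num

theorem bunB {b : ℂ} (hb : b ≠ 0) : Bun (uu b) KB (gB b) drB := by
  refine ⟨fun t => by fin_cases t <;> simp [drB], fun l => by fin_cases l <;> simp [KB],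
    sqB hb, fun i t ht => ?_⟩
  fin_cases i <;> fin_cases t <;> simp [drB] at ht <;>
    simp [kk, KB, gB, Pt, uu, u0, ex] <;> field_simp <;> norm_num

theorem dirB {b : ℂ} (hb : b ≠ 0) (i : Fin 3) :
    kk KB (gB b) (Pt (i + 1) (uu b (i + 1) 3)) (i + 1) 1 0 *
        kk KB (gB b) (Pt (i + 2) (uu b (i + 2) 3)) (i + 2) 1 1 -
      kk KB (gB b) (Pt (i + 1) (uu b (i + 1) 3)) (i + 1) 1 1 *
        kk KB (gB b) (Pt (i + 2) (uu b (i + 2) 3)) (i + 2) 1 0 ≠ 0 := by
  fin_cases i <;> simp [kk, KB, gB, Pt, uu, u0, ex] <;> field_simp <;> norm_num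

section Hom

variable {σ R : Type*} [CommRing R]

theorem nat_hom (n : ℕ) : ((n : MvPolynomial σ R)).IsHomogeneous 0 := by
  simpa using isHomogeneous_C σ (n : R)

theorem lf_hom (θ : Th → R) (μ : Fin 3 → MvPolynomial σ R) (hμ : ∀ k, (μ k).IsHomogeneous 1)
    (a : Fin 11) : (lf (fun s => C (θ s)) a μ).IsHomogeneous 1 :=
  (((hμ 0).C_mul _).add ((hμ 1).C_mul _)).add ((hμ 2).C_mul _)

theorem NN_hom (θ : Th → R) (m μ : Fin 3 → MvPolynomial σ R) (l : MvPolynomial σ R)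
    (hm : ∀ k, (m k).IsHomogeneous 1) (hμ : ∀ k, (μ k).IsHomogeneous 1)
    (hl : l.IsHomogeneous 1) (a c : Fin 4) :
    (NN (fun s => C (θ s)) m μ l a c).IsHomogeneous 1 := by
  have h := lf_hom θ μ hμ
  have h2 : ∀ p : MvPolynomial σ R, p.IsHomogeneous 1 → (2 * p).IsHomogeneous 1 :=
    fun p hp => (nat_hom 2).mul hp
  have h3 : ∀ p : MvPolynomial σ R, p.IsHomogeneous 1 → (-2 * p).IsHomogeneous 1 :=
    fun p hp => by
      rw [neg_mul]
      exact (h2 p hp).neg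
  fin_cases a <;> fin_cases c
  exacts [h2 _ (hm 2), (hm 1).neg, h 0, hl.neg.add (h 2), (hm 1).neg, h2 _ (hm 0), hl.add (h 1),
    h 3, h 0, hl.add (h 1), h3 _ (h 4), h3 _ (h 5), hl.neg.add (h 2), h 3, h3 _ (h 5),
    h3 _ (h 6)]

theorem qq_hom (θ : Th → R) (μ : Fin 3 → MvPolynomial σ R) (l : MvPolynomial σ R)
    (hμ : ∀ k, (μ k).IsHomogeneous 1) (hl : l.IsHomogeneous 1) :
    (qq (fun s => C (θ s)) μ l).IsHomogeneous 2 := by
  have h := lf_hom θ μ hμ
  exact (((h 0).mul (h 3)).sub ((hl.add (h 1)).mul (hl.neg.add (h 2)))).sub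
    ((nat_hom 2).mul (((((h 7).mul (hμ 0)).add ((h 8).mul (hμ 1))).add
      ((h 9).mul (hμ 2))).sub (hl.mul (h 10))))

theorem det_hom' {n : ℕ} (N : Matrix (Fin n) (Fin n) (MvPolynomial σ R))
    (hN : ∀ a c, (N a c).IsHomogeneous 1) : N.det.IsHomogeneous n := by
  rw [Matrix.det_apply']
  refine IsHomogeneous.sum _ _ _ fun p _ => ?_
  have h1 := IsHomogeneous.prod Finset.univ (fun i => N (p i) i) (fun _ => 1) fun i _ => hN _ _
  have h2 : (((Equiv.Perm.sign p : ℤ) : MvPolynomial σ R)).IsHomogeneous 0 := by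
    simpa using isHomogeneous_C σ ((Equiv.Perm.sign p : ℤ) : R)
  simpa using h2.mul h1

theorem det_hom (N : Matrix (Fin 4) (Fin 4) (MvPolynomial σ R))
    (hN : ∀ a c, (N a c).IsHomogeneous 1) : N.det.IsHomogeneous 4 := by
  exact det_hom' N hN

theorem adj_hom (N : Matrix (Fin 4) (Fin 4) (MvPolynomial σ R))
    (hN : ∀ a c, (N a c).IsHomogeneous 1) (a c : Fin 4) : (N.adjugate a c).IsHomogeneous 3 := by
  rw [Matrix.adjugate_fin_succ_eq_det_submatrix]
  have h2 : ((-1 : MvPolynomial σ R) ^ (c + a : ℕ)).IsHomogeneous 0 := by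
    simpa using (isHomogeneous_one σ R).neg.pow (c + a : ℕ)
  exact h2.mul (det_hom' _ fun _ _ => hN _ _)

theorem mulVec_hom {n : ℕ} (N : Matrix (Fin n) (Fin n) (MvPolynomial σ R)) {d e : ℕ}
    (hN : ∀ a c, (N a c).IsHomogeneous d) (v : Fin n → MvPolynomial σ R)
    (hv : ∀ a, (v a).IsHomogeneous e) (a : Fin n) : ((N *ᵥ v) a).IsHomogeneous (d + e) := by
  exact IsHomogeneous.sum _ _ _ fun c _ => (hN a c).mul (hv c)

theorem pol_hom (N : Matrix (Fin 4) (Fin 4) (MvPolynomial σ R)) (q : MvPolynomial σ R)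
    (hN : ∀ a c, (N a c).IsHomogeneous 1) (hq : q.IsHomogeneous 2) {j : ℕ}
    (v w v' w' : Fin 4 → MvPolynomial σ R) (hv : ∀ a, (v a).IsHomogeneous (j + 1))
    (hw : ∀ a, (w a).IsHomogeneous j) (hv' : ∀ a, (v' a).IsHomogeneous (j + 1))
    (hw' : ∀ a, (w' a).IsHomogeneous j) : (pol N q v w v' w').IsHomogeneous (2 * j + 3) := by
  refine IsHomogeneous.add (IsHomogeneous.sum _ _ _ fun a _ => ?_)
    (IsHomogeneous.sum _ _ _ fun a _ => ?_)
  · have h1 := mulVec_hom N hN v' hv' a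
    have h2 := hq.mul (hw' a)
    rw [show 2 + j = 1 + (j + 1) by ring] at h2
    have := (hv a).mul (h1.add h2)
    rwa [show j + 1 + (1 + (j + 1)) = 2 * j + 3 by ring] at this
  · have h1 := mulVec_hom _ (adj_hom N hN) w' hw' a
    have h2 := hq.mul (hv' a)
    rw [show 2 + (j + 1) = 3 + j by ring] at h2
    have := (hw a).mul (h2.add h1)
    rwa [show j + (3 + j) = 2 * j + 3 by ring] at this

theorem Kb_hom (b : R) (k : Fin 3) : ((Kb (C b) *ᵥ fun k : Fin 3 =>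
    (X k.succ : MvPolynomial (Fin 4) R)) k).IsHomogeneous 1 := by
  rw [← map_Kb]
  exact mulVec_hom (d := 0) _ (fun _ _ => isHomogeneous_C _ _) _
    (fun _ => isHomogeneous_X _ _) k

theorem vth_C (η : Th → R) (b e : R) : vth (C b) + (C e : MvPolynomial σ R) • (fun s => C (η s)) =
    fun s => C ((vth b + e • η) s) := by
  ext1 s
  simp [map_vth]

theorem Nf_hom (η : Th → R) (b e : R) (a c : Fin 4) :
    (Nf (fun s => C (η s)) (C b) (C e) (X : Fin 4 → MvPolynomial (Fin 4) R) a c).IsHomogeneous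
      1 := by
  rw [Nf, vth_C]
  exact NN_hom _ _ _ _ (Kb_hom b) (fun _ => isHomogeneous_X _ _) (isHomogeneous_X _ _) a c

theorem qf_hom (η : Th → R) (b e : R) :
    (qf (fun s => C (η s)) (C b) (C e) (X : Fin 4 → MvPolynomial (Fin 4) R)).IsHomogeneous 2 := by
  rw [qf, vth_C]
  exact qq_hom _ _ _ (fun _ => isHomogeneous_X _ _) (isHomogeneous_X _ _)

theorem Ns_hom (b : R) (a c : Fin 4) :
    (Ns (C b) (X : Fin 4 → MvPolynomial (Fin 4) R) a c).IsHomogeneous 1 := by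
  have : vth (C b : MvPolynomial (Fin 4) R) = fun s => C (vth b s) :=
    funext fun s => (map_vth _ _ _).symm
  rw [Ns, this]
  exact NN_hom _ _ _ _ (Kb_hom b) (fun _ => isHomogeneous_X _ _) (isHomogeneous_X _ _) a c

theorem qs_hom (b : R) : (qs (C b) (X : Fin 4 → MvPolynomial (Fin 4) R)).IsHomogeneous 2 := by
  have : vth (C b : MvPolynomial (Fin 4) R) = fun s => C (vth b s) :=
    funext fun s => (map_vth _ _ _).symm
  rw [qs, this]
  exact qq_hom _ _ _ (fun _ => isHomogeneous_X _ _) (isHomogeneous_X _ _)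

end Hom

end Pool.Agent.GM16
end
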