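import Mathlib

-- merged part: Pool.Agent.Work.MP_274aea_ag.Defs
section
set_option autoImplicit false

open MvPolynomial Matrix

namespace Pool.Agent.GM16

/-- Parameters of the normal form. -/
abbrev Th := Fin 3 × Fin 11

abbrev S3 := MvPolynomial (Fin 3) ℂ

abbrev S4 := MvPolynomial (Fin 4) ℂ

section Normal

variable {R : Type*} [CommRing R]

def lf (θ : Th → R) (a : Fin 11) (μ : Fin 3 → R) : R :=
  θ (0, a) * μ 0 + θ (1, a) * μ 1 + θ (2, a) * μ 2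

def Rr (θ : Th → R) (μ : Fin 3 → R) (lam : R) : R :=
  lf θ 7 μ * μ 0 + lf θ 8 μ * μ 1 + lf θ 9 μ * μ 2 - lam * lf θ 10 μ

/-- The symmetric matrix of the quadric surface bundle. -/
def NN (θ : Th → R) (m μ : Fin 3 → R) (lam : R) : Matrix (Fin 4) (Fin 4) R :=
  !![2 * m 2, -m 1, lf θ 0 μ, -lam + lf θ 2 μ;
    -m 1, 2 * m 0, lam + lf θ 1 μ, lf θ 3 μ;
    lf θ 0 μ, lam + lf θ 1 μ, -2 * lf θ 4 μ, -2 * lf θ 5 μ;
    -lam + lf θ 2 μ, lf θ 3 μ, -2 * lf θ 5 μ, -2 * lf θ 6 μ]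

def qq (θ : Th → R) (μ : Fin 3 → R) (lam : R) : R :=
  lf θ 0 μ * lf θ 3 μ - (lam + lf θ 1 μ) * (-lam + lf θ 2 μ) - 2 * Rr θ μ lam

/-- The quartic surface. -/
def GG (θ : Th → R) (μ : Fin 3 → R) (lam : R) : R := qq θ μ lam ^ 2 - (NN θ μ μ lam).det

/-- The skew hermitian pencil `A2 + lam A1`. -/
def AA (θ : Th → R) (μ : Fin 3 → R) (s t : Fin 2 → R) (lam : R) : Matrix (Fin 3) (Fin 3) R :=
  !![-(s 0 * t 1 - s 1 * t 0), lf θ 0 μ * t 0 + (lam + lf θ 1 μ) * t 1,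
      (-lam + lf θ 2 μ) * t 0 + lf θ 3 μ * t 1;
    -(lf θ 0 μ * s 0 + (lam + lf θ 1 μ) * s 1), (s 0 * t 1 - s 1 * t 0) * lf θ 4 μ,
      (s 0 * t 1 - s 1 * t 0) * lf θ 5 μ + Rr θ μ lam;
    -((-lam + lf θ 2 μ) * s 0 + lf θ 3 μ * s 1),
      (s 0 * t 1 - s 1 * t 0) * lf θ 5 μ - Rr θ μ lam, (s 0 * t 1 - s 1 * t 0) * lf θ 6 μ]

/-- The coefficient of `lam` in the pencil. -/
def A1 (θ : Th → R) (μ : Fin 3 → R) (s t : Fin 2 → R) : Matrix (Fin 3) (Fin 3) R :=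
  !![0, t 1, -t 0; -s 1, 0, -lf θ 10 μ; s 0, lf θ 10 μ, 0]

def pk (u v : Fin 5 → R) (i j : Fin 5) : R := u i * v j - u j * v i

/-- Coordinates `y00, y01, y10, y11, z0, z1, z2, m0, m1, m2` on the Pluecker space. -/
def gc (p : Fin 5 → Fin 5 → R) : Fin 10 → R :=
  ![-p 1 2, p 2 3 - p 0 2, p 2 3, p 2 4, p 1 3 - p 0 1, p 1 4 - p 0 3, p 3 4, p 1 3,
    p 1 4 + p 0 3, p 0 4 + p 3 4]

def gp (u v : Fin 5 → R) : Fin 10 → R := gc (pk u v)

/-- The hyperplane in normal form. -/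
def Hn (θ : Th → R) (g : Fin 10 → R) : R := g 1 - g 2 - lf θ 10 ![g 7, g 8, g 9]

def ll (θ : Th → R) (k : Fin 3) (g : Fin 10 → R) : R :=
  θ (k, 0) * g 0 + θ (k, 1) * g 1 + θ (k, 2) * g 2 + θ (k, 3) * g 3 + θ (k, 4) * g 4 +
    θ (k, 5) * g 5 + θ (k, 6) * g 6 + θ (k, 7) * g 7 + θ (k, 8) * g 8 + θ (k, 9) * g 9

/-- The quadric in normal form, as a bilinear form. -/
def Qn (θ : Th → R) (g h : Fin 10 → R) : R :=
  g 0 * h 3 - g 1 * h 2 + g 7 * ll θ 0 h + g 8 * ll θ 1 h + g 9 * ll θ 2 h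

/-- The big cell. -/
def gch (x : Fin 6 → R) : Fin 10 → R := gp ![1, 0, x 0, x 1, x 2] ![0, 1, x 3, x 4, x 5]

/-- Linear change of the coordinates `μ`. -/
def act (κ : Matrix (Fin 3) (Fin 3) R) (θ : Th → R) : Th → R := fun ka =>
  ![lf θ 0 (κᵀ ka.1), lf θ 1 (κᵀ ka.1), lf θ 2 (κᵀ ka.1), lf θ 3 (κᵀ ka.1), lf θ 4 (κᵀ ka.1),
    lf θ 5 (κᵀ ka.1), lf θ 6 (κᵀ ka.1),
    lf θ 7 (κᵀ ka.1) * κ 0 0 + lf θ 8 (κᵀ ka.1) * κ 1 0 + lf θ 9 (κᵀ ka.1) * κ 2 0,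
    lf θ 7 (κᵀ ka.1) * κ 0 1 + lf θ 8 (κᵀ ka.1) * κ 1 1 + lf θ 9 (κᵀ ka.1) * κ 2 1,
    lf θ 7 (κᵀ ka.1) * κ 0 2 + lf θ 8 (κᵀ ka.1) * κ 1 2 + lf θ 9 (κᵀ ka.1) * κ 2 2,
    lf θ 10 (κᵀ ka.1)] ka.2

/-- The polar form of the balanced equation. -/
def pol (N : Matrix (Fin 4) (Fin 4) R) (q : R) (v w v' w' : Fin 4 → R) : R :=
  v ⬝ᵥ (N *ᵥ v' + q • w') + w ⬝ᵥ (q • v' + N.adjugate *ᵥ w')

def N0 : Matrix (Fin 4) (Fin 4) R := !![0, 0, 0, -1; 0, 0, 1, 0; 0, 1, 0, 0; -1, 0, 0, 0]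

def kron (A B : Matrix (Fin 2) (Fin 2) R) : Matrix (Fin 4) (Fin 4) R :=
  !![A 0 0 * B 0 0, A 0 0 * B 0 1, A 0 1 * B 0 0, A 0 1 * B 0 1;
    A 0 0 * B 1 0, A 0 0 * B 1 1, A 0 1 * B 1 0, A 0 1 * B 1 1;
    A 1 0 * B 0 0, A 1 0 * B 0 1, A 1 1 * B 0 0, A 1 1 * B 0 1;
    A 1 0 * B 1 0, A 1 0 * B 1 1, A 1 1 * B 1 0, A 1 1 * B 1 1]

def vec (M : Matrix (Fin 2) (Fin 2) R) : Fin 4 → R := ![M 0 0, M 0 1, M 1 0, M 1 1]

def mat (z : Fin 4 → R) : Matrix (Fin 2) (Fin 2) R := !![z 0, z 1; z 2, z 3]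

/-- The matrix of linear forms attached to the side `x i = 0` of the triangle. -/
def kk (K : Fin 3 → Matrix (Fin 2) (Fin 2) R) (γ x : Fin 3 → R) (i : Fin 3) :
    Matrix (Fin 2) (Fin 2) R :=
  x (i + 1) • K (i + 1) + (γ i * x (i + 2)) • K (i + 2)

def KA : Fin 3 → Matrix (Fin 2) (Fin 2) R :=
  ![!![1938, -3876; 1292, -1938], !![-38, -646; -266, 38], !![-68, 136; 170, 68]]

def KB : Fin 3 → Matrix (Fin 2) (Fin 2) R :=
  ![!![8004, -32016; 4002, -8004], !![58, -5626; -870, -58], !![-322, 1288; 552, 322]]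

def TT (b : R) (x : Fin 3 → R) : Matrix (Fin 4) (Fin 4) R :=
  !![-90 * x 0 + x 1 + 272 * b * x 2 - 276 * x 2, -11832 * x 0 - 2108 * x 1 + 476 * b * x 2, 10488 * x 0 + 1724 * x 1 - 368 * x 2, 204 * x 1;
    -1524 * x 0 + 326 * x 1 - 68 * b * x 2 - 138 * x 2, 90 * x 0 - x 1 - 272 * b * x 2 + 276 * x 2, 5244 * x 0 + 4 * x 1 - 184 * x 2, -10488 * x 0 - 1724 * x 1 + 368 * x 2;
    3406 * x 0 - 710 * x 1 + 272 * b * x 2 + 184 * x 2, -11832 * x 0 + 164 * x 1 + 476 * b * x 2, 90 * x 0 - x 1 - 272 * b * x 2 + 276 * x 2, 11832 * x 0 + 2108 * x 1 - 476 * b * x 2;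
    224 * x 0 - 40 * x 1 - 68 * b * x 2 + 92 * x 2, -3406 * x 0 + 710 * x 1 - 272 * b * x 2 - 184 * x 2, 1524 * x 0 - 326 * x 1 + 68 * b * x 2 + 138 * x 2, -90 * x 0 + x 1 + 272 * b * x 2 - 276 * x 2]

def Ps (b : R) (x : Fin 3 → R) : Matrix (Fin 4) (Fin 4) R :=
  !![15511752 * x 0 ^ 2 - 191748 * x 0 * x 1 - 624036 * b * x 0 * x 2 - 544272 * x 0 * x 2 - 2204 * x 1 ^ 2 - 3944 * b * x 1 * x 2 + 12236 * x 1 * x 2 + 21896 * b * x 2 ^ 2, -62047008 * x 0 ^ 2 - 9686580 * x 0 * x 1 + 2496144 * b * x 0 * x 2 + 2177088 * x 0 * x 2 + 213788 * x 1 ^ 2 + 382568 * b * x 1 * x 2 - 48944 * x 1 * x 2 - 87584 * b * x 2 ^ 2, -31023504 * x 0 ^ 2 - 5395392 * x 0 * x 1 + 1248072 * b * x 0 * x 2 + 1088544 * x 0 * x 2 - 37468 * x 1 ^ 2 + 7888 * b * x 1 * x 2 + 208012 * x 1 * x 2 - 43792 * b * x 2 ^ 2, 124094016 * x 0 ^ 2 + 42488712 * x 0 * x 1 - 4992288 * b * x 0 * x 2 - 4354176 * x 0 * x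 2 + 3634396 * x 1 ^ 2 - 765136 * b * x 1 * x 2 - 832048 * x 1 * x 2 + 175168 * b * x 2 ^ 2;
    7755876 * x 0 ^ 2 - 1838136 * x 0 * x 1 + 1069776 * b * x 0 * x 2 - 272136 * x 0 * x 2 + 33060 * x 1 ^ 2 + 59160 * b * x 1 * x 2 - 20976 * x 1 * x 2 - 37536 * b * x 2 ^ 2, -15511752 * x 0 ^ 2 + 191748 * x 0 * x 1 + 624036 * b * x 0 * x 2 + 544272 * x 0 * x 2 + 2204 * x 1 ^ 2 + 3944 * b * x 1 * x 2 - 12236 * x 1 * x 2 - 21896 * b * x 2 ^ 2, -15511752 * x 0 ^ 2 + 786828 * x 0 * x 1 - 2139552 * b * x 0 * x 2 + 544272 * x 0 * x 2 + 562020 * x 1 ^ 2 - 118320 * b * x 1 * x 2 - 356592 * x 1 * x 2 + 75072 * b * x 2 ^ 2, 31023504 * x 0 ^ 2 + 5395392 * x 0 * x 1 - 1248072 * b * x 0 * x 2 - 1088544 * x 0 * x 2 + 37468 * x 1 ^ 2 - 7888 * b * x 1 * x 2 - 208012 * x 1 * x 2 + 43792 * b * x 2 ^ 2;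
    10341168 * x 0 ^ 2 - 2054128 * x 0 * x 1 - 416024 * b * x 0 * x 2 + 1360680 * x 0 * x 2 - 15428 * x 1 ^ 2 + 9860 * b * x 1 * x 2 + 85652 * x 1 * x 2 - 54740 * b * x 2 ^ 2, -41364672 * x 0 ^ 2 + 1247464 * x 0 * x 1 + 1664096 * b * x 0 * x 2 - 5442720 * x 0 * x 2 + 1496516 * x 1 ^ 2 - 956420 * b * x 1 * x 2 - 342608 * x 1 * x 2 + 218960 * b * x 2 ^ 2, -15511752 * x 0 ^ 2 + 191748 * x 0 * x 1 + 624036 * b * x 0 * x 2 + 544272 * x 0 * x 2 + 2204 * x 1 ^ 2 + 3944 * b * x 1 * x 2 - 12236 * x 1 * x 2 - 21896 * b * x 2 ^ 2, 62047008 * x 0 ^ 2 + 9686580 * x 0 * x 1 - 2496144 * b * x 0 * x 2 - 2177088 * x 0 * x 2 - 213788 * x 1 ^ 2 - 382568 * b * x 1 * x 2 + 48944 * x 1 * x 2 + 87584 * b * x 2 ^ 2;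
    5170584 * x 0 ^ 2 - 2188572 * x 0 * x 1 + 713184 * b * x 0 * x 2 + 680340 * x 0 * x 2 + 231420 * x 1 ^ 2 - 147900 * b * x 1 * x 2 - 146832 * x 1 * x 2 + 93840 * b * x 2 ^ 2, -10341168 * x 0 ^ 2 + 2054128 * x 0 * x 1 + 416024 * b * x 0 * x 2 - 1360680 * x 0 * x 2 + 15428 * x 1 ^ 2 - 9860 * b * x 1 * x 2 - 85652 * x 1 * x 2 + 54740 * b * x 2 ^ 2, -7755876 * x 0 ^ 2 + 1838136 * x 0 * x 1 - 1069776 * b * x 0 * x 2 + 272136 * x 0 * x 2 - 33060 * x 1 ^ 2 - 59160 * b * x 1 * x 2 + 20976 * x 1 * x 2 + 37536 * b * x 2 ^ 2, 15511752 * x 0 ^ 2 - 191748 * x 0 * x 1 - 624036 * b * x 0 * x 2 - 544272 * x 0 * x 2 - 2204 * x 1 ^ 2 - 3944 * b * x 1 * x 2 + 12236 * x 1 * x 2 + 21896 * b * x 2 ^ 2]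

def ee (b : R) (x : Fin 3 → R) : R :=
  22738692 * x 0 ^ 2 - 1790164 * x 0 * x 1 + 4131000 * b * x 0 * x 2 + 3447424 * x 0 * x 2 - 1914999 * x 1 ^ 2 + 762008 * b * x 1 * x 2 + 863144 * x 1 * x 2 + 41616 * b ^ 2 * x 2 ^ 2 - 359720 * b * x 2 ^ 2 + 8464 * x 2 ^ 2

def F4 (b : R) (x : Fin 3 → R) : R :=
  80204816703168 * x 0 ^ 4 - 10991410302672 * x 0 ^ 3 * x 1 + 22125466676736 * b * x 0 ^ 3 * x 2 + 47841469612416 * x 0 ^ 3 * x 2 - 16925342852640 * x 0 ^ 2 * x 1 ^ 2 + 2563730664720 * b * x 0 ^ 2 * x 1 * x 2 + 6248102682096 * x 0 ^ 2 * x 1 * x 2 - 1019911957680 * b ^ 2 * x 0 ^ 2 * x 2 ^ 2 + 13197646789632 * b * x 0 ^ 2 * x 2 ^ 2 - 1777392059904 * x 0 ^ 2 * x 2 ^ 2 + 1326440055424 * x 0 * x 1 ^ 3 - 4203650246504 * b * x 0 * x 1 ^ 2 * x 2 - 3608301675880 * x 0 * x 1 ^ 2 * x 2 + 1591926296032 * b ^ 2 * x 0 * x 1 * x 2 ^ 2 + 3050212946048 * b * x 0 * x 1 * x 2 ^ 2 + 1244414792448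 * x 0 * x 1 * x 2 ^ 2 - 608368536160 * b ^ 2 * x 0 * x 2 ^ 3 - 490315051008 * b * x 0 * x 2 ^ 3 + 848722667520 * x 1 ^ 4 - 689773290752 * b * x 1 ^ 3 * x 2 - 738773041920 * x 1 ^ 3 * x 2 + 135889668096 * b ^ 2 * x 1 ^ 2 * x 2 ^ 2 + 600415108192 * b * x 1 ^ 2 * x 2 ^ 2 + 141164284800 * x 1 ^ 2 * x 2 ^ 2 - 118285545216 * b ^ 2 * x 1 * x 2 ^ 3 - 114726938480 * b * x 1 * x 2 ^ 3 + 22601927040 * b ^ 2 * x 2 ^ 4

def F3 (b : R) (x : Fin 3 → R) : R := 1522736988 * (1 - b) * (x 0 * x 1 * x 2)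

def Pp (b : R) (x : Fin 3 → R) : Matrix (Fin 4) (Fin 4) R :=
  F4 b x • Ps b x - (2 * F3 b x) • (Ps b x * TT b x) + (8 * F3 b x ^ 2) • 1

def Kb (b : R) : Matrix (Fin 3) (Fin 3) R :=
  !![-5916, 82, 238 * b;
    -3406, 710, -272 * b - 184;
    -112, 20, 34 * b - 46]

def vth (b : R) : Th → R := fun ka =>
  (!![-1524, 90, 90, 11832, -2622, 5244, 0, 2349312, -572672, 2050404 * b + 882464, 0;
    326, -1, -1, 2108, -2, 862, 102, 0, -613896, 231472 * b + 286396, 0;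
    -68 * b - 138, -272 * b + 276, -272 * b + 276, -476 * b, 92, -184, 0, 0, 0, -71944 * b - 33856, 0] :
    Matrix (Fin 3) (Fin 11) R) ka.1 ka.2

/-- The two parameter family of quadric surface bundles. -/
def Nf (η : Th → R) (b e : R) (x : Fin 4 → R) : Matrix (Fin 4) (Fin 4) R :=
  NN (vth b + e • η) (Kb b *ᵥ fun k => x k.succ) (fun k => x k.succ) (x 0)

def qf (η : Th → R) (b e : R) (x : Fin 4 → R) : R :=
  qq (vth b + e • η) (fun k => x k.succ) (x 0)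

/-- The special family. -/
def Ns (b : R) (x : Fin 4 → R) : Matrix (Fin 4) (Fin 4) R :=
  NN (vth b) (Kb b *ᵥ fun k => x k.succ) (fun k => x k.succ) (x 0)

def qs (b : R) (x : Fin 4 → R) : R := qq (vth b) (fun k => x k.succ) (x 0)

/-- The parametrisation of the monoid quartic. -/
def rh (b : R) (x : Fin 3 → R) : Fin 4 → R :=
  ![F4 b x, 2 * F3 b x * x 0, 2 * F3 b x * x 1, 2 * F3 b x * x 2]

def P0 : Fin 4 → R := ![1, 0, 0, 0]

end Normal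

section Points

variable {E : Type*} [Field E]

def u0 : Matrix (Fin 3) (Fin 4) ℚ :=
  !![-285 / 136, -152 / 51, -3016 / 1771, -406 / 115; -2 / 57, 12 / 19, -7 / 174, 55 / 174; 17 / 6, -51 / 20, 69 / 16, -276 / 91]

def ex : Matrix (Fin 3) (Fin 4) ℤ := !![-1, -1, 0, 0; 0, 0, 1, 1; 0, 0, 0, 0]

/-- The twelve base points: `uu b i t` is the parameter of the point number `t` on side `i`. -/
def uu (b : E) (i : Fin 3) (t : Fin 4) : E := (u0 i t : E) * b ^ ex i t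

def gA (b : E) : Fin 3 → E := ![b, 1, 1]

def gB (b : E) : Fin 3 → E := ![1, b⁻¹, 1]

def gC (b : E) : Fin 3 → E := ![1, b, 1]

/-- The point `e (i+1) - u e (i+2)` of the side `x i = 0`. -/
def Pt (i : Fin 3) (u : E) : Fin 3 → E := ![![0, 1, -u], ![-u, 0, 1], ![1, -u, 0]] i

noncomputable def ell (i : Fin 3) (u : E) : MvPolynomial (Fin 3) E := X (i + 2) + C u * X (i + 1)

/-- The line through `Pt (i+1) (d (i+1))` and `Pt (i+2) (d (i+2))`. -/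
noncomputable def lin (d : Fin 3 → E) (i : Fin 3) : MvPolynomial (Fin 3) E :=
  C (d (i + 2)) * X i + X (i + 1) + C (d (i + 1) * d (i + 2)) * X (i + 2)

/-- Restriction to the side `x i = 0`. -/
noncomputable def res (i : Fin 3) : MvPolynomial (Fin 3) E →ₐ[E] MvPolynomial (Fin 3) E :=
  aeval fun m => if m = i then 0 else X m

noncomputable def kS (K : Fin 3 → Matrix (Fin 2) (Fin 2) E) (γ : Fin 3 → E) (i : Fin 3) :
    Matrix (Fin 2) (Fin 2) (MvPolynomial (Fin 3) E) :=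
  kk (fun l => (K l).map C) (fun l => C (γ l)) X i

/-- Pull back to the plane. -/
noncomputable def rho (b : E) : MvPolynomial (Fin 4) E →ₐ[E] MvPolynomial (Fin 3) E :=
  aeval (rh (C b) X)

/-- The matrix of plane forms attached to a pair `(v, w)`. -/
noncomputable def Msec (b : E) (v w : Fin 4 → MvPolynomial (Fin 4) E) :
    Fin 4 → MvPolynomial (Fin 3) E :=
  Ps (C b) X *ᵥ (fun a => rho b (v a)) + Pp (C b) X *ᵥ (N0 *ᵥ fun a => rho b (w a))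

/-- The value at the triple point. -/
noncomputable def zv (v w : Fin 4 → MvPolynomial (Fin 4) E) : Fin 4 → E :=
  (fun a => eval P0 (v a)) + N0 *ᵥ fun a => eval P0 (w a)

end Points

/-- The expansion of a plane form at a point. -/
noncomputable def blow (P : Fin 3 → ℂ) : S3 →ₐ[ℂ] Polynomial S4 :=
  aeval fun i => Polynomial.C (C (P i) * X 0) + Polynomial.X * Polynomial.C (X i.succ)

/-- Multiplicity at least `n` at `P`. -/
def Mult (n : ℕ) (P : Fin 3 → ℂ) (Φ : S3) : Prop := Polynomial.X ^ n ∣ blow P Φ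

/-- The relations between the twelve parameters. -/
def RelOK (r : ℕ) (u : Fin 3 → Fin 4 → ℂ) : Prop :=
  ∀ n : Fin 3 → Fin 4 → ℤ, ∏ i, ∏ t, u i t ^ n i t = 1 → ∃ x y : ℤ, ∀ i,
    n i 0 = x + y * (2 * r + 1) ∧ n i 1 = x + y * (2 * r - 1) ∧ n i 2 = x + y * (2 * r) ∧
      n i 3 = x

/-- No root relation between nine parameters. -/
def Inv9 (A B D : Fin 3 → ℂ) : Prop :=
  (∀ i, A i ≠ 0 ∧ B i ≠ 0 ∧ D i ≠ 0) ∧
  ∀ (x y z : Fin 3 → ℤ) (d : ℤ), (∀ i, x i + y i + z i = d) →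
    ∏ i, (A i ^ x i * B i ^ y i * D i ^ z i) = 1 →
      (∀ i, x i = x 0 ∧ y i = y 0 ∧ z i = z 0) ∧ 3 ∣ d

/-- A rank two bundle on the blown up plane: the matrices `kS K γ i` are nilpotent exactly at the
points `t` with `dr t = 1`. -/
structure Bun (u : Fin 3 → Fin 4 → ℂ) (K : Fin 3 → Matrix (Fin 2) (Fin 2) ℂ) (γ : Fin 3 → ℂ)
    (dr : Fin 4 → ℕ) : Prop where
  le : ∀ t, dr t ≤ 1
  tr : ∀ l, K l 1 1 = -K l 0 0
  sq : ∀ i, ∃ c : ℂ, c ≠ 0 ∧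
    kS K γ i * kS K γ i = (C c * ∏ t, ell i (u i t) ^ dr t) • (1 : Matrix (Fin 2) (Fin 2) S3)
  nz : ∀ i t, dr t = 1 → kk K γ (Pt i (u i t)) i 1 0 ≠ 0

/-- A section of the bundle with orders `n`. -/
def Sec (u : Fin 3 → Fin 4 → ℂ) (K : Fin 3 → Matrix (Fin 2) (Fin 2) ℂ) (γ : Fin 3 → ℂ)
    (dr n : Fin 4 → ℕ) (D : ℕ) (s : Fin 2 → S3) : Prop :=
  (∀ a, (s a).IsHomogeneous D) ∧ ∀ i t a, Mult (n t) (Pt i (u i t)) (s a) ∧
    Mult (n t + dr t) (Pt i (u i t)) ((kS K γ i *ᵥ s) a)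

/-- A primitive section with exact orders. -/
def Prim (u : Fin 3 → Fin 4 → ℂ) (K : Fin 3 → Matrix (Fin 2) (Fin 2) ℂ) (γ : Fin 3 → ℂ)
    (dr n : Fin 4 → ℕ) (s : Fin 2 → S3) : Prop :=
  IsRelPrime (s 0) (s 1) ∧
    ∀ i t, ∃ a, ¬ Mult (n t + dr t + 1) (Pt i (u i t)) ((kS K γ i *ᵥ s) a)

def drA : Fin 4 → ℕ := ![1, 1, 0, 0]

def drB : Fin 4 → ℕ := ![0, 0, 1, 1]

/-- Orders of `s` for `r = 2 k + 1`. -/
def nA (k : ℕ) : Fin 4 → ℕ := ![2 * k + 1, 2 * k, 2 * k + 1, 0]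

/-- Orders of `t` for `r = 2 k + 1`. -/
def nB (k : ℕ) : Fin 4 → ℕ := ![k, k + 1, k, 3 * k + 1]

/-- The quadric surface bundle has a section that does not vanish at the marked point. -/
def IsoS (θ : Th → ℂ) : Prop :=
  ∃ (n : ℕ) (y : Fin 4 → S4), (∀ i, (y i).IsHomogeneous n) ∧
    GG (fun s => C (θ s)) (fun k => X k.succ) (X 0) ∣
      y ⬝ᵥ NN (fun s => C (θ s)) (fun k => X k.succ) (fun k => X k.succ) (X 0) *ᵥ y ∧
    ∃ i, eval P0 (y i) ≠ 0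

def SmoothN (θ : Th → ℂ) : Prop :=
  ∀ u v : Fin 5 → ℂ, LinearIndependent ℂ ![u, v] → Hn θ (gp u v) = 0 →
    Qn θ (gp u v) (gp u v) = 0 → ∀ a b : ℂ,
      (∀ u' v' : Fin 5 → ℂ, a * Hn θ (gp u' v + gp u v') +
        b * (Qn θ (gp u v) (gp u' v + gp u v') + Qn θ (gp u' v + gp u v') (gp u v)) = 0) →
      a = 0 ∧ b = 0

noncomputable def Jn (θ : Th → ℂ) : Ideal (MvPolynomial (Fin 6) ℂ) :=
  Ideal.span {Hn (fun s => C (θ s)) (gch X), Qn (fun s => C (θ s)) (gch X) (gch X)}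

/-- The cubic over the function field of the plane. -/
noncomputable def Gp {K : Type*} [CommRing K] (θ : Th → K) (μ : Fin 3 → K) : Polynomial K :=
  GG (fun s => Polynomial.C (θ s)) (fun k => Polynomial.C (μ k)) Polynomial.X

end Pool.Agent.GM16
end

-- merged part: Pool.Agent.Work.MP_274aea_ag.Maps
section
set_option autoImplicit false

open MvPolynomial Matrix

namespace Pool.Agent.GM16

section Maps

variable {R S F : Type*} [CommRing R] [CommRing S] [FunLike F R S] [RingHomClass F R S] (f : F)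

theorem map_lf (θ : Th → R) (a : Fin 11) (μ : Fin 3 → R) :
    f (lf θ a μ) = lf (fun s => f (θ s)) a (fun k => f (μ k)) := by
  simp [lf]

theorem map_Rr (θ : Th → R) (μ : Fin 3 → R) (l : R) :
    f (Rr θ μ l) = Rr (fun s => f (θ s)) (fun k => f (μ k)) (f l) := by
  simp [Rr, map_lf]

theorem map_qq (θ : Th → R) (μ : Fin 3 → R) (l : R) :
    f (qq θ μ l) = qq (fun s => f (θ s)) (fun k => f (μ k)) (f l) := by
  simp [qq, map_lf, map_Rr, map_ofNat]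

theorem map_NN (θ : Th → R) (m μ : Fin 3 → R) (l : R) :
    (NN θ m μ l).map f = NN (fun s => f (θ s)) (fun k => f (m k)) (fun k => f (μ k)) (f l) := by
  ext a b
  fin_cases a <;> fin_cases b <;> simp [NN, map_lf, map_ofNat]

theorem map_det' {n : ℕ} (M : Matrix (Fin n) (Fin n) R) : f M.det = (M.map f).det :=
  RingHom.map_det (f : R →+* S) M

theorem map_adj' {n : ℕ} (M : Matrix (Fin n) (Fin n) R) :
    M.adjugate.map f = (M.map f).adjugate :=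
  RingHom.map_adjugate (f : R →+* S) M

theorem map_GG (θ : Th → R) (μ : Fin 3 → R) (l : R) :
    f (GG θ μ l) = GG (fun s => f (θ s)) (fun k => f (μ k)) (f l) := by
  simp only [GG, map_sub, map_pow, map_qq, map_det', map_NN]

theorem map_AA (θ : Th → R) (μ : Fin 3 → R) (s t : Fin 2 → R) (l : R) :
    (AA θ μ s t l).map f = AA (fun s => f (θ s)) (fun k => f (μ k)) (fun k => f (s k))
      (fun k => f (t k)) (f l) := by
  ext a b
  fin_cases a <;> fin_cases b <;> simp [AA, map_lf, map_Rr]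

theorem map_A1 (θ : Th → R) (μ : Fin 3 → R) (s t : Fin 2 → R) :
    (A1 θ μ s t).map f = A1 (fun s => f (θ s)) (fun k => f (μ k)) (fun k => f (s k))
      (fun k => f (t k)) := by
  ext a b
  fin_cases a <;> fin_cases b <;> simp [A1, map_lf]

theorem map_gp (u v : Fin 5 → R) (i : Fin 10) :
    f (gp u v i) = gp (fun k => f (u k)) (fun k => f (v k)) i := by
  fin_cases i <;> simp [gp, gc, pk]

theorem map_gch (x : Fin 6 → R) (i : Fin 10) : f (gch x i) = gch (fun k => f (x k)) i := by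
  fin_cases i <;> simp [gch, gp, gc, pk]

theorem map_Hn (θ : Th → R) (g : Fin 10 → R) :
    f (Hn θ g) = Hn (fun s => f (θ s)) (fun k => f (g k)) := by
  simp [Hn, lf]

theorem map_Qn (θ : Th → R) (g h : Fin 10 → R) :
    f (Qn θ g h) = Qn (fun s => f (θ s)) (fun k => f (g k)) (fun k => f (h k)) := by
  simp [Qn, ll]

theorem map_act (κ : Matrix (Fin 3) (Fin 3) R) (θ : Th → R) (s : Th) :
    f (act κ θ s) = act (κ.map f) (fun s => f (θ s)) s := by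
  obtain ⟨k, a⟩ := s
  fin_cases a <;> simp [act, lf]

theorem map_pol (N : Matrix (Fin 4) (Fin 4) R) (q : R) (v w v' w' : Fin 4 → R) :
    f (pol N q v w v' w') = pol (N.map f) (f q) (fun a => f (v a)) (fun a => f (w a))
      (fun a => f (v' a)) (fun a => f (w' a)) := by
  rw [pol, pol, ← map_adj']
  simp [dotProduct, Matrix.mulVec, map_sum]

theorem map_N0 : (N0 : Matrix (Fin 4) (Fin 4) R).map f = N0 := by
  ext a b
  fin_cases a <;> fin_cases b <;> simp [N0]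

theorem map_KA (l : Fin 3) : (KA l : Matrix (Fin 2) (Fin 2) R).map f = KA l := by
  ext a b
  fin_cases l <;> fin_cases a <;> fin_cases b <;> simp [KA, map_ofNat]

theorem map_KB (l : Fin 3) : (KB l : Matrix (Fin 2) (Fin 2) R).map f = KB l := by
  ext a b
  fin_cases l <;> fin_cases a <;> fin_cases b <;> simp [KB, map_ofNat]

private theorem h93_map44 {α β : Type*} (g : α → β) (a0 a1 a2 a3 b0 b1 b2 b3 c0 c1 c2 c3 d0 d1 d2 d3 : α) :
    (!![a0, a1, a2, a3; b0, b1, b2, b3; c0, c1, c2, c3; d0, d1, d2, d3] : Matrix (Fin 4) (Fin 4) α).map g =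
      !![g a0, g a1, g a2, g a3; g b0, g b1, g b2, g b3; g c0, g c1, g c2, g c3;
        g d0, g d1, g d2, g d3] := by
  ext a c
  fin_cases a <;> fin_cases c <;> rfl

theorem map_TT (b : R) (x : Fin 3 → R) : (TT b x).map f = TT (f b) (fun k => f (x k)) := by
  rw [TT, TT, h93_map44]
  simp only [map_sub, map_add, map_mul, map_neg, map_ofNat]

theorem map_Ps (b : R) (x : Fin 3 → R) : (Ps b x).map f = Ps (f b) (fun k => f (x k)) := by
  rw [Ps, Ps, h93_map44]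
  simp only [map_sub, map_add, map_mul, map_pow, map_neg, map_ofNat]

theorem map_ee (b : R) (x : Fin 3 → R) : f (ee b x) = ee (f b) (fun k => f (x k)) := by
  simp [ee, map_ofNat]

theorem map_F4 (b : R) (x : Fin 3 → R) : f (F4 b x) = F4 (f b) (fun k => f (x k)) := by
  simp [F4, map_ofNat]

theorem map_F3 (b : R) (x : Fin 3 → R) : f (F3 b x) = F3 (f b) (fun k => f (x k)) := by
  simp [F3, map_ofNat]

theorem map_Kb (b : R) : (Kb b).map f = Kb (f b) := by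
  ext a c
  fin_cases a <;> fin_cases c <;> simp [Kb, map_ofNat]

theorem map_vth (b : R) (s : Th) : f (vth b s) = vth (f b) s := by
  obtain ⟨k, a⟩ := s
  fin_cases k <;> fin_cases a <;> simp [vth, map_ofNat]

theorem map_Kb_mulVec (b : R) (x : Fin 3 → R) (k : Fin 3) :
    f ((Kb b *ᵥ x) k) = (Kb (f b) *ᵥ fun k => f (x k)) k := by
  rw [← map_Kb f]
  simp [Matrix.mulVec, dotProduct, map_sum]

theorem map_Nf (η : Th → R) (b e : R) (x : Fin 4 → R) :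
    (Nf η b e x).map f = Nf (fun s => f (η s)) (f b) (f e) (fun k => f (x k)) := by
  simp only [Nf, map_NN, map_Kb_mulVec, Pi.add_apply, Pi.smul_apply, smul_eq_mul, map_add,
    map_mul, map_vth]
  rfl

theorem map_qf (η : Th → R) (b e : R) (x : Fin 4 → R) :
    f (qf η b e x) = qf (fun s => f (η s)) (f b) (f e) (fun k => f (x k)) := by
  simp only [qf, map_qq, Pi.add_apply, Pi.smul_apply, smul_eq_mul, map_add, map_mul, map_vth]
  rfl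

theorem map_Ns (b : R) (x : Fin 4 → R) : (Ns b x).map f = Ns (f b) (fun k => f (x k)) := by
  simp only [Ns, map_NN, map_Kb_mulVec, map_vth]

theorem map_qs (b : R) (x : Fin 4 → R) : f (qs b x) = qs (f b) (fun k => f (x k)) := by
  simp only [qs, map_qq, map_vth]

end Maps

end Pool.Agent.GM16
end
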