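import Pool.Agent.Work.MP_274aea_ag.Coef

-- merged part: Pool.Agent.Work.MP_274aea_ag.Spec
section
set_option autoImplicit false

open MvPolynomial Matrix

namespace Pool.Agent.GM16

section

variable {M : Type*} [Field M]

/-- The characteristic polynomial of the pencil. -/
noncomputable def chi (A B : Matrix (Fin 3) (Fin 3) M) : Polynomial M :=
  ((Polynomial.X : Polynomial M) • A.map Polynomial.C + B.map Polynomial.C).det

noncomputable def cor (A B : Matrix (Fin 3) (Fin 3) M) : Polynomial M :=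
  ((Polynomial.X : Polynomial M) • A.map Polynomial.C + B.map Polynomial.C).adjugate 0 0

end

section

variable {R : Type*} [CommRing R]

/-- The first projection of the parametrisation. -/
def xh (A B : Matrix (Fin 3) (Fin 3) R) (x : Fin 3 → R) (c c' e : R) : Fin 3 → R :=
  x ᵥ* ((c' • A + e • B) * (c • A + e • B).adjugate)

/-- The second projection of the parametrisation. -/
def xh' (A B : Matrix (Fin 3) (Fin 3) R) (x' : Fin 3 → R) (c c' e : R) : Fin 3 → R :=
  ((c' • A + e • B).adjugate * (c • A + e • B)) *ᵥ x'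

def d3 (x y z : Fin 3 → R) : R := (Matrix.of ![x, y, z]).det

end

section

variable {R : Type*} [CommRing R]

theorem Spec_adj (A B : Matrix (Fin 3) (Fin 3) R) (t : R) : (t • A + B).adjugate =
    t ^ 2 • A.adjugate + t • ((A + B).adjugate - A.adjugate - B.adjugate) + B.adjugate := by
  ext i j
  fin_cases i <;> fin_cases j <;> simp [adjugate_fin_three] <;> ring

theorem Spec_lag (A B : Matrix (Fin 3) (Fin 3) R) (a b c : R) :
    (b - c) • (a • A + B).adjugate + (c - a) • (b • A + B).adjugate +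
      (a - b) • (c • A + B).adjugate = (-((a - b) * (b - c) * (c - a))) • A.adjugate := by
  rw [Spec_adj A B a, Spec_adj A B b, Spec_adj A B c]
  module

theorem Spec_minor {N : Matrix (Fin 3) (Fin 3) R} (h : N.det = 0) (a b c d : Fin 3) :
    N.adjugate a b * N.adjugate c d = N.adjugate a d * N.adjugate c b := by
  have h1 : N.adjugate.adjugate = 0 := by
    rw [adjugate_adjugate _ (by simp), h]
    simp
  generalize N.adjugate = P at h1
  rw [adjugate_fin_three] at h1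
  have e00 : P 1 1 * P 2 2 - P 1 2 * P 2 1 = 0 := congrFun (congrFun h1 0) 0
  have e01 : -(P 0 1 * P 2 2) + P 0 2 * P 2 1 = 0 := congrFun (congrFun h1 0) 1
  have e02 : P 0 1 * P 1 2 - P 0 2 * P 1 1 = 0 := congrFun (congrFun h1 0) 2
  have e10 : -(P 1 0 * P 2 2) + P 1 2 * P 2 0 = 0 := congrFun (congrFun h1 1) 0
  have e11 : P 0 0 * P 2 2 - P 0 2 * P 2 0 = 0 := congrFun (congrFun h1 1) 1
  have e12 : -(P 0 0 * P 1 2) + P 0 2 * P 1 0 = 0 := congrFun (congrFun h1 1) 2
  have e20 : P 1 0 * P 2 1 - P 1 1 * P 2 0 = 0 := congrFun (congrFun h1 2) 0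
  have e21 : -(P 0 0 * P 2 1) + P 0 1 * P 2 0 = 0 := congrFun (congrFun h1 2) 1
  have e22 : P 0 0 * P 1 1 - P 0 1 * P 1 0 = 0 := congrFun (congrFun h1 2) 2
  have k : ∀ b d : Fin 3, P 0 b * P 1 d = P 0 d * P 1 b ∧ P 0 b * P 2 d = P 0 d * P 2 b ∧
      P 1 b * P 2 d = P 1 d * P 2 b := by
    have f00 := sub_eq_zero.1 e00
    have f01 := neg_add_eq_zero.1 e01
    have f02 := sub_eq_zero.1 e02
    have f10 := neg_add_eq_zero.1 e10
    have f11 := sub_eq_zero.1 e11
    have f12 := neg_add_eq_zero.1 e12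
    have f20 := sub_eq_zero.1 e20
    have f21 := neg_add_eq_zero.1 e21
    have f22 := sub_eq_zero.1 e22
    intro b d
    fin_cases b <;> fin_cases d
    exacts [⟨rfl, rfl, rfl⟩, ⟨f22, f21, f20⟩, ⟨f12, f11, f10⟩, ⟨f22.symm, f21.symm, f20.symm⟩,
      ⟨rfl, rfl, rfl⟩, ⟨f02, f01, f00⟩, ⟨f12.symm, f11.symm, f10.symm⟩,
      ⟨f02.symm, f01.symm, f00.symm⟩, ⟨rfl, rfl, rfl⟩]
  have s : ∀ {x y z w : R}, x * y = z * w → y * x = w * z := fun h => by
    rw [mul_comm, h, mul_comm]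
  fin_cases a <;> fin_cases c
  exacts [mul_comm _ _, (k b d).1, (k b d).2.1, s (k d b).1, mul_comm _ _, (k b d).2.2,
    s (k d b).2.1, s (k d b).2.2, mul_comm _ _]

theorem Spec_xh (A B : Matrix (Fin 3) (Fin 3) R) (x : Fin 3 → R) (c c' e : R) :
    xh A B x (e * c) (e * c') e = e ^ 3 • (x ᵥ* ((c' • A + B) * (c • A + B).adjugate)) := by
  have h : ∀ t : R, (e * t) • A + e • B = e • (t • A + B) := fun t => by
    rw [smul_add, mul_smul]
  rw [xh, h, h, adjugate_smul, smul_mul_smul_comm, vecMul_smul, Fintype.card_fin]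
  congr 1
  ring

theorem Spec_xh' (A B : Matrix (Fin 3) (Fin 3) R) (x : Fin 3 → R) (c c' e : R) :
    xh' A B x (e * c) (e * c') e = e ^ 3 • (((c' • A + B).adjugate * (c • A + B)) *ᵥ x) := by
  have h : ∀ t : R, (e * t) • A + e • B = e • (t • A + B) := fun t => by
    rw [smul_add, mul_smul]
  rw [xh', h, h, adjugate_smul, smul_mul_smul_comm, smul_mulVec, Fintype.card_fin]
  congr 1
  ring

theorem Spec_d3 (a b c s t u : Fin 3 → R) : d3 a b c * d3 s t u =
    d3 ![a ⬝ᵥ s, a ⬝ᵥ t, a ⬝ᵥ u] ![b ⬝ᵥ s, b ⬝ᵥ t, b ⬝ᵥ u] ![c ⬝ᵥ s, c ⬝ᵥ t, c ⬝ᵥ u] := by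
  simp [d3, det_fin_three, dotProduct, Fin.sum_univ_three]
  ring

theorem Spec_d3' (h1 h2 k1 k2 r0 r1 r2 : R) :
    d3 ![0, h1, h2] ![0, k1, k2] ![r0, r1, r2] = r0 * (h1 * k2 - h2 * k1) := by
  simp [d3, det_fin_three]
  ring

end

section

variable {M L : Type*} [Field M] [Field L]

theorem Spec_row {P : Matrix (Fin 3) (Fin 3) L} (h : ∀ a b c d, P a b * P c d = P a d * P c b)
    {w₀ : Fin 3 → L} (h0 : w₀ ᵥ* P ≠ 0) (w : Fin 3 → L) : ∃ l : L, w ᵥ* P = l • (w₀ ᵥ* P) := by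
  obtain ⟨d, hd⟩ := Function.ne_iff.1 h0
  have hd' : (w₀ ᵥ* P) d ≠ 0 := hd
  refine ⟨(w ᵥ* P) d / (w₀ ᵥ* P) d, funext fun b => ?_⟩
  rw [Pi.smul_apply, smul_eq_mul, div_mul_eq_mul_div, eq_div_iff hd']
  simp only [vecMul, dotProduct, Finset.sum_mul_sum]
  refine Finset.sum_congr rfl fun a _ => Finset.sum_congr rfl fun c _ => ?_
  linear_combination (w a * w₀ c) * h a b c d

theorem Spec_span {A B : Matrix (Fin 3) (Fin 3) L} (hA : A.det ≠ 0) {θ : Fin 3 → L}
    (hθ : Function.Injective θ) (u : Fin 3 → L) : ∃ c : Fin 3 → L, (∀ i, c i ≠ 0) ∧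
      u = ∑ i, c i • ((u ᵥ* A) ᵥ* (θ i • A + B).adjugate) := by
  have h01 : θ 0 - θ 1 ≠ 0 := sub_ne_zero.2 (hθ.ne (by decide))
  have h12 : θ 1 - θ 2 ≠ 0 := sub_ne_zero.2 (hθ.ne (by decide))
  have h20 : θ 2 - θ 0 ≠ 0 := sub_ne_zero.2 (hθ.ne (by decide))
  have hD : -((θ 0 - θ 1) * (θ 1 - θ 2) * (θ 2 - θ 0)) * A.det ≠ 0 :=
    mul_ne_zero (neg_ne_zero.2 (mul_ne_zero (mul_ne_zero h01 h12) h20)) hA
  have h := congrArg (fun P => (u ᵥ* A) ᵥ* P) (Spec_lag A B (θ 0) (θ 1) (θ 2))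
  simp only [vecMul_add, vecMul_smul] at h
  rw [vecMul_vecMul u A A.adjugate, mul_adjugate, vecMul_smul, vecMul_one, smul_smul] at h
  generalize -((θ 0 - θ 1) * (θ 1 - θ 2) * (θ 2 - θ 0)) * A.det = D at h hD
  refine ⟨![D⁻¹ * (θ 1 - θ 2), D⁻¹ * (θ 2 - θ 0), D⁻¹ * (θ 0 - θ 1)], fun i => ?_, ?_⟩
  · fin_cases i
    · exact mul_ne_zero (inv_ne_zero hD) h12
    · exact mul_ne_zero (inv_ne_zero hD) h20
    · exact mul_ne_zero (inv_ne_zero hD) h01
  · rw [Fin.sum_univ_three]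
    simp only [Matrix.cons_val_zero, Matrix.cons_val_one, Matrix.cons_val, mul_smul]
    rw [← smul_add, ← smul_add, h, smul_smul, inv_mul_cancel₀ hD, one_smul]

variable [Algebra M L]

theorem Spec_quad {χ : Polynomial M} (hχ : Irreducible χ) (h3 : χ.natDegree = 3) {θ : L}
    (h : Polynomial.aeval θ χ = 0) {a b c : M}
    (hq : algebraMap M L a * θ ^ 2 + algebraMap M L b * θ + algebraMap M L c = 0) : a = 0 := by
  have hq' : Polynomial.aeval θ (Polynomial.C a * Polynomial.X ^ 2 + Polynomial.C b * Polynomial.X +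
      Polynomial.C c) = 0 := by simpa using hq
  by_contra ha
  have h2 := Polynomial.natDegree_quadratic (b := b) (c := c) ha
  rcases hχ.isCoprime_or_dvd (Polynomial.C a * Polynomial.X ^ 2 + Polynomial.C b * Polynomial.X +
      Polynomial.C c) with hc | hd
  · exact (Polynomial.aeval_ne_zero_of_isCoprime hc θ).elim (fun e => e h) fun e => e hq'
  · have := Polynomial.natDegree_le_of_dvd hd fun e => by rw [e] at h2; simp at h2
    omega

theorem Spec_deg {A B : Matrix (Fin 3) (Fin 3) M} (hA : A.det ≠ 0) : (chi A B).natDegree = 3 := by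
  have h1 := Polynomial.natDegree_det_X_add_C_le A B
  have h2 := Polynomial.coeff_det_X_add_C_card A B
  rw [Fintype.card_fin] at h1 h2
  exact le_antisymm h1 (Polynomial.le_natDegree_of_ne_zero (h2 ▸ hA))

theorem Spec_aeval (A B : Matrix (Fin 3) (Fin 3) M) (θ : L) : Polynomial.aeval θ (chi A B) =
    (θ • A.map (algebraMap M L) + B.map (algebraMap M L)).det := by
  rw [chi, map_det']
  congr 1
  ext i j
  simp only [Matrix.map_apply, Matrix.add_apply, Matrix.smul_apply, smul_eq_mul, map_add, map_mul,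
    Polynomial.aeval_X, Polynomial.aeval_C]

theorem Spec_chi_tr (A B : Matrix (Fin 3) (Fin 3) M) : chi Aᵀ Bᵀ = chi A B := by
  rw [chi, chi, ← det_transpose]
  rfl

theorem Spec_ne {A B : Matrix (Fin 3) (Fin 3) M} (hA : A.det ≠ 0) (hχ : Irreducible (chi A B))
    {θ : L} (hθ : (θ • A.map (algebraMap M L) + B.map (algebraMap M L)).det = 0) {u : Fin 3 → M}
    (hu : u ≠ 0) : ((fun i => algebraMap M L (u i)) ᵥ* A.map (algebraMap M L)) ᵥ*
      (θ • A.map (algebraMap M L) + B.map (algebraMap M L)).adjugate ≠ 0 := by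
  intro h
  have e : ∀ (v : Fin 3 → M) (P : Matrix (Fin 3) (Fin 3) M),
      (fun i => algebraMap M L (v i)) ᵥ* P.map (algebraMap M L) =
        fun j => algebraMap M L ((v ᵥ* P) j) := fun v P => by
    funext j
    simp [vecMul, dotProduct]
  rw [Spec_adj, ← Matrix.map_add _ (map_add _), ← map_adj', ← map_adj', ← map_adj',
    ← Matrix.map_sub _ (map_sub _), ← Matrix.map_sub _ (map_sub _), e, vecMul_add, vecMul_add,
    vecMul_smul, vecMul_smul, e, e, e] at h
  have h1 : (u ᵥ* A) ᵥ* A.adjugate = 0 := funext fun j =>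
    Spec_quad hχ (Spec_deg hA) ((Spec_aeval A B θ).trans hθ)
      (b := ((u ᵥ* A) ᵥ* ((A + B).adjugate - A.adjugate - B.adjugate)) j)
      (c := ((u ᵥ* A) ᵥ* B.adjugate) j) (by
        have := congrFun h j
        simp only [Pi.add_apply, Pi.smul_apply, smul_eq_mul, Pi.zero_apply] at this
        linear_combination this)
  rw [vecMul_vecMul, mul_adjugate, vecMul_smul, vecMul_one] at h1
  exact hu ((smul_eq_zero.1 h1).resolve_left hA)

theorem Spec_roots [CharZero M] {A B : Matrix (Fin 3) (Fin 3) M} (hA : A.det ≠ 0)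
    (hχ : Irreducible (chi A B)) : ∃ (θ : Fin 3 → AlgebraicClosure M) (c : AlgebraicClosure M),
      Function.Injective θ ∧ (∀ i, (θ i • A.map (algebraMap M (AlgebraicClosure M)) +
        B.map (algebraMap M (AlgebraicClosure M))).det = 0) ∧
      (c • A.map (algebraMap M (AlgebraicClosure M)) +
        B.map (algebraMap M (AlgebraicClosure M))).det ≠ 0 := by
  have h := Polynomial.card_rootSet_eq_natDegree (K := AlgebraicClosure M) hχ.separable
    (IsAlgClosed.splits _)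
  rw [Spec_deg hA] at h
  obtain ⟨c, hc⟩ := (Polynomial.rootSet_finite (chi A B) (AlgebraicClosure M)).exists_notMem
  refine ⟨fun i => ((Fintype.equivFinOfCardEq h).symm i).1, c,
    Subtype.val_injective.comp (Equiv.injective _), fun i => ?_, fun e => hc ?_⟩
  · rw [← Spec_aeval]
    exact Polynomial.aeval_eq_zero_of_mem_rootSet ((Fintype.equivFinOfCardEq h).symm i).2
  · rw [Polynomial.mem_rootSet_of_ne hχ.ne_zero, Spec_aeval]
    exact e

theorem Spec_pick {α α' c c' : L} (hα : α ≠ α') (hc : c ≠ c') :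
    ∃ y0 y1 : L, y1 ≠ 0 ∧ y0 + α = y1 * c ∧ y0 + α' = y1 * c' := by
  have h1 : c' - c ≠ 0 := sub_ne_zero.2 hc.symm
  refine ⟨(α' - α) / (c' - c) * c - α, (α' - α) / (c' - c),
    div_ne_zero (sub_ne_zero.2 hα.symm) h1, by ring, ?_⟩
  field_simp
  ring

end

section

variable {M : Type*} [Field M] [CharZero M]

theorem spec_bil (A B : Matrix (Fin 3) (Fin 3) M) (hA : A.det ≠ 0) (hχ : Irreducible (chi A B))
    (hc : cor A B ≠ 0) (x x' : Fin 3 → M) (hx : x ≠ 0) (hx' : x' ≠ 0) (α α' : M) (hα : α ≠ α')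
    (Φ : Matrix (Fin 3) (Fin 3) M) (hΦ : Φ ≠ 0) (n : Fin 3 → M) (hn : n ≠ 0) (hnΦ : n ᵥ* Φ = 0) :
    ∃ y0 y1 : AlgebraicClosure M,
      xh (A.map (algebraMap M _)) (B.map (algebraMap M _)) (fun i => algebraMap M _ (x i))
          (y0 + algebraMap M _ α) (y0 + algebraMap M _ α') y1 ⬝ᵥ Φ.map (algebraMap M _) *ᵥ
        xh' (A.map (algebraMap M _)) (B.map (algebraMap M _)) (fun i => algebraMap M _ (x' i))
          (y0 + algebraMap M _ α) (y0 + algebraMap M _ α') y1 ≠ 0 := by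
  by_contra hcon
  push Not at hcon
  obtain ⟨θ, -, hθ, hr, -⟩ := Spec_roots hA hχ
  have hA1 : (A.map (algebraMap M (AlgebraicClosure M))).det ≠ 0 := by
    rw [← map_det']
    exact (map_ne_zero _).2 hA
  have hrow := fun i (u : Fin 3 → M) (hu : u ≠ 0) => Spec_ne hA hχ (hr i) hu
  have hrT : ∀ i, (θ i • (A.map (algebraMap M (AlgebraicClosure M)))ᵀ +
      (B.map (algebraMap M (AlgebraicClosure M)))ᵀ).det = 0 := fun i => by
    rw [← transpose_smul, ← transpose_add, det_transpose, hr]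
  have hcol := fun i => Spec_ne (A := Aᵀ) (B := Bᵀ) (by rwa [det_transpose])
    (by rwa [Spec_chi_tr]) (hrT i) hx'
  have hn' : (fun i => algebraMap M (AlgebraicClosure M) (n i)) ᵥ*
      Φ.map (algebraMap M (AlgebraicClosure M)) = 0 := by
    funext j
    have := congrArg (algebraMap M (AlgebraicClosure M)) (congrFun hnΦ j)
    simpa [vecMul, dotProduct] using this
  have hΦ' : Φ.map (algebraMap M (AlgebraicClosure M)) ≠ 0 := fun e => hΦ (by
    ext i j
    simpa using congrFun (congrFun e i) j)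
  have hα' := (algebraMap M (AlgebraicClosure M)).injective.ne hα
  have hx1 := fun i => hrow i x hx
  have hn1 := fun i => hrow i n hn
  simp only [transpose_map] at hcol
  clear hrow
  generalize A.map (algebraMap M (AlgebraicClosure M)) = A' at *
  generalize B.map (algebraMap M (AlgebraicClosure M)) = B' at *
  generalize Φ.map (algebraMap M (AlgebraicClosure M)) = Φ' at *
  generalize (fun i => algebraMap M (AlgebraicClosure M) (x i)) = X at *
  generalize (fun i => algebraMap M (AlgebraicClosure M) (x' i)) = X' at *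
  generalize (fun i => algebraMap M (AlgebraicClosure M) (n i)) = N at *
  let r : Fin 3 → Fin 3 → AlgebraicClosure M := fun i => (X ᵥ* A') ᵥ* (θ i • A' + B').adjugate
  let s : Fin 3 → Fin 3 → AlgebraicClosure M := fun i => (X' ᵥ* A'ᵀ) ᵥ* (θ i • A'ᵀ + B'ᵀ).adjugate
  have off : ∀ i k, i ≠ k → r i ⬝ᵥ Φ' *ᵥ s k = 0 := by
    intro i k hik
    obtain ⟨y0, y1, h1, h2, h3⟩ := Spec_pick hα' (hθ.ne hik)
    have h4 := hcon y0 y1
    have e1 : θ k • A' + B' = (θ k - θ i) • A' + (θ i • A' + B') := by module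
    have e2 : θ i • A' + B' = (θ i - θ k) • A' + (θ k • A' + B') := by module
    have e3 : X ᵥ* ((θ k • A' + B') * (θ i • A' + B').adjugate) = (θ k - θ i) • r i := by
      rw [e1, Matrix.add_mul, mul_adjugate, hr, zero_smul, add_zero, smul_mul_assoc, vecMul_smul,
        ← vecMul_vecMul]
    have e4 : ((θ k • A' + B').adjugate * (θ i • A' + B')) *ᵥ X' = (θ i - θ k) • s k := by
      rw [e2, Matrix.mul_add, adjugate_mul, hr, zero_smul, add_zero, mul_smul_comm, smul_mulVec,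
        ← mulVec_mulVec]
      simp only [s]
      rw [← transpose_smul, ← transpose_add, ← adjugate_transpose, vecMul_transpose,
        vecMul_transpose]
    rw [h2, h3, Spec_xh, Spec_xh', e3, e4] at h4
    simp only [mulVec_smul, smul_dotProduct, dotProduct_smul, smul_eq_mul, mul_eq_zero,
      pow_eq_zero_iff (three_ne_zero), h1, sub_eq_zero, hθ.ne hik, hθ.ne hik.symm, false_or] at h4
    exact h4
  have spanr : ∀ u : Fin 3 → AlgebraicClosure M, ∃ l : Fin 3 → AlgebraicClosure M,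
      u = ∑ i, l i • r i ∧ ∀ i, l i = 0 → (u ᵥ* A') ᵥ* (θ i • A' + B').adjugate = 0 := by
    intro u
    obtain ⟨c, hc0, hu⟩ := Spec_span (B := B') hA1 hθ u
    choose l hl using fun i => Spec_row (Spec_minor (hr i)) (hx1 i) (u ᵥ* A')
    refine ⟨fun i => c i * l i, ?_, fun i hi => ?_⟩
    · simp only [hl, smul_smul] at hu
      exact hu
    · rw [hl, (mul_eq_zero.1 hi).resolve_left (hc0 i), zero_smul]
  have spans : ∀ u : Fin 3 → AlgebraicClosure M, ∃ l : Fin 3 → AlgebraicClosure M,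
      u = ∑ i, l i • s i := by
    intro u
    obtain ⟨c, -, hu⟩ := Spec_span (A := A'ᵀ) (B := B'ᵀ) (by rwa [det_transpose]) hθ u
    choose l hl using fun i => Spec_row (Spec_minor (hrT i)) (hcol i) (u ᵥ* A'ᵀ)
    refine ⟨fun i => c i * l i, ?_⟩
    simp only [hl, smul_smul] at hu
    exact hu
  have all : ∀ i k, r i ⬝ᵥ Φ' *ᵥ s k = 0 := by
    intro i k
    by_cases hik : i = k
    · subst hik
      obtain ⟨l, hl, hl0⟩ := spanr N
      have h1 : N ⬝ᵥ Φ' *ᵥ s i = 0 := by rw [dotProduct_mulVec, hn', zero_dotProduct]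
      rw [hl, sum_dotProduct, Finset.sum_eq_single i (fun j _ hj => by
        rw [smul_dotProduct, off j i hj, smul_zero]) (by simp), smul_dotProduct] at h1
      exact (smul_eq_zero.1 h1).resolve_left fun e => hn1 i (hl0 i e)
    · exact off i k hik
  apply hΦ'
  ext a b
  obtain ⟨l, hl, -⟩ := spanr (Pi.single a 1)
  obtain ⟨m, hm⟩ := spans (Pi.single b 1)
  have h1 : Pi.single a 1 ⬝ᵥ Φ' *ᵥ Pi.single b 1 = 0 := by
    rw [hl, hm]
    simp only [sum_dotProduct, smul_dotProduct, mulVec_sum, mulVec_smul, dotProduct_sum,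
      dotProduct_smul, all, smul_zero, Finset.sum_const_zero]
  simpa using h1

theorem spec_det (A B : Matrix (Fin 3) (Fin 3) M) (hA : A.det ≠ 0) (hχ : Irreducible (chi A B))
    (hc : cor A B ≠ 0) (x : Fin 3 → M) (hx : x ≠ 0) (α α' : M) (hα : α ≠ α') :
    ∃ y0 y1 : AlgebraicClosure M,
      d3 (xh (A.map (algebraMap M _)) (B.map (algebraMap M _)) (fun i => algebraMap M _ (x i))
          (y0 + algebraMap M _ α) (y0 + algebraMap M _ α') y1 ᵥ* A.map (algebraMap M _))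
        (xh (A.map (algebraMap M _)) (B.map (algebraMap M _)) (fun i => algebraMap M _ (x i))
          (y0 + algebraMap M _ α) (y0 + algebraMap M _ α') y1 ᵥ* B.map (algebraMap M _))
        ((fun i => algebraMap M _ (x i)) ᵥ* A.map (algebraMap M _)) ≠ 0 := by
  obtain ⟨θ, c, hθ, hr, hc0⟩ := Spec_roots hA hχ
  have hx1 := fun i => Spec_ne hA hχ (hr i) hx
  have hα' := (algebraMap M (AlgebraicClosure M)).injective.ne hα
  generalize A.map (algebraMap M (AlgebraicClosure M)) = A' at *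
  generalize B.map (algebraMap M (AlgebraicClosure M)) = B' at *
  generalize (fun i => algebraMap M (AlgebraicClosure M) (x i)) = X at *
  have hcθ : ∀ i, c ≠ θ i := fun i e => hc0 (e ▸ hr i)
  obtain ⟨y0, y1, h1, h2, h3⟩ := Spec_pick hα' (hcθ 0)
  refine ⟨y0, y1, fun h => ?_⟩
  rw [h2, h3, Spec_xh] at h
  choose j hj using fun i => Function.ne_iff.1 (hx1 i)
  let s : Fin 3 → Fin 3 → AlgebraicClosure M := fun i =>
    (θ i • A' + B').adjugate *ᵥ Pi.single (j i) 1
  have hρ : ∀ i, (X ᵥ* A') ⬝ᵥ s i ≠ 0 := fun i => by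
    rw [dotProduct_mulVec, dotProduct_single, mul_one]
    exact hj i
  have hB : ∀ i, B' *ᵥ s i = (-θ i) • (A' *ᵥ s i) := fun i => by
    have h4 : (θ i • A' + B') *ᵥ s i = 0 := by
      rw [mulVec_mulVec, mul_adjugate, hr, zero_smul, zero_mulVec]
    rw [add_mulVec, smul_mulVec] at h4
    rw [neg_smul]
    exact eq_neg_of_add_eq_zero_right h4
  have hN : ∀ t i, (t • A' + B') *ᵥ s i = (t - θ i) • (A' *ᵥ s i) := fun t i => by
    rw [add_mulVec, smul_mulVec, hB]
    module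
  obtain ⟨w, hw⟩ : ∃ w, w = X ᵥ* ((θ 0 • A' + B') * (c • A' + B').adjugate) := ⟨_, rfl⟩
  rw [← hw] at h
  have hh : ∀ i, (c - θ i) * (w ⬝ᵥ A' *ᵥ s i) =
      (c • A' + B').det * ((θ 0 - θ i) * ((X ᵥ* A') ⬝ᵥ s i)) := fun i => by
    rw [← smul_eq_mul, ← dotProduct_smul, ← hN, dotProduct_mulVec, hw, vecMul_vecMul,
      Matrix.mul_assoc, adjugate_mul, mul_smul_comm, Matrix.mul_one, vecMul_smul, smul_dotProduct,
      ← dotProduct_mulVec, hN, dotProduct_smul, dotProduct_mulVec, smul_eq_mul, smul_eq_mul]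
  have h0 : w ⬝ᵥ A' *ᵥ s 0 = 0 := by
    have := hh 0
    rw [sub_self, zero_mul, mul_zero] at this
    exact (mul_eq_zero.1 this).resolve_left (sub_ne_zero.2 (hcθ 0))
  have hne : ∀ i, i ≠ 0 → w ⬝ᵥ A' *ᵥ s i ≠ 0 := fun i hi e => by
    have := hh i
    rw [e, mul_zero] at this
    exact mul_ne_zero hc0 (mul_ne_zero (sub_ne_zero.2 (hθ.ne hi.symm)) (hρ i)) this.symm
  have h5 := Spec_d3 ((y1 ^ 3 • w) ᵥ* A') ((y1 ^ 3 • w) ᵥ* B') (X ᵥ* A') (s 0) (s 1) (s 2)
  rw [h, zero_mul] at h5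
  simp only [← dotProduct_mulVec (y1 ^ 3 • w), hB, dotProduct_smul, smul_dotProduct, h0,
    smul_eq_mul, mul_zero, Spec_d3'] at h5
  have h6 : (X ᵥ* A') ⬝ᵥ s 0 * ((y1 ^ 3) ^ 2 * ((w ⬝ᵥ A' *ᵥ s 1) * ((w ⬝ᵥ A' *ᵥ s 2) *
      (θ 1 - θ 2)))) = 0 := by
    linear_combination -h5
  exact mul_ne_zero (hρ 0) (mul_ne_zero (pow_ne_zero _ (pow_ne_zero _ h1))
    (mul_ne_zero (hne 1 (by decide)) (mul_ne_zero (hne 2 (by decide))
      (sub_ne_zero.2 (hθ.ne (by decide)))))) h6

end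

section

variable {K : Type*} [CommRing K]

abbrev QA (a b : K) := QuadraticAlgebra K a b

def tv (a b : K) : Fin 2 → QA a b := ![1, QuadraticAlgebra.omega]

def sv (a b : K) : Fin 2 → QA a b := ![1, star QuadraticAlgebra.omega]

def mv (a b : K) : Fin 3 → K := ![1, b, -a]

def A1Q (θ : Th → K) (a b : K) : Matrix (Fin 3) (Fin 3) (QA a b) :=
  A1 (fun s => algebraMap K _ (θ s)) (fun k => algebraMap K _ (mv a b k)) (sv a b) (tv a b)

def A2Q (θ : Th → K) (a b : K) : Matrix (Fin 3) (Fin 3) (QA a b) :=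
  AA (fun s => algebraMap K _ (θ s)) (fun k => algebraMap K _ (mv a b k)) (sv a b) (tv a b) 0

theorem Spec_star (a b : K) (k : K) : star (algebraMap K (QA a b) k) = algebraMap K (QA a b) k := by
  ext <;> simp

theorem Spec_mu (a b : K) : (fun k => algebraMap K (QA a b) (mv a b k)) =
    ![sv a b 0 * tv a b 0, sv a b 0 * tv a b 1 + sv a b 1 * tv a b 0, sv a b 1 * tv a b 1] := by
  funext k
  fin_cases k <;> ext <;> simp [mv, sv, tv]

theorem A1Q_skew (θ : Th → K) (a b : K) : (A1Q θ a b)ᴴ = -A1Q θ a b := by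
  ext i j : 1
  fin_cases i <;> fin_cases j <;>
    simp [A1Q, A1, sv, tv, conjTranspose_apply, ← map_lf, Spec_star]

theorem A2Q_skew (θ : Th → K) (a b : K) : (A2Q θ a b)ᴴ = -A2Q θ a b := by
  have h : Rr (fun s => algebraMap K (QA a b) (θ s)) (fun k => algebraMap K _ (mv a b k)) 0 =
      algebraMap K _ (Rr θ (mv a b) 0) := by rw [map_Rr, map_zero]
  ext i j : 1
  fin_cases i <;> fin_cases j <;>
    simp [A2Q, AA, sv, tv, conjTranspose_apply, ← map_lf, h, Spec_star] <;> ring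

end

section

variable {K : Type*} [Field K] [CharZero K] (a b : K) [Fact (∀ r : K, r ^ 2 ≠ a + b * r)]

theorem Gp_natDegree (θ : Th → K) (μ : Fin 3 → K) (hν : lf θ 10 μ ≠ 0) :
    (Gp θ μ).natDegree = 3 := by
  rw [Gp_eq]
  exact Polynomial.natDegree_cubic (mul_ne_zero (by norm_num) hν)

theorem omega_ne : star (QuadraticAlgebra.omega : QA a b) ≠ QuadraticAlgebra.omega := by
  intro h
  have h1 := congrArg QuadraticAlgebra.im h
  simp only [QuadraticAlgebra.im_star, QuadraticAlgebra.omega_im] at h1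
  norm_num at h1

theorem A1Q_det (θ : Th → K) (hν : lf θ 10 (mv a b) ≠ 0) : (A1Q θ a b).det ≠ 0 := by
  have h : (A1Q θ a b).det = algebraMap K _ (lf θ 10 (mv a b)) *
      (star QuadraticAlgebra.omega - QuadraticAlgebra.omega) := by
    simp [A1Q, A1, sv, tv, det_fin_three, ← map_lf]
    ring
  rw [h]
  exact mul_ne_zero ((map_ne_zero _).2 hν) (sub_ne_zero.2 (omega_ne a b))

theorem chi_irr (θ : Th → K) (hν : lf θ 10 (mv a b) ≠ 0) (h : Irreducible (Gp θ (mv a b))) :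
    Irreducible (chi (A1Q θ a b) (A2Q θ a b)) := by
  refine Polynomial.irreducible_of_degree_le_three_of_not_isRoot
    (by rw [Spec_deg (A1Q_det a b θ hν)]; decide) fun r hr => ?_
  have h1 := Spec_aeval (L := QA a b) (A1Q θ a b) (A2Q θ a b) r
  rw [Polynomial.coe_aeval_eq_eval, hr.eq_zero, Algebra.algebraMap_self, RingHom.coe_id,
    Matrix.map_id, Matrix.map_id, A1Q, A2Q, ← AA_eq, Spec_mu] at h1
  have h2 := det_AA (fun s => algebraMap K (QA a b) (θ s)) (sv a b) (tv a b) r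
  rw [← h1, mul_zero, ← Spec_mu] at h2
  have h3 : -(sv a b 0 * tv a b 1 - sv a b 1 * tv a b 0) ≠ 0 := by
    simpa [sv, tv, sub_eq_zero] using omega_ne a b
  have h4 : Polynomial.aeval r (Gp θ (mv a b)) = 0 := by
    rw [Gp, map_GG]
    simpa using (mul_eq_zero.1 h2.symm).resolve_left h3
  have h5 := QuadraticAlgebra.sq_sub_trace_smul_add_norm_eq_zero (z := r)
  refine one_ne_zero (Spec_quad h (Gp_natDegree θ _ hν) h4 (b := -QuadraticAlgebra.trace r)
    (c := QuadraticAlgebra.norm r) ?_)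
  rw [Algebra.smul_def] at h5
  rw [map_one, map_neg]
  linear_combination h5

theorem cor_ne (θ : Th → K) (hν : lf θ 10 (mv a b) ≠ 0) : cor (A1Q θ a b) (A2Q θ a b) ≠ 0 := by
  intro h
  have e : ∀ A B : Matrix (Fin 3) (Fin 3) (QA a b), cor A B =
      Polynomial.C (A 1 1 * A 2 2 - A 1 2 * A 2 1) * Polynomial.X ^ 2 +
      Polynomial.C (A 1 1 * B 2 2 + B 1 1 * A 2 2 - A 1 2 * B 2 1 - B 1 2 * A 2 1) * Polynomial.X +
      Polynomial.C (B 1 1 * B 2 2 - B 1 2 * B 2 1) := fun A B => by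
    simp [cor, adjugate_fin_three]
    ring
  have h1 : A1Q θ a b 1 1 * A1Q θ a b 2 2 - A1Q θ a b 1 2 * A1Q θ a b 2 1 ≠ 0 := by
    simpa [A1Q, A1, ← map_lf] using hν
  have h2 := Polynomial.natDegree_quadratic (b := A1Q θ a b 1 1 * A2Q θ a b 2 2 +
    A2Q θ a b 1 1 * A1Q θ a b 2 2 - A1Q θ a b 1 2 * A2Q θ a b 2 1 - A2Q θ a b 1 2 * A1Q θ a b 2 1)
    (c := A2Q θ a b 1 1 * A2Q θ a b 2 2 - A2Q θ a b 1 2 * A2Q θ a b 2 1) h1
  rw [← e, h] at h2
  simp at h2

end

end Pool.Agent.GM16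
end

-- merged part: Pool.Agent.Work.MP_274aea_ag.Param
section
set_option autoImplicit false

open MvPolynomial Matrix

namespace Pool.Agent.GM16

section ParamRing
variable {R : Type*} [CommRing R]

def Param_U (ξ : Fin 3 → R) (σ : R) : Fin 5 → R :=
  ![ξ 1 * σ - ξ 2, ξ 1, ξ 0, ξ 2, ξ 2 * σ]

theorem Param_Hn (θ : Th → R) (ξ η : Fin 3 → R) (σ τ : R) :
    Hn θ (gp (Param_U ξ σ) (Param_U η τ)) =
      ξ ⬝ᵥ A1 θ ![1, σ + τ, σ * τ] ![1, σ] ![1, τ] *ᵥ η := by
  simp [Hn, gp, gc, pk, Param_U, A1, lf, dotProduct, mulVec, Fin.sum_univ_three]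
  ring

theorem Param_Qn (θ : Th → R) (ξ η : Fin 3 → R) (σ τ : R) :
    Qn θ (gp (Param_U ξ σ) (Param_U η τ)) (gp (Param_U ξ σ) (Param_U η τ)) =
      (ξ 1 * η 2 - ξ 2 * η 1) * (ξ ⬝ᵥ AA θ ![1, σ + τ, σ * τ] ![1, σ] ![1, τ] 0 *ᵥ η) := by
  simp [Qn, ll, gp, gc, pk, Param_U, AA, Rr, lf, dotProduct, mulVec, Fin.sum_univ_three]
  ring

theorem Param_n (ξ η : Fin 3 → R) (σ τ : R) (G : Fin 10 → R)
    (hG : G = gp (Param_U ξ σ) (Param_U η τ)) :
    ![G 0 * G 3 - G 1 * G 2, G 7 * (G 0 * τ - G 1), G 7 * (G 2 * τ - G 3)] =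
      (-(τ - σ) * η 0 * (ξ 1 * η 2 - ξ 2 * η 1)) • ξ := by
  subst hG
  funext i
  fin_cases i <;> simp [gp, gc, pk, Param_U] <;> ring

theorem Param_g7 (ξ η : Fin 3 → R) (σ τ : R) :
    gp (Param_U ξ σ) (Param_U η τ) 7 = ξ 1 * η 2 - ξ 2 * η 1 := by
  simp [gp, gc, pk, Param_U]

theorem Param_g8 (ξ η : Fin 3 → R) (σ τ : R) :
    gp (Param_U ξ σ) (Param_U η τ) 8 = (ξ 1 * η 2 - ξ 2 * η 1) * (σ + τ) := by
  simp [gp, gc, pk, Param_U]
  ring

theorem Param_g9 (ξ η : Fin 3 → R) (σ τ : R) :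
    gp (Param_U ξ σ) (Param_U η τ) 9 = (ξ 1 * η 2 - ξ 2 * η 1) * (σ * τ) := by
  simp [gp, gc, pk, Param_U]
  ring

theorem Param_p01 (ξ η : Fin 3 → R) (σ τ : R) :
    pk (Param_U ξ σ) (Param_U η τ) 0 1 = ξ ⬝ᵥ !![0, 0, 0; 0, σ - τ, 1; 0, -1, 0] *ᵥ η := by
  simp [pk, Param_U, dotProduct, mulVec, Fin.sum_univ_three]
  ring

theorem Param_Hn_smul (θ : Th → R) (κ : R) (g : Fin 10 → R) :
    Hn θ (fun i => κ * g i) = κ * Hn θ g := by
  simp [Hn, lf]
  ring

theorem Param_Qn_smul (θ : Th → R) (κ : R) (g : Fin 10 → R) :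
    Qn θ (fun i => κ * g i) (fun i => κ * g i) = κ ^ 2 * Qn θ g g := by
  simp [Qn, ll]
  ring

theorem Param_gc_smul (κ : R) (p q : Fin 5 → Fin 5 → R) (h : ∀ i j, p i j = κ * q i j)
    (i : Fin 10) : gc p i = κ * gc q i := by
  fin_cases i <;> simp [gc, h] <;> ring

theorem Param_d3_smul (ρ : R) (ξ z : Fin 3 → R) (A B : Matrix (Fin 3) (Fin 3) R) :
    d3 ((ρ • ξ) ᵥ* A) ((ρ • ξ) ᵥ* B) z = ρ ^ 2 * d3 (ξ ᵥ* A) (ξ ᵥ* B) z := by
  simp [d3, Matrix.det_fin_three, Matrix.smul_vecMul]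
  ring

theorem Param_d3_lin (u v z w : Fin 3 → R) (c e : R) :
    d3 u v (c • z + e • w) = c * d3 u v z + e * d3 u v w := by
  simp [d3, Matrix.det_fin_three]
  ring

theorem Param_d3_self (u v : Fin 3 → R) (c e : R) : d3 u v (c • u + e • v) = 0 := by
  simp [d3, Matrix.det_fin_three]
  ring

theorem Param_d3_dep (u v z : Fin 3 → R) (c e : R) (h : c • u + e • v = 0) :
    e * d3 u v z = 0 := by
  have h0 := congrFun h 0
  have h1 := congrFun h 1
  have h2 := congrFun h 2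
  simp only [Pi.add_apply, Pi.smul_apply, smul_eq_mul, Pi.zero_apply] at h0 h1 h2
  simp [d3, Matrix.det_fin_three]
  linear_combination (u 2 * z 1 - u 1 * z 2) * h0 + (u 0 * z 2 - u 2 * z 0) * h1 +
    (u 1 * z 0 - u 0 * z 1) * h2

theorem Param_d3_smul3 (u v z : Fin 3 → R) (c : R) : d3 u v (c • z) = c * d3 u v z := by
  simp [d3, Matrix.det_fin_three]
  ring

theorem Param_xh_S (A B : Matrix (Fin 3) (Fin 3) R) (x : Fin 3 → R) (c c' e : R) :
    xh A B x c c' e ᵥ* (c • A + e • B) = (c • A + e • B).det • (x ᵥ* (c' • A + e • B)) := by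
  rw [xh, Matrix.vecMul_vecMul, Matrix.mul_assoc, Matrix.adjugate_mul, Matrix.mul_smul,
    Matrix.mul_one, Matrix.vecMul_smul]

theorem Param_S_xh' (A B : Matrix (Fin 3) (Fin 3) R) (x' : Fin 3 → R) (c c' e : R) :
    (c' • A + e • B) *ᵥ xh' A B x' c c' e = (c' • A + e • B).det • ((c • A + e • B) *ᵥ x') := by
  rw [xh', Matrix.mulVec_mulVec, ← Matrix.mul_assoc, Matrix.mul_adjugate, Matrix.smul_mul,
    Matrix.one_mul, Matrix.smul_mulVec]

theorem Param_iso (A B : Matrix (Fin 3) (Fin 3) R) (x x' : Fin 3 → R) (c c' e : R)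
    (h1 : x ⬝ᵥ A *ᵥ x' = 0) (h2 : x ⬝ᵥ B *ᵥ x' = 0) :
    (c - c') * (xh A B x c c' e ⬝ᵥ A *ᵥ xh' A B x' c c' e) = 0 ∧
      c * (xh A B x c c' e ⬝ᵥ A *ᵥ xh' A B x' c c' e) +
        e * (xh A B x c c' e ⬝ᵥ B *ᵥ xh' A B x' c c' e) = 0 := by
  have hx : ∀ d : R, x ⬝ᵥ (d • A + e • B) *ᵥ x' = 0 := by
    intro d
    rw [Matrix.add_mulVec, Matrix.smul_mulVec, Matrix.smul_mulVec, dotProduct_add,
      dotProduct_smul, dotProduct_smul, h1, h2]
    simp
  have e1 : xh A B x c c' e ⬝ᵥ (c • A + e • B) *ᵥ xh' A B x' c c' e = 0 := by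
    rw [Matrix.dotProduct_mulVec, Param_xh_S, smul_dotProduct, ← Matrix.dotProduct_mulVec,
      Param_S_xh', dotProduct_smul, hx]
    simp
  have e2 : xh A B x c c' e ⬝ᵥ (c' • A + e • B) *ᵥ xh' A B x' c c' e = 0 := by
    rw [Param_S_xh', dotProduct_smul, Matrix.dotProduct_mulVec, Param_xh_S, smul_dotProduct,
      ← Matrix.dotProduct_mulVec, hx]
    simp
  rw [Matrix.add_mulVec, Matrix.smul_mulVec, Matrix.smul_mulVec, dotProduct_add,
    dotProduct_smul, dotProduct_smul, smul_eq_mul, smul_eq_mul] at e1 e2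
  exact ⟨by linear_combination e1 - e2, e1⟩

theorem Param_star [StarRing R] (A B : Matrix (Fin 3) (Fin 3) R) (hA : Aᴴ = -A) (hB : Bᴴ = -B)
    (x : Fin 3 → R) (c c' e : R) (hc : star c = c') (he : star e = e) :
    star (xh A B x c c' e) = -xh' A B (star x) c c' e := by
  have hc' : star c' = c := by rw [← hc, star_star]
  have h1 : (c • A + e • B)ᴴ = -(c' • A + e • B) := by
    rw [Matrix.conjTranspose_add, Matrix.conjTranspose_smul, Matrix.conjTranspose_smul, hA, hB,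
      hc, he]
    simp [add_comm]
  have h2 : (c' • A + e • B)ᴴ = -(c • A + e • B) := by
    rw [Matrix.conjTranspose_add, Matrix.conjTranspose_smul, Matrix.conjTranspose_smul, hA, hB,
      hc', he]
    simp [add_comm]
  have h3 : (-(c' • A + e • B)).adjugate = (c' • A + e • B).adjugate := by
    rw [← neg_one_smul R (c' • A + e • B), Matrix.adjugate_smul]
    simp
  rw [xh, xh', Matrix.star_vecMul, Matrix.conjTranspose_mul, Matrix.adjugate_conjTranspose, h1, h2,
    h3, Matrix.mul_neg, Matrix.neg_mulVec]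

theorem Param_d3_mem (S : Subring R) (x y z : Fin 3 → R) (hx : ∀ i, x i ∈ S) (hy : ∀ i, y i ∈ S)
    (hz : ∀ i, z i ∈ S) : d3 x y z ∈ S := by
  have : d3 x y z = x 0 * y 1 * z 2 - x 0 * y 2 * z 1 - x 1 * y 0 * z 2 + x 1 * y 2 * z 0 +
      x 2 * y 0 * z 1 - x 2 * y 1 * z 0 := by
    simp [d3, Matrix.det_fin_three]
  rw [this]
  apply_rules [sub_mem, add_mem, mul_mem]

theorem Param_vecMul_mem (S : Subring R) (x : Fin 3 → R) (A : Matrix (Fin 3) (Fin 3) R)
    (hx : ∀ i, x i ∈ S) (hA : ∀ i j, A i j ∈ S) (i : Fin 3) : (x ᵥ* A) i ∈ S := by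
  simp only [Matrix.vecMul, dotProduct]
  exact S.sum_mem fun j _ => S.mul_mem (hx j) (hA j i)

theorem Param_A1_mem (S : Subring R) (θ : Th → R) (μ : Fin 3 → R) (s t : Fin 2 → R)
    (hθ : ∀ i, θ i ∈ S) (hμ : ∀ i, μ i ∈ S) (hs : ∀ i, s i ∈ S) (ht : ∀ i, t i ∈ S)
    (i j : Fin 3) : A1 θ μ s t i j ∈ S := by
  have h := map_A1 S.subtype (fun i => ⟨θ i, hθ i⟩) (fun i => ⟨μ i, hμ i⟩)
    (fun i => ⟨s i, hs i⟩) (fun i => ⟨t i, ht i⟩)
  have h2 : S.subtype _ = A1 θ μ s t i j := congrFun (congrFun h i) j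
  rw [← h2]
  exact Subtype.property _

theorem Param_AA_mem (S : Subring R) (θ : Th → R) (μ : Fin 3 → R) (s t : Fin 2 → R)
    (hθ : ∀ i, θ i ∈ S) (hμ : ∀ i, μ i ∈ S) (hs : ∀ i, s i ∈ S) (ht : ∀ i, t i ∈ S)
    (i j : Fin 3) : AA θ μ s t 0 i j ∈ S := by
  have h := map_AA S.subtype (fun i => ⟨θ i, hθ i⟩) (fun i => ⟨μ i, hμ i⟩)
    (fun i => ⟨s i, hs i⟩) (fun i => ⟨t i, ht i⟩) 0
  have h2 : S.subtype _ = AA θ μ s t 0 i j := congrFun (congrFun h i) j
  rw [← h2]
  exact Subtype.property _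

theorem Param_gch_mem (S : Subring R) (Y : Fin 6 → R) (hY : ∀ i, Y i ∈ S) (i : Fin 10) :
    gch Y i ∈ S := by
  have h2 := map_gch S.subtype (fun i => (⟨Y i, hY i⟩ : S)) i
  have h3 : (fun i => S.subtype (⟨Y i, hY i⟩ : S)) = Y := rfl
  rw [h3] at h2
  rw [← h2]
  exact Subtype.property _

end ParamRing

theorem Param_chart {E : Type*} [Field E] (u v : Fin 5 → E) (h : pk u v 0 1 ≠ 0) :
    ∃ Y : Fin 6 → E, ∀ i, gp u v i = pk u v 0 1 * gch Y i := by
  obtain ⟨w, hw⟩ : ∃ w, w * pk u v 0 1 = 1 := ⟨_, inv_mul_cancel₀ h⟩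
  refine ⟨![w * pk u v 2 1, w * pk u v 3 1, w * pk u v 4 1,
    w * pk u v 0 2, w * pk u v 0 3, w * pk u v 0 4], fun i => ?_⟩
  have h0 : (![1, 0, w * pk u v 2 1, w * pk u v 3 1, w * pk u v 4 1] : Fin 5 → E) =
      fun k => w * pk u v k 1 := by
    funext k
    fin_cases k
    · exact hw.symm
    · show (0 : E) = w * (u 1 * v 1 - u 1 * v 1)
      ring
    all_goals rfl
  have h1 : (![0, 1, w * pk u v 0 2, w * pk u v 0 3, w * pk u v 0 4] : Fin 5 → E) =
      fun k => w * pk u v 0 k := by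
    funext k
    fin_cases k
    · show (0 : E) = w * (u 0 * v 0 - u 0 * v 0)
      ring
    · exact hw.symm
    all_goals rfl
  have h2 : gch ![w * pk u v 2 1, w * pk u v 3 1, w * pk u v 4 1,
      w * pk u v 0 2, w * pk u v 0 3, w * pk u v 0 4] =
      gp (fun k => w * pk u v k 1) (fun k => w * pk u v 0 k) := by
    rw [← h0, ← h1]
    rfl
  rw [h2]
  refine Param_gc_smul _ _ _ (fun i j => ?_) i
  simp only [pk] at hw ⊢
  linear_combination (-(u i * v j - u j * v i) * (w * (u 0 * v 1 - u 1 * v 0) + 1)) * hw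

section ParamCore
open QuadraticAlgebra (omega)
variable {E : Type*} [Field E] [CharZero E] (a b : E) [Fact (∀ r : E, r ^ 2 ≠ a + b * r)]

omit [CharZero E] [Fact (∀ r : E, r ^ 2 ≠ a + b * r)] in
theorem Param_mv : (fun k => algebraMap E (QA a b) (mv a b k)) =
    ![1, star (omega : QA a b) + (omega : QA a b), star (omega : QA a b) * (omega : QA a b)] := by
  funext k
  fin_cases k <;> ext <;> simp [mv, QuadraticAlgebra.re_star, QuadraticAlgebra.im_star]

omit [CharZero E] [Fact (∀ r : E, r ^ 2 ≠ a + b * r)] in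
theorem Param_pk_star (U : Fin 5 → QA a b) (i j : Fin 5) :
    pk U (star U) i j = ((omega : QA a b) - star (omega : QA a b)) *
      algebraMap E (QA a b) (pk (fun k => (U k).im) (fun k => (U k).re) i j) := by
  ext <;> simp [pk, QuadraticAlgebra.re_star, QuadraticAlgebra.im_star] <;> ring

omit [CharZero E] [Fact (∀ r : E, r ^ 2 ≠ a + b * r)] in
theorem Param_U_star (ξ : Fin 3 → QA a b) :
    Param_U (star ξ) (omega : QA a b) = star (Param_U ξ (star (omega : QA a b))) := by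
  funext k
  fin_cases k <;> simp [Param_U, mul_comm]

/-- Elements with both coordinates in a subfield containing `a` and `b`. -/
def Param_sub (F : Subfield E) (ha : a ∈ F) (hb : b ∈ F) : Subring (QA a b) where
  carrier := {z | z.re ∈ F ∧ z.im ∈ F}
  mul_mem' := fun {x y} hx hy => by
    obtain ⟨h1, h2⟩ := hx
    obtain ⟨h3, h4⟩ := hy
    refine ⟨?_, ?_⟩
    · rw [QuadraticAlgebra.re_mul]
      apply_rules [add_mem, mul_mem]
    · rw [QuadraticAlgebra.im_mul]
      apply_rules [add_mem, mul_mem]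
  one_mem' := ⟨F.one_mem, F.zero_mem⟩
  add_mem' := fun hx hy => ⟨F.add_mem hx.1 hy.1, F.add_mem hx.2 hy.2⟩
  zero_mem' := ⟨F.zero_mem, F.zero_mem⟩
  neg_mem' := fun hx => ⟨F.neg_mem hx.1, F.neg_mem hx.2⟩

omit [CharZero E] in
theorem Param_solve (F : Subfield E) (ha : a ∈ F) (hb : b ∈ F) (d1 d2 : QA a b) (y0 y1 : E)
    (h1 : d1.re ∈ F ∧ d1.im ∈ F) (h2 : d2.re ∈ F ∧ d2.im ∈ F) (hd : d1 ≠ 0)
    (h : (algebraMap E _ y0 + (omega : QA a b)) * d1 + algebraMap E _ y1 * d2 = 0) : y0 ∈ F ∧ y1 ∈ F := by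
  obtain ⟨p, q⟩ := d1
  obtain ⟨r, s⟩ := d2
  obtain ⟨hp, hq⟩ := h1
  obtain ⟨hr, hs⟩ := h2
  have hn : p * p + b * p * q - a * q * q ≠ 0 := by
    intro h0
    exact hd (QuadraticAlgebra.norm_eq_zero_iff_eq_zero.1 (by
      rw [QuadraticAlgebra.norm_def]; exact h0))
  have e1 := congrArg QuadraticAlgebra.re h
  have e2 := congrArg QuadraticAlgebra.im h
  simp at e1 e2 hp hq hr hs
  have f1 : y1 * (p * s - q * r) = -(p * p + b * p * q - a * q * q) := by
    linear_combination p * e2 - q * e1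
  have f0 : y0 * (p * s - q * r) = r * (p + b * q) - a * q * s := by
    linear_combination s * e1 - r * e2
  have hD : p * s - q * r ≠ 0 := by
    intro h0
    rw [h0, mul_zero] at f1
    exact hn (neg_eq_zero.1 f1.symm)
  refine ⟨?_, ?_⟩
  · rw [eq_div_of_mul_eq hD f0]
    apply_rules [div_mem, sub_mem, add_mem, mul_mem]
  · rw [eq_div_of_mul_eq hD f1]
    apply_rules [div_mem, neg_mem, sub_mem, add_mem, mul_mem]

theorem Param_core (θ : Th → E) (x : Fin 3 → QA a b) (y0 y1 : E) (hy1 : y1 ≠ 0)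
    (h1 : x ⬝ᵥ A1Q θ a b *ᵥ star x = 0) (h2 : x ⬝ᵥ A2Q θ a b *ᵥ star x = 0)
    (ξ η : Fin 3 → QA a b)
    (hξ : ξ = xh (A1Q θ a b) (A2Q θ a b) x (algebraMap E _ y0 + star (omega : QA a b)) (algebraMap E _ y0 + (omega : QA a b))
      (algebraMap E _ y1))
    (hη : η = xh' (A1Q θ a b) (A2Q θ a b) (star x) (algebraMap E _ y0 + star (omega : QA a b))
      (algebraMap E _ y0 + (omega : QA a b)) (algebraMap E _ y1))
    (n1 : ξ ⬝ᵥ !![0, 0, 0; 0, star (omega : QA a b) - (omega : QA a b), 1; 0, -1, 0] *ᵥ η ≠ 0)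
    (n2 : ξ ⬝ᵥ !![0, 0, 0; 0, 0, 1; 0, -1, 0] *ᵥ η ≠ 0)
    (n3 : ξ ⬝ᵥ !![1, 0, 0; 0, 0, 0; 0, 0, 0] *ᵥ η ≠ 0)
    (n4 : d3 (ξ ᵥ* A1Q θ a b) (ξ ᵥ* A2Q θ a b) (x ᵥ* A1Q θ a b) ≠ 0) :
    ∃ Y : Fin 6 → E, Hn θ (gch Y) = 0 ∧ Qn θ (gch Y) (gch Y) = 0 ∧
      ∀ F : Subfield E, (∀ i, Y i ∈ F) → a ∈ F ∧ b ∈ F ∧
        ((∀ s, θ s ∈ F) → (∀ i, (x i).re ∈ F ∧ (x i).im ∈ F) → y0 ∈ F ∧ y1 ∈ F) := by
  have hω := omega_ne a b
  have hinj : Function.Injective (algebraMap E (QA a b)) := QuadraticAlgebra.algebraMap_injective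
  have hy1' : algebraMap E (QA a b) y1 ≠ 0 := fun h => hy1 (hinj (by rw [h, map_zero]))
  have hsa : ∀ y : E, star (algebraMap E (QA a b) y) = algebraMap E (QA a b) y := by
    intro y
    ext <;> simp [QuadraticAlgebra.re_star, QuadraticAlgebra.im_star]
  have hst : star ξ = -η := by
    rw [hξ, hη]
    refine Param_star _ _ (A1Q_skew θ a b) (A2Q_skew θ a b) x _ _ _ ?_ (hsa y1)
    rw [star_add, star_star, hsa]
  obtain ⟨i1, i2⟩ := Param_iso (A1Q θ a b) (A2Q θ a b) x (star x) (algebraMap E _ y0 + star (omega : QA a b))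
    (algebraMap E _ y0 + (omega : QA a b)) (algebraMap E _ y1) h1 h2
  rw [← hξ, ← hη] at i1 i2
  have j1 : ξ ⬝ᵥ A1Q θ a b *ᵥ η = 0 := by
    refine (mul_eq_zero.1 i1).resolve_left ?_
    rw [add_sub_add_left_eq_sub]
    exact sub_ne_zero.2 hω
  have j2 : ξ ⬝ᵥ A2Q θ a b *ᵥ η = 0 := by
    rw [j1, mul_zero, zero_add] at i2
    exact (mul_eq_zero.1 i2).resolve_left hy1'
  have hη' : η = -star ξ := by rw [hst, neg_neg]
  rw [hη', Matrix.mulVec_neg, dotProduct_neg, neg_eq_zero] at j1 j2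
  rw [hη', Matrix.mulVec_neg, dotProduct_neg, neg_ne_zero] at n1 n2 n3
  have m2 : ξ 1 * (star ξ) 2 - ξ 2 * (star ξ) 1 ≠ 0 := by
    intro h0
    apply n2
    simp only [dotProduct, Matrix.mulVec, Fin.sum_univ_three]
    simp only [Matrix.of_apply, Matrix.cons_val', Matrix.cons_val_zero, Matrix.cons_val_one,
      Matrix.cons_val]
    linear_combination h0
  have m3 : (star ξ) 0 ≠ 0 := by
    intro h0
    apply n3
    simp only [dotProduct, Matrix.mulVec, Fin.sum_univ_three]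
    simp only [Matrix.of_apply, Matrix.cons_val', Matrix.cons_val_zero, Matrix.cons_val_one,
      Matrix.cons_val]
    rw [h0]
    ring
  rw [← Param_p01] at n1
  set U := Param_U ξ (star (omega : QA a b)) with hU
  have hV : Param_U (star ξ) (omega : QA a b) = star U := Param_U_star a b ξ
  set u : Fin 5 → E := fun k => (U k).im with hu
  set v : Fin 5 → E := fun k => (U k).re with hv
  have hpk : ∀ i j, pk U (star U) i j = ((omega : QA a b) - star (omega : QA a b)) * algebraMap E (QA a b) (pk u v i j) :=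
    Param_pk_star a b U
  have hp01 : pk u v 0 1 ≠ 0 := by
    intro h0
    apply n1
    rw [hV, hpk, h0, map_zero, mul_zero]
  obtain ⟨Y, hY⟩ := Param_chart u v hp01
  obtain ⟨κ, hκ⟩ : ∃ κ, κ = ((omega : QA a b) - star (omega : QA a b)) * algebraMap E (QA a b) (pk u v 0 1) := ⟨_, rfl⟩
  have hκ0 : κ ≠ 0 := by
    rw [hκ, ← hpk, ← hV]
    exact n1
  have hG : gp U (Param_U (star ξ) (omega : QA a b)) = fun i => κ * algebraMap E (QA a b) (gch Y i) := by
    funext i
    rw [hV, hκ, mul_assoc, ← map_mul, ← hY, map_gp]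
    refine Param_gc_smul _ _ _ (fun i j => ?_) i
    rw [hpk]
    simp only [pk, map_sub, map_mul]
  refine ⟨Y, ?_, ?_, fun F hF => ?_⟩
  · have := Param_Hn (fun s => algebraMap E (QA a b) (θ s)) ξ (star ξ) (star (omega : QA a b)) (omega : QA a b)
    rw [← Param_mv, ← hU, hG, Param_Hn_smul, ← map_Hn] at this
    have h3 : κ * algebraMap E (QA a b) (Hn θ (gch Y)) = 0 := this.trans j1
    exact hinj (by rw [map_zero]; exact (mul_eq_zero.1 h3).resolve_left hκ0)
  · have := Param_Qn (fun s => algebraMap E (QA a b) (θ s)) ξ (star ξ) (star (omega : QA a b)) (omega : QA a b)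
    rw [← Param_mv, ← hU, hG, Param_Qn_smul, ← map_Qn] at this
    have h3 : κ ^ 2 * algebraMap E (QA a b) (Qn θ (gch Y) (gch Y)) = 0 := by
      rw [this]
      exact mul_eq_zero_of_right _ j2
    exact hinj (by rw [map_zero]; exact (mul_eq_zero.1 h3).resolve_left (pow_ne_zero 2 hκ0))
  have hg : ∀ i, gch Y i ∈ F := Param_gch_mem F.toSubring Y hF
  have g7 := Param_g7 ξ (star ξ) (star (omega : QA a b)) (omega : QA a b)
  have g8 := Param_g8 ξ (star ξ) (star (omega : QA a b)) (omega : QA a b)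
  have g9 := Param_g9 ξ (star ξ) (star (omega : QA a b)) (omega : QA a b)
  have k1 : star (omega : QA a b) + (omega : QA a b) = algebraMap E (QA a b) b := (congrFun (Param_mv a b) 1).symm
  have k2 : star (omega : QA a b) * (omega : QA a b) = algebraMap E (QA a b) (-a) := (congrFun (Param_mv a b) 2).symm
  rw [← hU, hG] at g7 g8 g9
  rw [k1] at g8
  rw [k2] at g9
  beta_reduce at g7 g8 g9
  have h7 : gch Y 7 ≠ 0 := by
    intro h0
    rw [h0, map_zero, mul_zero] at g7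
    exact m2 g7.symm
  have h8 : b * gch Y 7 = gch Y 8 := by
    refine hinj (mul_left_cancel₀ hκ0 ?_)
    rw [map_mul]
    linear_combination algebraMap E (QA a b) b * g7 - g8
  have h9 : a * gch Y 7 = -gch Y 9 := by
    refine hinj (mul_left_cancel₀ hκ0 ?_)
    rw [map_mul, map_neg]
    rw [map_neg] at g9
    linear_combination algebraMap E (QA a b) a * g7 + g9
  have hb : b ∈ F := by
    rw [eq_div_of_mul_eq h7 h8]
    exact F.div_mem (hg 8) (hg 7)
  have ha : a ∈ F := by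
    rw [eq_div_of_mul_eq h7 h9]
    exact F.div_mem (F.neg_mem (hg 9)) (hg 7)
  refine ⟨ha, hb, fun hθ hx => ?_⟩
  have halg : ∀ y ∈ F, algebraMap E (QA a b) y ∈ Param_sub a b F ha hb :=
    fun y hy => ⟨hy, F.zero_mem⟩
  have hw : (omega : QA a b) ∈ Param_sub a b F ha hb := ⟨F.zero_mem, F.one_mem⟩
  have hw' : star (omega : QA a b) ∈ Param_sub a b F ha hb := by
    rw [eq_sub_of_add_eq k1]
    exact sub_mem (halg b hb) hw
  have hmv : ∀ k, algebraMap E (QA a b) (mv a b k) ∈ Param_sub a b F ha hb := by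
    intro k
    refine halg _ ?_
    fin_cases k
    exacts [F.one_mem, hb, F.neg_mem ha]
  have hsv : ∀ k, sv a b k ∈ Param_sub a b F ha hb := by
    intro k
    fin_cases k
    exacts [one_mem _, hw']
  have htv : ∀ k, tv a b k ∈ Param_sub a b F ha hb := by
    intro k
    fin_cases k
    exacts [one_mem _, hw]
  have hA : ∀ i j, A1Q θ a b i j ∈ Param_sub a b F ha hb :=
    Param_A1_mem _ _ _ _ _ (fun s => halg _ (hθ s)) hmv hsv htv
  have hB : ∀ i j, A2Q θ a b i j ∈ Param_sub a b F ha hb :=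
    Param_AA_mem _ _ _ _ _ (fun s => halg _ (hθ s)) hmv hsv htv
  obtain ⟨G, hGd⟩ : ∃ G : Fin 10 → QA a b, G = fun i => algebraMap E (QA a b) (gch Y i) :=
    ⟨_, rfl⟩
  have hGm : ∀ i, G i ∈ Param_sub a b F ha hb := fun i => by
    rw [hGd]
    exact halg _ (hg i)
  obtain ⟨n, hn⟩ : ∃ n : Fin 3 → QA a b,
    n = ![G 0 * G 3 - G 1 * G 2, G 7 * (G 0 * (omega : QA a b) - G 1), G 7 * (G 2 * (omega : QA a b) - G 3)] := ⟨_, rfl⟩
  have hnm : ∀ i, n i ∈ Param_sub a b F ha hb := by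
    intro i
    rw [hn]
    fin_cases i
    · exact sub_mem (mul_mem (hGm 0) (hGm 3)) (mul_mem (hGm 1) (hGm 2))
    · exact mul_mem (hGm 7) (sub_mem (mul_mem (hGm 0) hw) (hGm 1))
    · exact mul_mem (hGm 7) (sub_mem (mul_mem (hGm 2) hw) (hGm 3))
  obtain ⟨ρ, hρ⟩ : ∃ ρ, ρ = -((omega : QA a b) - star (omega : QA a b)) * (star ξ) 0 *
    (ξ 1 * (star ξ) 2 - ξ 2 * (star ξ) 1) := ⟨_, rfl⟩
  have hρ0 : ρ ≠ 0 := by
    rw [hρ]
    exact mul_ne_zero (mul_ne_zero (neg_ne_zero.2 (sub_ne_zero.2 hω.symm)) m3) m2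
  have hnρ : n = (ρ / κ ^ 2) • ξ := by
    have := Param_n ξ (star ξ) (star (omega : QA a b)) (omega : QA a b) (fun i => κ * G i) (by rw [hGd, ← hG])
    rw [← hρ] at this
    have h3 : κ ^ 2 • n = ρ • ξ := by
      rw [← this, hn]
      funext i
      fin_cases i <;> simp <;> ring
    rw [div_eq_inv_mul, mul_smul, ← h3, smul_smul, inv_mul_cancel₀ (pow_ne_zero 2 hκ0), one_smul]
  have hS := Param_xh_S (A1Q θ a b) (A2Q θ a b) x (algebraMap E _ y0 + star (omega : QA a b))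
    (algebraMap E _ y0 + (omega : QA a b)) (algebraMap E _ y1)
  rw [← hξ, Matrix.vecMul_add, Matrix.vecMul_add, Matrix.vecMul_smul, Matrix.vecMul_smul,
    Matrix.vecMul_smul, Matrix.vecMul_smul] at hS
  have hdet : ((algebraMap E _ y0 + star (omega : QA a b)) • A1Q θ a b +
      algebraMap E (QA a b) y1 • A2Q θ a b).det ≠ 0 := by
    intro h0
    rw [h0, zero_smul] at hS
    exact mul_ne_zero hy1' n4 (Param_d3_dep _ _ _ _ _ hS)
  have hrel := Param_d3_self (ξ ᵥ* A1Q θ a b) (ξ ᵥ* A2Q θ a b) (algebraMap E _ y0 + star (omega : QA a b))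
    (algebraMap E _ y1)
  rw [hS, Param_d3_smul3, Param_d3_lin] at hrel
  have hrel2 := (mul_eq_zero.1 hrel).resolve_left hdet
  refine Param_solve a b F ha hb (d3 (n ᵥ* A1Q θ a b) (n ᵥ* A2Q θ a b) (x ᵥ* A1Q θ a b))
    (d3 (n ᵥ* A1Q θ a b) (n ᵥ* A2Q θ a b) (x ᵥ* A2Q θ a b)) y0 y1
    (Param_d3_mem (Param_sub a b F ha hb) _ _ _ (Param_vecMul_mem _ _ _ hnm hA)
      (Param_vecMul_mem _ _ _ hnm hB) (Param_vecMul_mem _ _ _ hx hA))
    (Param_d3_mem (Param_sub a b F ha hb) _ _ _ (Param_vecMul_mem _ _ _ hnm hA)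
      (Param_vecMul_mem _ _ _ hnm hB) (Param_vecMul_mem _ _ _ hx hB)) ?_ ?_
  · rw [hnρ, Param_d3_smul]
    exact mul_ne_zero (pow_ne_zero 2 (div_ne_zero hρ0 (pow_ne_zero 2 hκ0))) n4
  · rw [hnρ, Param_d3_smul, Param_d3_smul]
    linear_combination (ρ / κ ^ 2) ^ 2 * hrel2

end ParamCore

section ParamNat
variable {M L L' : Type*} [CommRing M] [CommRing L] [CommRing L']

theorem Param_map_pen (g : L →+* L') (A B : Matrix (Fin 3) (Fin 3) L) (c e : L) :
    (c • A + e • B).map g = g c • A.map g + g e • B.map g := by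
  ext i j
  simp

theorem Param_map_vecMul (g : L →+* L') (x : Fin 3 → L) (A : Matrix (Fin 3) (Fin 3) L) :
    (fun i => g ((x ᵥ* A) i)) = (fun i => g (x i)) ᵥ* A.map g := by
  funext i
  simp [Matrix.vecMul, dotProduct]

theorem Param_map_mulVec (g : L →+* L') (x : Fin 3 → L) (A : Matrix (Fin 3) (Fin 3) L) :
    (fun i => g ((A *ᵥ x) i)) = A.map g *ᵥ fun i => g (x i) := by
  funext i
  simp [Matrix.mulVec, dotProduct]

theorem Param_map_xh (g : L →+* L') (A B : Matrix (Fin 3) (Fin 3) L) (x : Fin 3 → L)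
    (c c' e : L) : (fun i => g (xh A B x c c' e i)) =
      xh (A.map g) (B.map g) (fun i => g (x i)) (g c) (g c') (g e) := by
  rw [xh, xh, Param_map_vecMul, Matrix.map_mul, map_adj', Param_map_pen, Param_map_pen]

theorem Param_map_xh' (g : L →+* L') (A B : Matrix (Fin 3) (Fin 3) L) (x : Fin 3 → L)
    (c c' e : L) : (fun i => g (xh' A B x c c' e i)) =
      xh' (A.map g) (B.map g) (fun i => g (x i)) (g c) (g c') (g e) := by
  rw [xh', xh', Param_map_mulVec, Matrix.map_mul, map_adj', Param_map_pen, Param_map_pen]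

theorem Param_map_d3 (g : L →+* L') (x y z : Fin 3 → L) :
    g (d3 x y z) = d3 (fun i => g (x i)) (fun i => g (y i)) (fun i => g (z i)) := by
  simp [d3, Matrix.det_fin_three]

theorem Param_map_dot (g : L →+* L') (x y : Fin 3 → L) :
    g (x ⬝ᵥ y) = (fun i => g (x i)) ⬝ᵥ fun i => g (y i) := by
  simp [dotProduct]

def Param_bil (f : M →+* L) (A B Φ : Matrix (Fin 3) (Fin 3) M) (x x' : Fin 3 → M) (α α' : M)
    (y0 y1 : L) : L :=
  xh (A.map f) (B.map f) (fun i => f (x i)) (y0 + f α) (y0 + f α') y1 ⬝ᵥ Φ.map f *ᵥ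
    xh' (A.map f) (B.map f) (fun i => f (x' i)) (y0 + f α) (y0 + f α') y1

def Param_dd (f : M →+* L) (A B : Matrix (Fin 3) (Fin 3) M) (x : Fin 3 → M) (α α' : M)
    (y0 y1 : L) : L :=
  d3 (xh (A.map f) (B.map f) (fun i => f (x i)) (y0 + f α) (y0 + f α') y1 ᵥ* A.map f)
    (xh (A.map f) (B.map f) (fun i => f (x i)) (y0 + f α) (y0 + f α') y1 ᵥ* B.map f)
    ((fun i => f (x i)) ᵥ* A.map f)

theorem Param_map_bil (g : L →+* L') (f : M →+* L) (A B Φ : Matrix (Fin 3) (Fin 3) M)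
    (x x' : Fin 3 → M) (α α' : M) (y0 y1 : L) :
    g (Param_bil f A B Φ x x' α α' y0 y1) = Param_bil (g.comp f) A B Φ x x' α α' (g y0) (g y1) := by
  rw [Param_bil, Param_bil, Param_map_dot, Param_map_mulVec, Param_map_xh, Param_map_xh']
  simp only [Matrix.map_map, map_add]
  rfl

theorem Param_map_dd (g : L →+* L') (f : M →+* L) (A B : Matrix (Fin 3) (Fin 3) M)
    (x : Fin 3 → M) (α α' : M) (y0 y1 : L) :
    g (Param_dd f A B x α α' y0 y1) = Param_dd (g.comp f) A B x α α' (g y0) (g y1) := by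
  rw [Param_dd, Param_dd, Param_map_d3, Param_map_vecMul, Param_map_vecMul, Param_map_vecMul,
    Param_map_xh]
  simp only [Matrix.map_map, map_add]
  rfl

theorem Param_tr_bil (f : M →+* L) (φ : M →+* L') (Y : Fin 2 → L')
    (hY : Function.Injective (eval₂Hom φ Y)) (A B Φ : Matrix (Fin 3) (Fin 3) M)
    (x x' : Fin 3 → M) (α α' : M) (y0 y1 : L) (h : Param_bil f A B Φ x x' α α' y0 y1 ≠ 0) :
    Param_bil φ A B Φ x x' α α' (Y 0) (Y 1) ≠ 0 := by
  intro h0
  apply h
  have e1 := Param_map_bil (eval₂Hom φ Y) C A B Φ x x' α α' (X 0) (X 1)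
  have e2 := Param_map_bil (eval₂Hom f ![y0, y1]) C A B Φ x x' α α' (X 0) (X 1)
  rw [eval₂Hom_comp_C, eval₂Hom_X', eval₂Hom_X'] at e1 e2
  rw [h0] at e1
  rw [hY (e1.trans (map_zero _).symm), map_zero] at e2
  exact e2.symm

theorem Param_tr_dd (f : M →+* L) (φ : M →+* L') (Y : Fin 2 → L')
    (hY : Function.Injective (eval₂Hom φ Y)) (A B : Matrix (Fin 3) (Fin 3) M)
    (x : Fin 3 → M) (α α' : M) (y0 y1 : L) (h : Param_dd f A B x α α' y0 y1 ≠ 0) :
    Param_dd φ A B x α α' (Y 0) (Y 1) ≠ 0 := by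
  intro h0
  apply h
  have e1 := Param_map_dd (eval₂Hom φ Y) C A B x α α' (X 0) (X 1)
  have e2 := Param_map_dd (eval₂Hom f ![y0, y1]) C A B x α α' (X 0) (X 1)
  rw [eval₂Hom_comp_C, eval₂Hom_X', eval₂Hom_X'] at e1 e2
  rw [h0] at e1
  rw [hY (e1.trans (map_zero _).symm), map_zero] at e2
  exact e2.symm

/-- Base change of the quadratic algebra. -/
def Param_phi (f : M →+* L) (a b : M) : QA a b →+* QA (f a) (f b) where
  toFun z := ⟨f z.re, f z.im⟩
  map_one' := by ext <;> simp [QuadraticAlgebra.re_one, QuadraticAlgebra.im_one]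
  map_mul' z w := by ext <;> simp
  map_zero' := by ext <;> simp
  map_add' z w := by ext <;> simp

theorem Param_phi_re (f : M →+* L) (a b : M) (z : QA a b) : (Param_phi f a b z).re = f z.re := rfl

theorem Param_phi_im (f : M →+* L) (a b : M) (z : QA a b) : (Param_phi f a b z).im = f z.im := rfl

theorem Param_phi_star (f : M →+* L) (a b : M) (z : QA a b) :
    Param_phi f a b (star z) = star (Param_phi f a b z) := by
  ext <;> simp [Param_phi_re, Param_phi_im, QuadraticAlgebra.re_star, QuadraticAlgebra.im_star]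

theorem Param_phi_omega (f : M →+* L) (a b : M) :
    Param_phi f a b QuadraticAlgebra.omega = QuadraticAlgebra.omega := by
  ext <;> simp [Param_phi_re, Param_phi_im]

theorem Param_phi_alg (f : M →+* L) (a b : M) (k : M) :
    Param_phi f a b (algebraMap M _ k) = algebraMap L _ (f k) := by
  ext <;> simp [Param_phi_re, Param_phi_im]

theorem Param_phi_mv (f : M →+* L) (a b : M) :
    (fun k => Param_phi f a b (algebraMap M _ (mv a b k))) =
      fun k => algebraMap L _ (mv (f a) (f b) k) := by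
  funext k
  rw [Param_phi_alg]
  fin_cases k <;> simp [mv]

theorem Param_phi_sv (f : M →+* L) (a b : M) :
    (fun k => Param_phi f a b (sv a b k)) = sv (f a) (f b) := by
  funext k
  fin_cases k <;> simp [sv, Param_phi_star, Param_phi_omega]

theorem Param_phi_tv (f : M →+* L) (a b : M) :
    (fun k => Param_phi f a b (tv a b k)) = tv (f a) (f b) := by
  funext k
  fin_cases k <;> simp [tv, Param_phi_omega]

theorem Param_phi_A1 (f : M →+* L) (θ : Th → M) (a b : M) :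
    (A1Q θ a b).map (Param_phi f a b) = A1Q (fun s => f (θ s)) (f a) (f b) := by
  rw [A1Q, A1Q, map_A1, Param_phi_mv, Param_phi_sv, Param_phi_tv]
  simp only [Param_phi_alg]

theorem Param_phi_A2 (f : M →+* L) (θ : Th → M) (a b : M) :
    (A2Q θ a b).map (Param_phi f a b) = A2Q (fun s => f (θ s)) (f a) (f b) := by
  rw [A2Q, A2Q, map_AA, Param_phi_mv, Param_phi_sv, Param_phi_tv, map_zero]
  simp only [Param_phi_alg]

theorem Param_dec (a b : M) (p : MvPolynomial (Fin 2) (QA a b)) :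
    ∃ p0 p1 : MvPolynomial (Fin 2) M, p = MvPolynomial.map (algebraMap M (QA a b)) p0 +
      C QuadraticAlgebra.omega * MvPolynomial.map (algebraMap M (QA a b)) p1 := by
  induction p using MvPolynomial.induction_on with
  | C z =>
    refine ⟨C z.re, C z.im, ?_⟩
    rw [map_C, map_C, ← C_mul, ← C_add]
    refine congrArg C ?_
    ext <;> simp
  | add p q hp hq =>
    obtain ⟨p0, p1, rfl⟩ := hp
    obtain ⟨q0, q1, rfl⟩ := hq
    refine ⟨p0 + q0, p1 + q1, ?_⟩
    rw [map_add, map_add]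
    ring
  | mul_X p i hp =>
    obtain ⟨p0, p1, rfl⟩ := hp
    refine ⟨p0 * X i, p1 * X i, ?_⟩
    rw [map_mul, map_mul, map_X]
    ring

theorem Param_inj (a b : M) (j : MvPolynomial (Fin 2) M →+* L) (hj : Function.Injective j)
    (f : M →+* L) (hf : ∀ k, j (C k) = f k) :
    Function.Injective (eval₂Hom (Param_phi f a b)
      (fun i : Fin 2 => algebraMap L (QA (f a) (f b)) (j (X i)))) := by
  have key : ∀ q : MvPolynomial (Fin 2) M, eval₂Hom (Param_phi f a b)
      (fun i : Fin 2 => algebraMap L (QA (f a) (f b)) (j (X i)))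
      (MvPolynomial.map (algebraMap M (QA a b)) q) = algebraMap L _ (j q) := by
    intro q
    induction q using MvPolynomial.induction_on with
    | C z => rw [map_C, eval₂Hom_C, Param_phi_alg, hf]
    | add p q hp hq => rw [map_add, map_add, hp, hq, map_add, map_add]
    | mul_X p i hp => rw [map_mul, map_mul, hp, map_X, eval₂Hom_X', map_mul, map_mul]
  rw [injective_iff_map_eq_zero]
  intro p hp
  obtain ⟨p0, p1, rfl⟩ := Param_dec a b p
  rw [map_add, map_mul, key, key, eval₂Hom_C, Param_phi_omega] at hp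
  have e1 := congrArg QuadraticAlgebra.re hp
  have e2 := congrArg QuadraticAlgebra.im hp
  simp at e1 e2
  rw [hj (e1.trans (map_zero j).symm), hj (e2.trans (map_zero j).symm)]
  simp

end ParamNat

theorem Param_fact {K : Type*} [Field K] (a b : K) (h : ∀ r : K, r ^ 2 ≠ a + b * r)
    (r : FractionRing (MvPolynomial (Fin 2) K)) :
    r ^ 2 ≠ algebraMap K _ a + algebraMap K _ b * r := by
  intro hr
  have hC : ∀ k : K, algebraMap (MvPolynomial (Fin 2) K) (FractionRing (MvPolynomial (Fin 2) K))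
      (C k) = algebraMap K _ k := fun k => (IsScalarTower.algebraMap_apply K _ _ k).symm
  have hint : IsIntegral (MvPolynomial (Fin 2) K) r := by
    refine ⟨Polynomial.X ^ 2 - (Polynomial.C (C b) * Polynomial.X + Polynomial.C (C a)), ?_, ?_⟩
    · refine Polynomial.monic_X_pow_sub ?_
      exact lt_of_le_of_lt Polynomial.degree_linear_le (by norm_num)
    · simp only [Polynomial.eval₂_sub, Polynomial.eval₂_add, Polynomial.eval₂_mul,
        Polynomial.eval₂_X_pow, Polynomial.eval₂_C, Polynomial.eval₂_X, hC]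
      linear_combination hr
  obtain ⟨p, rfl⟩ := IsIntegrallyClosed.isIntegral_iff.1 hint
  rw [← hC, ← hC, ← map_pow, ← map_mul, ← map_add] at hr
  have h2 := congrArg (MvPolynomial.eval (fun _ => (0 : K))) (IsFractionRing.injective _ _ hr)
  rw [map_pow, map_add, map_mul, eval_C, eval_C] at h2
  exact h _ h2

theorem Param_top {K : Type*} [Field K] (F : Subfield (FractionRing (MvPolynomial (Fin 2) K)))
    (hK : ∀ k : K, algebraMap K _ k ∈ F)
    (hX : ∀ i, algebraMap (MvPolynomial (Fin 2) K) _ (X i) ∈ F) : F = ⊤ := by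
  have key : ∀ p : MvPolynomial (Fin 2) K, algebraMap (MvPolynomial (Fin 2) K) _ p ∈ F := by
    intro p
    induction p using MvPolynomial.induction_on with
    | C z => exact hK z
    | add p q hp hq =>
      rw [map_add]
      exact F.add_mem hp hq
    | mul_X p i hp =>
      rw [map_mul]
      exact F.mul_mem hp (hX i)
  rw [eq_top_iff]
  intro z _
  obtain ⟨p, q, -, rfl⟩ := IsFractionRing.div_surjective (A := MvPolynomial (Fin 2) K) z
  exact F.div_mem (key p) (key q)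

theorem param {K : Type*} [Field K] [CharZero K] (a b : K) [Fact (∀ r : K, r ^ 2 ≠ a + b * r)]
    (θ : Th → K) (hν : lf θ 10 (mv a b) ≠ 0) (hirr : Irreducible (Gp θ (mv a b)))
    (x : Fin 3 → QA a b) (hx : x ≠ 0) (h1 : x ⬝ᵥ A1Q θ a b *ᵥ star x = 0)
    (h2 : x ⬝ᵥ A2Q θ a b *ᵥ star x = 0) :
    ∃ Y : Fin 6 → FractionRing (MvPolynomial (Fin 2) K),
      Hn (fun s => algebraMap K _ (θ s)) (gch Y) = 0 ∧
      Qn (fun s => algebraMap K _ (θ s)) (gch Y) (gch Y) = 0 ∧
      ∀ F : Subfield (FractionRing (MvPolynomial (Fin 2) K)), (∀ i, Y i ∈ F) →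
        algebraMap K _ a ∈ F ∧ algebraMap K _ b ∈ F ∧
          ((∀ k : K, algebraMap K _ k ∈ F) → F = ⊤) := by
  obtain ⟨f, hf⟩ : ∃ f, f = algebraMap K (FractionRing (MvPolynomial (Fin 2) K)) := ⟨_, rfl⟩
  obtain ⟨j, hj⟩ : ∃ j, j = algebraMap (MvPolynomial (Fin 2) K)
    (FractionRing (MvPolynomial (Fin 2) K)) := ⟨_, rfl⟩
  have hji : Function.Injective j := by
    rw [hj]
    exact IsFractionRing.injective _ _
  have hjf : ∀ k, j (C k) = f k := by
    intro k
    rw [hj, hf]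
    exact (IsScalarTower.algebraMap_apply K _ _ k).symm
  have : CharZero (FractionRing (MvPolynomial (Fin 2) K)) :=
    charZero_of_injective_ringHom f.injective
  have : CharZero (QA a b) := charZero_of_injective_ringHom (algebraMap K (QA a b)).injective
  have : Fact (∀ r : FractionRing (MvPolynomial (Fin 2) K), r ^ 2 ≠ f a + f b * r) :=
    ⟨by rw [hf]; exact Param_fact a b Fact.out⟩
  have hinj := Param_inj a b j hji f hjf
  have hA := A1Q_det a b θ hν
  have hχ := chi_irr a b θ hν hirr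
  have hc := cor_ne a b θ hν
  have hω := omega_ne a b
  have hx' : star x ≠ 0 := fun h => hx (by rw [← star_star x, h, star_zero])
  have hsx : (fun i => Param_phi f a b (star x i)) = star fun i => Param_phi f a b (x i) := by
    funext i
    exact Param_phi_star f a b (x i)
  have hb : ∀ (Φ : Matrix (Fin 3) (Fin 3) (QA a b)) (n : Fin 3 → QA a b), Φ ≠ 0 → n ≠ 0 →
      n ᵥ* Φ = 0 →
      xh (A1Q (fun s => f (θ s)) (f a) (f b)) (A2Q (fun s => f (θ s)) (f a) (f b))
        (fun i => Param_phi f a b (x i)) (algebraMap _ _ (j (X 0)) + star QuadraticAlgebra.omega)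
        (algebraMap _ _ (j (X 0)) + QuadraticAlgebra.omega) (algebraMap _ _ (j (X 1))) ⬝ᵥ
        Φ.map (Param_phi f a b) *ᵥ
      xh' (A1Q (fun s => f (θ s)) (f a) (f b)) (A2Q (fun s => f (θ s)) (f a) (f b))
        (star fun i => Param_phi f a b (x i))
        (algebraMap _ _ (j (X 0)) + star QuadraticAlgebra.omega)
        (algebraMap _ _ (j (X 0)) + QuadraticAlgebra.omega) (algebraMap _ _ (j (X 1))) ≠ 0 := by
    intro Φ n hΦ hn hnΦ
    obtain ⟨y0, y1, hy⟩ := spec_bil _ _ hA hχ hc x (star x) hx hx' _ _ hω Φ hΦ n hn hnΦ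
    have := Param_tr_bil (algebraMap (QA a b) (AlgebraicClosure (QA a b))) _ _ hinj
      (A1Q θ a b) (A2Q θ a b) Φ x (star x) _ _ y0 y1 hy
    rwa [Param_bil, Param_phi_A1, Param_phi_A2, hsx, Param_phi_star, Param_phi_omega] at this
  have hd : d3 (xh (A1Q (fun s => f (θ s)) (f a) (f b)) (A2Q (fun s => f (θ s)) (f a) (f b))
        (fun i => Param_phi f a b (x i)) (algebraMap _ _ (j (X 0)) + star QuadraticAlgebra.omega)
        (algebraMap _ _ (j (X 0)) + QuadraticAlgebra.omega) (algebraMap _ _ (j (X 1))) ᵥ*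
          A1Q (fun s => f (θ s)) (f a) (f b))
      (xh (A1Q (fun s => f (θ s)) (f a) (f b)) (A2Q (fun s => f (θ s)) (f a) (f b))
        (fun i => Param_phi f a b (x i)) (algebraMap _ _ (j (X 0)) + star QuadraticAlgebra.omega)
        (algebraMap _ _ (j (X 0)) + QuadraticAlgebra.omega) (algebraMap _ _ (j (X 1))) ᵥ*
          A2Q (fun s => f (θ s)) (f a) (f b))
      ((fun i => Param_phi f a b (x i)) ᵥ* A1Q (fun s => f (θ s)) (f a) (f b)) ≠ 0 := by
    obtain ⟨y0, y1, hy⟩ := spec_det _ _ hA hχ hc x hx _ _ hω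
    have := Param_tr_dd (algebraMap (QA a b) (AlgebraicClosure (QA a b))) _ _ hinj
      (A1Q θ a b) (A2Q θ a b) x _ _ y0 y1 hy
    rwa [Param_dd, Param_phi_A1, Param_phi_A2, Param_phi_star, Param_phi_omega] at this
  have n1 := hb !![0, 0, 0; 0, star QuadraticAlgebra.omega - QuadraticAlgebra.omega, 1; 0, -1, 0]
    ![1, 0, 0] (fun h => one_ne_zero (congrFun (congrFun h 1) 2))
    (fun h => one_ne_zero (congrFun h 0)) (by
      funext i
      fin_cases i <;> simp [Matrix.vecMul, dotProduct, Fin.sum_univ_three])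
  have n2 := hb !![0, 0, 0; 0, 0, 1; 0, -1, 0]
    ![1, 0, 0] (fun h => one_ne_zero (congrFun (congrFun h 1) 2))
    (fun h => one_ne_zero (congrFun h 0)) (by
      funext i
      fin_cases i <;> simp [Matrix.vecMul, dotProduct, Fin.sum_univ_three])
  have n3 := hb !![1, 0, 0; 0, 0, 0; 0, 0, 0]
    ![0, 1, 0] (fun h => one_ne_zero (congrFun (congrFun h 0) 0))
    (fun h => one_ne_zero (congrFun h 1)) (by
      funext i
      fin_cases i <;> simp [Matrix.vecMul, dotProduct, Fin.sum_univ_three])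
  have m1 : (!![0, 0, 0; 0, star QuadraticAlgebra.omega - QuadraticAlgebra.omega, 1; 0, -1, 0] :
      Matrix (Fin 3) (Fin 3) (QA a b)).map (Param_phi f a b) =
      !![0, 0, 0; 0, star QuadraticAlgebra.omega - QuadraticAlgebra.omega, 1; 0, -1, 0] := by
    ext1 i k
    fin_cases i <;> fin_cases k <;> simp [Param_phi_star, Param_phi_omega]
  have m2 : (!![0, 0, 0; 0, 0, 1; 0, -1, 0] :
      Matrix (Fin 3) (Fin 3) (QA a b)).map (Param_phi f a b) = !![0, 0, 0; 0, 0, 1; 0, -1, 0] := by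
    ext1 i k
    fin_cases i <;> fin_cases k <;> simp
  have m3 : (!![1, 0, 0; 0, 0, 0; 0, 0, 0] :
      Matrix (Fin 3) (Fin 3) (QA a b)).map (Param_phi f a b) = !![1, 0, 0; 0, 0, 0; 0, 0, 0] := by
    ext1 i k
    fin_cases i <;> fin_cases k <;> simp
  rw [m1] at n1
  rw [m2] at n2
  rw [m3] at n3
  have k1 := congrArg (Param_phi f a b) h1
  have k2 := congrArg (Param_phi f a b) h2
  rw [Param_map_dot, Param_map_mulVec, hsx, map_zero] at k1 k2
  rw [Param_phi_A1] at k1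
  rw [Param_phi_A2] at k2
  have hy1 : j (X 1) ≠ 0 := fun h => X_ne_zero (1 : Fin 2) (hji (h.trans (map_zero j).symm))
  obtain ⟨Y, hH, hQ, hF⟩ := Param_core (f a) (f b) (fun s => f (θ s))
    (fun i => Param_phi f a b (x i)) (j (X 0)) (j (X 1)) hy1 k1 k2 _ _ rfl rfl n1 n2 n3 hd
  subst hf hj
  refine ⟨Y, hH, hQ, fun F hY => ?_⟩
  obtain ⟨ha, hb', hy⟩ := hF F hY
  refine ⟨ha, hb', fun hK => Param_top F hK fun i => ?_⟩
  have := hy (fun s => hK _) (fun i => ⟨hK _, hK _⟩)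
  fin_cases i
  exacts [this.1, this.2]

end Pool.Agent.GM16
end
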