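import Pool.Agent.Work.MP_274aea_ag.Param
import Pool.Agent.Work.MP_274aea_ag.Maps

-- merged part: Pool.Agent.Work.MP_274aea_ag.Field
section
-- merged part: Pool.Agent.Work.MP_274aea_ag.KPoint
section
set_option autoImplicit false

open MvPolynomial Matrix

namespace Pool.Agent.GM16

section

variable {R : Type*} [CommRing R]

/-- The mixed adjugate. -/
def KPoint_C (A B : Matrix (Fin 3) (Fin 3) R) : Matrix (Fin 3) (Fin 3) R :=
  (A + B).adjugate - A.adjugate - B.adjugate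

/-- The cross product. -/
def KPoint_cr (u v : Fin 3 → R) : Fin 3 → R :=
  ![u 1 * v 2 - u 2 * v 1, u 2 * v 0 - u 0 * v 2, u 0 * v 1 - u 1 * v 0]

def KPoint_xi (s : Fin 2 → R) (z : Fin 4 → R) : Fin 3 → R := ![s 1 * z 0 - s 0 * z 1, z 2, z 3]

theorem KPoint_adj (A B : Matrix (Fin 3) (Fin 3) R) (l : R) :
    (l • A + B).adjugate = B.adjugate + l • KPoint_C A B + l ^ 2 • A.adjugate := by
  ext i j
  fin_cases i <;> fin_cases j <;> simp [KPoint_C, adjugate_fin_three] <;> ring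

theorem KPoint_I1 (A : Matrix (Fin 3) (Fin 3) R) (w w' : Fin 3 → R) :
    (w ᵥ* A.adjugate) ⬝ᵥ A *ᵥ (A.adjugate *ᵥ w') = A.det * (w ⬝ᵥ A.adjugate *ᵥ w') := by
  rw [mulVec_mulVec, mul_adjugate, smul_mulVec, one_mulVec, dotProduct_smul, dotProduct_mulVec,
    smul_eq_mul]

theorem KPoint_I2a (A B : Matrix (Fin 3) (Fin 3) R) :
    A.adjugate * B * A.adjugate =
      (A.adjugate * B).trace • A.adjugate - A.det • KPoint_C A B := by
  ext i j
  fin_cases i <;> fin_cases j <;>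
    simp [KPoint_C, adjugate_fin_three, det_fin_three, trace_fin_three, Matrix.mul_apply,
      Fin.sum_univ_three, vecMul, dotProduct] <;> ring

theorem KPoint_I2 (A B : Matrix (Fin 3) (Fin 3) R) (w w' : Fin 3 → R) :
    (w ᵥ* A.adjugate) ⬝ᵥ B *ᵥ (A.adjugate *ᵥ w') =
      (A.adjugate * B).trace * (w ⬝ᵥ A.adjugate *ᵥ w') - A.det * (w ⬝ᵥ KPoint_C A B *ᵥ w') := by
  rw [← dotProduct_mulVec, mulVec_mulVec, mulVec_mulVec, KPoint_I2a, sub_mulVec, smul_mulVec,
    smul_mulVec, dotProduct_sub, dotProduct_smul, dotProduct_smul, smul_eq_mul, smul_eq_mul]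

theorem KPoint_I3 (D : Matrix (Fin 3) (Fin 3) R) (h : D.det = 0) (u v : Fin 3 → R) :
    (u ⬝ᵥ D.adjugate *ᵥ v) * D.adjugate 0 0 =
      (u ⬝ᵥ fun i => D.adjugate i 0) * (D.adjugate 0 ⬝ᵥ v) := by
  rw [det_fin_three] at h
  simp [adjugate_fin_three, dotProduct, mulVec, Fin.sum_univ_three]
  linear_combination (u 1 * v 1 * D 2 2 - u 1 * v 2 * D 1 2 - u 2 * v 1 * D 2 1 +
    u 2 * v 2 * D 1 1) * h

theorem KPoint_I4 (D : Matrix (Fin 3) (Fin 3) R) (u u' v v' : Fin 3 → R) :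
    (u ⬝ᵥ D *ᵥ v) * (u' ⬝ᵥ D *ᵥ v') - (u ⬝ᵥ D *ᵥ v') * (u' ⬝ᵥ D *ᵥ v) =
      KPoint_cr v v' ⬝ᵥ D.adjugate *ᵥ KPoint_cr u u' := by
  simp [KPoint_cr, adjugate_fin_three, dotProduct, mulVec, Fin.sum_univ_three]
  ring

theorem KPoint_I5 (θ : Th → R) (s t : Fin 2 → R) (l : R) (z z' : Fin 4 → R) :
    KPoint_xi s z' ⬝ᵥ AA θ ![s 0 * t 0, s 0 * t 1 + s 1 * t 0, s 1 * t 1] s t l *ᵥ KPoint_xi t z +
      KPoint_xi s z ⬝ᵥ AA θ ![s 0 * t 0, s 0 * t 1 + s 1 * t 0, s 1 * t 1] s t l *ᵥ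
        KPoint_xi t z' =
      -(s 0 * t 1 - s 1 * t 0) * (z' ⬝ᵥ NN θ ![s 0 * t 0, s 0 * t 1 + s 1 * t 0, s 1 * t 1]
        ![s 0 * t 0, s 0 * t 1 + s 1 * t 0, s 1 * t 1] l *ᵥ z) := by
  simp only [AA, NN, KPoint_xi]
  generalize lf θ 0 _ = l0
  generalize lf θ 1 _ = l1
  generalize lf θ 2 _ = l2
  generalize lf θ 3 _ = l3
  generalize lf θ 4 _ = l4
  generalize lf θ 5 _ = l5
  generalize lf θ 6 _ = l6
  generalize Rr θ _ _ = r
  simp [dotProduct, mulVec, Fin.sum_univ_three, Fin.sum_univ_four]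
  ring

variable [StarRing R]

theorem KPoint_star (D : Matrix (Fin 3) (Fin 3) R) (u v : Fin 3 → R) :
    star (u ⬝ᵥ D *ᵥ star v) = v ⬝ᵥ Dᴴ *ᵥ star u := by
  simp [dotProduct, mulVec, Fin.sum_univ_three]
  ring

theorem KPoint_herm {D : Matrix (Fin 3) (Fin 3) R} (h : Dᴴ = -D) : D.adjugateᴴ = D.adjugate := by
  rw [adjugate_conjTranspose, h, ← neg_one_smul R D, adjugate_smul]
  simp

theorem KPoint_star_cr (u v : Fin 3 → R) : star (KPoint_cr u v) = KPoint_cr (star u) (star v) := by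
  funext i
  fin_cases i <;> simp [KPoint_cr, mul_comm]

end

section

variable {M F : Type*} [Field M] [StarRing M] [Field F] [StarRing F] (f : M →+* F)

theorem KPoint_mapq (A : Matrix (Fin 3) (Fin 3) M) (hf : ∀ m, f (star m) = star (f m))
    (w : Fin 3 → M) : f (w ⬝ᵥ A *ᵥ star w) = (f ∘ w) ⬝ᵥ A.map f *ᵥ star (f ∘ w) := by
  simp [dotProduct, mulVec, Fin.sum_univ_three, hf]

theorem KPoint_skew (hf : ∀ m, f (star m) = star (f m)) {l : F} (hl : star l = l)
    {A B : Matrix (Fin 3) (Fin 3) M} (hA : Aᴴ = -A) (hB : Bᴴ = -B) :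
    (l • A.map f + B.map f)ᴴ = -(l • A.map f + B.map f) := by
  ext i j
  have h1 := congrArg f (congrFun (congrFun hA i) j)
  have h2 := congrArg f (congrFun (congrFun hB i) j)
  simp only [conjTranspose_apply, Matrix.neg_apply, map_neg, hf] at h1 h2
  simp only [conjTranspose_apply, Matrix.neg_apply, Matrix.add_apply, Matrix.smul_apply,
    map_apply, smul_eq_mul, star_add, star_mul', hl, h1, h2]
  ring

theorem KPoint_abs (hf : ∀ m, f (star m) = star (f m)) (l : F) (hl : star l = l)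
    (hspan : ∀ g : F, ∃ m0 m1 m2 : M, g = f m0 + f m1 * l + f m2 * l ^ 2)
    (hind : ∀ m0 m1 m2 : M, f m0 + f m1 * l + f m2 * l ^ 2 = 0 → m0 = 0 ∧ m1 = 0 ∧ m2 = 0)
    (A B : Matrix (Fin 3) (Fin 3) M) (hA : Aᴴ = -A) (hB : Bᴴ = -B) (hdet : A.det ≠ 0)
    (h00 : A.adjugate 0 0 ≠ 0) (h0 : (l • A.map f + B.map f).det = 0) (ξ η : Fin 3 → F)
    (hξ : ξ ⬝ᵥ (l • A.map f + B.map f) *ᵥ star ξ = 0)
    (hη : η ⬝ᵥ (l • A.map f + B.map f) *ᵥ star ξ ≠ 0) :
    ∃ x : Fin 3 → M, x ≠ 0 ∧ x ⬝ᵥ A *ᵥ star x = 0 ∧ x ⬝ᵥ B *ᵥ star x = 0 := by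
  have hD := KPoint_skew f hf hl hA hB
  have hJ : (l • A.map f + B.map f).adjugate =
      B.adjugate.map f + l • (KPoint_C A B).map f + l ^ 2 • A.adjugate.map f := by
    rw [KPoint_adj, map_adj', map_adj']
    congr 3
    ext i j
    have h1 := congrFun (congrFun (map_adj' f (A + B)) i) j
    have h2 := congrFun (congrFun (map_adj' f A) i) j
    have h3 := congrFun (congrFun (map_adj' f B) i) j
    rw [Matrix.map_add _ (map_add f)] at h1
    simp only [map_apply] at h1 h2 h3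
    simp only [KPoint_C, Matrix.sub_apply, map_apply, map_sub, h1, h2, h3]
  have hker : ∀ x : Fin 3 → M, (f ∘ (x ᵥ* B)) ⬝ᵥ (fun i => (l • A.map f + B.map f).adjugate i 0) =
      -(l * ((f ∘ (x ᵥ* A)) ⬝ᵥ fun i => (l • A.map f + B.map f).adjugate i 0)) := by
    intro x
    have h1 : (l • A.map f + B.map f) *ᵥ (fun i => (l • A.map f + B.map f).adjugate i 0) = 0 := by
      funext i
      have h2 := congrFun (congrFun (mul_adjugate (l • A.map f + B.map f)) i) 0
      rw [h0, zero_smul] at h2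
      exact h2
    have e : ∀ C : Matrix (Fin 3) (Fin 3) M, f ∘ (x ᵥ* C) = (f ∘ x) ᵥ* C.map f :=
      fun C => funext fun i => f.map_vecMul C x i
    generalize (fun i => (l • A.map f + B.map f).adjugate i 0) = κ at h1
    have h2 := congrArg (fun v => (f ∘ x) ⬝ᵥ v) h1
    simp only [add_mulVec, smul_mulVec, dotProduct_add, dotProduct_smul, dotProduct_zero,
      smul_eq_mul] at h2
    rw [e, e, ← dotProduct_mulVec, ← dotProduct_mulVec]
    linear_combination h2
  obtain ⟨D, hDd⟩ : ∃ D, D = l • A.map f + B.map f := ⟨_, rfl⟩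
  rw [← hDd] at hD hJ hker h0 hξ hη
  have hH := KPoint_herm hD
  have hϖ : D.adjugate 0 0 ≠ 0 := by
    intro h
    refine h00 (hind (B.adjugate 0 0) (KPoint_C A B 0 0) (A.adjugate 0 0) ?_).2.2
    rw [hJ] at h
    simp only [Matrix.add_apply, Matrix.smul_apply, map_apply, smul_eq_mul] at h
    linear_combination h
  have hst : ∀ u : Fin 3 → F, star (u ⬝ᵥ fun i => D.adjugate i 0) = D.adjugate 0 ⬝ᵥ star u := by
    intro u
    have h1 : ∀ i, star (D.adjugate i 0) = D.adjugate 0 i := fun i =>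
      congrFun (congrFun hH 0) i
    simp [dotProduct, Fin.sum_univ_three, h1, mul_comm]
  -- the corner entry of the adjugate is a norm
  obtain ⟨g, hg⟩ : ∃ g : F, g * star g = D.adjugate 0 0 := by
    have h1 := KPoint_I4 D ξ η (star ξ) (star η)
    have h2 := KPoint_star D η ξ
    rw [hD, neg_mulVec, dotProduct_neg] at h2
    have h3 := KPoint_I3 D h0 (KPoint_cr (star ξ) (star η)) (KPoint_cr ξ η)
    have h4 := hst (KPoint_cr (star ξ) (star η))
    rw [KPoint_star_cr, star_star, star_star] at h4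
    rw [← h1, hξ, ← h4, ← neg_eq_iff_eq_neg.2 h2] at h3
    refine ⟨(KPoint_cr (star ξ) (star η) ⬝ᵥ fun i => D.adjugate i 0) / (η ⬝ᵥ D *ᵥ star ξ), ?_⟩
    have h5 : star (η ⬝ᵥ D *ᵥ star ξ) ≠ 0 := star_ne_zero.2 hη
    rw [star_div₀, div_mul_div_comm, div_eq_iff (mul_ne_zero hη h5), ← h3]
    ring
  have hstep : ∀ w : Fin 3 → M, ∃ w' : Fin 3 → M,
      (f ∘ w') ⬝ᵥ (fun i => D.adjugate i 0) = l * ((f ∘ w) ⬝ᵥ fun i => D.adjugate i 0) := by
    intro w
    obtain ⟨x, rfl⟩ := vecMul_surjective_iff_isUnit.2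
      ((isUnit_iff_isUnit_det A).2 (isUnit_iff_ne_zero.2 hdet)) w
    refine ⟨(-x) ᵥ* B, ?_⟩
    rw [hker, neg_vecMul]
    have e : f ∘ (-(x ᵥ* A)) = -(f ∘ (x ᵥ* A)) := funext fun i => map_neg f _
    rw [e, neg_dotProduct, mul_neg, neg_neg]
  obtain ⟨w, hw⟩ : ∃ w : Fin 3 → M, (f ∘ w) ⬝ᵥ (fun i => D.adjugate i 0) = g := by
    obtain ⟨m0, m1, m2, hm⟩ := hspan (g / D.adjugate 0 0)
    obtain ⟨w1, h1⟩ := hstep ![1, 0, 0]
    obtain ⟨w2, h2⟩ := hstep w1
    rw [div_eq_iff hϖ] at hm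
    refine ⟨fun i => m0 * ![1, 0, 0] i + m1 * w1 i + m2 * w2 i, ?_⟩
    rw [h1] at h2
    rw [hm]
    simp [dotProduct, Fin.sum_univ_three] at h1 h2 ⊢
    linear_combination f m1 * h1 + f m2 * h2
  have h1 : (f ∘ w) ⬝ᵥ D.adjugate *ᵥ star (f ∘ w) = 1 := by
    have h2 := KPoint_I3 D h0 (f ∘ w) (star (f ∘ w))
    rw [← hst, hw, hg] at h2
    exact mul_right_cancel₀ hϖ (h2.trans (one_mul _).symm)
  rw [hJ] at h1
  simp only [add_mulVec, smul_mulVec, dotProduct_add, dotProduct_smul, smul_eq_mul,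
    ← KPoint_mapq f _ hf] at h1
  obtain ⟨c0, c1, c2⟩ := hind (w ⬝ᵥ B.adjugate *ᵥ star w - 1) (w ⬝ᵥ KPoint_C A B *ᵥ star w)
    (w ⬝ᵥ A.adjugate *ᵥ star w) (by
      rw [map_sub, map_one]
      linear_combination h1)
  refine ⟨w ᵥ* A.adjugate, fun h => ?_, ?_, ?_⟩
  · have h2 := congrArg (fun v => v ᵥ* A) h
    simp only [vecMul_vecMul, adjugate_mul, zero_vecMul, vecMul_smul, vecMul_one] at h2
    rw [(smul_eq_zero.1 h2).resolve_left hdet] at c0
    simp at c0
  · rw [star_vecMul, KPoint_herm hA, KPoint_I1, c2, mul_zero]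
  · rw [star_vecMul, KPoint_herm hA, KPoint_I2, c1, c2, mul_zero, mul_zero, sub_zero]

theorem KPoint_geo [CharZero F] (hf : ∀ m, f (star m) = star (f m)) (l : F) (hl : star l = l)
    (hspan : ∀ g : F, ∃ m0 m1 m2 : M, g = f m0 + f m1 * l + f m2 * l ^ 2)
    (hind : ∀ m0 m1 m2 : M, f m0 + f m1 * l + f m2 * l ^ 2 = 0 → m0 = 0 ∧ m1 = 0 ∧ m2 = 0)
    (θ : Th → M) (s t : Fin 2 → M) (μ : Fin 3 → M)
    (hμ : μ = ![s 0 * t 0, s 0 * t 1 + s 1 * t 0, s 1 * t 1]) (hst : ∀ i, star (s i) = t i)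
    (hδ : s 0 * t 1 - s 1 * t 0 ≠ 0) (hν : lf θ 10 μ ≠ 0) (hA : (A1 θ μ s t)ᴴ = -A1 θ μ s t)
    (hB : (AA θ μ s t 0)ᴴ = -AA θ μ s t 0)
    (hG : GG (fun s => f (θ s)) (fun k => f (μ k)) l = 0) (z : Fin 4 → F) (hz : z ≠ 0)
    (hzs : ∀ i, star (z i) = z i)
    (hN : z ⬝ᵥ NN (fun s => f (θ s)) (fun k => f (μ k)) (fun k => f (μ k)) l *ᵥ z = 0) :
    ∃ x : Fin 3 → M, x ≠ 0 ∧ x ⬝ᵥ A1 θ μ s t *ᵥ star x = 0 ∧ x ⬝ᵥ AA θ μ s t 0 *ᵥ star x = 0 := by
  have hq : qq (fun s => f (θ s)) (fun k => f (μ k)) l ≠ 0 := by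
    intro h
    refine one_ne_zero (hind (lf θ 0 μ * lf θ 3 μ - lf θ 1 μ * lf θ 2 μ - 2 * Bq θ μ)
      (lf θ 1 μ - lf θ 2 μ + 2 * lf θ 10 μ) 1 ?_).2.2
    simp only [qq, Rr, ← map_lf] at h
    simp only [Bq, map_sub, map_mul, map_add, map_one, map_ofNat]
    linear_combination h
  have hμ' : (fun k => f (μ k)) = ![f (s 0) * f (t 0), f (s 0) * f (t 1) + f (s 1) * f (t 0),
      f (s 1) * f (t 1)] := by
    funext k
    rw [hμ]
    fin_cases k <;> simp
  have hδ' : f (s 0) * f (t 1) - f (s 1) * f (t 0) ≠ 0 := by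
    rw [← map_mul, ← map_mul, ← map_sub]
    exact (map_ne_zero f).2 hδ
  have hD : l • (A1 θ μ s t).map f + (AA θ μ s t 0).map f =
      AA (fun s => f (θ s)) (fun k => f (μ k)) (fun k => f (s k)) (fun k => f (t k)) l := by
    rw [map_A1, map_AA, map_zero, ← AA_eq]
  have hsk := KPoint_skew f hf hl hA hB
  have hξ : star (KPoint_xi (fun k => f (s k)) z) = KPoint_xi (fun k => f (t k)) z := by
    funext i
    fin_cases i <;> simp [KPoint_xi, hzs, ← hf, hst, mul_comm]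
  have h5 := KPoint_I5 (fun s => f (θ s)) (fun k => f (s k)) (fun k => f (t k)) l z
  have h6 := det_AA (fun s => f (θ s)) (fun k => f (s k)) (fun k => f (t k)) l
  simp only [← hμ', ← hD] at h5 h6
  rw [hG, mul_zero] at h6
  have h7 := h5 z
  rw [hN, mul_zero, ← two_mul, ← hξ] at h7
  by_cases hη : ∃ η, η ⬝ᵥ (l • (A1 θ μ s t).map f + (AA θ μ s t 0).map f) *ᵥ
      star (KPoint_xi (fun k => f (s k)) z) ≠ 0
  · obtain ⟨η, hη⟩ := hη
    refine KPoint_abs f hf l hl hspan hind _ _ hA hB ?_ ?_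
      ((mul_eq_zero.1 h6).resolve_left (by norm_num)) _ η
      ((mul_eq_zero.1 h7).resolve_left two_ne_zero) hη
    · have e : (A1 θ μ s t).det = -(lf θ 10 μ * (s 0 * t 1 - s 1 * t 0)) := by
        simp [A1, det_fin_three]
        ring
      rw [e]
      exact neg_ne_zero.2 (mul_ne_zero hν hδ)
    · have e : (A1 θ μ s t).adjugate 0 0 = lf θ 10 μ * lf θ 10 μ := by
        simp [A1, adjugate_fin_three]
      rw [e]
      exact mul_ne_zero hν hν
  · exfalso
    push Not at hη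
    have h8 : NN (fun s => f (θ s)) (fun k => f (μ k)) (fun k => f (μ k)) l *ᵥ z = 0 := by
      refine dotProduct_eq_zero_iff.1 fun z' => ?_
      have h9 := h5 z'
      have h10 := KPoint_star (l • (A1 θ μ s t).map f + (AA θ μ s t 0).map f)
        (star (KPoint_xi (fun k => f (t k)) z')) (KPoint_xi (fun k => f (s k)) z)
      rw [hη, star_zero, star_star, hsk, neg_mulVec, dotProduct_neg, eq_comm, neg_eq_zero] at h10
      rw [h10, ← hξ, hη, add_zero, eq_comm, mul_eq_zero, neg_eq_zero] at h9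
      rw [dotProduct_comm]
      exact h9.resolve_left hδ'
    have h9 := exists_mulVec_eq_zero_iff.1 ⟨z, hz, h8⟩
    rw [GG, h9, sub_zero] at hG
    exact hq (pow_eq_zero_iff two_ne_zero |>.1 hG)

end

/-- Extension of scalars for quadratic algebras. -/
def KPoint_ext {K L : Type*} [CommRing K] [CommRing L] (φ : K →+* L) (a b : K) :
    QA a b →+* QA (φ a) (φ b) where
  toFun z := ⟨φ z.re, φ z.im⟩
  map_one' := by ext <;> simp [QuadraticAlgebra.re_one, QuadraticAlgebra.im_one]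
  map_mul' x y := by ext <;> simp
  map_zero' := by ext <;> simp
  map_add' x y := by ext <;> simp

theorem KPoint_re {K L : Type*} [CommRing K] [CommRing L] (φ : K →+* L) (a b : K) (z : QA a b) :
    (KPoint_ext φ a b z).re = φ z.re := rfl

theorem KPoint_im {K L : Type*} [CommRing K] [CommRing L] (φ : K →+* L) (a b : K) (z : QA a b) :
    (KPoint_ext φ a b z).im = φ z.im := rfl

theorem KPoint_mid {K L : Type*} [Field K] [CharZero K] [Field L] [Algebra K L] (a b : K)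
    [Fact (∀ r : K, r ^ 2 ≠ a + b * r)] (θ : Th → K) (hν : lf θ 10 (mv a b) ≠ 0) (l : L)
    (hrk : Module.finrank K L = 3)
    (hspan : ∀ g : L, ∃ c0 c1 c2 : K,
      g = algebraMap K L c0 + algebraMap K L c1 * l + algebraMap K L c2 * l ^ 2)
    (hind : ∀ c0 c1 c2 : K,
      algebraMap K L c0 + algebraMap K L c1 * l + algebraMap K L c2 * l ^ 2 = 0 →
        c0 = 0 ∧ c1 = 0 ∧ c2 = 0)
    (hG : GG (fun s => algebraMap K L (θ s)) (fun k => algebraMap K L (mv a b k)) l = 0)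
    (z : Fin 4 → L) (hz : z ≠ 0)
    (hN : z ⬝ᵥ NN (fun s => algebraMap K L (θ s)) (fun k => algebraMap K L (mv a b k))
      (fun k => algebraMap K L (mv a b k)) l *ᵥ z = 0) :
    ∃ x : Fin 3 → QA a b, x ≠ 0 ∧ x ⬝ᵥ A1Q θ a b *ᵥ star x = 0 ∧
      x ⬝ᵥ A2Q θ a b *ᵥ star x = 0 := by
  have : CharZero L := charZero_of_injective_algebraMap (algebraMap K L).injective
  have : Fact (∀ r : L, r ^ 2 ≠ algebraMap K L a + algebraMap K L b * r) := ⟨fun r hr => by
    obtain ⟨φ⟩ : Nonempty (QA a b →ₐ[K] L) := ⟨QuadraticAlgebra.lift ⟨r, by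
      rw [← sq, hr, Algebra.smul_def, Algebra.smul_def, mul_one]⟩⟩
    let : Algebra (QA a b) L := φ.toRingHom.toAlgebra
    have : IsScalarTower K (QA a b) L :=
      IsScalarTower.of_algebraMap_eq fun c => (φ.commutes c).symm
    have h := Module.finrank_mul_finrank K (QA a b) L
    rw [hrk, QuadraticAlgebra.finrank_eq_two] at h
    omega⟩
  obtain ⟨ι, hι⟩ : ∃ ι : L →+* QA (algebraMap K L a) (algebraMap K L b), ι = algebraMap L _ :=
    ⟨_, rfl⟩
  have hre : ∀ x, (ι x).re = x := fun x => by rw [hι]; rfl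
  have him : ∀ x, (ι x).im = 0 := fun x => by rw [hι]; rfl
  have hc : ∀ c : K, KPoint_ext (algebraMap K L) a b (algebraMap K _ c) = ι (algebraMap K L c) := by
    intro c
    ext <;> simp [KPoint_re, KPoint_im, hre, him]
  have hs : ∀ x, star (ι x) = ι x := by
    intro x
    ext <;> simp [him]
  refine KPoint_geo (KPoint_ext (algebraMap K L) a b) (fun m => ?_) (ι l) (hs l) (fun g => ?_)
    (fun m0 m1 m2 h => ?_) _ (sv a b) (tv a b) _ ?_ (fun i => ?_) ?_ ?_ (A1Q_skew θ a b)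
    (A2Q_skew θ a b) ?_ (fun i => ι (z i)) (fun h => hz ?_) (fun i => hs _) ?_
  · ext <;> simp [KPoint_re, KPoint_im]
  · obtain ⟨c0, c1, c2, h1⟩ := hspan g.re
    obtain ⟨d0, d1, d2, h2⟩ := hspan g.im
    refine ⟨⟨c0, d0⟩, ⟨c1, d1⟩, ⟨c2, d2⟩, ?_⟩
    rw [← map_pow]
    ext
    · simpa [KPoint_re, KPoint_im, hre, him, -map_pow] using h1
    · simpa [KPoint_re, KPoint_im, hre, him, -map_pow] using h2
  · rw [← map_pow] at h
    have h1 := hind m0.re m1.re m2.re (by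
      simpa [KPoint_re, KPoint_im, hre, him, -map_pow] using congrArg QuadraticAlgebra.re h)
    have h2 := hind m0.im m1.im m2.im (by
      simpa [KPoint_re, KPoint_im, hre, him, -map_pow] using congrArg QuadraticAlgebra.im h)
    exact ⟨QuadraticAlgebra.ext h1.1 h2.1, QuadraticAlgebra.ext h1.2.1 h2.2.1,
      QuadraticAlgebra.ext h1.2.2 h2.2.2⟩
  · funext k
    fin_cases k <;> ext <;>
      simp [mv, sv, tv, QuadraticAlgebra.re_one, QuadraticAlgebra.im_one]
  · fin_cases i <;> simp [sv, tv]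
  · simpa [sv, tv] using sub_ne_zero.2 (omega_ne a b).symm
  · rw [← map_lf]
    exact (map_ne_zero _).2 hν
  · simp only [hc]
    rw [← map_GG ι, hG, map_zero]
  · funext i
    exact (map_eq_zero ι).1 (congrFun h i)
  · simp only [hc]
    rw [← map_NN ι]
    have h1 := congrArg ι hN
    rw [map_zero, ι.map_dotProduct] at h1
    rw [← h1]
    congr 1
    funext i
    exact (ι.map_mulVec _ z i).symm

theorem kpoint {K : Type*} [Field K] [CharZero K] (a b : K) [Fact (∀ r : K, r ^ 2 ≠ a + b * r)]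
    (θ : Th → K) (hν : lf θ 10 (mv a b) ≠ 0) (hirr : Irreducible (Gp θ (mv a b)))
    (z : Fin 4 → AdjoinRoot (Gp θ (mv a b))) (hz : z ≠ 0)
    (hN : z ⬝ᵥ NN (fun s => algebraMap K _ (θ s)) (fun k => algebraMap K _ (mv a b k))
      (fun k => algebraMap K _ (mv a b k)) (AdjoinRoot.root (Gp θ (mv a b))) *ᵥ z = 0) :
    ∃ x : Fin 3 → QA a b, x ≠ 0 ∧ x ⬝ᵥ A1Q θ a b *ᵥ star x = 0 ∧
      x ⬝ᵥ A2Q θ a b *ᵥ star x = 0 := by
  have : Fact (Irreducible (Gp θ (mv a b))) := ⟨hirr⟩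
  have hd := Gp_natDegree θ (mv a b) hν
  have hdim : (AdjoinRoot.powerBasis hirr.ne_zero).dim = 3 := by
    rw [AdjoinRoot.powerBasis_dim, hd]
  refine KPoint_mid a b θ hν (AdjoinRoot.root (Gp θ (mv a b))) ?_ (fun g => ?_)
    (fun c0 c1 c2 h => ?_) ?_ z hz hN
  · rw [(AdjoinRoot.powerBasis hirr.ne_zero).finrank, hdim]
  · obtain ⟨p, h1, h2⟩ := (AdjoinRoot.powerBasis hirr.ne_zero).exists_eq_aeval g
    rw [hdim] at h1
    rw [Polynomial.aeval_eq_sum_range' h1, AdjoinRoot.powerBasis_gen] at h2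
    refine ⟨p.coeff 0, p.coeff 1, p.coeff 2, ?_⟩
    rw [h2]
    simp [Finset.sum_range_succ, Algebra.smul_def]
  · have h1 : AdjoinRoot.mk (Gp θ (mv a b)) (Polynomial.C c2 * Polynomial.X ^ 2 +
        Polynomial.C c1 * Polynomial.X + Polynomial.C c0) = 0 := by
      rw [← h]
      simp only [map_add, map_mul, map_pow, AdjoinRoot.mk_C, AdjoinRoot.mk_X,
        AdjoinRoot.algebraMap_eq]
      ring
    have h2 := Polynomial.eq_zero_of_dvd_of_natDegree_lt (AdjoinRoot.mk_eq_zero.1 h1)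
      (Polynomial.natDegree_quadratic_le.trans_lt (by omega))
    have h3 := fun n => congrArg (fun p => Polynomial.coeff p n) h2
    exact ⟨by simpa using h3 0, by simpa using h3 1, by simpa using h3 2⟩
  · have h1 := map_GG (AdjoinRoot.mk (Gp θ (mv a b))) (fun s => Polynomial.C (θ s))
      (fun k => Polynomial.C (mv a b k)) Polynomial.X
    simp only [AdjoinRoot.mk_C, AdjoinRoot.mk_X] at h1
    simp only [AdjoinRoot.algebraMap_eq]
    rw [← h1]
    exact AdjoinRoot.mk_self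

end Pool.Agent.GM16
end

-- merged part: Pool.Agent.Work.MP_274aea_ag.Prime
section
set_option autoImplicit false

open MvPolynomial Matrix

namespace Pool.Agent.GM16

section

variable {R S : Type*} [CommRing R] [CommRing S]

/-- the three forms `m` on the big cell -/
def Prime_m (x1 x2 x4 x5 : R) : Fin 3 → R := ![-x1, -x2 + x4, x5 + (x1 * x5 - x2 * x4)]

/-- the linear coefficient -/
def Prime_b (L : Fin 11 → R) (x1 x2 x4 x5 : R) : R :=
  x2 * L 10 - x4 * (x1 * L 10 + x1 * L 10 + L 10) + L 0 + (L 1 + L 2) * x4 + L 3 * x5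

/-- the constant coefficient -/
def Prime_c (L : Fin 11 → R) (x1 x2 x4 x5 : R) : R :=
  -((x1 * L 10 + L 10) * (x1 * L 10)) + L 1 * (x1 * L 10 + L 10) + L 2 * (x1 * L 10) +
    L 3 * (x2 * L 10) - L 4 * (x1 + 1) - L 5 * (x2 + x4) + L 6 * (x1 * x5 - x2 * x4) - L 7 * x1 +
    L 8 * (x4 - x2) + L 9 * (x5 + (x1 * x5 - x2 * x4))

theorem Prime_gch (x : Fin 6 → R) : gch x = ![x 0, x 0 * x 4 - x 1 * x 3 - x 3,
    x 0 * x 4 - x 1 * x 3, x 0 * x 5 - x 2 * x 3, -x 1 - 1, -x 2 - x 4, x 1 * x 5 - x 2 * x 4,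
    -x 1, -x 2 + x 4, x 5 + (x 1 * x 5 - x 2 * x 4)] := by
  simp [gch, gp, gc, pk]

theorem Prime_H (θ : Th → R) (x : Fin 6 → R) :
    Hn θ (gch x) = -lf θ 10 (Prime_m (x 1) (x 2) (x 4) (x 5)) - x 3 := by
  rw [Prime_gch]
  simp [Hn, Prime_m]
  ring

theorem Prime_Q (θ : Th → R) (x : Fin 6 → R)
    (h : x 3 = -lf θ 10 (Prime_m (x 1) (x 2) (x 4) (x 5))) :
    Qn θ (gch x) (gch x) = (x 5 - x 4 ^ 2) * x 0 ^ 2 +
      Prime_b (fun a => lf θ a (Prime_m (x 1) (x 2) (x 4) (x 5))) (x 1) (x 2) (x 4) (x 5) * x 0 +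
      Prime_c (fun a => lf θ a (Prime_m (x 1) (x 2) (x 4) (x 5))) (x 1) (x 2) (x 4) (x 5) := by
  rw [Prime_gch, Prime_b, Prime_c, ← neg_neg (lf θ 10 _), ← h]
  simp [Qn, ll, lf, Prime_m]
  ring

theorem Prime_map_lf (f : R →+* S) (θ : Th → R) (a : Fin 11) (x1 x2 x4 x5 : R) :
    f (lf θ a (Prime_m x1 x2 x4 x5)) =
      lf (fun s => f (θ s)) a (Prime_m (f x1) (f x2) (f x4) (f x5)) := by
  simp [lf, Prime_m]

theorem Prime_map_b (f : R →+* S) (L : Fin 11 → R) (x1 x2 x4 x5 : R) :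
    f (Prime_b L x1 x2 x4 x5) = Prime_b (fun a => f (L a)) (f x1) (f x2) (f x4) (f x5) := by
  simp only [Prime_b, map_add, map_sub, map_mul]

theorem Prime_map_c (f : R →+* S) (L : Fin 11 → R) (x1 x2 x4 x5 : R) :
    f (Prime_c L x1 x2 x4 x5) = Prime_c (fun a => f (L a)) (f x1) (f x2) (f x4) (f x5) := by
  simp only [Prime_c, map_add, map_sub, map_mul, map_neg, map_one]

theorem Prime_irr [IsDomain R] {a b c : R} (ha : Prime a) (hb : ¬ a ∣ b)
    (hr : ∀ r, a * r ^ 2 + b * r + c ≠ 0) : Irreducible (Polynomial.C a * Polynomial.X ^ 2 +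
      Polynomial.C b * Polynomial.X + Polynomial.C c) := by
  have hn := Polynomial.natDegree_quadratic (b := b) (c := c) ha.ne_zero
  have hl := Polynomial.leadingCoeff_quadratic (b := b) (c := c) ha.ne_zero
  have h1 : (Polynomial.C a * Polynomial.X ^ 2 + Polynomial.C b * Polynomial.X +
    Polynomial.C c).coeff 1 = b := by simp
  have he : ∀ r, (Polynomial.C a * Polynomial.X ^ 2 + Polynomial.C b * Polynomial.X +
    Polynomial.C c).eval r ≠ 0 := fun r => by simpa using hr r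
  generalize Polynomial.C a * Polynomial.X ^ 2 + Polynomial.C b * Polynomial.X +
    Polynomial.C c = P at hn hl h1 he
  have h0 : P ≠ 0 := fun e => by simp [e] at hn
  have key : ∀ f g : Polynomial R, P = f * g → IsUnit f.leadingCoeff → IsUnit f := by
    rintro f g rfl ⟨u, hu⟩
    rw [Polynomial.natDegree_mul (left_ne_zero_of_mul h0) (right_ne_zero_of_mul h0)] at hn
    rw [Polynomial.leadingCoeff] at hu
    rcases (show f.natDegree = 0 ∨ f.natDegree = 1 ∨ g.natDegree = 0 by omega) with e | e | e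
    · rw [Polynomial.eq_C_of_natDegree_eq_zero e, ← e, ← hu]
      exact Polynomial.isUnit_C.2 u.isUnit
    · refine absurd ?_ (he (-(u⁻¹ * f.coeff 0)))
      have := Polynomial.eq_X_add_C_of_natDegree_le_one e.le
      rw [e] at hu
      rw [← hu] at this
      generalize f.coeff 0 = d at this
      simp [this]
    · obtain ⟨d, rfl⟩ := Polynomial.natDegree_eq_zero.1 e
      rw [Polynomial.leadingCoeff_mul, Polynomial.leadingCoeff_C, Polynomial.leadingCoeff,
        ← hu] at hl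
      rw [Polynomial.coeff_mul_C] at h1
      exact absurd ⟨u⁻¹ * f.coeff 1, by
        rw [← hl, ← h1, mul_right_comm, Units.mul_inv_cancel_left]⟩ hb
  refine ⟨fun h => by simp [Polynomial.natDegree_eq_zero_of_isUnit h] at hn, fun f g e => ?_⟩
  rw [e, Polynomial.leadingCoeff_mul] at hl
  exact (ha.irreducible.isUnit_or_isUnit hl.symm).imp (key f g e) (key g f (e.trans (mul_comm _ _)))

end

theorem Prime_noroot {b0 b1 c0 c1 : ℂ} {ρ : Polynomial ℂ} (h : Polynomial.X * ρ ^ 2 +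
    (Polynomial.C b0 + Polynomial.C b1 * Polynomial.X) * ρ +
      (Polynomial.C c0 + Polynomial.C c1 * Polynomial.X) = 0) :
    c0 ^ 2 - b0 * b1 * c0 + c1 * b0 ^ 2 = 0 := by
  have l : ∀ u v : ℂ, (Polynomial.C u + Polynomial.C v * Polynomial.X).natDegree ≤ 1 :=
    fun u v => add_comm (Polynomial.C u) _ ▸ Polynomial.natDegree_linear_le
  have hd : ρ.natDegree = 0 := by
    by_contra hd
    have h0 : ρ ≠ 0 := fun e => hd (by simp [e])
    rw [add_assoc, add_eq_zero_iff_eq_neg] at h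
    have h1 := congrArg Polynomial.natDegree h
    rw [Polynomial.natDegree_X_mul (pow_ne_zero 2 h0), Polynomial.natDegree_pow,
      Polynomial.natDegree_neg] at h1
    have h2 := Polynomial.natDegree_add_le
      ((Polynomial.C b0 + Polynomial.C b1 * Polynomial.X) * ρ)
      (Polynomial.C c0 + Polynomial.C c1 * Polynomial.X)
    have h3 := Polynomial.natDegree_mul_le
      (p := Polynomial.C b0 + Polynomial.C b1 * Polynomial.X) (q := ρ)
    have h4 := l b0 b1
    have h5 := l c0 c1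
    omega
  obtain ⟨r, rfl⟩ := Polynomial.natDegree_eq_zero.1 hd
  have h0 := congrArg (Polynomial.eval 0) h
  have h1 := congrArg (Polynomial.eval 1) h
  simp at h0 h1
  linear_combination (c0 - b0 * r - b0 * b1 - b0 ^ 2) * h0 + b0 ^ 2 * h1

section

variable {D : Type} [CommRing D] [Algebra ℂ D] (θ : Th → ℂ) (y1 y2 y4 y5 : D)

/-- the forms `lf` over the base ring -/
def Prime_L (a : Fin 11) : D := lf (fun s => algebraMap ℂ D (θ s)) a (Prime_m y1 y2 y4 y5)

/-- the quadric after elimination -/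
noncomputable def Prime_P : Polynomial D :=
  Polynomial.C (y5 - y4 ^ 2) * Polynomial.X ^ 2 +
    Polynomial.C (Prime_b (Prime_L θ y1 y2 y4 y5) y1 y2 y4 y5) * Polynomial.X +
    Polynomial.C (Prime_c (Prime_L θ y1 y2 y4 y5) y1 y2 y4 y5)

/-- the elimination of `X 3` -/
noncomputable def Prime_Phi : MvPolynomial (Fin 6) ℂ →ₐ[ℂ] Polynomial D :=
  aeval ![Polynomial.X, Polynomial.C y1, Polynomial.C y2,
    Polynomial.C (-Prime_L θ y1 y2 y4 y5 10), Polynomial.C y4, Polynomial.C y5]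

variable {y1 y2 y4 y5}

theorem Prime_irrP [IsDomain D] (h0 : θ (0, 0) ≠ 0)
    (h1 : (θ (0, 7) - θ (0, 10) * θ (0, 2)) ^ 2 -
      θ (0, 0) * θ (0, 3) * (θ (0, 7) - θ (0, 10) * θ (0, 2)) + -θ (0, 6) * θ (0, 0) ^ 2 ≠ 0)
    (ha : Prime (y5 - y4 ^ 2)) (ev : D →+* Polynomial ℂ)
    (e : ∀ c, ev (algebraMap ℂ D c) = Polynomial.C c) (e0 : ev y1 = -1) (e1 : ev y2 = 0)
    (e2 : ev y4 = 0) (e3 : ev y5 = Polynomial.X) : Irreducible (Prime_P θ y1 y2 y4 y5) := by
  have eL : ∀ a, ev (Prime_L θ y1 y2 y4 y5 a) = Polynomial.C (θ (0, a)) := fun a => by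
    simp [Prime_L, lf, Prime_m, e, e0, e1, e2, e3]
  have ea : ev (y5 - y4 ^ 2) = Polynomial.X := by simp [e2, e3]
  have eb : ev (Prime_b (Prime_L θ y1 y2 y4 y5) y1 y2 y4 y5) =
      Polynomial.C (θ (0, 0)) + Polynomial.C (θ (0, 3)) * Polynomial.X := by
    rw [Prime_map_b]
    simp only [eL, e0, e1, e2, e3, Prime_b]
    ring
  have ec : ev (Prime_c (Prime_L θ y1 y2 y4 y5) y1 y2 y4 y5) =
      Polynomial.C (θ (0, 7) - θ (0, 10) * θ (0, 2)) +
        Polynomial.C (-θ (0, 6)) * Polynomial.X := by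
    rw [Prime_map_c]
    simp only [eL, e0, e1, e2, e3, Prime_c, map_sub, map_mul, map_neg]
    ring
  refine Prime_irr ha (fun h => h0 ?_) fun r h => h1 ?_
  · have := map_dvd ev h
    rw [ea, eb, Polynomial.X_dvd_iff] at this
    simpa using this
  · have := congrArg ev h
    rw [map_add, map_add, map_mul, map_mul, ea, eb, ec, map_pow, map_zero] at this
    exact Prime_noroot this

theorem Prime_mem (Ψ : D →ₐ[ℂ] MvPolynomial (Fin 6) ℂ) (e1 : Ψ y1 = X 1) (e2 : Ψ y2 = X 2)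
    (e4 : Ψ y4 = X 4) (e5 : Ψ y5 = X 5) (p : MvPolynomial (Fin 6) ℂ) :
    p ∈ Jn θ ↔ Prime_P θ y1 y2 y4 y5 ∣ Prime_Phi θ y1 y2 y4 y5 p := by
  obtain ⟨Φ, hΦ⟩ : ∃ Φ, Φ = Prime_Phi θ y1 y2 y4 y5 := ⟨_, rfl⟩
  have c0 : ∀ c, Φ (C c) = Polynomial.C (algebraMap ℂ D c) := fun c => Φ.commutes c
  have x0 : Φ (X 0) = Polynomial.X := hΦ ▸ aeval_X _ _
  have x1 : Φ (X 1) = Polynomial.C y1 := hΦ ▸ aeval_X _ _
  have x2 : Φ (X 2) = Polynomial.C y2 := hΦ ▸ aeval_X _ _
  have x3 : Φ (X 3) = Polynomial.C (-Prime_L θ y1 y2 y4 y5 10) := hΦ ▸ aeval_X _ _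
  have x4 : Φ (X 4) = Polynomial.C y4 := hΦ ▸ aeval_X _ _
  have x5 : Φ (X 5) = Polynomial.C y5 := hΦ ▸ aeval_X _ _
  rw [← hΦ]
  have hL : ∀ a, lf (fun s => Φ (C (θ s))) a (Prime_m (Φ (X 1)) (Φ (X 2)) (Φ (X 4)) (Φ (X 5))) =
      Polynomial.C (Prime_L θ y1 y2 y4 y5 a) := fun a => by
    rw [Prime_L, Prime_map_lf, x1, x2, x4, x5, funext fun s => c0 (θ s)]
  have hH : Φ (Hn (fun s => C (θ s)) (gch X)) = 0 := by
    rw [map_Hn, funext (map_gch Φ X), Prime_H, hL, x3, map_neg, sub_self]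
  have hQ : Φ (Qn (fun s => C (θ s)) (gch X) (gch X)) = Prime_P θ y1 y2 y4 y5 := by
    rw [map_Qn, funext (map_gch Φ X), Prime_Q _ _ (by rw [hL, x3, map_neg]),
      funext hL, Prime_P, Prime_map_b, Prime_map_c, x0, x1, x2, x4, x5, map_sub, map_pow]
  refine ⟨fun h => ?_, fun ⟨r, h⟩ => ?_⟩
  · obtain ⟨u, v, rfl⟩ := Ideal.mem_span_pair.1 h
    rw [map_add, map_mul, map_mul, hH, hQ, mul_zero, zero_add]
    exact dvd_mul_left _ _
  · have hπ : (Ideal.Quotient.mkₐ ℂ (Jn θ)).comp ((Polynomial.aevalTower Ψ (X 0)).comp Φ) =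
        Ideal.Quotient.mkₐ ℂ (Jn θ) := by
      refine algHom_ext fun i => ?_
      have m : Hn (fun s => C (θ s)) (gch X) ∈ Jn θ := Ideal.subset_span (by simp)
      fin_cases i
      · simp [x0]
      · simp [x1, e1]
      · simp [x2, e2]
      · refine Ideal.Quotient.eq.2 ?_
        rw [Prime_H] at m
        refine (congrArg (· ∈ Jn θ) ?_).mp m
        simp [x3, Prime_L, lf, Prime_m, e1, e2, e4, e5]
      · simp [x4, e4]
      · simp [x5, e5]
    have e := DFunLike.congr_fun hπ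
    simp only [AlgHom.comp_apply, Ideal.Quotient.mkₐ_eq_mk] at e
    have m : Qn (fun s => C (θ s)) (gch X) (gch X) ∈ Jn θ := Ideal.subset_span (by simp)
    rw [← Ideal.Quotient.eq_zero_iff_mem, ← e, h, ← hQ, map_mul, map_mul, e,
      Ideal.Quotient.eq_zero_iff_mem.2 m, zero_mul]

theorem Prime_main [IsDomain D] {J : Ideal (MvPolynomial (Fin 6) ℂ)} {P : Polynomial D}
    (hP : Prime P) (hd : P.degree ≠ 0) (Φ : MvPolynomial (Fin 6) ℂ →ₐ[ℂ] Polynomial D)
    (h : ∀ p, p ∈ J ↔ P ∣ Φ p) :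
    J.IsPrime ∧ Algebra.trdeg ℂ (MvPolynomial (Fin 6) ℂ ⧸ J) ≤ Algebra.trdeg ℂ D := by
  have := AdjoinRoot.isDomain_of_prime hP
  let α : MvPolynomial (Fin 6) ℂ →ₐ[ℂ] AdjoinRoot P :=
    (Ideal.Quotient.mkₐ ℂ (Ideal.span {P})).comp Φ
  have hJ : J = RingHom.ker α := Ideal.ext fun p =>
    (h p).trans (AdjoinRoot.mk_eq_zero (f := P)).symm
  rw [hJ]
  refine ⟨RingHom.ker_isPrime α, (trdeg_le_of_injective _ (Ideal.kerLiftAlg_injective α)).trans ?_⟩
  have : FaithfulSMul D (AdjoinRoot P) :=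
    (faithfulSMul_iff_algebraMap_injective _ _).2 (AdjoinRoot.of.injective_of_degree_ne_zero hd)
  have : Algebra.IsAlgebraic D (AdjoinRoot P) := ⟨fun z => by
    obtain ⟨q, rfl⟩ := AdjoinRoot.mk_surjective z
    induction q using Polynomial.induction_on' with
    | add p q hp hq => rw [map_add]; exact hp.add hq
    | monomial n a =>
      rw [← Polynomial.C_mul_X_pow_eq_monomial, map_mul, map_pow]
      exact (isAlgebraic_algebraMap a).mul ((AdjoinRoot.isAlgebraic_root hP.ne_zero).pow n)⟩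
  rw [← trdeg_add_eq ℂ D, trdeg_eq_zero (R := D), add_zero]

end

theorem Prime_fin {S : Type} [CommRing S] [IsDomain S] [UniqueFactorizationMonoid S] [Algebra ℂ S]
    (θ : Th → ℂ) (h0 : θ (0, 0) ≠ 0)
    (h1 : (θ (0, 7) - θ (0, 10) * θ (0, 2)) ^ 2 -
      θ (0, 0) * θ (0, 3) * (θ (0, 7) - θ (0, 10) * θ (0, 2)) + -θ (0, 6) * θ (0, 0) ^ 2 ≠ 0)
    {y1 y2 y4 : S} (ev : S →ₐ[ℂ] ℂ) (e0 : ev y1 = -1) (e1 : ev y2 = 0) (e2 : ev y4 = 0)
    (Ψ : S →ₐ[ℂ] MvPolynomial (Fin 6) ℂ) (k1 : Ψ y1 = X 1) (k2 : Ψ y2 = X 2) (k4 : Ψ y4 = X 4) :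
    (Jn θ).IsPrime ∧
      Algebra.trdeg ℂ (MvPolynomial (Fin 6) ℂ ⧸ Jn θ) ≤ Algebra.trdeg ℂ S + 1 := by
  have ha : Prime (Polynomial.X - Polynomial.C y4 ^ 2) :=
    map_pow Polynomial.C y4 2 ▸ Polynomial.prime_X_sub_C _
  have hP := (Prime_irrP θ h0 h1 ha (Polynomial.mapRingHom (ev : S →+* ℂ))
    (y1 := Polynomial.C y1) (y2 := Polynomial.C y2) (fun c => by simp) (by simp [e0])
    (by simp [e1]) (by simp [e2]) (by simp)).prime
  have := Prime_main hP (fun h => by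
    rw [Prime_P, Polynomial.degree_quadratic ha.ne_zero] at h
    exact absurd h (by decide)) _ (Prime_mem θ (Polynomial.aevalTower Ψ (X 5)) (by simp [k1])
      (by simp [k2]) (by simp [k4]) (by simp))
  rwa [← trdeg_add_eq ℂ S (A := Polynomial S), Polynomial.trdeg_of_isDomain] at this

theorem prime_open : ∃ g : MvPolynomial Th ℂ, g ≠ 0 ∧ ∀ θ : Th → ℂ, eval θ g ≠ 0 →
    (Jn θ).IsPrime ∧ Algebra.trdeg ℂ (MvPolynomial (Fin 6) ℂ ⧸ Jn θ) ≤ 4 := by
  refine ⟨X (0, 0) * ((X (0, 7) - X (0, 10) * X (0, 2)) ^ 2 -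
    X (0, 0) * X (0, 3) * (X (0, 7) - X (0, 10) * X (0, 2)) + -X (0, 6) * X (0, 0) ^ 2),
    fun h => by simpa using congrArg (eval fun _ => (1 : ℂ)) h, fun θ hθ => ?_⟩
  simp only [map_mul, map_add, map_sub, map_pow, map_neg, eval_X, mul_ne_zero_iff] at hθ
  have := Prime_fin (S := S3) θ hθ.1 hθ.2 (y1 := X 0) (y2 := X 1) (y4 := X 2) (aeval ![-1, 0, 0])
    (by simp) (by simp) (by simp) (aeval ![X 1, X 2, X 4]) (by simp) (by simp) (by simp)
  refine ⟨this.1, this.2.trans_eq ?_⟩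
  rw [MvPolynomial.trdeg_of_isDomain]
  simp only [Cardinal.mk_fintype, Fintype.card_fin, Cardinal.lift_natCast]
  norm_num

end Pool.Agent.GM16
end

-- merged part: Pool.Agent.Work.MP_274aea_ag.Field
section
set_option autoImplicit false

open MvPolynomial Matrix

namespace Pool.Agent.GM16

theorem Field_lift {A Ω : Type} [CommRing A] [IsDomain A] [Algebra ℂ A] [Field Ω] [Algebra ℂ Ω]
    (φ : A →ₐ[ℂ] Ω) (hinj : Function.Injective φ)
    (hgen : ∀ F : Subfield Ω, (∀ a, φ a ∈ F) → F = ⊤) :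
    Nonempty (FractionRing A ≃ₐ[ℂ] Ω) := by
  let ψ : FractionRing A →ₐ[ℂ] Ω := IsFractionRing.liftAlgHom (K := FractionRing A) hinj
  refine ⟨AlgEquiv.ofBijective ψ ⟨ψ.toRingHom.injective, fun y => ?_⟩⟩
  have h := hgen ψ.toRingHom.fieldRange fun a =>
    ⟨algebraMap A (FractionRing A) a, by simp [ψ]⟩
  have hy : y ∈ ψ.toRingHom.fieldRange := h ▸ Subfield.mem_top y
  exact hy

theorem Field_alg {A Ω : Type} [CommRing A] [Algebra ℂ A] [Field Ω] [Algebra ℂ Ω]
    (φ : A →ₐ[ℂ] Ω) (hgen : ∀ F : Subfield Ω, (∀ a, φ a ∈ F) → F = ⊤) :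
    Algebra.IsAlgebraic (Algebra.adjoin ℂ (Set.range φ)) Ω := by
  refine ⟨fun x => ?_⟩
  have h := hgen (Subfield.closure (Set.range φ)) fun a => Subfield.subset_closure ⟨a, rfl⟩
  have hx : x ∈ Subfield.closure (Set.range φ) := h ▸ Subfield.mem_top x
  obtain ⟨y, hy, z, hz, rfl⟩ := Subfield.mem_closure_iff.1 hx
  have hle : Subring.closure (Set.range φ) ≤ (Algebra.adjoin ℂ (Set.range φ)).toSubring :=
    Subring.closure_le.2 Algebra.subset_adjoin
  have h1 : IsAlgebraic (Algebra.adjoin ℂ (Set.range φ)) y :=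
    isAlgebraic_algebraMap (⟨y, hle hy⟩ : Algebra.adjoin ℂ (Set.range φ))
  have h2 : IsAlgebraic (Algebra.adjoin ℂ (Set.range φ)) z :=
    isAlgebraic_algebraMap (⟨z, hle hz⟩ : Algebra.adjoin ℂ (Set.range φ))
  rw [div_eq_mul_inv]
  exact h1.mul h2.inv

theorem Field_inj {A Ω : Type} [CommRing A] [IsDomain A] [Algebra ℂ A] [Field Ω] [Algebra ℂ Ω]
    (φ : A →ₐ[ℂ] Ω) (hfin : Algebra.trdeg ℂ A < Cardinal.aleph0)
    (htr : Algebra.trdeg ℂ A ≤ Algebra.trdeg ℂ Ω)
    (hgen : ∀ F : Subfield Ω, (∀ a, φ a ∈ F) → F = ⊤) : Function.Injective φ := by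
  have := Field_alg φ hgen
  obtain ⟨t, hts, ht⟩ := exists_isTranscendenceBasis_subset (R := ℂ) (Set.range φ)
  choose a ha using fun x : t => hts x.2
  have hcomp : φ ∘ a = ((↑) : t → Ω) := funext ha
  have hind : AlgebraicIndependent ℂ (φ ∘ a) := hcomp ▸ ht.1
  have hia : AlgebraicIndependent ℂ a := AlgebraicIndependent.of_comp φ hind
  have hb : IsTranscendenceBasis ℂ a :=
    hia.isTranscendenceBasis_of_trdeg_le hfin (htr.trans ht.cardinalMk_eq_trdeg.ge)
  rw [injective_iff_map_eq_zero]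
  intro c hc
  by_contra hne
  have halg : IsAlgebraic (Algebra.adjoin ℂ (Set.range a)) c := hb.isAlgebraic.isAlgebraic c
  have hbot := Ideal.comap_ne_bot_of_algebraic_mem (I := RingHom.ker φ.toRingHom) hne hc halg
  apply hbot
  rw [eq_bot_iff]
  rintro ⟨b, hb'⟩ hk
  rw [Algebra.adjoin_range_eq_range_aeval] at hb'
  obtain ⟨p, rfl⟩ := hb'
  have h0 : MvPolynomial.aeval (φ ∘ a) p = 0 := by
    have : φ (MvPolynomial.aeval a p) = 0 := hk
    rwa [MvPolynomial.comp_aeval_apply] at this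
  have hp : p = 0 := (algebraicIndependent_iff.1 hind) p h0
  subst hp
  exact (Submodule.mem_bot _).2 (Subtype.ext (map_zero _))

theorem frac_equiv {A Ω : Type} [CommRing A] [IsDomain A] [Algebra ℂ A] [Field Ω] [Algebra ℂ Ω]
    (φ : A →ₐ[ℂ] Ω) (htr : Algebra.trdeg ℂ A ≤ 4)
    (e : Ω ≃ₐ[ℂ] FractionRing (MvPolynomial (Fin 4) ℂ))
    (hgen : ∀ F : Subfield Ω, (∀ a, φ a ∈ F) → F = ⊤) :
    Nonempty (FractionRing A ≃ₐ[ℂ] FractionRing (MvPolynomial (Fin 4) ℂ)) := by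
  have h4 : (4 : Cardinal) ≤ Algebra.trdeg ℂ Ω := by
    rw [e.trdeg_eq]
    have h := trdeg_le_of_injective
      (IsScalarTower.toAlgHom ℂ (MvPolynomial (Fin 4) ℂ) (FractionRing (MvPolynomial (Fin 4) ℂ)))
      (IsFractionRing.injective _ _)
    simpa using h
  have hfin : Algebra.trdeg ℂ A < Cardinal.aleph0 :=
    htr.trans_lt (Cardinal.natCast_lt_aleph0 (n := 4))
  obtain ⟨f⟩ := Field_lift φ (Field_inj φ hfin (htr.trans h4) hgen) hgen
  exact ⟨f.trans e⟩

theorem omega_equiv :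
    Nonempty (FractionRing (MvPolynomial (Fin 2) (FractionRing (MvPolynomial (Fin 2) ℂ))) ≃ₐ[ℂ]
      FractionRing (MvPolynomial (Fin 4) ℂ)) := by
  let R := MvPolynomial (Fin 2) ℂ
  let K := FractionRing R
  let T := MvPolynomial (Fin 2) K
  let e : MvPolynomial (Fin 4) ℂ ≃ₐ[ℂ] MvPolynomial (Fin 2) R :=
    (MvPolynomial.renameEquiv ℂ (finSumFinEquiv (m := 2) (n := 2)).symm).trans
      (MvPolynomial.sumAlgEquiv ℂ (Fin 2) (Fin 2))
  let g : MvPolynomial (Fin 2) R →ₐ[ℂ] T := MvPolynomial.mapAlgHom (IsScalarTower.toAlgHom ℂ R K)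
  let j : T →ₐ[ℂ] FractionRing T := IsScalarTower.toAlgHom ℂ T (FractionRing T)
  have hg : Function.Injective g := MvPolynomial.map_injective _ (IsFractionRing.injective R K)
  have hj : Function.Injective j := IsFractionRing.injective T (FractionRing T)
  obtain ⟨f⟩ := Field_lift (j.comp (g.comp e.toAlgHom))
    (hj.comp (hg.comp e.injective)) fun F hF => by
      have h1 : ∀ p, j (g p) ∈ F := fun p => by
        obtain ⟨q, rfl⟩ := e.surjective p
        exact hF q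
      have h2 : ∀ r : R, j (C (algebraMap R K r)) ∈ F := fun r => by
        have h : g (C r) = C (algebraMap R K r) := MvPolynomial.map_C _ r
        exact h ▸ h1 (C r)
      have h3 : ∀ p : T, j p ∈ F := fun p => by
        induction p using MvPolynomial.induction_on with
        | C k =>
          obtain ⟨r, s, -, rfl⟩ := IsFractionRing.div_surjective (A := R) k
          have := map_div₀ (j.toRingHom.comp (C : K →+* T)) (algebraMap R K r) (algebraMap R K s)
          exact this ▸ F.div_mem (h2 r) (h2 s)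
        | add p q hp hq => rw [map_add]; exact F.add_mem hp hq
        | mul_X p i hp =>
          rw [map_mul]
          have h : g (X i) = X i := MvPolynomial.map_X _ i
          exact F.mul_mem hp (h ▸ h1 (X i))
      rw [eq_top_iff]
      intro x _
      obtain ⟨r, s, -, rfl⟩ := IsFractionRing.div_surjective (A := T) x
      exact F.div_mem (h3 r) (h3 s)
  exact ⟨f.symm⟩

end Pool.Agent.GM16
end
end

-- merged part: Pool.Agent.Work.MP_274aea_ag.Smooth
section
-- merged part: Pool.Agent.Work.MP_274aea_ag.Irr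
section
set_option autoImplicit false

open MvPolynomial Matrix

namespace Pool.Agent.GM16

abbrev K2 := FractionRing (MvPolynomial (Fin 2) ℂ)

noncomputable def ka : K2 := -algebraMap (MvPolynomial (Fin 2) ℂ) K2 (X 1)

noncomputable def kb : K2 := algebraMap (MvPolynomial (Fin 2) ℂ) K2 (X 0)

/-- Restriction to the line `μ = (1, 0, T)`. -/
noncomputable def Irr_phi : MvPolynomial (Fin 2) ℂ →ₐ[ℂ] Polynomial ℂ :=
  aeval ![0, Polynomial.X]

theorem fact_ab (r : K2) : r ^ 2 ≠ ka + kb * r := by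
  intro h
  have hint : IsIntegral (MvPolynomial (Fin 2) ℂ) r := by
    refine ⟨Polynomial.X ^ 2 + (Polynomial.C (-X 0) * Polynomial.X + Polynomial.C (X 1)), ?_, ?_⟩
    · monicity!
    · simp only [Polynomial.eval₂_add, Polynomial.eval₂_mul, Polynomial.eval₂_pow,
        Polynomial.eval₂_X, Polynomial.eval₂_C, map_neg, Polynomial.eval₂_neg]
      rw [h, ka, kb]
      ring
  obtain ⟨s, rfl⟩ := IsIntegrallyClosed.isIntegral_iff.mp hint
  have h2 : s ^ 2 = -X 1 + X 0 * s := by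
    apply IsFractionRing.injective (MvPolynomial (Fin 2) ℂ) K2
    rw [map_pow, h, ka, kb]
    simp
  have h3 := congrArg Irr_phi h2
  have h4 : Irr_phi s ^ 2 = -Polynomial.X := by
    rw [← map_pow, h3]
    simp [Irr_phi]
  have h5 := congrArg Polynomial.natDegree h4
  rw [Polynomial.natDegree_pow, Polynomial.natDegree_neg, Polynomial.natDegree_X] at h5
  omega

theorem K2_gen {Ω : Type*} [Field Ω] (f : K2 →+* Ω) (F : Subfield Ω)
    (hc : ∀ c : ℂ, f (algebraMap ℂ K2 c) ∈ F) (ha : f ka ∈ F) (hb : f kb ∈ F) (k : K2) :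
    f k ∈ F := by
  have key : ∀ p : MvPolynomial (Fin 2) ℂ, f (algebraMap _ K2 p) ∈ F := by
    intro p
    induction p using MvPolynomial.induction_on with
    | C c =>
      have : algebraMap (MvPolynomial (Fin 2) ℂ) K2 (C c) = algebraMap ℂ K2 c := by
        rw [IsScalarTower.algebraMap_apply ℂ (MvPolynomial (Fin 2) ℂ) K2]
        rfl
      rw [this]
      exact hc c
    | add p q hp hq =>
      rw [map_add, map_add]
      exact F.add_mem hp hq
    | mul_X p i hp =>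
      rw [map_mul, map_mul]
      refine F.mul_mem hp ?_
      fin_cases i
      · exact hb
      · have := F.neg_mem ha
        rw [ka, map_neg, neg_neg] at this
        exact this
  obtain ⟨a, b, -, rfl⟩ := IsFractionRing.div_surjective (A := MvPolynomial (Fin 2) ℂ) k
  rw [map_div₀]
  exact F.div_mem (key a) (key b)

/-- The ideal of the root tuples with vanishing third difference. -/
noncomputable def Irr_J {B : Type} [CommRing B] (p : Fin 4 → Polynomial B) :
    Ideal (MvPolynomial (Fin 4) B) :=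
  Ideal.span (insert (X 0 - 3 * X 1 + 3 * X 2 - X 3)
    (Set.range fun i => Polynomial.aeval (X i : MvPolynomial (Fin 4) B) (p i)))

theorem Irr_int {B : Type} [CommRing B] (p : Fin 4 → Polynomial B) (hp : ∀ i, (p i).Monic) :
    Algebra.IsIntegral B (MvPolynomial (Fin 4) B ⧸ Irr_J p) := by
  refine ⟨fun x => ?_⟩
  obtain ⟨q, rfl⟩ := Ideal.Quotient.mkₐ_surjective B (Irr_J p) x
  induction q using MvPolynomial.induction_on with
  | C c =>
    rw [← MvPolynomial.algebraMap_eq, AlgHom.commutes]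
    exact isIntegral_algebraMap
  | add p q hp hq =>
    rw [map_add]
    exact hp.add hq
  | mul_X q i hq =>
    rw [map_mul]
    refine hq.mul ⟨p i, hp i, ?_⟩
    rw [← Polynomial.aeval_def, Polynomial.aeval_algHom_apply, Ideal.Quotient.mkₐ_eq_mk,
      Ideal.Quotient.eq_zero_iff_mem]
    exact Ideal.subset_span (Or.inr ⟨i, rfl⟩)

theorem Irr_range {F : Type*} [Field F] (ι : ℂ →+* F) (q : Polynomial ℂ) (hq : q.Monic) (x : F)
    (hx : q.eval₂ ι x = 0) : ∃ t, ι t = x := by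
  have hs : (q.map ι).roots = q.roots.map ι :=
    (IsAlgClosed.splits q).roots_map ι
  have hm : x ∈ (q.map ι).roots := by
    rw [Polynomial.mem_roots (hq.map ι).ne_zero, Polynomial.IsRoot, Polynomial.eval_map]
    exact hx
  rw [hs, Multiset.mem_map] at hm
  obtain ⟨t, -, ht⟩ := hm
  exact ⟨t, ht⟩

theorem spread {σ : Type} (p : Fin 4 → Polynomial (MvPolynomial σ ℂ)) (hp : ∀ i, (p i).Monic)
    (θ1 : σ → ℂ) (h : ∀ T : Fin 4 → ℂ, (∀ i, (p i).eval₂ (eval θ1) (T i) = 0) →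
      T 0 - 3 * T 1 + 3 * T 2 - T 3 ≠ 0) :
    ∃ g : MvPolynomial σ ℂ, g ≠ 0 ∧ ∀ θ, eval θ g ≠ 0 → ∀ T : Fin 4 → ℂ,
      (∀ i, (p i).eval₂ (eval θ) (T i) = 0) → T 0 - 3 * T 1 + 3 * T 2 - T 3 ≠ 0 := by
  have := Irr_int p hp
  have hmax : (RingHom.ker (eval θ1 : MvPolynomial σ ℂ →+* ℂ)).IsMaximal :=
    RingHom.ker_isMaximal_of_surjective _ (fun c => ⟨C c, by simp⟩)
  have hnot : ¬ RingHom.ker (algebraMap (MvPolynomial σ ℂ)
      (MvPolynomial (Fin 4) (MvPolynomial σ ℂ) ⧸ Irr_J p)) ≤ RingHom.ker (eval θ1) := by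
    intro hle
    obtain ⟨Q, hQ, hQc⟩ := Ideal.exists_ideal_over_maximal_of_isIntegral _ hle
    let _ := Ideal.Quotient.field Q
    let π : MvPolynomial (Fin 4) (MvPolynomial σ ℂ) →+* _ :=
      (Ideal.Quotient.mk Q).comp (Ideal.Quotient.mk (Irr_J p))
    let ι : ℂ →+* _ := (π.comp C).comp C
    have hι : π.comp C = ι.comp (eval θ1) := by
      refine RingHom.ext fun b => ?_
      have h1 : b - C (eval θ1 b) ∈ Q.comap (algebraMap (MvPolynomial σ ℂ) _) := by
        rw [hQc, RingHom.mem_ker]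
        simp
      rw [Ideal.mem_comap, ← Ideal.Quotient.eq_zero_iff_mem] at h1
      have h2 : π (C (b - C (eval θ1 b))) = 0 := h1
      rw [map_sub, map_sub, sub_eq_zero] at h2
      exact h2
    have hJ : ∀ q ∈ Irr_J p, π q = 0 := by
      intro q hq
      simp only [π, RingHom.comp_apply]
      rw [Ideal.Quotient.eq_zero_iff_mem.mpr hq, map_zero]
    have hroot : ∀ i, ((p i).map (eval θ1)).eval₂ ι (π (X i)) = 0 := by
      intro i
      rw [Polynomial.eval₂_map, ← hι, ← Polynomial.hom_eval₂]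
      exact hJ _ (Ideal.subset_span (Or.inr ⟨i, rfl⟩))
    choose T hT using fun i => Irr_range ι _ ((hp i).map (eval θ1)) _ (hroot i)
    refine h T (fun i => ?_) ?_
    · apply ι.injective
      rw [Polynomial.hom_eval₂, hT, map_zero, ← Polynomial.eval₂_map]
      exact hroot i
    · apply ι.injective
      have := hJ _ (Ideal.subset_span (Or.inl rfl))
      simp only [map_sub, map_add, map_mul, map_ofNat, hT, map_zero] at this ⊢
      exact this
  obtain ⟨g, hg, hg1⟩ := SetLike.not_le_iff_exists.mp hnot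
  refine ⟨g, ?_, fun θ hθ T hT h0 => hθ ?_⟩
  · rintro rfl
    exact hg1 (Ideal.zero_mem _)
  · have hgJ : (C g : MvPolynomial (Fin 4) (MvPolynomial σ ℂ)) ∈ Irr_J p := by
      rw [RingHom.mem_ker] at hg
      exact Ideal.Quotient.eq_zero_iff_mem.mp hg
    have hker : Irr_J p ≤ RingHom.ker (eval₂Hom (eval θ) T) := by
      rw [Irr_J, Ideal.span_le]
      rintro _ (rfl | ⟨i, rfl⟩)
      · simpa [RingHom.mem_ker, map_ofNat] using h0
      · simp only [SetLike.mem_coe, RingHom.mem_ker]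
        rw [Polynomial.aeval_def, Polynomial.hom_eval₂, MvPolynomial.algebraMap_eq]
        have : (eval₂Hom (eval θ) T).comp C = (eval θ : MvPolynomial σ ℂ →+* ℂ) := by
          refine RingHom.ext fun b => ?_
          simp
        rw [this]
        simpa using hT i
    have := hker hgJ
    simpa [RingHom.mem_ker] using this


/-- The point `(1, X 0, X 1)` of the plane. -/
noncomputable def Irr_mA : Fin 3 → MvPolynomial (Fin 2) ℂ := ![1, X 0, X 1]

theorem Irr_mv : mv ka kb = fun k => algebraMap (MvPolynomial (Fin 2) ℂ) K2 (Irr_mA k) := by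
  funext k
  fin_cases k <;> simp [mv, ka, kb, Irr_mA]

theorem Irr_th (θ : Th → ℂ) : (fun s => algebraMap ℂ K2 (θ s)) =
    fun s => algebraMap (MvPolynomial (Fin 2) ℂ) K2 (C (θ s)) := by
  funext s
  rw [IsScalarTower.algebraMap_apply ℂ (MvPolynomial (Fin 2) ℂ) K2]
  rfl

theorem Irr_ev (θ : Th → ℂ) (x : Fin 2 → ℂ) :
    (fun s => eval x (C (θ s) : MvPolynomial (Fin 2) ℂ)) = θ := by
  funext s
  simp

theorem Irr_evm (x : Fin 2 → ℂ) : (fun k => eval x (Irr_mA k)) = ![1, x 0, x 1] := by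
  funext k
  fin_cases k <;> simp [Irr_mA]

theorem Irr_nu_ne (θ : Th → ℂ) (x : Fin 2 → ℂ) (hx : lf θ 10 ![1, x 0, x 1] ≠ 0) :
    lf (fun s => algebraMap ℂ K2 (θ s)) 10 (mv ka kb) ≠ 0 := by
  rw [Irr_mv, Irr_th, ← map_lf]
  intro h
  have h1 : lf (fun s => (C (θ s) : MvPolynomial (Fin 2) ℂ)) 10 Irr_mA = 0 :=
    (IsFractionRing.injective (MvPolynomial (Fin 2) ℂ) K2) (by rw [h, map_zero])
  have h2 := congrArg (eval x) h1
  rw [map_lf, Irr_ev, Irr_evm, map_zero] at h2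
  exact hx h2

theorem Irr_deg (θ : Th → K2) (μ : Fin 3 → K2) (hν : lf θ 10 μ ≠ 0) :
    (Gp θ μ).natDegree = 3 ∧ (Gp θ μ).leadingCoeff = 4 * lf θ 10 μ := by
  have h4 : (4 : K2) * lf θ 10 μ ≠ 0 := mul_ne_zero (by norm_num) hν
  rw [Gp_eq]
  exact ⟨Polynomial.natDegree_cubic h4, Polynomial.leadingCoeff_cubic h4⟩

/-- The monic cubic satisfied by `ν ρ`. -/
noncomputable def Irr_cub {R : Type*} [CommRing R] (θ : Th → R) (μ : Fin 3 → R) : Polynomial R :=
  Polynomial.X ^ 3 + (Polynomial.C (g2 θ μ) * Polynomial.X ^ 2 +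
    Polynomial.C (lf θ 10 μ * g1 θ μ) * Polynomial.X + Polynomial.C (lf θ 10 μ ^ 2 * g0 θ μ))

theorem Irr_cub_monic {R : Type*} [CommRing R] [Nontrivial R] (θ : Th → R) (μ : Fin 3 → R) :
    (Irr_cub θ μ).Monic := by
  unfold Irr_cub
  monicity!

theorem Irr_cub_eval {R S : Type*} [CommRing R] [CommRing S] (f : R →+* S) (θ : Th → R)
    (μ : Fin 3 → R) (w : S) : (Irr_cub θ μ).eval₂ f w =
      w ^ 3 + g2 (fun s => f (θ s)) (fun k => f (μ k)) * w ^ 2 +
        lf (fun s => f (θ s)) 10 (fun k => f (μ k)) * g1 (fun s => f (θ s)) (fun k => f (μ k)) * w +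
        lf (fun s => f (θ s)) 10 (fun k => f (μ k)) ^ 2 *
          g0 (fun s => f (θ s)) (fun k => f (μ k)) := by
  rw [← map_lf, ← map_g2, ← map_g1, ← map_g0]
  simp only [Irr_cub, Polynomial.eval₂_add, Polynomial.eval₂_mul, Polynomial.eval₂_pow,
    Polynomial.eval₂_X, Polynomial.eval₂_C, map_mul, map_pow]
  ring

theorem Irr_lf_deg (θ : Th → ℂ) (a : Fin 11) :
    (lf (fun s => Polynomial.C (θ s)) a ![1, 0, Polynomial.X]).natDegree ≤ 1 := by
  simp only [lf, Matrix.cons_val_zero, Matrix.cons_val_one, Matrix.cons_val]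
  compute_degree

theorem Irr_g_deg (θ : Th → ℂ) :
    (g2 (fun s => Polynomial.C (θ s)) ![1, 0, Polynomial.X]).natDegree ≤ 2 ∧
    (g1 (fun s => Polynomial.C (θ s)) ![1, 0, Polynomial.X]).natDegree ≤ 3 ∧
    (g0 (fun s => Polynomial.C (θ s)) ![1, 0, Polynomial.X]).natDegree ≤ 4 := by
  simp only [g2, g1, g0, Bq, lf, Matrix.cons_val_zero, Matrix.cons_val_one, Matrix.cons_val]
  refine ⟨?_, ?_, ?_⟩ <;> compute_degree

theorem Irr_deg_le (W a b c : Polynomial ℂ) (ha : a.natDegree ≤ 2) (hb : b.natDegree ≤ 4)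
    (hc : c.natDegree ≤ 6) (h : W ^ 3 + a * W ^ 2 + b * W + c = 0) : W.natDegree ≤ 2 := by
  by_contra hW
  have h1 : W ^ 3 = -(a * W ^ 2 + b * W + c) := by linear_combination h
  have h2 := congrArg Polynomial.natDegree h1
  rw [Polynomial.natDegree_pow, Polynomial.natDegree_neg] at h2
  have h3 : (a * W ^ 2).natDegree ≤ 2 + 2 * W.natDegree :=
    Polynomial.natDegree_mul_le.trans (add_le_add ha Polynomial.natDegree_pow_le)
  have h4 : (b * W).natDegree ≤ 4 + W.natDegree :=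
    Polynomial.natDegree_mul_le.trans (add_le_add hb le_rfl)
  have h5 := Polynomial.natDegree_add_le (a * W ^ 2 + b * W) c
  have h6 := Polynomial.natDegree_add_le (a * W ^ 2) (b * W)
  omega

theorem Irr_third (W : Polynomial ℂ) (hW : W.natDegree ≤ 2) :
    W.eval 0 - 3 * W.eval 1 + 3 * W.eval 2 - W.eval 3 = 0 := by
  have h : W.natDegree < 3 := by omega
  simp only [Polynomial.eval_eq_sum_range' h, Finset.sum_range_succ, Finset.sum_range_zero]
  ring

/-- The example for the irreducibility. -/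
noncomputable def Irr_th1 : Th → ℂ := fun ka =>
  (!![0, 0, 0, 0, 1, -1, 1 / 2, 0, 0, 0, 1;
    0, 0, 0, 0, 0, 0, 0, 0, 0, 0, 0;
    0, 0, 0, 0, -1 / 2, 1 / 2, 0, 0, 0, 0, 0] : Matrix (Fin 3) (Fin 11) ℂ) ka.1 ka.2

theorem Irr_ex (t w : ℂ) : w ^ 3 + g2 Irr_th1 ![1, 0, t] * w ^ 2 +
    lf Irr_th1 10 ![1, 0, t] * g1 Irr_th1 ![1, 0, t] * w +
      lf Irr_th1 10 ![1, 0, t] ^ 2 * g0 Irr_th1 ![1, 0, t] = w ^ 3 + t * (t - 1) * (t - 2) := by
  simp [g2, g1, g0, Bq, lf, Irr_th1]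
  ring

theorem Irr_line (θ : Th → ℂ) (t : ℂ) :
    (fun k => eval θ ((![1, 0, C t] : Fin 3 → MvPolynomial Th ℂ) k)) = ![1, 0, t] := by
  funext k
  fin_cases k <;> simp

theorem irr_open : ∃ g : MvPolynomial Th ℂ, g ≠ 0 ∧ ∀ θ : Th → ℂ, eval θ g ≠ 0 →
    lf (fun s => algebraMap ℂ K2 (θ s)) 10 (mv ka kb) ≠ 0 ∧
      Irreducible (Gp (fun s => algebraMap ℂ K2 (θ s)) (mv ka kb)) := by
  have hX : ∀ θ : Th → ℂ, (fun s => eval θ (X s : MvPolynomial Th ℂ)) = θ := by
    intro θ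
    funext s
    simp
  obtain ⟨g, hg, hT⟩ := spread (σ := Th)
    (fun i : Fin 4 => Irr_cub X ![1, 0, C (![0, 1, 2, 3] i : ℂ)]) (fun i => Irr_cub_monic _ _)
    Irr_th1 (by
      intro T hT
      have h0 := hT 0
      have h1 := hT 1
      have h2 := hT 2
      have h3 := hT 3
      rw [Irr_cub_eval, hX, Irr_line, Irr_ex] at h0 h1 h2 h3
      simp only [Matrix.cons_val_zero, Matrix.cons_val_one, Matrix.cons_val] at h0 h1 h2 h3
      have e0 : T 0 = 0 := pow_eq_zero_iff (n := 3) (by norm_num) |>.mp (by linear_combination h0)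
      have e1 : T 1 = 0 := pow_eq_zero_iff (n := 3) (by norm_num) |>.mp (by linear_combination h1)
      have e2 : T 2 = 0 := pow_eq_zero_iff (n := 3) (by norm_num) |>.mp (by linear_combination h2)
      rw [e0, e1, e2]
      intro h
      have e3 : T 3 = 0 := by linear_combination -h
      rw [e3] at h3
      norm_num at h3)
  refine ⟨g * X (0, 10), mul_ne_zero hg (X_ne_zero _), fun θ hθ => ?_⟩
  rw [map_mul, eval_X, mul_ne_zero_iff] at hθ
  have hν := Irr_nu_ne θ ![0, 0] (by simpa [lf] using hθ.2)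
  refine ⟨hν, ?_⟩
  have hd := (Irr_deg _ _ hν).1
  rw [Polynomial.irreducible_iff_roots_eq_zero_of_degree_le_three (by omega) (by omega)]
  apply Multiset.eq_zero_of_forall_notMem
  intro ρ hρ
  have hρ0 := (Polynomial.mem_roots'.mp hρ).2
  rw [Polynomial.IsRoot, Gp_eq] at hρ0
  simp only [Polynomial.eval_add, Polynomial.eval_mul, Polynomial.eval_pow, Polynomial.eval_X,
    Polynomial.eval_C] at hρ0
  have hroot : (Irr_cub (fun s => (C (θ s) : MvPolynomial (Fin 2) ℂ)) Irr_mA).eval₂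
      (algebraMap _ K2) (lf (fun s => algebraMap ℂ K2 (θ s)) 10 (mv ka kb) * ρ) = 0 := by
    rw [Irr_cub_eval, ← Irr_mv, ← Irr_th]
    linear_combination (lf (fun s => algebraMap ℂ K2 (θ s)) 10 (mv ka kb) ^ 2 / 4) * hρ0
  obtain ⟨w, hw⟩ := IsIntegrallyClosed.isIntegral_iff.mp ⟨_, Irr_cub_monic _ _, hroot⟩
  have h1 : (Irr_cub (fun s => (C (θ s) : MvPolynomial (Fin 2) ℂ)) Irr_mA).eval₂
      (RingHom.id _) w = 0 := by
    apply IsFractionRing.injective (MvPolynomial (Fin 2) ℂ) K2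
    rw [Polynomial.hom_eval₂, hw, map_zero, RingHom.comp_id]
    exact hroot
  have h2 := congrArg (Irr_phi : MvPolynomial (Fin 2) ℂ →+* Polynomial ℂ) h1
  rw [Polynomial.hom_eval₂, map_zero, RingHom.comp_id, Irr_cub_eval] at h2
  have e1 : (fun s => (Irr_phi : MvPolynomial (Fin 2) ℂ →+* Polynomial ℂ) (C (θ s))) =
      fun s => Polynomial.C (θ s) := by
    funext s
    simp [Irr_phi]
  have e2 : (fun k => (Irr_phi : MvPolynomial (Fin 2) ℂ →+* Polynomial ℂ) (Irr_mA k)) =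
      ![1, 0, Polynomial.X] := by
    funext k
    fin_cases k <;> simp [Irr_phi, Irr_mA]
  rw [e1, e2] at h2
  generalize (Irr_phi : MvPolynomial (Fin 2) ℂ →+* Polynomial ℂ) w = W at h2
  have hl := Irr_lf_deg θ 10
  obtain ⟨d2, d1, d0⟩ := Irr_g_deg θ
  have hW := Irr_deg_le W _ _ _ d2
    (Polynomial.natDegree_mul_le.trans (add_le_add hl d1))
    (Polynomial.natDegree_mul_le.trans (add_le_add (Polynomial.natDegree_pow_le.trans
      (Nat.mul_le_mul_left 2 hl)) d0)) h2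
  refine hT θ hθ.1 (fun i => W.eval (![0, 1, 2, 3] i)) (fun i => ?_) (Irr_third W hW)
  rw [Irr_cub_eval, hX, Irr_line]
  have h3 := congrArg (Polynomial.evalRingHom (![0, 1, 2, 3] i : ℂ)) h2
  have e3 : (fun s => Polynomial.evalRingHom (![0, 1, 2, 3] i : ℂ) (Polynomial.C (θ s))) = θ := by
    funext s
    simp
  have e4 : (fun k => Polynomial.evalRingHom (![0, 1, 2, 3] i : ℂ)
      ((![1, 0, Polynomial.X] : Fin 3 → Polynomial ℂ) k)) = ![1, 0, ![0, 1, 2, 3] i] := by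
    funext k
    fin_cases k <;> simp
  simp only [map_add, map_mul, map_pow, map_lf, map_g2, map_g1, map_g0, map_zero, e3, e4] at h3
  exact h3

/-- The restriction to the generic line through the marked point. -/
noncomputable def Irr_chi : S4 →+* Polynomial (MvPolynomial (Fin 2) ℂ) :=
  eval₂Hom (Polynomial.C.comp C) (Fin.cons Polynomial.X fun k => Polynomial.C (Irr_mA k))

theorem Irr_chi_top {n : ℕ} {y : S4} (hy : y.IsHomogeneous n) :
    (Irr_chi y).natDegree ≤ n ∧ (Irr_chi y).coeff n = C (eval P0 y) := by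
  induction hy using IsWeightedHomogeneous.induction_on with
  | zero => simp
  | add p q _ _ hp hq =>
    rw [map_add, Polynomial.coeff_add, map_add, map_add, hp.2, hq.2]
    exact ⟨(Polynomial.natDegree_add_le _ _).trans (max_le hp.1 hq.1), rfl⟩
  | monomial d r hr =>
    have hd : d 0 + d 1 + d 2 + d 3 = n := by
      rw [← hr, Finsupp.weight_apply, Finsupp.sum_fintype _ _ (by simp)]
      simp [Fin.sum_univ_four]
    have e : Irr_chi (monomial d r) = Polynomial.C (C r * X 0 ^ d 2 * X 1 ^ d 3) *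
        Polynomial.X ^ d 0 := by
      rw [Irr_chi, eval₂Hom_monomial, Finsupp.prod_fintype _ _ (by simp), Fin.prod_univ_four]
      simp only [RingHom.comp_apply, map_mul, map_pow]
      have a0 : (Fin.cons Polynomial.X fun k => Polynomial.C (Irr_mA k) :
          Fin 4 → Polynomial (MvPolynomial (Fin 2) ℂ)) 0 = Polynomial.X := rfl
      have a1 : (Fin.cons Polynomial.X fun k => Polynomial.C (Irr_mA k) :
          Fin 4 → Polynomial (MvPolynomial (Fin 2) ℂ)) 1 = Polynomial.C 1 := rfl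
      have a2 : (Fin.cons Polynomial.X fun k => Polynomial.C (Irr_mA k) :
          Fin 4 → Polynomial (MvPolynomial (Fin 2) ℂ)) 2 = Polynomial.C (X 0) := rfl
      have a3 : (Fin.cons Polynomial.X fun k => Polynomial.C (Irr_mA k) :
          Fin 4 → Polynomial (MvPolynomial (Fin 2) ℂ)) 3 = Polynomial.C (X 1) := rfl
      rw [a0, a1, a2, a3, map_one]
      ring
    rw [e, Polynomial.coeff_C_mul_X_pow, eval_monomial, Finsupp.prod_fintype _ _ (by simp),
      Fin.prod_univ_four]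
    refine ⟨(Polynomial.natDegree_C_mul_X_pow_le _ _).trans (by omega), ?_⟩
    simp only [P0, Matrix.cons_val_zero, Matrix.cons_val_one, Matrix.cons_val, one_pow, one_mul]
    split_ifs with h
    · have h1 : d 1 = 0 := by omega
      have h2 : d 2 = 0 := by omega
      have h3 : d 3 = 0 := by omega
      simp [h1, h2, h3]
    · have h1 : d 1 ≠ 0 ∨ d 2 ≠ 0 ∨ d 3 ≠ 0 := by omega
      rcases h1 with h1 | h1 | h1 <;> simp [h1]

theorem Irr_g2_hom (θ : Th → ℂ) (μ : Fin 3 → ℂ) (c : ℂ) :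
    g2 θ (fun k => c * μ k) = c ^ 2 * g2 θ μ := by
  simp only [g2, Bq, lf]
  ring

theorem iso_open : ∃ g : MvPolynomial Th ℂ, g ≠ 0 ∧ ∀ θ : Th → ℂ, eval θ g ≠ 0 → IsoS θ →
    ∃ z : Fin 4 → AdjoinRoot (Gp (fun s => algebraMap ℂ K2 (θ s)) (mv ka kb)), z ≠ 0 ∧
      z ⬝ᵥ NN (fun s => algebraMap K2 _ (algebraMap ℂ K2 (θ s)))
        (fun k => algebraMap K2 _ (mv ka kb k)) (fun k => algebraMap K2 _ (mv ka kb k))
        (AdjoinRoot.root (Gp (fun s => algebraMap ℂ K2 (θ s)) (mv ka kb))) *ᵥ z = 0 := by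
  have hev : ∀ θ : Th → ℂ, eval θ (X (2, 10) * g2 X ![X (2, 10), 0, -X (0, 10)]) =
      θ (2, 10) * g2 θ ![θ (2, 10), 0, -θ (0, 10)] := by
    intro θ
    rw [map_mul, map_g2, eval_X]
    congr 2
    · funext s
      simp
    · funext k
      fin_cases k <;> simp
  refine ⟨X (2, 10) * g2 X ![X (2, 10), 0, -X (0, 10)], ?_, ?_⟩
  · intro h
    have := hev (fun s => if s = (2, 10) ∨ s = (0, 4) then 1 else 0)
    rw [h, map_zero] at this
    simp [g2, Bq, lf] at this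
  intro θ hθ ⟨n, y, hy, hdvd, i, hi⟩
  rw [hev, mul_ne_zero_iff] at hθ
  obtain ⟨hν2, hg2⟩ := hθ
  have hν := Irr_nu_ne θ ![0, (1 - θ (0, 10)) / θ (2, 10)] (by
    simp only [lf, Matrix.cons_val_zero, Matrix.cons_val_one, Matrix.cons_val]
    field_simp
    simp)
  set G := Gp (fun s => algebraMap ℂ K2 (θ s)) (mv ka kb) with hG
  let ψ : S4 →+* AdjoinRoot G := ((AdjoinRoot.mk G).comp
    (Polynomial.mapRingHom (algebraMap (MvPolynomial (Fin 2) ℂ) K2))).comp Irr_chi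
  have hC : (fun s => ψ (C (θ s))) = fun s => algebraMap K2 (AdjoinRoot G)
      (algebraMap ℂ K2 (θ s)) := by
    funext s
    rw [congrFun (Irr_th θ) s]
    simp [ψ, Irr_chi]
  have hX : (fun k : Fin 3 => ψ (X k.succ)) = fun k => algebraMap K2 (AdjoinRoot G)
      (mv ka kb k) := by
    funext k
    rw [Irr_mv]
    simp [ψ, Irr_chi]
  have hX0 : ψ (X 0) = AdjoinRoot.root G := by
    simp [ψ, Irr_chi]
  have hGG : ψ (GG (fun s => C (θ s)) (fun k => X k.succ) (X 0)) = 0 := by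
    rw [map_GG, hC, hX, hX0]
    have h1 : AdjoinRoot.mk G (Gp (fun s => algebraMap ℂ K2 (θ s)) (mv ka kb)) = 0 :=
      AdjoinRoot.mk_self
    rw [Gp, map_GG] at h1
    exact h1
  refine ⟨fun a => ψ (y a), ?_, ?_⟩
  · intro hz
    have hz1 : ψ (y i) = 0 := congrFun hz i
    have hdv : G ∣ (Irr_chi (y i)).map (algebraMap (MvPolynomial (Fin 2) ℂ) K2) :=
      AdjoinRoot.mk_eq_zero.mp hz1
    obtain ⟨t1, t2⟩ := Irr_chi_top (hy i)
    have hmon : (Polynomial.C (C (eval P0 (y i))⁻¹) * Irr_chi (y i)).Monic := by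
      refine Polynomial.monic_of_natDegree_le_of_coeff_eq_one n
        ((Polynomial.natDegree_C_mul_le _ _).trans t1) ?_
      rw [Polynomial.coeff_C_mul, t2, ← map_mul, inv_mul_cancel₀ hi, map_one]
    obtain ⟨g', hg'⟩ := IsIntegrallyClosed.eq_map_mul_C_of_dvd K2 hmon (g := G)
      (by rw [Polynomial.map_mul]; exact hdv.mul_left _)
    have hc := congrArg (fun P => Polynomial.coeff P 2) hg'
    simp only [Polynomial.coeff_mul_C, Polynomial.coeff_map] at hc
    rw [hG, (Irr_deg _ _ hν).2, Gp_eq] at hc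
    simp only [Polynomial.coeff_add, Polynomial.coeff_C_mul_X_pow, Polynomial.coeff_C_mul_X,
      Polynomial.coeff_C] at hc
    norm_num at hc
    rw [Irr_mv, Irr_th, ← map_lf, ← map_g2] at hc
    have h1 : g'.coeff 2 * lf (fun s => (C (θ s) : MvPolynomial (Fin 2) ℂ)) 10 Irr_mA =
        g2 (fun s => (C (θ s) : MvPolynomial (Fin 2) ℂ)) Irr_mA := by
      apply IsFractionRing.injective (MvPolynomial (Fin 2) ℂ) K2
      rw [map_mul]
      linear_combination (1 / 4 : K2) * hc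
    have h2 := congrArg (eval ![0, -θ (0, 10) / θ (2, 10)]) h1
    rw [map_mul, map_lf, map_g2, Irr_ev, Irr_evm] at h2
    have h3 : lf θ 10 ![1, (![0, -θ (0, 10) / θ (2, 10)] : Fin 2 → ℂ) 0,
        (![0, -θ (0, 10) / θ (2, 10)] : Fin 2 → ℂ) 1] = 0 := by
      simp only [lf, Matrix.cons_val_zero, Matrix.cons_val_one, Matrix.cons_val]
      field_simp
      simp
    rw [h3, mul_zero] at h2
    apply hg2
    have h4 := Irr_g2_hom θ ![1, (![0, -θ (0, 10) / θ (2, 10)] : Fin 2 → ℂ) 0,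
        (![0, -θ (0, 10) / θ (2, 10)] : Fin 2 → ℂ) 1] (θ (2, 10))
    rw [← h2, mul_zero] at h4
    refine Eq.trans ?_ h4
    congr 1
    funext k
    fin_cases k
    · simp
    · simp
    · simp only [Fin.reduceFinMk, Matrix.cons_val, Matrix.cons_val_one, Matrix.cons_val_zero]
      field_simp
  · obtain ⟨q, hq⟩ := hdvd
    have h1 := congrArg ψ hq
    rw [map_mul, hGG, zero_mul] at h1
    rw [← hC, ← hX, ← hX0, ← map_NN, ← h1]
    simp [dotProduct, Matrix.mulVec, map_sum]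

end Pool.Agent.GM16
end

-- merged part: Pool.Agent.Work.MP_274aea_ag.Smooth
section
set_option autoImplicit false
set_option linter.unusedSectionVars false

open MvPolynomial Matrix

namespace Pool.Agent.GM16

theorem Smooth_generic {τ σ ι : Type} (f : ι → MvPolynomial (τ ⊕ σ) ℂ) :
    (∃ g : MvPolynomial τ ℂ, g ≠ 0 ∧ ∀ (θ : τ → ℂ) (w : σ → ℂ),
      (∀ i, eval (Sum.elim θ w) (f i) = 0) → eval θ g = 0) ∨
    ∃ (K : Type) (_ : Field K) (_ : Algebra ℂ K) (φ : MvPolynomial (τ ⊕ σ) ℂ →ₐ[ℂ] K),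
      AlgebraicIndependent ℂ (fun s => φ (X (Sum.inl s))) ∧ ∀ i, φ (f i) = 0 := by
  by_cases h : ∃ g : MvPolynomial τ ℂ, g ≠ 0 ∧
      rename Sum.inl g ∈ Ideal.span (Set.range f)
  · obtain ⟨g, h0, hg⟩ := h
    refine Or.inl ⟨g, h0, fun θ w hw => ?_⟩
    have h1 : Ideal.span (Set.range f) ≤ RingHom.ker (eval (Sum.elim θ w)) :=
      Ideal.span_le.2 (by rintro _ ⟨i, rfl⟩; exact hw i)
    have h2 : eval (Sum.elim θ w) (rename Sum.inl g) = 0 := h1 hg
    rwa [eval_rename] at h2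
  · obtain ⟨P, hP, h1, h2⟩ := (Ideal.span (Set.range f)).exists_le_prime_disjoint
      ((nonZeroDivisors (MvPolynomial τ ℂ)).map
        (rename Sum.inl : MvPolynomial τ ℂ →ₐ[ℂ] MvPolynomial (τ ⊕ σ) ℂ))
      (Set.disjoint_left.2 (by
        rintro _ hx ⟨g, hg, rfl⟩
        exact h ⟨g, nonZeroDivisors.ne_zero hg, hx⟩))
    let φ : MvPolynomial (τ ⊕ σ) ℂ →ₐ[ℂ] FractionRing (MvPolynomial (τ ⊕ σ) ℂ ⧸ P) :=
      (IsScalarTower.toAlgHom ℂ _ _).comp (Ideal.Quotient.mkₐ ℂ P)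
    have k : ∀ x, φ x = 0 ↔ x ∈ P := fun x => by
      change algebraMap _ (FractionRing (MvPolynomial (τ ⊕ σ) ℂ ⧸ P)) (Ideal.Quotient.mk P x) = 0 ↔ _
      rw [map_eq_zero_iff _ (IsFractionRing.injective _ _), Ideal.Quotient.eq_zero_iff_mem]
    refine Or.inr ⟨_, inferInstance, inferInstance, φ, algebraicIndependent_iff.2 fun g hg => ?_,
      fun i => (k _).2 (h1 (Ideal.subset_span ⟨i, rfl⟩))⟩
    by_contra h0
    have e : φ (rename Sum.inl g) = aeval (fun s => φ (X (Sum.inl s))) g := by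
      have : φ.comp (rename Sum.inl) = aeval fun s => φ (X (Sum.inl s)) :=
        algHom_ext fun s => by simp
      exact DFunLike.congr_fun this g
    exact Set.disjoint_left.1 h2 ((k _).1 (e.trans hg)) ⟨g, mem_nonZeroDivisors_of_ne_zero h0, rfl⟩

theorem Smooth_contra {K : Type} [Field K] [Algebra ℂ K] {θ : Th → K}
    (hθ : AlgebraicIndependent ℂ θ) (A : Finset Th) {n : ℕ} (y : Fin n → K) (h : n < A.card)
    (hF : ∀ F : IntermediateField ℂ K, (∀ i, y i ∈ F) → (∀ s, s ∉ A → θ s ∈ F) →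
      ∀ s ∈ A, θ s ∈ F) : False := by
  classical
  let S : Finset K := Finset.univ.image y ∪ Aᶜ.image θ
  have h1 : ∀ s, θ s ∈ IntermediateField.adjoin ℂ (S : Set K) := by
    have a1 : ∀ s, s ∉ A → θ s ∈ IntermediateField.adjoin ℂ (S : Set K) := fun s hs =>
      IntermediateField.subset_adjoin _ _ (Finset.mem_union_right _
        (Finset.mem_image_of_mem _ (Finset.mem_compl.2 hs)))
    intro s
    by_cases hs : s ∈ A
    · exact hF _ (fun i => IntermediateField.subset_adjoin _ _ (Finset.mem_union_left _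
        (Finset.mem_image_of_mem _ (Finset.mem_univ i)))) a1 s hs
    · exact a1 s hs
  have h2 : Set.range θ ⊆ (AlgebraicIndependent.matroid ℂ K).closure S := by
    rintro _ ⟨s, rfl⟩
    rw [AlgebraicIndependent.matroid_closure_eq]
    exact IntermediateField.isAlgebraic_adjoin_iff.1
      (isAlgebraic_algebraMap (⟨θ s, h1 s⟩ : IntermediateField.adjoin ℂ (S : Set K)))
  have h3 : (AlgebraicIndependent.matroid ℂ K).Indep (Set.range θ) := hθ.to_subtype_range
  have h4 := h3.encard_le_eRk_of_subset h2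
  rw [Matroid.eRk_closure_eq] at h4
  have h5 := h4.trans (Matroid.eRk_le_encard _ _)
  rw [← Set.image_univ, hθ.injective.encard_image, ← Finset.coe_univ, Set.encard_coe_eq_coe_finsetCard,
    Set.encard_coe_eq_coe_finsetCard, Nat.cast_le] at h5
  have h6 : S.card ≤ n + Aᶜ.card := (Finset.card_union_le _ _).trans
    (add_le_add (Finset.card_image_le.trans (by simp)) Finset.card_image_le)
  have h7 := Finset.card_add_card_compl A
  rw [Finset.card_univ] at h5
  omega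

section Ring
variable {R : Type*} [CommRing R]

/-- The tangency functional. -/
def Smooth_B (θ : Th → R) (a : R) (p t : Fin 10 → R) : R := a * Hn θ t + (Qn θ p t + Qn θ t p)

/-- The standard basis. -/
def Smooth_e (r : Fin 5) : Fin 5 → R := fun s => if s = r then 1 else 0

theorem Smooth_B_lin (θ : Th → R) (a : R) (p t t' : Fin 10 → R) (c c' : R) :
    Smooth_B θ a p (c • t + c' • t') = c * Smooth_B θ a p t + c' * Smooth_B θ a p t' := by
  simp [Smooth_B, Hn, Qn, ll, lf]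
  ring

theorem Smooth_B_smul (θ : Th → R) (a : R) (p t : Fin 10 → R) (c : R) :
    Smooth_B θ (c * a) (c • p) t = c * Smooth_B θ a p t := by
  simp [Smooth_B, Hn, Qn, ll, lf]
  ring

theorem Smooth_H_smul (θ : Th → R) (p : Fin 10 → R) (c : R) : Hn θ (c • p) = c * Hn θ p := by
  simp [Hn, lf]
  ring

theorem Smooth_left (θ : Th → R) (a : R) (p : Fin 10 → R) (x y : Fin 5 → R) :
    Smooth_B θ a p (gp x y) = ∑ r, x r * Smooth_B θ a p (gp (Smooth_e r) y) := by
  simp [Fin.sum_univ_five, Smooth_B, Hn, Qn, ll, lf, gp, gc, pk, Smooth_e]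
  ring

theorem Smooth_right (θ : Th → R) (a : R) (p : Fin 10 → R) (x y : Fin 5 → R) :
    Smooth_B θ a p (gp x y) = ∑ r, y r * Smooth_B θ a p (gp x (Smooth_e r)) := by
  simp [Fin.sum_univ_five, Smooth_B, Hn, Qn, ll, lf, gp, gc, pk, Smooth_e]
  ring

theorem Smooth_ll_left (θ : Th → R) (k : Fin 3) (x y : Fin 5 → R) :
    ll θ k (gp x y) = ∑ r, x r * ll θ k (gp (Smooth_e r) y) := by
  simp [Fin.sum_univ_five, ll, gp, gc, pk, Smooth_e]
  ring

theorem Smooth_ll_right (θ : Th → R) (k : Fin 3) (x y : Fin 5 → R) :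
    ll θ k (gp x y) = ∑ r, y r * ll θ k (gp x (Smooth_e r)) := by
  simp [Fin.sum_univ_five, ll, gp, gc, pk, Smooth_e]
  ring

theorem Smooth_ll_skew (θ : Th → R) (k : Fin 3) (x y : Fin 5 → R) :
    ll θ k (gp x y) = -ll θ k (gp y x) := by
  simp [ll, gp, gc, pk]
  ring

theorem Smooth_ll_self (θ : Th → R) (k : Fin 3) (x : Fin 5 → R) : ll θ k (gp x x) = 0 := by
  simp [ll, gp, gc, pk]
  ring

theorem Smooth_gp_right (x u v : Fin 5 → R) (c c' : R) :
    gp x (c • u + c' • v) = (-c) • gp u x + c' • gp x v := by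
  ext i
  fin_cases i <;> simp [gp, gc, pk] <;> ring

theorem Smooth_gp_left (x u v : Fin 5 → R) (c c' : R) :
    gp (c • u + c' • v) x = c • gp u x + (-c') • gp x v := by
  ext i
  fin_cases i <;> simp [gp, gc, pk] <;> ring

theorem Smooth_gp_both (u v : Fin 5 → R) (a b c d : R) :
    gp (a • u + b • v) (c • u + d • v) = (a * d - b * c) • gp u v := by
  ext i
  fin_cases i <;> simp [gp, gc, pk] <;> ring

end Ring

section Fld
variable {K : Type} [Field K] [Algebra ℂ K]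

theorem Smooth_gp_mem (F : IntermediateField ℂ K) {x y : Fin 5 → K} (hx : ∀ r, x r ∈ F)
    (hy : ∀ r, y r ∈ F) (i : Fin 10) : gp x y i ∈ F := by
  have h := map_gp F.val (fun r => ⟨x r, hx r⟩) (fun r => ⟨y r, hy r⟩) i
  exact h ▸ Subtype.prop _

theorem Smooth_e_mem (F : IntermediateField ℂ K) (r s : Fin 5) : (Smooth_e r s : K) ∈ F := by
  unfold Smooth_e
  split_ifs
  · exact one_mem F
  · exact zero_mem F

theorem Smooth_eq (F : IntermediateField ℂ K) {x y : K} (h : x ∈ F) (e : y = x) : y ∈ F := e ▸ h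

theorem Smooth_div (F : IntermediateField ℂ K) {c x : K} (hc : c ∈ F) (h0 : c ≠ 0)
    (h : c * x ∈ F) : x ∈ F := by
  have := div_mem h hc
  rwa [mul_div_cancel_left₀ _ h0] at this

theorem Smooth_span (F : IntermediateField ℂ K) (π : Equiv.Perm (Fin 5)) {u v φ : Fin 5 → K}
    (hu : ∀ r, u r ∈ F) (hv : ∀ r, v r ∈ F) (u0 : u (π 0) = 1) (u1 : u (π 1) = 0)
    (v0 : v (π 0) = 0) (v1 : v (π 1) = 1) (a : ∑ r, u r * φ r ∈ F) (b : ∑ r, v r * φ r ∈ F)
    (c2 : φ (π 2) ∈ F) (c3 : φ (π 3) ∈ F) (c4 : φ (π 4) ∈ F) (r : Fin 5) : φ r ∈ F := by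
  rw [← Equiv.sum_comp π, Fin.sum_univ_five] at a b
  rw [u0, u1] at a
  rw [v0, v1] at b
  have h0 := sub_mem a (add_mem (add_mem (mul_mem (hu (π 2)) c2) (mul_mem (hu (π 3)) c3))
    (mul_mem (hu (π 4)) c4))
  have h1 := sub_mem b (add_mem (add_mem (mul_mem (hv (π 2)) c2) (mul_mem (hv (π 3)) c3))
    (mul_mem (hv (π 4)) c4))
  obtain ⟨s, rfl⟩ := π.surjective r
  fin_cases s
  · exact Smooth_eq F (y := φ (π 0)) h0 (by ring)
  · exact Smooth_eq F (y := φ (π 1)) h1 (by ring)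
  · exact c2
  · exact c3
  · exact c4

theorem Smooth_ll_mem (F : IntermediateField ℂ K) {θ : Th → K} {k : Fin 3}
    (h : ∀ c, θ (k, c) ∈ F) {t : Fin 10 → K} (ht : ∀ i, t i ∈ F) : ll θ k t ∈ F := by
  unfold ll
  repeat' first | exact mul_mem (h _) (ht _) | refine add_mem ?_ ?_

theorem Smooth_split (θ : Th → K) (a : K) (p t : Fin 10 → K) (k : Fin 3) :
    Smooth_B θ a p t = a * Hn θ t + (p 0 * t 3 - p 1 * t 2 + (t 0 * p 3 - t 1 * p 2)) +
      ∑ j : Fin 3, (![p 7, p 8, p 9] (k + j) * ll θ (k + j) t +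
        ![t 7, t 8, t 9] (k + j) * ll θ (k + j) p) := by
  fin_cases k <;> simp [Smooth_B, Qn, Fin.sum_univ_three] <;> ring

theorem Smooth_splitH (θ : Th → K) (t : Fin 10 → K) (k : Fin 3) :
    Hn θ t = t 1 - t 2 - ∑ j : Fin 3, ![t 7, t 8, t 9] (k + j) * θ (k + j, 10) := by
  fin_cases k <;> simp [Hn, lf, Fin.sum_univ_three] <;> ring

theorem Smooth_case1 {θ : Th → K} (hθ : AlgebraicIndependent ℂ θ) (π : Equiv.Perm (Fin 5))
    {u v : Fin 5 → K} {a : K} (u0 : u (π 0) = 1) (u1 : u (π 1) = 0) (v0 : v (π 0) = 0)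
    (v1 : v (π 1) = 1) (hH : Hn θ (gp u v) = 0) (h1 : ∀ x, Smooth_B θ a (gp u v) (gp x v) = 0)
    (h2 : ∀ x, Smooth_B θ a (gp u v) (gp u x) = 0) (k : Fin 3)
    (hk : ![gp u v 7, gp u v 8, gp u v 9] k ≠ 0) : False := by
  have : CharZero K := charZero_of_injective_algebraMap (algebraMap ℂ K).injective
  refine Smooth_contra hθ (Finset.univ.filter fun s => s.1 = k)
    ![u (π 2), u (π 3), u (π 4), v (π 2), v (π 3), v (π 4), a,
      ll θ k (gp (Smooth_e (π 2)) (Smooth_e (π 3))), ll θ k (gp (Smooth_e (π 2)) (Smooth_e (π 4))),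
      ll θ k (gp (Smooth_e (π 3)) (Smooth_e (π 4)))] (by clear hk; revert k; decide) fun F hy hs => ?_
  have hu : ∀ r, u r ∈ F := fun r => by
    obtain ⟨s, rfl⟩ := π.surjective r
    fin_cases s
    · exact u0.symm ▸ one_mem F
    · exact u1.symm ▸ zero_mem F
    · exact hy 0
    · exact hy 1
    · exact hy 2
  have hv : ∀ r, v r ∈ F := fun r => by
    obtain ⟨s, rfl⟩ := π.surjective r
    fin_cases s
    · exact v0.symm ▸ zero_mem F
    · exact v1.symm ▸ one_mem F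
    · exact hy 3
    · exact hy 4
    · exact hy 5
  have ha : a ∈ F := hy 6
  have k1 : ∀ c, θ (k + 1, c) ∈ F := fun c => hs _ (by simp)
  have k2 : ∀ c, θ (k + 2, c) ∈ F := fun c => hs _ (by simp)
  have hm : ∀ {t : Fin 10 → K}, (∀ i, t i ∈ F) → ∀ j, ![t 7, t 8, t 9] j ∈ F := fun ht j => by
    fin_cases j <;> exact ht _
  have hp := Smooth_gp_mem F hu hv
  have hν : θ (k, 10) ∈ F := by
    rw [Smooth_splitH θ _ k, Fin.sum_univ_three, add_zero] at hH
    refine Smooth_div F (hm hp k) hk ?_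
    have := sub_mem (sub_mem (hp 1) (hp 2))
      (add_mem (mul_mem (hm hp (k + 1)) (k1 10)) (mul_mem (hm hp (k + 2)) (k2 10)))
    exact Smooth_eq F this (by linear_combination (-1 : K) * hH)
  have key : ∀ t : Fin 10 → K, (∀ i, t i ∈ F) → Smooth_B θ a (gp u v) t = 0 →
      ![gp u v 7, gp u v 8, gp u v 9] k * ll θ k t + ![t 7, t 8, t 9] k * ll θ k (gp u v) ∈ F := by
    intro t ht h
    rw [Smooth_split θ a _ t k, Fin.sum_univ_three, add_zero] at h
    have hH' : Hn θ t ∈ F := by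
      rw [Smooth_splitH θ t k, Fin.sum_univ_three, add_zero]
      exact sub_mem (sub_mem (ht 1) (ht 2)) (add_mem (add_mem (mul_mem (hm ht k) hν)
        (mul_mem (hm ht _) (k1 10))) (mul_mem (hm ht _) (k2 10)))
    have := neg_mem (add_mem (add_mem (mul_mem ha hH')
      (add_mem (sub_mem (mul_mem (hp 0) (ht 3)) (mul_mem (hp 1) (ht 2)))
        (sub_mem (mul_mem (ht 0) (hp 3)) (mul_mem (ht 1) (hp 2)))))
      (add_mem (add_mem (mul_mem (hm hp (k + 1)) (Smooth_ll_mem F k1 ht))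
        (mul_mem (hm ht (k + 1)) (Smooth_ll_mem F k1 hp)))
        (add_mem (mul_mem (hm hp (k + 2)) (Smooth_ll_mem F k2 ht))
          (mul_mem (hm ht (k + 2)) (Smooth_ll_mem F k2 hp)))))
    exact Smooth_eq F this (by linear_combination h)
  have l0 : ll θ k (gp u v) ∈ F := by
    have := key _ hp (h1 u)
    rw [← add_mul] at this
    exact Smooth_div F (add_mem (hm hp k) (hm hp k)) (add_self_eq_zero.not.2 hk) this
  have l1 : ∀ t : Fin 10 → K, (∀ i, t i ∈ F) → Smooth_B θ a (gp u v) t = 0 → ll θ k t ∈ F :=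
    fun t ht h => Smooth_div F (hm hp k) hk
      ((add_mem_cancel_right (mul_mem (hm ht k) l0)).1 (key t ht h))
  have he := Smooth_e_mem F
  have lu : ∀ x, (∀ r, x r ∈ F) → ll θ k (gp u x) ∈ F := fun x hx =>
    l1 _ (Smooth_gp_mem F hu hx) (h2 x)
  have lv : ∀ x, (∀ r, x r ∈ F) → ll θ k (gp x v) ∈ F := fun x hx =>
    l1 _ (Smooth_gp_mem F hx hv) (h1 x)
  have z : ∀ x, ll θ k (gp x x) ∈ F := fun x => (Smooth_ll_self θ k x).symm ▸ zero_mem F
  have n : ∀ {x y}, ll θ k (gp x y) ∈ F → ll θ k (gp y x) ∈ F := fun h =>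
    (Smooth_ll_skew θ k _ _).symm ▸ neg_mem h
  have sp : ∀ y, (∀ r, y r ∈ F) → ll θ k (gp (Smooth_e (π 2)) y) ∈ F →
      ll θ k (gp (Smooth_e (π 3)) y) ∈ F → ll θ k (gp (Smooth_e (π 4)) y) ∈ F →
      ∀ r, ll θ k (gp (Smooth_e r) y) ∈ F := fun y hy' =>
    Smooth_span F π (φ := fun r => ll θ k (gp (Smooth_e r) y)) hu hv u0 u1 v0 v1
      (Smooth_ll_left θ k u y ▸ lu y hy') (Smooth_ll_left θ k v y ▸ n (lv y hy'))
  have M : ∀ r s, ll θ k (gp (Smooth_e r) (Smooth_e s)) ∈ F := fun r s =>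
    sp _ (he s) (n (sp _ (he _) (z _) (n (hy 7)) (n (hy 8)) s))
      (n (sp _ (he _) (hy 7) (z _) (n (hy 9)) s)) (n (sp _ (he _) (hy 8) (hy 9) (z _) s)) r
  have m12 := M 1 2
  have m23 := M 2 3
  have m02 := M 0 2
  have m24 := M 2 4
  have m13 := M 1 3
  have m01 := M 0 1
  have m14 := M 1 4
  have m03 := M 0 3
  have m34 := M 3 4
  have m04 := M 0 4
  simp [ll, gp, gc, pk, Smooth_e] at m12 m23 m02 m24 m13 m01 m14 m03 m34 m04
  have t2 : (2 : K) ∈ F := ofNat_mem F 2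
  have t8 : θ (k, 8) ∈ F := Smooth_div F t2 two_ne_zero
    (Smooth_eq F (add_mem m14 m03) (by ring))
  rintro ⟨k', c⟩ hc
  obtain rfl : k' = k := by simpa using hc
  fin_cases c
  · exact m12
  · exact m02
  · exact (add_mem_cancel_left m02).1 m23
  · exact m24
  · exact m01
  · exact (add_mem_cancel_right t8).1 m14
  · exact (add_mem_cancel_right m04).1 m34
  · exact (add_mem_cancel_left m01).1 m13
  · exact t8
  · exact m04
  · exact hν

theorem Smooth_case2 {θ : Th → K} (hθ : AlgebraicIndependent ℂ θ) {u v : Fin 5 → K} {a : K}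
    (h0 : ∃ i j, pk u v i j ≠ 0) (hH : Hn θ (gp u v) = 0) (hQ : Qn θ (gp u v) (gp u v) = 0)
    (h1 : ∀ x, Smooth_B θ a (gp u v) (gp x v) = 0)
    (h2 : ∀ x, Smooth_B θ a (gp u v) (gp u x) = 0) (m0 : gp u v 7 = 0) (m1 : gp u v 8 = 0)
    (m2 : gp u v 9 = 0) : False := by
  have : CharZero K := charZero_of_injective_algebraMap (algebraMap ℂ K).injective
  have E : ∀ t r, Smooth_B θ a (gp u v) (gp (Smooth_e r) fun s => pk u v s t) = 0 := by
    intro t r
    have e : (fun s => pk u v s t) = v t • u + (-u t) • v := by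
      ext s; simp [pk]; ring
    rw [e, Smooth_gp_right, Smooth_B_lin, h1, h2, mul_zero, mul_zero, add_zero]
  have sk : ∀ i j, pk u v i j = -pk u v j i := fun i j => by simp [pk]
  have dg : ∀ i, pk u v i i = 0 := fun i => by simp [pk]
  have pl : ∀ i j k l, pk u v i j * pk u v k l - pk u v i k * pk u v j l +
      pk u v i l * pk u v j k = 0 := fun i j k l => by simp only [pk]; ring
  simp only [gp] at hH hQ m0 m1 m2 E
  generalize pk u v = P at *
  simp [gc] at m0 m1 m2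
  have p03 : P 0 3 = -P 1 4 := by linear_combination m1
  have p04 : P 0 4 = -P 3 4 := by linear_combination m2
  have p02 : P 0 2 = 0 := by
    simp [Hn, lf, gc, m0, m1, m2] at hH
    exact hH
  obtain ⟨l0, hl0⟩ : ∃ l, l = ll θ 0 (gc P) - a * θ (0, 10) := ⟨_, rfl⟩
  obtain ⟨l1, hl1⟩ : ∃ l, l = ll θ 1 (gc P) - a * θ (1, 10) := ⟨_, rfl⟩
  obtain ⟨l2, hl2⟩ : ∃ l, l = ll θ 2 (gc P) - a * θ (2, 10) := ⟨_, rfl⟩
  have EB : ∀ t : Fin 10 → K, Smooth_B θ a (gc P) t = a * (t 1 - t 2) - P 1 2 * t 3 +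
      P 2 4 * t 0 - P 2 3 * (t 1 + t 2) + l0 * t 7 + l1 * t 8 + l2 * t 9 := fun t => by
    rw [hl0, hl1, hl2]
    generalize hg : gc P = g
    have g0 : g 0 = -P 1 2 := by rw [← hg]; rfl
    have g1 : g 1 = P 2 3 := by rw [← hg, ← sub_zero (P 2 3), ← p02]; rfl
    have g2 : g 2 = P 2 3 := by rw [← hg]; rfl
    have g3 : g 3 = P 2 4 := by rw [← hg]; rfl
    have g7 : g 7 = 0 := by rw [← hg, ← m0]; rfl
    have g8 : g 8 = 0 := by rw [← hg, ← m1]; rfl
    have g9 : g 9 = 0 := by rw [← hg, ← m2]; rfl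
    simp [Smooth_B, Hn, Qn, lf, g0, g1, g2, g3, g7, g8, g9]
    ring
  simp only [EB] at E
  have L : ∀ j, ll θ j (gc P) = -θ (j, 0) * P 1 2 + (θ (j, 1) + θ (j, 2)) * P 2 3 +
      θ (j, 3) * P 2 4 - θ (j, 4) * P 0 1 + 2 * θ (j, 5) * P 1 4 + θ (j, 6) * P 3 4 := fun j => by
    simp [ll, gc, m0, p02, p03, p04]
    ring
  have r1 := pl 0 1 2 3
  have r2 := pl 0 1 2 4
  have r3 := pl 0 1 3 4
  rw [p02, p03, m0] at r1
  rw [p02, p04] at r2
  rw [p03, p04, m0] at r3
  have e14 := E 1 4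
  simp [gc, pk, Smooth_e, dg, sk 2 1, sk 3 1, sk 4 1, m0] at e14
  by_cases hz : P 0 1 = 0
  · have p14 : P 1 4 = 0 := by
      rw [hz] at r3
      exact mul_self_eq_zero.1 (by linear_combination r3)
    have p12 : P 1 2 = 0 := by
      rw [hz] at e14
      exact mul_self_eq_zero.1 (by linear_combination (-1 : K) * e14)
    have p23 : P 2 3 = 0 := by
      simp [Qn, gc, m0, m1, m2, p12, p02] at hQ
      exact hQ
    have e41 := E 4 1
    have e42 := E 4 2
    have e00 := E 0 0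
    have e01 := E 0 1
    simp [gc, pk, Smooth_e, dg, sk 1 0, sk 2 0, sk 3 0, sk 4 0, hz, p14, p12, p23, p02, p03, p04]
      at e41 e42 e00 e01
    have p34 : P 3 4 ≠ 0 := fun p34 => by
      have p24 : P 2 4 = 0 := by
        rw [p34] at e41
        exact mul_self_eq_zero.1 (by linear_combination (-1 : K) * e41)
      obtain ⟨i, j, hij⟩ := h0
      refine hij ?_
      fin_cases i <;> fin_cases j <;>
        simp [dg, sk 1 0, sk 2 0, sk 3 0, sk 4 0, sk 2 1, sk 3 1, sk 4 1, sk 3 2, sk 4 2, sk 4 3,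
          hz, p14, p12, p23, p02, p03, p04, m0, p24, p34]
    have a0 : a = 0 := e42.resolve_right p34
    rw [L, hz, p14, p12, p23, a0] at hl1 hl2
    rw [e01.resolve_right p34] at hl1
    rw [e00.resolve_right p34] at hl2
    refine Smooth_contra hθ {(1, 6), (2, 6)} ![P 2 4 / P 3 4] (by decide) fun F hy hs s h => ?_
    rcases Finset.mem_insert.1 h with rfl | h
    · exact Smooth_eq F (neg_mem (mul_mem (hs (1, 3) (by decide)) (hy 0))) (by
        simp only [Matrix.cons_val_zero]; field_simp; linear_combination (-1 : K) * hl1)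
    · rw [Finset.mem_singleton.1 h]
      exact Smooth_eq F (neg_mem (mul_mem (hs (2, 3) (by decide)) (hy 0))) (by
        simp only [Matrix.cons_val_zero]; field_simp; linear_combination (-1 : K) * hl2)
  · have e12 := E 1 2
    have e03 := E 0 3
    have e04 := E 0 4
    simp [gc, pk, Smooth_e, dg, sk 1 0, sk 2 0, sk 3 0, sk 4 0, sk 2 1, sk 3 1, sk 4 1, p02, p03,
      p04, m0] at e12 e03 e04
    have a0 : a = 0 := (mul_eq_zero.1 (show a * P 0 1 = 0 by
      linear_combination e12 + r1)).resolve_right hz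
    obtain ⟨σ, hσ⟩ : ∃ σ, P 1 2 = σ * P 0 1 := ⟨P 1 2 / P 0 1, by field_simp⟩
    obtain ⟨β, hβ⟩ : ∃ β, P 1 4 = -β * P 0 1 := ⟨-P 1 4 / P 0 1, by field_simp⟩
    have q23 : P 2 3 = -(σ * β) * P 0 1 := mul_left_cancel₀ hz (by
      rw [hσ, hβ] at r1; linear_combination r1)
    have q34 : P 3 4 = -β ^ 2 * P 0 1 := mul_left_cancel₀ hz (by
      rw [hβ] at r3; linear_combination r3)
    have q24 : P 2 4 = -(σ * β ^ 2) * P 0 1 := mul_left_cancel₀ hz (by
      rw [hσ, q34] at r2; linear_combination r2)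
    have n2 : l2 = -σ ^ 2 * P 0 1 := mul_left_cancel₀ hz (by
      rw [hσ] at e14; linear_combination (-1 : K) * e14)
    have n1 : l1 = β * σ ^ 2 * P 0 1 := mul_left_cancel₀ hz (by
      rw [hβ, n2] at e04; linear_combination e04)
    have n0 : l0 = -(β ^ 2 * σ ^ 2) * P 0 1 := mul_left_cancel₀ hz (by
      rw [q34, n2] at e03; linear_combination e03)
    rw [L, a0, hσ, hβ, q23, q24, q34] at hl0 hl1 hl2
    refine Smooth_contra hθ {(0, 4), (1, 4), (2, 4)} ![σ, β] (by decide) fun F hy hs => ?_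
    have s1 : σ ∈ F := hy 0
    have s2 : β ∈ F := hy 1
    have key : ∀ (j : Fin 3) (c : K), c ∈ F → -c * P 0 1 = -θ (j, 0) * (σ * P 0 1) +
        (θ (j, 1) + θ (j, 2)) * (-(σ * β) * P 0 1) + θ (j, 3) * (-(σ * β ^ 2) * P 0 1) -
        θ (j, 4) * P 0 1 + 2 * θ (j, 5) * (-β * P 0 1) + θ (j, 6) * (-β ^ 2 * P 0 1) -
        0 * θ (j, 10) → θ (j, 4) ∈ F := fun j c hc h => by
      have n : ∀ d : Fin 11, d ≠ 4 → θ (j, d) ∈ F := fun d hd => hs _ (by simp [hd])
      refine Smooth_eq F (sub_mem hc (add_mem (add_mem (add_mem (add_mem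
        (mul_mem (n 0 (by decide)) s1)
        (mul_mem (add_mem (n 1 (by decide)) (n 2 (by decide))) (mul_mem s1 s2)))
        (mul_mem (n 3 (by decide)) (mul_mem s1 (pow_mem s2 2))))
        (mul_mem (add_mem (n 5 (by decide)) (n 5 (by decide))) s2))
        (mul_mem (n 6 (by decide)) (pow_mem s2 2)))) (mul_left_cancel₀ hz ?_)
      linear_combination h
    intro s h
    simp only [Finset.mem_insert, Finset.mem_singleton] at h
    rcases h with rfl | rfl | rfl
    · exact key 0 _ (mul_mem (pow_mem s2 2) (pow_mem s1 2)) (n0 ▸ hl0)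
    · exact key 1 _ (neg_mem (mul_mem s2 (pow_mem s1 2))) (by rw [neg_neg]; exact n1 ▸ hl1)
    · exact key 2 _ (pow_mem s1 2) (n2 ▸ hl2)

theorem Smooth_core {θ : Th → K} (hθ : AlgebraicIndependent ℂ θ) {u v : Fin 5 → K} {a : K}
    (h0 : ∃ i j, pk u v i j ≠ 0) (hH : Hn θ (gp u v) = 0) (hQ : Qn θ (gp u v) (gp u v) = 0)
    (h1 : ∀ x, Smooth_B θ a (gp u v) (gp x v) = 0)
    (h2 : ∀ x, Smooth_B θ a (gp u v) (gp u x) = 0) : False := by
  by_cases hm : ∃ k, ![gp u v 7, gp u v 8, gp u v 9] k ≠ 0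
  swap
  · push Not at hm
    exact Smooth_case2 hθ h0 hH hQ h1 h2 (hm 0) (hm 1) (hm 2)
  obtain ⟨k, hk⟩ := hm
  obtain ⟨i, j, hd⟩ := h0
  have hij : i ≠ j := by
    rintro rfl
    exact hd (by simp [pk])
  obtain ⟨π, hπ⟩ := Equiv.Perm.exists_extending_pair (f := ![(0 : Fin 5), 1]) (g := ![i, j])
    (by decide) fun a b h => by
      fin_cases a <;> fin_cases b <;> first | rfl | exact absurd h hij | exact absurd h hij.symm
  have p0 : π 0 = i := hπ 0
  have p1 : π 1 = j := hπ 1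
  obtain ⟨d, e⟩ : ∃ d, d = pk u v i j := ⟨_, rfl⟩
  rw [← e] at hd
  have eg : gp ((v j / d) • u + (-u j / d) • v) ((-v i / d) • u + (u i / d) • v) =
      d⁻¹ • gp u v := by
    rw [Smooth_gp_both]
    congr 1
    field_simp
    rw [e, pk]; ring
  refine Smooth_case1 hθ π (u := (v j / d) • u + (-u j / d) • v)
    (v := (-v i / d) • u + (u i / d) • v) (a := d⁻¹ * a) ?_ ?_ ?_ ?_ ?_ (fun x => ?_)
    (fun x => ?_) k ?_
  · rw [p0]; simp; field_simp; rw [e, pk]; ring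
  · rw [p1]; simp; ring
  · rw [p0]; simp; ring
  · rw [p1]; simp; field_simp; rw [e, pk]; ring
  · rw [eg, Smooth_H_smul, hH, mul_zero]
  · rw [eg, Smooth_B_smul, Smooth_gp_right, Smooth_B_lin, h1, h2]; ring
  · rw [eg, Smooth_B_smul, Smooth_gp_left, Smooth_B_lin, h1, h2]; ring
  · rw [eg]
    intro h
    refine hk ((mul_eq_zero.1 (?_ : d⁻¹ * _ = 0)).resolve_left (inv_ne_zero hd))
    fin_cases k <;> exact h

end Fld

/-- The equations of the incidence variety. -/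
def Smooth_sys {R : Type*} [CommRing R] (θ : Th → R) (w : Fin 8 × Fin 5 → R) :
    Fin 3 ⊕ (Fin 5 ⊕ Fin 5) → R :=
  Sum.elim ![Hn θ (gp (fun r => w (0, r)) fun r => w (1, r)),
      Qn θ (gp (fun r => w (0, r)) fun r => w (1, r)) (gp (fun r => w (0, r)) fun r => w (1, r)),
      ∑ i : Fin 5, ∑ j, w (i.natAdd 3, j) * pk (fun r => w (0, r)) (fun r => w (1, r)) i j - 1]
    (Sum.elim (fun s => Smooth_B θ (w (2, 0)) (gp (fun r => w (0, r)) fun r => w (1, r))
      (gp (Smooth_e s) fun r => w (1, r)))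
      fun s => Smooth_B θ (w (2, 0)) (gp (fun r => w (0, r)) fun r => w (1, r))
        (gp (fun r => w (0, r)) (Smooth_e s)))

theorem Smooth_map {R S F : Type*} [CommRing R] [CommRing S] [FunLike F R S] [RingHomClass F R S]
    (f : F) (θ : Th → R) (w : Fin 8 × Fin 5 → R) (i : Fin 3 ⊕ (Fin 5 ⊕ Fin 5)) :
    f (Smooth_sys θ w i) = Smooth_sys (fun s => f (θ s)) (fun s => f (w s)) i := by
  have he : ∀ r s, f (Smooth_e r s) = Smooth_e r s := fun r s => by
    unfold Smooth_e; split_ifs <;> simp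
  rcases i with i | i | i
  · fin_cases i <;> simp [Smooth_sys, map_Hn, map_Qn, map_gp, pk]
  · simp [Smooth_sys, Smooth_B, map_Hn, map_Qn, map_gp, he]
  · simp [Smooth_sys, Smooth_B, map_Hn, map_Qn, map_gp, he]

theorem smooth_open : ∃ g : MvPolynomial Th ℂ, g ≠ 0 ∧ ∀ θ : Th → ℂ, eval θ g ≠ 0 →
    SmoothN θ := by
  rcases Smooth_generic (Smooth_sys (fun s => X (Sum.inl s)) fun s => X (Sum.inr s)) with
    ⟨g, h0, hg⟩ | ⟨K, _, _, φ, hθ, h⟩
  swap
  · simp only [Smooth_map] at h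
    refine (Smooth_core (a := φ (X (.inr (2, 0)))) hθ ?_ (h (.inl 0)) (h (.inl 1)) (fun x => ?_) fun x => ?_).elim
    · by_contra hn
      push Not at hn
      have := h (.inl 2)
      simp [Smooth_sys, hn] at this
    · rw [Smooth_left]
      exact Finset.sum_eq_zero fun r _ => mul_eq_zero_of_right _ (h (.inr (.inl r)))
    · rw [Smooth_right]
      exact Finset.sum_eq_zero fun r _ => mul_eq_zero_of_right _ (h (.inr (.inr r)))
  refine ⟨g * X (0, 10), mul_ne_zero h0 (X_ne_zero _), fun θ hθ u v hl hH hQ a b hab => ?_⟩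
  rw [map_mul, eval_X] at hθ
  have z1 : ∀ x : Fin 5 → ℂ, gp x 0 = 0 := fun x => by
    ext i; fin_cases i <;> simp [gp, gc, pk]
  have z2 : ∀ x : Fin 5 → ℂ, gp 0 x = 0 := fun x => by
    ext i; fin_cases i <;> simp [gp, gc, pk]
  have h1 := fun x => hab x 0
  have h2 := fun x => hab 0 x
  simp only [z1, z2, add_zero, zero_add] at h1 h2
  obtain ⟨i, j, hd⟩ : ∃ i j, pk u v i j ≠ 0 := by
    by_contra hn
    push Not at hn
    rw [LinearIndependent.pair_iff] at hl
    have hv : ∀ i, v i = 0 := fun i => (hl (v i) (-u i) (by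
      ext r
      have := hn r i
      simp only [pk] at this
      simp only [Pi.add_apply, Pi.smul_apply, smul_eq_mul, Pi.zero_apply]
      linear_combination this)).1
    exact one_ne_zero (hl 0 1 (by ext r; simp [hv])).2
  by_cases hb : b = 0
  · refine ⟨by_contra fun ha => hd ?_, hb⟩
    have hν := right_ne_zero_of_mul hθ
    simp only [hb, zero_mul, add_zero, mul_eq_zero, ha, false_or] at h1 h2
    have ker : ∀ w : Fin 5 → ℂ, (∀ x, Hn θ (gp x w) = 0) → ∀ r, θ (0, 10) * w r =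
        ![0, θ (2, 10), θ (1, 10) ^ 2 - θ (0, 10) * θ (2, 10), -θ (1, 10), θ (0, 10)] r * w 4 := by
      intro w hw r
      have e0 := hw (Smooth_e 0)
      have e1 := hw (Smooth_e 1)
      have e2 := hw (Smooth_e 2)
      have e3 := hw (Smooth_e 3)
      simp [Hn, lf, gp, gc, pk, Smooth_e] at e0 e1 e2 e3
      fin_cases r <;> simp
      · exact Or.inr e2
      · rw [e2] at e3; linear_combination e3
      · linear_combination (-θ (0, 10)) * e0 + θ (1, 10) * e1
      · linear_combination (-1 : ℂ) * e1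
    have ku := ker u fun x => by
      have := h2 x
      simp only [Hn, lf, gp, gc, pk] at this ⊢
      simp at this ⊢
      linear_combination (-1 : ℂ) * this
    have kv := ker v h1
    refine mul_left_cancel₀ (mul_ne_zero hν hν) ?_
    rw [pk, mul_zero]
    linear_combination θ (0, 10) * v j * ku i - θ (0, 10) * v i * ku j +
      ![0, θ (2, 10), θ (1, 10) ^ 2 - θ (0, 10) * θ (2, 10), -θ (1, 10), θ (0, 10)] i * u 4 * kv j -
      ![0, θ (2, 10), θ (1, 10) ^ 2 - θ (0, 10) * θ (2, 10), -θ (1, 10), θ (0, 10)] j * u 4 * kv i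
  · refine (left_ne_zero_of_mul hθ (hg θ (fun s => Fin.addCases (m := 3) (n := 5)
      (motive := fun _ => ℂ) (fun q => ![u s.2, v s.2, a / b] q)
      (fun q => if q = i ∧ s.2 = j then (pk u v i j)⁻¹ else 0) s.1) fun q => ?_)).elim
    rw [Smooth_map]
    simp only [eval_X, Sum.elim_inl, Sum.elim_inr]
    rcases q with q | q | q
    · fin_cases q
      · exact hH
      · exact hQ
      · change ∑ i' : Fin 5, ∑ j', _ * pk u v i' j' - 1 = 0
        simp [Fin.addCases_right, ite_and, hd]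
    · change Smooth_B θ (a / b) (gp u v) (gp (Smooth_e q) v) = 0
      have := h1 (Smooth_e q)
      rw [Smooth_B]
      field_simp
      linear_combination this
    · change Smooth_B θ (a / b) (gp u v) (gp u (Smooth_e q)) = 0
      have := h2 (Smooth_e q)
      rw [Smooth_B]
      field_simp
      linear_combination this

end Pool.Agent.GM16
end
end
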