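import Mathlib

set_option autoImplicit false

open MvPolynomial

namespace Pool.Agent.GM16

/-- Index set of the ten Pluecker coordinates. -/
abbrev Idx := {p : Fin 5 × Fin 5 // p.1 < p.2}

/-- Index set of the coefficients of a linear form and of a quadratic form in the Pluecker
coordinates, as in the frozen statement. -/
abbrev Par := Idx ⊕ (Idx × Idx)

/-- Pluecker coordinates of `u ∧ v`. -/
def pl (u v : Fin 5 → ℂ) (s : Idx) : ℂ := u s.1.1 * v s.1.2 - u s.1.2 * v s.1.1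

/-- The linear form with coefficients `t`. -/
noncomputable def Hf (t : Par → ℂ) (p : Idx → ℂ) : ℂ := ∑ s, t (Sum.inl s) * p s

/-- The bilinear form with coefficients `t`; the quadric is `Qf t p p`. -/
noncomputable def Qf (t : Par → ℂ) (p q : Idx → ℂ) : ℂ :=
  ∑ s, ∑ s', t (Sum.inr (s, s')) * p s * q s'

/-- The hyperplane and the quadric contain the quartic scroll of planes spanned by `a ⊗ a` and
`a ⊗ b + w e`, in the coordinates `(x01 - x10, x00, xe, x10, x11)` of `ℂ e ⊕ ℂ² ⊗ ℂ²`. -/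
def ContainsScroll (t : Par → ℂ) : Prop :=
  ∀ a0 a1 b0 b1 w : ℂ,
    Hf t (pl ![0, a0 ^ 2, 0, a0 * a1, a1 ^ 2]
      ![a0 * b1 - a1 * b0, a0 * b0, w, a1 * b0, a1 * b1]) = 0 ∧
    Qf t (pl ![0, a0 ^ 2, 0, a0 * a1, a1 ^ 2] ![a0 * b1 - a1 * b0, a0 * b0, w, a1 * b0, a1 * b1])
      (pl ![0, a0 ^ 2, 0, a0 * a1, a1 ^ 2]
        ![a0 * b1 - a1 * b0, a0 * b0, w, a1 * b0, a1 * b1]) = 0

/-- Jacobian criterion: at every point `u ∧ v` of `Gr(2,5) ∩ H ∩ Q` the differentials of `H` and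
`Q` are independent on the tangent space `{u' ∧ v + u ∧ v'}` of the Grassmannian. -/
def IsSmoothGM (t : Par → ℂ) : Prop :=
  ∀ u v : Fin 5 → ℂ, LinearIndependent ℂ ![u, v] → Hf t (pl u v) = 0 →
    Qf t (pl u v) (pl u v) = 0 → ∀ a b : ℂ,
      (∀ u' v' : Fin 5 → ℂ, a * Hf t (pl u' v + pl u v') +
        b * (Qf t (pl u v) (pl u' v + pl u v') + Qf t (pl u' v + pl u v') (pl u v)) = 0) →
      a = 0 ∧ b = 0

end Pool.Agent.GM16
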