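import Pool.Agent.Work.MP_274aea_ag.Conf
import Pool.Agent.Work.MP_274aea_ag.Scalar
import Pool.Agent.Work.MP_274aea_ag.Maps
import Pool.Agent.Lib.PRank.Dim
import Pool.Agent.Work.MP_274aea_ag.Smooth
import Pool.Agent.Work.MP_274aea_ag.Param
import Pool.Agent.Work.MP_274aea_ag.Stmt

-- merged part: Pool.Agent.Work.MP_274aea_ag.Link
section
set_option autoImplicit false

open MvPolynomial Matrix

namespace Pool.Agent.GM16

section

variable {E : Type*} [Field E] [CharZero E]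

theorem qs_rh {R : Type*} [CommRing R] (b : R) (x : Fin 3 → R) :
    qs b (rh b x) = F4 b x ^ 2 - 4 * F3 b x ^ 2 * ee b x := by
  have h : (fun k : Fin 3 => rh b x k.succ) = fun k => 2 * F3 b x * x k := by
    ext1 k
    fin_cases k <;> rfl
  rw [qs_eq, h, ee_smul]
  change F4 b x ^ 2 - _ = _
  ring

theorem G_rh {R : Type*} [CommRing R] (b : R) (x : Fin 3 → R) :
    qs b (rh b x) ^ 2 - (Ns b (rh b x)).det = 0 := by
  have h : ∀ c : R, F4 b (fun k => c * x k) = c ^ 4 * F4 b x ∧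
      F3 b (fun k => c * x k) = c ^ 3 * F3 b x := fun c => by
    constructor
    · simp only [F4]
      ring
    · simp only [F3]
      ring
  have h' : (fun k : Fin 3 => rh b x k.succ) = fun k => 2 * F3 b x * x k := by
    ext1 k
    fin_cases k <;> rfl
  rw [Gs_eq, h', (h _).1, (h _).2]
  change _ - _ * F4 b x = 0
  ring

theorem Ns_rh {R : Type*} [CommRing R] (b : R) (x : Fin 3 → R) :
    Ns b (rh b x) = N0 * (Ps b x * Ps b x) := by
  have h : (fun k : Fin 3 => rh b x k.succ) = fun k => 2 * F3 b x * x k := by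
    ext1 k
    fin_cases k <;> rfl
  rw [Ns_eq, h, TT_smul, Ps_sq]
  rfl

theorem Pp_comm {R : Type*} [CommRing R] (b : R) (x : Fin 3 → R) :
    Pp b x * Ps b x = Ps b x * Pp b x := by
  simp only [Pp, Matrix.add_mul, Matrix.sub_mul, Matrix.mul_add, Matrix.mul_sub, Matrix.smul_mul,
    Matrix.mul_smul, Matrix.one_mul, Matrix.mul_one, Matrix.mul_assoc, ← Ps_TT]

theorem Pp_self {R : Type*} [CommRing R] (b : R) (x : Fin 3 → R) :
    (Pp b x)ᵀ * N0 = N0 * Pp b x := by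
  simp only [Pp, Matrix.transpose_add, Matrix.transpose_sub, Matrix.transpose_smul,
    Matrix.transpose_mul, Matrix.transpose_one, Matrix.add_mul, Matrix.sub_mul, Matrix.mul_add,
    Matrix.mul_sub, Matrix.smul_mul, Matrix.mul_smul, Matrix.one_mul, Matrix.mul_one,
    Matrix.mul_assoc, Ps_self]
  rw [← Matrix.mul_assoc (TT b x)ᵀ, TT_self, Matrix.mul_assoc, ← Ps_TT]

theorem Ps_Pp {R : Type*} [CommRing R] (b : R) (x : Fin 3 → R) :
    Ps b x * Pp b x = qs b (rh b x) • (1 : Matrix (Fin 4) (Fin 4) R) ∧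
      Pp b x * Ps b x = qs b (rh b x) • (1 : Matrix (Fin 4) (Fin 4) R) := by
  have h : Ps b x * Pp b x = qs b (rh b x) • (1 : Matrix (Fin 4) (Fin 4) R) := by
    simp only [Pp, Matrix.mul_add, Matrix.mul_sub, Matrix.mul_smul, Matrix.mul_one,
      ← Matrix.mul_assoc, Ps_sq, Matrix.add_mul, Matrix.smul_mul, Matrix.one_mul, TT_sq, qs_rh]
    module
  exact ⟨h, by rw [Pp_comm, h]⟩

omit [CharZero E] in
theorem rho_C (b c : E) : rho b (C c) = C c := by simp [rho]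

omit [CharZero E] in
theorem rho_X (b : E) : (fun k => rho b (X k)) = rh (C b) X := by
  ext1 k
  simp [rho]

omit [CharZero E] in
theorem rho_qs (b : E) : rho b (qs (C b) X) = qs (C b) (rh (C b) X) := by
  rw [map_qs, rho_C, rho_X]

theorem rho_Ns (b : E) : (Ns (C b) X).map (rho b) = N0 * (Ps (C b) X * Ps (C b) X) := by
  rw [map_Ns, rho_C, rho_X, Ns_rh]

theorem rho_G (b : E) : rho b (qs (C b) X ^ 2 - (Ns (C b) X).det) = 0 := by
  rw [map_sub, map_pow, map_det', map_qs, map_Ns, rho_C, rho_X, G_rh]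

theorem res_F4_ne {b : E} (hb : b ≠ 0) (i : Fin 3) : res i (F4 (C b) X) ≠ 0 := by
  obtain ⟨f, hf, h⟩ := res_F4 hb i
  rw [h]
  exact mul_ne_zero (by simpa using hf) (Finset.prod_ne_zero_iff.mpr fun t _ => ell_ne_zero _ _)

theorem rho_q_ne {b : E} (hb : b ≠ 0) : rho b (qs (C b) X) ≠ 0 := by
  intro h
  have := congrArg (res 0) h
  rw [rho_qs, qs_rh] at this
  simp only [map_sub, map_mul, map_pow, res_F3, map_zero] at this
  exact res_F4_ne hb 0 (by simpa using this)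

theorem smul_cancel {R : Type*} [CommRing R] [IsDomain R] {n : ℕ} {c : R} (hc : c ≠ 0)
    {A B : Matrix (Fin n) (Fin n) R} (h : c • A = c • B) : A = B := by
  ext a d
  exact mul_left_cancel₀ hc (congrFun (congrFun h a) d)

theorem rho_adj {b : E} (hb : b ≠ 0) :
    (Ns (C b) X).adjugate.map (rho b) = Pp (C b) X * Pp (C b) X * N0 := by
  have hq := rho_q_ne hb
  have h1 : (Ns (C b) X).adjugate.map (rho b) * (N0 * (Ps (C b) X * Ps (C b) X)) =
      (rho b (qs (C b) X) ^ 2) • (1 : Matrix (Fin 4) (Fin 4) (MvPolynomial (Fin 3) E)) := by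
    rw [← rho_Ns, map_adj', Matrix.adjugate_mul, ← map_det']
    congr 1
    have := rho_G b
    rw [map_sub, map_pow] at this
    exact (sub_eq_zero.mp this).symm
  have h2 : Ps (C b) X * Ps (C b) X * (Pp (C b) X * Pp (C b) X) =
      (rho b (qs (C b) X) ^ 2) • (1 : Matrix (Fin 4) (Fin 4) (MvPolynomial (Fin 3) E)) := by
    rw [Matrix.mul_assoc, ← Matrix.mul_assoc (Ps (C b) X) (Pp (C b) X), (Ps_Pp _ _).1,
      Matrix.smul_mul, Matrix.one_mul, Matrix.mul_smul, (Ps_Pp _ _).1, smul_smul, rho_qs, sq]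
  apply smul_cancel (pow_ne_zero 2 hq)
  have h3 := congrArg (· * (Pp (C b) X * Pp (C b) X * N0)) h1
  simp only [Matrix.smul_mul, Matrix.one_mul] at h3
  rw [← h3, Matrix.mul_assoc, Matrix.mul_assoc N0, ← Matrix.mul_assoc (Ps (C b) X * Ps (C b) X),
    h2, Matrix.smul_mul, Matrix.one_mul, Matrix.mul_smul, N0_sq, Matrix.mul_smul, Matrix.mul_one]

theorem rho_hom (b : E) {y : MvPolynomial (Fin 4) E} {d : ℕ} (hy : y.IsHomogeneous d) :
    (rho b y).IsHomogeneous (4 * d) := by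
  refine hy.aeval _ fun k => ?_
  have h : ∀ m, (2 * F3 (C b) X * X m : MvPolynomial (Fin 3) E).IsHomogeneous 4 := fun m =>
    ((nat_hom 2).mul (F3_hom b)).mul (isHomogeneous_X _ m)
  fin_cases k
  exacts [F4_hom b, h 0, h 1, h 2]

theorem ker_rho {b : E} (hb : b ≠ 0) (hb1 : b ≠ 1) {y : MvPolynomial (Fin 4) E} {d : ℕ}
    (hy : y.IsHomogeneous d) (h : rho b y = 0) : qs (C b) X ^ 2 - (Ns (C b) X).det ∣ y := by
  let ι : MvPolynomial (Fin 3) E →ₐ[E] MvPolynomial (Fin 4) E := rename Fin.succ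
  let a : MvPolynomial (Fin 4) E := 2 * F3 (C b) fun k => X k.succ
  let p : MvPolynomial (Fin 4) E := F4 (C b) (fun k => X k.succ) - a * X 0
  have hG : qs (C b) X ^ 2 - (Ns (C b) X).det = C 4 * p := by
    rw [Gs_eq, map_ofNat]
    simp only [p, a]
    ring
  have h1 : aeval (fun k => ι (rh (C b) X k)) y = 0 := by
    rw [← comp_aeval_apply, ← rho, h, map_zero]
  have h2 : p ∣ a ^ d * y := by
    have h3 := dvd_aeval_sub p (fun k => ι (rh (C b) X k)) (fun k => a * X k) (fun k => ?_) y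
    · rwa [h1, aeval_smul_hom hy, aeval_X_left_apply, zero_sub, dvd_neg] at h3
    · have e3 : ι (F3 (C b) X) = F3 (C b) fun k => X k.succ := by
        rw [map_F3]
        simp [ι]
      have e4 : ι (F4 (C b) X) = F4 (C b) fun k => X k.succ := by
        rw [map_F4]
        simp [ι]
      fin_cases k
      · refine ⟨1, ?_⟩
        simp [rh, e4, p]
      all_goals
        refine ⟨0, ?_⟩
        simp [rh, e3, a, ι, map_ofNat]
  have hX : ∀ (m : Fin 4) (x : Fin 4 → E), x m = 0 → eval x p ≠ 0 → IsRelPrime p (X m) := by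
    intro m x hx hp
    have hpr : Prime (X m : MvPolynomial (Fin 4) E) :=
      prime_lin (isHomogeneous_X _ _) (X_ne_zero m)
    apply IsRelPrime.symm
    rw [hpr.irreducible.isRelPrime_iff_not_dvd]
    rintro ⟨r, hr⟩
    apply hp
    rw [hr]
    simp [hx]
  have hev : ∀ x : Fin 4 → E, eval x p = F4 b (fun k => x k.succ) -
      2 * F3 b (fun k => x k.succ) * x 0 := by
    intro x
    simp only [p, a, map_sub, map_mul, map_F4, map_F3, eval_C, eval_X, map_ofNat]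
  have r1 : IsRelPrime p (X 1) := hX 1 ![0, 0, 1, 0] rfl (by simp [hev, F4, F3])
  have r2 : IsRelPrime p (X 2) := hX 2 ![0, 1, 0, 0] rfl (by simp [hev, F4, F3])
  have r3 : IsRelPrime p (X 3) := hX 3 ![0, 1, 0, 0] rfl (by simp [hev, F4, F3])
  have ha : a = C (3045473976 * (1 - b)) * (X 1 * X 2 * X 3) := by
    simp only [a, F3, map_mul, map_sub, map_ofNat, map_one]
    change 2 * (1522736988 * (1 - C b) * (X 1 * X 2 * X 3)) = _
    ring
  have hu : IsUnit (C (3045473976 * (1 - b)) : MvPolynomial (Fin 4) E) :=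
    (IsUnit.mk0 _ (mul_ne_zero (by norm_num) (sub_ne_zero.mpr hb1.symm))).map C
  have r : IsRelPrime p (a ^ d) := by
    apply IsRelPrime.pow_right
    rw [ha]
    exact hu.isRelPrime_right.mul_right ((r1.mul_right r2).mul_right r3)
  rw [hG]
  have h4 : IsUnit (C 4 : MvPolynomial (Fin 4) E) := (IsUnit.mk0 (4 : E) (by norm_num)).map C
  rw [h4.mul_left_dvd]
  exact r.dvd_of_dvd_mul_left h2

theorem G_ne {b : E} (hb : b ≠ 0) :
    qs (C b) (X : Fin 4 → MvPolynomial (Fin 4) E) ^ 2 - (Ns (C b) X).det ≠ 0 := by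
  intro h
  have := congrArg (eval ![0, 1, 0, 0]) h
  rw [Gs_eq] at this
  simp only [map_sub, map_mul, map_F4, map_F3, eval_C, eval_X, map_ofNat, map_zero] at this
  simp [F4, F3] at this

omit [CharZero E] in
theorem rho_mulVec (b : E) (A : Matrix (Fin 4) (Fin 4) (MvPolynomial (Fin 4) E))
    (v : Fin 4 → MvPolynomial (Fin 4) E) :
    (fun a => rho b ((A *ᵥ v) a)) = A.map (rho b) *ᵥ fun a => rho b (v a) := by
  ext1 a
  simp [Matrix.mulVec, dotProduct, map_sum]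

theorem Ps_Msec (b : E) (v w : Fin 4 → MvPolynomial (Fin 4) E) :
    Ps (C b) X *ᵥ Msec b v w = N0 *ᵥ fun a => rho b ((Ns (C b) X *ᵥ v + qs (C b) X • w) a) := by
  have h : (fun a => rho b ((Ns (C b) X *ᵥ v + qs (C b) X • w) a)) =
      (fun a => rho b ((Ns (C b) X *ᵥ v) a)) + rho b (qs (C b) X) • fun a => rho b (w a) := by
    ext1 a
    simp
  rw [h, rho_mulVec, rho_Ns, Msec, Matrix.mulVec_add, Matrix.mulVec_add, Matrix.mulVec_mulVec,
    Matrix.mulVec_mulVec, Matrix.mulVec_mulVec, Matrix.mulVec_mulVec, ← Matrix.mul_assoc,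
    ← Matrix.mul_assoc, N0_sq, Matrix.one_mul, (Ps_Pp _ _).1, Matrix.smul_mul, Matrix.one_mul,
    Matrix.smul_mulVec, Matrix.mulVec_smul, rho_qs]

theorem Pp_Msec {b : E} (hb : b ≠ 0) (v w : Fin 4 → MvPolynomial (Fin 4) E) (a : Fin 4) :
    (Pp (C b) X *ᵥ Msec b v w) a =
      rho b ((qs (C b) X • v + (Ns (C b) X).adjugate *ᵥ w) a) := by
  have h : (fun a => rho b ((qs (C b) X • v + (Ns (C b) X).adjugate *ᵥ w) a)) =
      (rho b (qs (C b) X) • fun a => rho b (v a)) +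
        fun a => rho b (((Ns (C b) X).adjugate *ᵥ w) a) := by
    ext1 a
    simp
  refine Eq.trans (congrFun ?_ a) (congrFun h a).symm
  rw [rho_mulVec, rho_adj hb, Msec, Matrix.mulVec_add, Matrix.mulVec_mulVec,
    Matrix.mulVec_mulVec, Matrix.mulVec_mulVec, (Ps_Pp _ _).2, Matrix.smul_mulVec,
    Matrix.one_mulVec, rho_qs]

theorem Msec_pol {b : E} (hb : b ≠ 0) (v w v' w' : Fin 4 → MvPolynomial (Fin 4) E) :
    Msec b v w ⬝ᵥ N0 *ᵥ Msec b v' w' = rho b (pol (Ns (C b) X) (qs (C b) X) v w v' w') := by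
  have h1 : ∀ z, Msec b v w ⬝ᵥ N0 *ᵥ z = (fun a => rho b (v a)) ⬝ᵥ N0 *ᵥ (Ps (C b) X *ᵥ z) +
      (fun a => rho b (w a)) ⬝ᵥ (Pp (C b) X *ᵥ z) := by
    intro z
    have h0 : ∀ (A : Matrix (Fin 4) (Fin 4) (MvPolynomial (Fin 3) E)) (x y : Fin 4 → _),
        (A *ᵥ x) ⬝ᵥ y = x ⬝ᵥ Aᵀ *ᵥ y := fun A x y => by
      rw [← Matrix.vecMul_transpose, ← Matrix.dotProduct_mulVec]
    rw [Msec, add_dotProduct, h0, h0, h0, N0_tr]
    simp only [Matrix.mulVec_mulVec]
    rw [Ps_self, Pp_self, ← Matrix.mul_assoc, N0_sq, Matrix.one_mul]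
  rw [h1, Ps_Msec, Matrix.mulVec_mulVec, N0_sq, Matrix.one_mulVec, funext (Pp_Msec hb v' w'), pol]
  simp only [dotProduct, map_add, map_sum, map_mul]

theorem Msec_hom (b : E) {j : ℕ} (v w : Fin 4 → MvPolynomial (Fin 4) E)
    (hv : ∀ a, (v a).IsHomogeneous (j + 1)) (hw : ∀ a, (w a).IsHomogeneous j) (a : Fin 4) :
    (Msec b v w a).IsHomogeneous (4 * j + 6) := by
  have h1 := mulVec_hom _ (Ps_hom b) _ (fun a => rho_hom b (hv a)) a
  have h0 : ∀ a c, ((N0 : Matrix (Fin 4) (Fin 4) (MvPolynomial (Fin 3) E)) a c).IsHomogeneous 0 := by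
    intro a c
    rw [← map_N0 (C : E →+* MvPolynomial (Fin 3) E)]
    exact isHomogeneous_C _ _
  have h2 := mulVec_hom _ (Pp_hom b) _ (mulVec_hom _ h0 _ fun a => rho_hom b (hw a)) a
  rw [show 2 + 4 * (j + 1) = 4 * j + 6 by ring] at h1
  rw [show 6 + (0 + 4 * j) = 4 * j + 6 by ring] at h2
  exact h1.add h2

theorem res_rho (b : E) {y : MvPolynomial (Fin 4) E} {d : ℕ} (hy : y.IsHomogeneous d)
    (i : Fin 3) : res i (rho b y) = res i (F4 (C b) X) ^ d * C (eval P0 y) := by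
  have h1 : (fun k => res i (rh (C b) X k)) =
      fun k => res i (F4 (C b) X) * C ((P0 : Fin 4 → E) k) := by
    ext1 k
    fin_cases k <;> simp [rh, P0, res_F3]
  rw [rho, comp_aeval_apply, h1, aeval_smul_hom hy]
  congr 1
  have : (aeval fun m => (C ((P0 : Fin 4 → E) m) : MvPolynomial (Fin 3) E)) =
      (Algebra.ofId E _).comp (aeval (P0 : Fin 4 → E)) := by
    ext1 m
    simp
  rw [this]
  simp [aeval_eq_eval]

theorem res_Msec (b : E) {j : ℕ} (v w : Fin 4 → MvPolynomial (Fin 4) E)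
    (hv : ∀ a, (v a).IsHomogeneous (j + 1)) (hw : ∀ a, (w a).IsHomogeneous j) (i : Fin 3)
    (a : Fin 4) : res i (Msec b v w a) =
      res i (F4 (C b) X) ^ (j + 1) * ((Ps (C b) X).map (res i) *ᵥ fun c => C (zv v w c)) a := by
  have h1 : (Pp (C b) X).map (res (E := E) i) = res i (F4 (C b) X) • (Ps (C b) X).map (res i) := by
    ext1 c d
    simp [Pp, res_F3]
  have h2 : ∀ c d, res (E := E) i (Pp (C b) X c d) = res i (F4 (C b) X) * res i (Ps (C b) X c d) :=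
    fun c d => congrFun (congrFun h1 c) d
  have h3 : ∀ c d, res (E := E) i (N0 c d) = C (N0 c d) := fun c d => by
    rw [← Matrix.map_apply (f := res (E := E) i), map_N0,
      ← Matrix.map_apply (f := (C : E →+* MvPolynomial (Fin 3) E)), map_N0]
  simp only [Msec, zv, Pi.add_apply, Matrix.mulVec, dotProduct, map_add, map_sum, map_mul, h2, h3,
    res_rho b (hv _), res_rho b (hw _), Matrix.map_apply, Fin.sum_univ_four]
  generalize res (E := E) i (F4 (C b) X) = φ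
  ring

theorem Msec_sub (b c : E) (v w v' w' : Fin 4 → MvPolynomial (Fin 4) E) :
    Msec b (v' - (C c : MvPolynomial (Fin 4) E) • v) (w' - (C c : MvPolynomial (Fin 4) E) • w) =
      Msec b v' w' - (C c : MvPolynomial (Fin 3) E) • Msec b v w := by
  have h : ∀ v v' : Fin 4 → MvPolynomial (Fin 4) E,
      (fun a => rho b ((v' - (C c : MvPolynomial (Fin 4) E) • v) a)) =
        (fun a => rho b (v' a)) - (C c : MvPolynomial (Fin 3) E) • fun a => rho b (v a) := by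
    intro v v'
    ext1 a
    simp [rho_C]
  simp only [Msec, h, Matrix.mulVec_sub, Matrix.mulVec_smul, smul_add]
  abel

theorem G_hom (b : E) : (qs (C b) (X : Fin 4 → MvPolynomial (Fin 4) E) ^ 2 -
    (Ns (C b) X).det).IsHomogeneous 4 :=
  ((qs_hom b).pow 2).sub (det_hom _ (Ns_hom b))

theorem exists_quot {b : E} (hb : b ≠ 0) (hb1 : b ≠ 1) {d : ℕ}
    (z : Fin 4 → MvPolynomial (Fin 4) E) (hz : ∀ a, (z a).IsHomogeneous (d + 4))
    (h : ∀ a, rho b (z a) = 0) : ∃ y : Fin 4 → MvPolynomial (Fin 4) E,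
      (∀ a, (y a).IsHomogeneous d) ∧
        z = (qs (C b) (X : Fin 4 → MvPolynomial (Fin 4) E) ^ 2 - (Ns (C b) X).det) • y := by
  choose y hy using fun a => ker_rho hb hb1 (hz a) (h a)
  refine ⟨y, fun a => ?_, funext hy⟩
  have := hz a
  rw [hy a] at this
  simpa using (hom_quot (G_hom b) (G_ne hb) this).1

theorem smul_cancel' {R : Type*} [CommRing R] [IsDomain R] {n : ℕ} {c : R} (hc : c ≠ 0)
    {A B : Fin n → R} (h : c • A = c • B) : A = B := by
  ext a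
  exact mul_left_cancel₀ hc (congrFun h a)

theorem N0_inj {R : Type*} [CommRing R] {z : Fin 4 → R} (h : N0 *ᵥ z = 0) : z = 0 := by
  have := congrArg (N0 *ᵥ ·) h
  simpa [Matrix.mulVec_mulVec, N0_sq] using this

/-- Exactness of the matrix factorisation. -/
theorem rel_of_Msec {b : E} (hb : b ≠ 0) (hb1 : b ≠ 1) {j : ℕ}
    (v w : Fin 4 → MvPolynomial (Fin 4) E) (hv : ∀ a, (v a).IsHomogeneous (j + 3))
    (hw : ∀ a, (w a).IsHomogeneous (j + 2)) (h : Msec b v w = 0) :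
    ∃ y y' : Fin 4 → MvPolynomial (Fin 4) E, (∀ a, (y a).IsHomogeneous (j + 1)) ∧
      (∀ a, (y' a).IsHomogeneous j) ∧ v = qs (C b) X • y - (Ns (C b) X).adjugate *ᵥ y' ∧
      w = qs (C b) X • y' - Ns (C b) X *ᵥ y := by
  obtain ⟨y, hy, e1⟩ := exists_quot hb hb1 (d := j + 1)
    (qs (C b) X • v + (Ns (C b) X).adjugate *ᵥ w) (fun a => by
      have h1 := (qs_hom b).mul (hv a)
      have h2 := mulVec_hom _ (adj_hom _ (Ns_hom b)) _ hw a
      rw [show 2 + (j + 3) = j + 1 + 4 by ring] at h1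
      rw [show 3 + (j + 2) = j + 1 + 4 by ring] at h2
      exact h1.add h2) (fun a => by rw [← Pp_Msec hb, h, Matrix.mulVec_zero, Pi.zero_apply])
  obtain ⟨y', hy', e2⟩ := exists_quot hb hb1 (d := j)
    (Ns (C b) X *ᵥ v + qs (C b) X • w) (fun a => by
      have h1 := (qs_hom b).mul (hw a)
      have h2 := mulVec_hom _ (Ns_hom b) _ hv a
      rw [show 2 + (j + 2) = j + 4 by ring] at h1
      rw [show 1 + (j + 3) = j + 4 by ring] at h2
      exact h2.add h1) (fun a => by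
        have := Ps_Msec b v w
        rw [h, Matrix.mulVec_zero] at this
        exact congrFun (N0_inj this.symm) a)
  refine ⟨y, y', hy, hy', smul_cancel' (G_ne hb) ?_, smul_cancel' (G_ne hb) ?_⟩
  · rw [smul_sub _ (qs (C b) X • y), smul_comm, ← Matrix.mulVec_smul, ← e1, ← e2,
      Matrix.mulVec_add, Matrix.mulVec_mulVec, Matrix.adjugate_mul, Matrix.mulVec_smul,
      Matrix.smul_mulVec, Matrix.one_mulVec]
    module
  · rw [smul_sub _ (qs (C b) X • y'), smul_comm, ← Matrix.mulVec_smul, ← e1, ← e2,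
      Matrix.mulVec_add, Matrix.mulVec_mulVec, Matrix.mul_adjugate, Matrix.mulVec_smul,
      Matrix.smul_mulVec, Matrix.one_mulVec]
    module

/-- A pair `(v, w)` with prescribed image. -/
theorem exists_Msec {b : E} (hb : b ≠ 0) (hb1 : b ≠ 1) {j : ℕ}
    (M : Fin 4 → MvPolynomial (Fin 3) E) (y1 y2 : Fin 4 → MvPolynomial (Fin 4) E)
    (h1 : ∀ a, (y1 a).IsHomogeneous (j + 2)) (h2 : ∀ a, (y2 a).IsHomogeneous (j + 3))
    (e1 : ∀ a, rho b (y1 a) = (Ps (C b) X *ᵥ M) a) (e2 : ∀ a, rho b (y2 a) = (Pp (C b) X *ᵥ M) a) :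
    ∃ v w : Fin 4 → MvPolynomial (Fin 4) E, (∀ a, (v a).IsHomogeneous (j + 1)) ∧
      (∀ a, (w a).IsHomogeneous j) ∧ Msec b v w = M := by
  have h0 : ∀ a c, ((N0 : Matrix (Fin 4) (Fin 4) (MvPolynomial (Fin 4) E)) a c).IsHomogeneous 0 := by
    intro a c
    rw [← map_N0 (C : E →+* MvPolynomial (Fin 4) E)]
    exact isHomogeneous_C _ _
  have hz : ∀ a, ((N0 *ᵥ y1) a).IsHomogeneous (j + 2) := fun a => by
    simpa using mulVec_hom _ h0 _ h1 a
  have ez : (fun a => rho b ((N0 *ᵥ y1) a)) = N0 *ᵥ (Ps (C b) X *ᵥ M) := by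
    rw [rho_mulVec, map_N0, funext e1]
  have hsub : ∀ z z' : Fin 4 → MvPolynomial (Fin 4) E,
      (fun a => rho b ((qs (C b) X • z - z') a)) =
        (rho b (qs (C b) X) • fun a => rho b (z a)) - fun a => rho b (z' a) := by
    intro z z'
    ext1 a
    simp
  obtain ⟨v, hv, f1⟩ := exists_quot hb hb1 (d := j + 1)
    (qs (C b) X • y2 - (Ns (C b) X).adjugate *ᵥ (N0 *ᵥ y1)) (fun a => by
      have h3 := (qs_hom b).mul (h2 a)
      have h4 := mulVec_hom _ (adj_hom _ (Ns_hom b)) _ hz a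
      rw [show 2 + (j + 3) = j + 1 + 4 by ring] at h3
      rw [show 3 + (j + 2) = j + 1 + 4 by ring] at h4
      exact h3.sub h4) (fun a => by
        refine (congrFun (hsub _ _) a).trans
          (congrFun (g := (0 : Fin 4 → MvPolynomial (Fin 3) E)) ?_ a)
        rw [rho_mulVec, ez, rho_adj hb, funext e2, Matrix.mulVec_mulVec, Matrix.mul_assoc, N0_sq,
          Matrix.mul_one, Matrix.mulVec_mulVec, Matrix.mul_assoc, (Ps_Pp _ _).2, Matrix.mul_smul,
          Matrix.mul_one, Matrix.smul_mulVec, rho_qs, sub_self])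
  obtain ⟨w, hw, f2⟩ := exists_quot hb hb1 (d := j)
    (qs (C b) X • (N0 *ᵥ y1) - Ns (C b) X *ᵥ y2) (fun a => by
      have h3 := (qs_hom b).mul (hz a)
      have h4 := mulVec_hom _ (Ns_hom b) _ h2 a
      rw [show 2 + (j + 2) = j + 4 by ring] at h3
      rw [show 1 + (j + 3) = j + 4 by ring] at h4
      exact h3.sub h4) (fun a => by
        refine (congrFun (hsub _ _) a).trans
          (congrFun (g := (0 : Fin 4 → MvPolynomial (Fin 3) E)) ?_ a)
        rw [ez, rho_mulVec, rho_Ns, funext e2, Matrix.mulVec_mulVec, Matrix.mulVec_mulVec,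
          Matrix.mul_assoc, Matrix.mul_assoc, (Ps_Pp _ _).1, Matrix.mul_smul, Matrix.mul_one,
          Matrix.mul_smul, Matrix.smul_mulVec, rho_qs, sub_self])
  refine ⟨v, w, hv, hw, ?_⟩
  have f3 : Ns (C b) X *ᵥ v + qs (C b) X • w = N0 *ᵥ y1 := by
    apply smul_cancel' (G_ne hb)
    rw [smul_add, smul_comm _ (qs (C b) X), ← Matrix.mulVec_smul, ← f1, ← f2, Matrix.mulVec_sub,
      Matrix.mulVec_mulVec, Matrix.mul_adjugate, Matrix.mulVec_smul, Matrix.smul_mulVec,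
      Matrix.one_mulVec]
    module
  have f4 : Ps (C b) X *ᵥ Msec b v w = Ps (C b) X *ᵥ M := by
    rw [Ps_Msec, f3, ez, Matrix.mulVec_mulVec, N0_sq, Matrix.one_mulVec]
  have f5 := congrArg (Pp (C b) X *ᵥ ·) f4
  simp only [Matrix.mulVec_mulVec, (Ps_Pp _ _).2, Matrix.smul_mulVec, Matrix.one_mulVec,
    ← rho_qs] at f5
  exact smul_cancel' (rho_q_ne hb) f5

end

theorem mult_X (i : Fin 3) (u : ℂ) : Mult 1 (Pt i u) (X i) :=
  mult_one_of_hom (isHomogeneous_X _ _) (by fin_cases i <;> simp [Pt])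

theorem Pt_self (i : Fin 3) (u : ℂ) : Pt i u i = 0 := by fin_cases i <;> simp [Pt]

theorem mult_F3 (b : ℂ) (i : Fin 3) (u : ℂ) : Mult 1 (Pt i u) (F3 (C b) X) :=
  mult_one_of_hom (F3_hom b) (by rw [← eval_res i _ (Pt_self i u), res_F3, map_zero])

theorem mult_F4 {b : ℂ} (hb : b ≠ 0) (i : Fin 3) (t : Fin 4) :
    Mult 1 (Pt i (uu b i t)) (F4 (C b) X) := by
  obtain ⟨f, -, h⟩ := res_F4 hb i
  refine mult_one_of_hom (F4_hom b) ?_
  rw [← eval_res i _ (Pt_self i _), h, map_mul, map_prod,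
    Finset.prod_eq_zero (Finset.mem_univ t) (by rw [eval_ell, sub_self]), mul_zero]

theorem mult_mulVec {n m : ℕ} {P : Fin 3 → ℂ} (A : Matrix (Fin n) (Fin n) S3) {z : Fin n → S3}
    (hz : ∀ a, Mult m P (z a)) (a : Fin n) : Mult m P ((A *ᵥ z) a) :=
  Mult.sum _ _ fun c _ => (hz c).mul_left _

theorem Ps_dec {b : ℂ} (hb : b ≠ 0) (i : Fin 3) : ∃ Q : Matrix (Fin 4) (Fin 4) S3,
    Ps (C b) X = (C (gC b i) : S3) • kron (kS KA (gA b) i) (kS KB (gB b) i) + (X i : S3) • Q := by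
  choose Q hQ using fun a c => X_dvd_sub_res i (Ps (C b) X a c)
  refine ⟨Matrix.of Q, ?_⟩
  rw [← res_Ps hb]
  ext1 a c
  simp [← hQ]

theorem gC_ne {b : ℂ} (hb : b ≠ 0) (i : Fin 3) : gC b i ≠ 0 := by
  fin_cases i <;> simp [gC, hb]

theorem vec_apply {R : Type*} [CommRing R] (M : Matrix (Fin 2) (Fin 2) R) (p : R → Prop) :
    (∀ a, p (vec M a)) ↔ ∀ a c, p (M a c) := by
  constructor
  · intro h a c
    fin_cases a <;> fin_cases c
    exacts [h 0, h 1, h 2, h 3]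
  · intro h a
    fin_cases a
    exacts [h 0 0, h 0 1, h 1 0, h 1 1]

theorem mult_Pp {b : ℂ} (hb : b ≠ 0) (i : Fin 3) (t : Fin 4) {m : ℕ} (z : Fin 4 → S3)
    (h1 : ∀ a, Mult m (Pt i (uu b i t)) (z a))
    (h2 : ∀ a, Mult (m + 1) (Pt i (uu b i t)) ((Ps (C b) X *ᵥ z) a)) (a : Fin 4) :
    Mult (m + 2) (Pt i (uu b i t)) ((Pp (C b) X *ᵥ z) a) := by
  have e : Pp (C b) X *ᵥ z = F4 (C b) X • (Ps (C b) X *ᵥ z) -
      (2 * F3 (C b) X) • (TT (C b) X *ᵥ (Ps (C b) X *ᵥ z)) + (8 * F3 (C b) X ^ 2) • z := by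
    rw [Pp, Ps_TT, Matrix.add_mulVec, Matrix.sub_mulVec, Matrix.smul_mulVec, Matrix.smul_mulVec,
      Matrix.smul_mulVec, Matrix.one_mulVec, Matrix.mulVec_mulVec]
  rw [e]
  refine Mult.add (Mult.sub ?_ ?_) ?_
  · exact ((mult_F4 hb i t).mul (h2 a)).mono (by omega)
  · exact (((mult_F3 b i _).mul_left _).mul (mult_mulVec _ h2 a)).mono (by omega)
  · exact ((((mult_F3 b i _).pow 2).mul_left _).mul (h1 a)).mono (by omega)

theorem mult_rho {b : ℂ} (hb : b ≠ 0) {y : S4} {d : ℕ} (hy : y.IsHomogeneous d) (i : Fin 3)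
    (t : Fin 4) : Mult d (Pt i (uu b i t)) (rho b y) := by
  refine mult_aeval_of_hom hy _ fun k => ?_
  have h : ∀ m, Mult 1 (Pt i (uu b i t)) (2 * F3 (C b) X * X m) := fun m =>
    ((mult_F3 b i _).mul_left _).mul_right _
  fin_cases k
  exacts [mult_F4 hb i t, h 0, h 1, h 2]

theorem mult_Msec {b : ℂ} (hb : b ≠ 0) {j : ℕ} (v w : Fin 4 → S4)
    (hv : ∀ a, (v a).IsHomogeneous (j + 1)) (hw : ∀ a, (w a).IsHomogeneous j) (i : Fin 3)
    (t : Fin 4) : (∀ a, Mult (j + 1) (Pt i (uu b i t)) (Msec b v w a)) ∧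
      ∀ a c, Mult (j + 2) (Pt i (uu b i t))
        ((kS KA (gA b) i * mat (Msec b v w) * (kS KB (gB b) i)ᵀ) a c) := by
  have h1 : ∀ a, Mult (j + 1) (Pt i (uu b i t)) (Msec b v w a) := by
    intro a
    refine (mult_mulVec _ (fun a => mult_rho hb (hv a) i t) a).add ?_
    have h0 := mult_mulVec N0 fun a => mult_rho hb (hw a) i t
    refine Mult.sum _ _ fun c _ => (Mult.mul (m := 1) ?_ (h0 c)).mono (by omega)
    simp only [Pp, Matrix.add_apply, Matrix.sub_apply, Matrix.smul_apply, smul_eq_mul]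
    exact (((mult_F4 hb i t).mul_right _).sub (((mult_F3 b i _).mul_left _).mul_right _)).add
      (((((mult_F3 b i _).pow 2).mono (by omega)).mul_left _).mul_right _)
  refine ⟨h1, ?_⟩
  have h2 : ∀ a, Mult (j + 2) (Pt i (uu b i t)) ((Ps (C b) X *ᵥ Msec b v w) a) := by
    rw [Ps_Msec]
    refine mult_mulVec _ fun a => mult_rho hb ?_ i t
    have h3 := (qs_hom b).mul (hw a)
    have h4 := mulVec_hom _ (Ns_hom b) _ hv a
    rw [show 2 + j = j + 2 by ring] at h3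
    rw [show 1 + (j + 1) = j + 2 by ring] at h4
    exact h4.add h3
  obtain ⟨Q, hQ⟩ := Ps_dec hb i
  rw [← vec_apply _ (Mult (j + 2) (Pt i (uu b i t))), ← kron_vec, vec_mat]
  intro a
  have h3 : (C (gC b i) : S3) * (kron (kS KA (gA b) i) (kS KB (gB b) i) *ᵥ Msec b v w) a =
      (Ps (C b) X *ᵥ Msec b v w) a - X i * (Q *ᵥ Msec b v w) a := by
    rw [hQ, Matrix.add_mulVec, Matrix.smul_mulVec, Matrix.smul_mulVec]
    simp
  have h4 : Mult (j + 2) (Pt i (uu b i t))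
      (C (gC b i) * (kron (kS KA (gA b) i) (kS KB (gB b) i) *ᵥ Msec b v w) a) := by
    rw [h3]
    exact (h2 a).sub (((mult_X i _).mul (mult_mulVec _ h1 a)).mono (by omega))
  exact h4.cancel (k := 0) (not_mult_one (by simpa using gC_ne hb i))

/-- The converse: the multiplicity conditions put `M` in the image. -/
theorem Msec_of_mult {b : ℂ} (hb : b ≠ 0) (hb1 : b ≠ 1)
    (hu : ∀ i, Function.Injective (uu b i)) {j : ℕ} (M : Matrix (Fin 2) (Fin 2) S3)
    (hM : ∀ a c, (M a c).IsHomogeneous (4 * j + 6))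
    (h1 : ∀ i t a c, Mult (j + 1) (Pt i (uu b i t)) (M a c))
    (h2 : ∀ i t a c, Mult (j + 2) (Pt i (uu b i t))
      ((kS KA (gA b) i * M * (kS KB (gB b) i)ᵀ) a c)) :
    ∃ v w : Fin 4 → S4, (∀ a, (v a).IsHomogeneous (j + 1)) ∧ (∀ a, (w a).IsHomogeneous j) ∧
      Msec b v w = vec M := by
  have hM' := (vec_apply M fun p => p.IsHomogeneous (4 * j + 6)).mpr hM
  have h3 : ∀ i t a, Mult (j + 2) (Pt i (uu b i t)) ((Ps (C b) X *ᵥ vec M) a) := by
    intro i t a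
    obtain ⟨Q, hQ⟩ := Ps_dec hb i
    rw [hQ, Matrix.add_mulVec, Matrix.smul_mulVec, Matrix.smul_mulVec, kron_vec]
    exact (((vec_apply _ _).mpr (h2 i t) a).mul_left _).add
      (((mult_X i _).mul (mult_mulVec _ ((vec_apply _ _).mpr (h1 i t)) a)).mono (by omega))
  choose f hf hres using res_F4 hb
  have hG : 2 * F3 (C b) (X : Fin 3 → S3) =
      C (2 * (1522736988 * (1 - b))) * (X 0 * X 1 * X 2) := by
    rw [F3_eq, map_mul C 2, map_ofNat, mul_assoc 2]
  have hs := scalar (uu b) hu (uu_ne_zero hb) _ (F4_hom b) f hf hres _ _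
    (mul_ne_zero two_ne_zero (mul_ne_zero (by norm_num) (sub_ne_zero.mpr hb1.symm))) hG
  choose y1 hy1 e1 using fun a => hs (j + 2) ((Ps (C b) X *ᵥ vec M) a) (by
    have := mulVec_hom _ (Ps_hom b) _ hM' a
    rwa [show 2 + (4 * j + 6) = 4 * (j + 2) by ring] at this) fun i t => h3 i t a
  choose y2 hy2 e2 using fun a => hs (j + 3) ((Pp (C b) X *ᵥ vec M) a) (by
    have := mulVec_hom _ (Pp_hom b) _ hM' a
    rwa [show 6 + (4 * j + 6) = 4 * (j + 3) by ring] at this) fun i t =>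
      mult_Pp hb i t _ ((vec_apply _ _).mpr (h1 i t)) (h3 i t) a
  exact exists_Msec hb hb1 _ y1 y2 hy1 hy2 e1 e2

end Pool.Agent.GM16
end

-- merged part: Pool.Agent.Work.MP_274aea_ag.Special
section
-- merged part: Pool.Agent.Work.MP_274aea_ag.Exist
section
set_option autoImplicit false

open MvPolynomial Matrix

namespace Pool.Agent.GM16

theorem Exist_mv (k : Matrix (Fin 2) (Fin 2) S3) (s : Fin 2 → S3) (a : Fin 2) :
    (k *ᵥ s) a = k a 0 * s 0 + k a 1 * s 1 := by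
  simp [mulVec, dotProduct, Fin.sum_univ_two]

theorem Exist_loc {u : Fin 3 → Fin 4 → ℂ} {K : Fin 3 → Matrix (Fin 2) (Fin 2) ℂ}
    {γ : Fin 3 → ℂ} {dr : Fin 4 → ℕ} (hB : Bun u K γ dr) (i : Fin 3) (t : Fin 4) (n : ℕ) :
    ∃ L : (Fin 2 → S3) →ₗ[ℂ] (Fin (n.choose 2) → ℂ) × (Fin ((n + dr t).choose 2) → ℂ),
      ∀ (s : Fin 2 → S3) (D : ℕ), (∀ a, (s a).IsHomogeneous D) →
        (∀ a, ell i (u i t) ^ n ∣ res i (s a)) →
        (∀ a, ell i (u i t) ^ (n + dr t) ∣ res i ((kS K γ i *ᵥ s) a)) → L s = 0 →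
        ∀ a, Mult n (Pt i (u i t)) (s a) ∧
          Mult (n + dr t) (Pt i (u i t)) ((kS K γ i *ᵥ s) a) := by
  obtain ⟨L1, h1⟩ := exists_cond i (u i t) n
  obtain ⟨L2, h2⟩ := exists_cond i (u i t) (n + dr t)
  obtain hd | hd : dr t = 0 ∨ dr t = 1 := by have := hB.le t; omega
  · refine ⟨(L1.comp (LinearMap.proj 1)).prod (L2.comp (LinearMap.proj 0)),
      fun s D hs d1 _ hL => ?_⟩
    have e1 := h1 _ D (hs 1) (d1 1) (congrArg Prod.fst hL)
    have e0 := h2 _ D (hs 0) (by rw [hd]; exact d1 0) (congrArg Prod.snd hL)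
    rw [hd] at e0 ⊢
    intro a
    refine ⟨by fin_cases a <;> assumption, ?_⟩
    rw [Exist_mv]
    exact (e0.mul_left _).add (e1.mul_left _)
  · refine ⟨(L1.comp (LinearMap.proj 1)).prod (L2.comp
      ((LinearMap.mulLeft ℂ (kS K γ i 1 0)).comp (LinearMap.proj 0) +
        (LinearMap.mulLeft ℂ (kS K γ i 1 1)).comp (LinearMap.proj 1))), fun s D hs d1 d2 hL => ?_⟩
    have e1 := h1 _ D (hs 1) (d1 1) (congrArg Prod.fst hL)
    have d3 := d2 1
    rw [Exist_mv] at d3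
    have e2 := h2 _ (1 + D) (((kS_hom K γ i 1 0).mul (hs 0)).add ((kS_hom K γ i 1 1).mul (hs 1)))
      d3 (congrArg Prod.snd hL)
    have hz : ¬ Mult (0 + 1) (Pt i (u i t)) (kS K γ i 1 0) :=
      not_mult_one (by rw [eval_kS]; exact hB.nz i t hd)
    have htr : kS K γ i 1 1 = -kS K γ i 0 0 := by
      simp only [kS, kk, Matrix.add_apply, Matrix.smul_apply, Matrix.map_apply, smul_eq_mul, hB.tr,
        map_neg]
      ring
    obtain ⟨c, -, hc⟩ := hB.sq i
    have h3 : Mult 1 (Pt i (u i t)) (kS K γ i 0 0 * kS K γ i 0 0 + kS K γ i 0 1 * kS K γ i 1 0) := by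
      have := congrFun (congrFun hc 0) 0
      rw [mul_apply, Fin.sum_univ_two, Matrix.smul_apply, one_apply_eq, smul_eq_mul, mul_one,
        ← Finset.mul_prod_erase _ _ (Finset.mem_univ t), hd, pow_one] at this
      rw [this]
      exact ((mult_one_of_hom (ell_hom _ _) (by rw [eval_ell, sub_self])).mul_right _).mul_left _
    rw [hd] at e2 ⊢
    have e0 : Mult n (Pt i (u i t)) (s 0) := by
      refine Mult.cancel (n := n) (k := 0) ?_ hz
      have := (e2.mono (Nat.le_succ n)).sub (e1.mul_left (kS K γ i 1 1))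
      rwa [add_sub_cancel_right] at this
    have e3 : Mult (n + 1) (Pt i (u i t)) (kS K γ i 0 0 * s 0 + kS K γ i 0 1 * s 1) := by
      refine Mult.cancel (n := n + 1) (k := 0) ?_ hz
      have := (e2.mul_left (kS K γ i 0 0)).add (e1.mul h3)
      rwa [htr, show kS K γ i 0 0 * (kS K γ i 1 0 * s 0 + -kS K γ i 0 0 * s 1) +
        s 1 * (kS K γ i 0 0 * kS K γ i 0 0 + kS K γ i 0 1 * kS K γ i 1 0) =
        kS K γ i 1 0 * (kS K γ i 0 0 * s 0 + kS K γ i 0 1 * s 1) by ring] at this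
    intro a
    rw [Exist_mv]
    fin_cases a
    · exact ⟨e0, e3⟩
    · exact ⟨e1, e2⟩

theorem Exist_glue (u : Fin 3 → Fin 4 → ℂ) (K : Fin 3 → Matrix (Fin 2) (Fin 2) ℂ)
    (γ : Fin 3 → ℂ) (n : Fin 4 → ℕ) (hu0 : ∀ i t, u i t ≠ 0) (hγ : ∀ i, γ i ≠ 0)
    (hmon : ∏ i, ∏ t, u i t ^ n t = ∏ i, γ i) :
    ∃ (c : Fin 3 → ℂ) (B : Fin 2 → Fin 2 → S3), (∀ i, c i ≠ 0) ∧
      (∀ a b, (B a b).IsHomogeneous (∑ t, n t + 1)) ∧
      ∀ i a b, res i (B a b) = C (c i) * (∏ t, ell i (u i t) ^ n t) * kS K γ i a b := by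
  have hU : ∀ i, ∏ t, u i t ^ n t ≠ 0 := fun i =>
    Finset.prod_ne_zero_iff.2 fun t _ => pow_ne_zero _ (hu0 i t)
  obtain ⟨c, hc, hc'⟩ : ∃ c : Fin 3 → ℂ, (∀ i, c i ≠ 0) ∧
      ∀ i, c i * γ i = c (i + 1) * ∏ t, u (i + 1) t ^ n t := by
    rw [Fin.prod_univ_three, Fin.prod_univ_three] at hmon
    have h0 := hU 0
    have h1 := hU 1
    have h2 := hU 2
    refine ⟨![(∏ t, u 1 t ^ n t) * ∏ t, u 2 t ^ n t, γ 0 * ∏ t, u 2 t ^ n t, γ 0 * γ 1],
      fun i => ?_, fun i => ?_⟩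
    · fin_cases i
      · exact mul_ne_zero h1 h2
      · exact mul_ne_zero (hγ 0) h2
      · exact mul_ne_zero (hγ 0) (hγ 1)
    · fin_cases i
      · show ((∏ t, u 1 t ^ n t) * ∏ t, u 2 t ^ n t) * γ 0 =
          (γ 0 * ∏ t, u 2 t ^ n t) * ∏ t, u 1 t ^ n t
        ring
      · show (γ 0 * ∏ t, u 2 t ^ n t) * γ 1 = γ 0 * γ 1 * ∏ t, u 2 t ^ n t
        ring
      · show γ 0 * γ 1 * γ 2 = ((∏ t, u 1 t ^ n t) * ∏ t, u 2 t ^ n t) * ∏ t, u 0 t ^ n t
        rw [← hmon]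
        ring
  have h := fun a b => glue (fun i => C (c i) * (∏ t, ell i (u i t) ^ n t) * kS K γ i a b)
    (∑ t, n t + 1) (fun i => ((prod_ell_hom i (u i) n).C_mul _).mul (kS_hom K γ i a b)) fun i => by
      have e1 := eval_ell_start (E := ℂ) (i + 1)
      have e2 : kk K γ (Pi.single (i + 2) 1) i a b = γ i * K (i + 2) a b := by
        fin_cases i <;> simp [kk]
      have e3 : kk K γ (Pi.single (i + 2) 1) (i + 1) a b = K (i + 2) a b := by
        fin_cases i <;> simp [kk]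
      rw [show i + 1 + 1 = i + 2 from add_assoc _ _ _] at e1
      simp only [map_mul, eval_C, map_prod, map_pow, eval_ell_end, e1, eval_kS, e2, e3, one_pow,
        Finset.prod_const_one, mul_one]
      rw [← hc', mul_assoc]
  choose B hB hB' using h
  refine ⟨c, B, hc, hB, fun i a b => ?_⟩
  rw [hB', map_mul, map_mul, map_prod, res_kS]
  simp only [map_pow, res_ell]
  rw [res, aeval_C]
  rfl

theorem exists_sec (u : Fin 3 → Fin 4 → ℂ) (K : Fin 3 → Matrix (Fin 2) (Fin 2) ℂ)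
    (γ : Fin 3 → ℂ) (dr n : Fin 4 → ℕ) (D : ℕ) (hu0 : ∀ i t, u i t ≠ 0) (hγ : ∀ i, γ i ≠ 0)
    (hB : Bun u K γ dr) (hD : D = ∑ t, n t + 1) (h3 : 3 ≤ D)
    (hmon : ∏ i, ∏ t, u i t ^ n t = ∏ i, γ i)
    (hc : 3 * ∑ t, ((n t).choose 2 + (n t + dr t).choose 2) < 2 + 2 * (D - 1).choose 2) :
    ∃ s : Fin 2 → S3, s ≠ 0 ∧ Sec u K γ dr n D s := by
  obtain ⟨c, B, hc0, hBh, hBr⟩ := Exist_glue u K γ n hu0 hγ hmon
  rw [← hD] at hBh
  choose L hL using fun i t => Exist_loc hB i t (n t)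
  let σ : (Fin 2 → ℂ) × (Fin 2 → homogeneousSubmodule (Fin 3) ℂ (D - 3)) →ₗ[ℂ] (Fin 2 → S3) :=
    { toFun := fun w a => w.1 0 • B a 0 + w.1 1 • B a 1 + X 0 * X 1 * X 2 * (w.2 a : S3)
      map_add' := fun x y => funext fun a => by
        simp only [Prod.fst_add, Prod.snd_add, Pi.add_apply, Submodule.coe_add, add_smul, mul_add]
        abel
      map_smul' := fun r x => funext fun a => by
        simp only [Prod.smul_fst, Prod.smul_snd, Pi.smul_apply, Submodule.coe_smul, smul_add,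
          smul_eq_mul, mul_smul, RingHom.id_apply, mul_smul_comm] }
  have hfin : Module.Finite ℂ (homogeneousSubmodule (Fin 3) ℂ (D - 3)) :=
    Module.finite_of_finrank_pos (by
      rw [finrank_hom 2]
      exact Nat.choose_pos (Nat.le_add_left _ _))
  obtain ⟨w, hw, hw0⟩ := Submodule.exists_mem_ne_zero_of_ne_bot
    (LinearMap.ker_ne_bot_of_finrank_lt
      (f := LinearMap.pi fun i => LinearMap.pi fun t => (L i t).comp σ) (by
        simp only [Module.finrank_pi_fintype, Module.finrank_prod, finrank_hom 2,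
          Module.finrank_self, Finset.sum_const, Finset.card_univ, Fintype.card_fin, smul_eq_mul,
          mul_one]
        rwa [show D - 3 + 2 = D - 1 by omega]))
  have hs : ∀ a, σ w a = w.1 0 • B a 0 + w.1 1 • B a 1 + X 0 * X 1 * X 2 * (w.2 a : S3) :=
    fun _ => rfl
  have hX : ∀ i, res i (X 0 * X 1 * X 2 : S3) = 0 := fun i => by
    fin_cases i <;> simp [res]
  have hr : ∀ i a, res i (σ w a) = C (c i) * (∏ t, ell i (u i t) ^ n t) *
      (kS K γ i *ᵥ fun b => C (w.1 b)) a := fun i a => by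
    rw [hs, map_add, map_add, map_mul, hX, zero_mul, add_zero, map_smul, map_smul, hBr, hBr,
      Exist_mv, smul_eq_C_mul, smul_eq_C_mul]
    ring
  have hr' : ∀ i, ∃ e : ℂ, e ≠ 0 ∧ ∀ a, res i ((kS K γ i *ᵥ σ w) a) =
      C (c i) * (∏ t, ell i (u i t) ^ n t) * (C e * ∏ t, ell i (u i t) ^ dr t) * C (w.1 a) :=
    fun i => by
      obtain ⟨e, he, h⟩ := hB.sq i
      refine ⟨e, he, fun a => ?_⟩
      have h1 := congrFun (mulVec_mulVec (fun b => (C (w.1 b) : S3)) (kS K γ i) (kS K γ i)) a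
      rw [h, smul_mulVec, one_mulVec, Pi.smul_apply, smul_eq_mul, Exist_mv] at h1
      rw [Exist_mv, map_add, map_mul, map_mul, res_kS, res_kS, hr, hr, mul_assoc _ (C e * _), ← h1]
      ring
  have hh : ∀ a, (σ w a).IsHomogeneous D := fun a => by
    rw [hs, smul_eq_C_mul, smul_eq_C_mul]
    refine (((hBh a 0).C_mul _).add ((hBh a 1).C_mul _)).add ?_
    have := (((isHomogeneous_X ℂ (0 : Fin 3)).mul (isHomogeneous_X ℂ 1)).mul
      (isHomogeneous_X ℂ 2)).mul (w.2 a).2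
    rwa [show 1 + 1 + 1 + (D - 3) = D by omega] at this
  refine ⟨σ w, fun h0 => hw0 ?_, hh, fun i t => hL i t _ D hh (fun a => ?_) (fun a => ?_)
    (congrFun (congrFun hw i) t)⟩
  · have h1 : ∀ a, w.1 a = 0 := fun a => by
      obtain ⟨e, he, h⟩ := hr' 0
      have h2 := h a
      rw [h0, mulVec_zero, Pi.zero_apply, map_zero] at h2
      exact C_eq_zero.1 ((mul_eq_zero.1 h2.symm).resolve_left (mul_ne_zero
        (mul_ne_zero (C_ne_zero.2 (hc0 0)) (prod_ell_ne_zero _ _ _))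
        (mul_ne_zero (C_ne_zero.2 he) (prod_ell_ne_zero _ _ _))))
    refine Prod.ext (funext h1) (funext fun a => Subtype.ext ?_)
    have h3 := hs a
    rw [h0, h1, h1, zero_smul, zero_smul, add_zero, zero_add] at h3
    exact (mul_eq_zero.1 h3.symm).resolve_left
      (mul_ne_zero (mul_ne_zero (X_ne_zero _) (X_ne_zero _)) (X_ne_zero _))
  · rw [hr]
    exact ((Finset.dvd_prod_of_mem _ (Finset.mem_univ t)).mul_left _).mul_right _
  · obtain ⟨e, -, h⟩ := hr' i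
    rw [h, pow_add]
    exact (mul_dvd_mul ((Finset.dvd_prod_of_mem _ (Finset.mem_univ t)).mul_left _)
      ((Finset.dvd_prod_of_mem _ (Finset.mem_univ t)).mul_left _)).mul_right _

end Pool.Agent.GM16
end

-- merged part: Pool.Agent.Work.MP_274aea_ag.Rigid
section
set_option autoImplicit false

open MvPolynomial Matrix

namespace Pool.Agent.GM16

theorem Rigid_quot {s c : Fin 2 → S3} (hs : IsRelPrime (s 0) (s 1))
    (h : s 0 * c 1 = s 1 * c 0) : ∃ g : S3, c = g • s := by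
  obtain ⟨g, hg⟩ : s 0 ∣ c 0 := hs.dvd_of_dvd_mul_left ⟨c 1, h.symm⟩
  by_cases h0 : s 0 = 0
  · have hu : IsUnit (s 1) := hs (by simp [h0]) dvd_rfl
    obtain ⟨g', hg'⟩ : s 1 ∣ c 1 := hu.dvd
    refine ⟨g', ?_⟩
    ext1 a
    fin_cases a
    · simp [hg, h0]
    · simp [hg', mul_comm]
  · refine ⟨g, ?_⟩
    ext1 a
    fin_cases a
    · simp [hg, mul_comm]
    · refine mul_left_cancel₀ h0 ?_
      change s 0 * c 1 = s 0 * (g * s 1)
      rw [h, hg]
      ring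

theorem Rigid_hom {s c : Fin 2 → S3} {g : S3} {D N : ℕ} (hp : IsRelPrime (s 0) (s 1))
    (hs : ∀ a, (s a).IsHomogeneous D) (hc : ∀ a, (c a).IsHomogeneous (N + D)) (h : c = g • s) :
    g.IsHomogeneous N := by
  obtain ⟨a, ha⟩ : ∃ a, s a ≠ 0 := by
    by_contra h0
    push Not at h0
    exact not_isUnit_zero (hp (dvd_of_eq (h0 0).symm) (dvd_of_eq (h0 1).symm))
  have := hc a
  rw [h, Pi.smul_apply, smul_eq_mul, mul_comm] at this
  simpa using (hom_quot (hs a) ha this).1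

theorem Rigid_unit {u : Fin 3 → Fin 4 → ℂ} (hu : ∀ i, Function.Injective (u i)) {dr : Fin 4 → ℕ}
    {c : ℂ} (hc : c ≠ 0) (i : Fin 3) (p : Fin 4) (h : dr p = 0) :
    ¬ Mult 1 (Pt i (u i p)) (C c * ∏ t, ell i (u i t) ^ dr t) := by
  apply not_mult_one
  simp only [map_mul, eval_C, map_prod, map_pow, eval_ell]
  refine mul_ne_zero hc (Finset.prod_ne_zero_iff.mpr fun t _ => ?_)
  by_cases ht : t = p
  · simp [ht, h]
  · exact pow_ne_zero _ (sub_ne_zero.mpr fun h1 => ht (hu i h1))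

theorem Rigid_half {u : Fin 3 → Fin 4 → ℂ} (hu : ∀ i, Function.Injective (u i))
    {K K' : Fin 3 → Matrix (Fin 2) (Fin 2) ℂ} {γ γ' : Fin 3 → ℂ} {dr dr' n n' : Fin 4 → ℕ}
    {D j : ℕ} (hB : Bun u K γ dr) (hB' : Bun u K' γ' dr') (hd : ∀ p, dr p + dr' p = 1)
    {s t : Fin 2 → S3} (ht : Sec u K' γ' dr' n' D t) (ps : Prim u K γ dr n s)
    (M : Matrix (Fin 2) (Fin 2) S3) (h1 : ∀ i p a b, Mult j (Pt i (u i p)) (M a b))
    (h2 : ∀ i p a b, Mult (j + 1) (Pt i (u i p)) ((kS K γ i * M * (kS K' γ' i)ᵀ) a b))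
    {g : S3} (hg : (fun a => M a 0 * t 1 - M a 1 * t 0) = g • s) (i : Fin 3) (p : Fin 4) :
    Mult (j + 1 + n' p - (n p + dr p)) (Pt i (u i p)) g := by
  obtain ⟨a, ha⟩ := ps.2 i p
  have key : ∀ a, Mult (j + 1 + n' p) (Pt i (u i p))
      ((kS K γ i *ᵥ fun a => M a 0 * t 1 - M a 1 * t 0) a) := by
    by_cases hp : dr' p = 0
    · obtain ⟨c, hc, hk⟩ := hB'.sq i
      have e1 : ∀ a b, Mult (j + 1) (Pt i (u i p)) ((kS K γ i * M) a b) := by
        intro a b
        have e2 : kS K γ i * M * (kS K' γ' i)ᵀ * (kS K' γ' i)ᵀ =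
            (C c * ∏ t, ell i (u i t) ^ dr' t) • (kS K γ i * M) := by
          rw [Matrix.mul_assoc, ← Matrix.transpose_mul, hk, Matrix.transpose_smul,
            Matrix.transpose_one, Matrix.mul_smul, Matrix.mul_one]
        have e3 : Mult (j + 1) (Pt i (u i p))
            ((kS K γ i * M * (kS K' γ' i)ᵀ * (kS K' γ' i)ᵀ) a b) :=
          Mult.sum _ _ fun d _ => (h2 i p a d).mul_right _
        rw [e2] at e3
        exact e3.cancel (k := 0) (Rigid_unit hu hc i p hp)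
      intro a
      have e4 : (kS K γ i *ᵥ fun a => M a 0 * t 1 - M a 1 * t 0) a =
          (kS K γ i * M) a 0 * t 1 - (kS K γ i * M) a 1 * t 0 := by
        simp only [Matrix.mulVec, dotProduct, Matrix.mul_apply, Fin.sum_univ_two]
        ring
      rw [e4]
      exact ((e1 a 0).mul (ht.2 i p 1).1).sub ((e1 a 1).mul (ht.2 i p 0).1)
    · have hp' : dr' p = 1 := by have := hd p; omega
      have hp0 : dr p = 0 := by have := hd p; omega
      obtain ⟨c, hc, hk⟩ := hB.sq i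
      have e1 : ∀ a b, Mult (j + 1) (Pt i (u i p)) ((M * (kS K' γ' i)ᵀ) a b) := by
        intro a b
        have e2 : kS K γ i * (kS K γ i * M * (kS K' γ' i)ᵀ) =
            (C c * ∏ t, ell i (u i t) ^ dr t) • (M * (kS K' γ' i)ᵀ) := by
          rw [Matrix.mul_assoc, ← Matrix.mul_assoc, hk, Matrix.smul_mul, Matrix.one_mul]
        have e3 : Mult (j + 1) (Pt i (u i p))
            ((kS K γ i * (kS K γ i * M * (kS K' γ' i)ᵀ)) a b) :=
          Mult.sum _ _ fun d _ => (h2 i p d b).mul_left _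
        rw [e2] at e3
        exact e3.cancel (k := 0) (Rigid_unit hu hc i p hp0)
      have e5 : ∀ a, Mult (j + 1 + n' p) (Pt i (u i p)) (M a 0 * t 1 - M a 1 * t 0) := by
        intro a
        have e4 : kS K' γ' i 1 0 * (M a 0 * t 1 - M a 1 * t 0) =
            (M * (kS K' γ' i)ᵀ) a 1 * t 1 - M a 1 * (kS K' γ' i *ᵥ t) 1 := by
          simp only [Matrix.mulVec, dotProduct, Matrix.mul_apply, Fin.sum_univ_two,
            Matrix.transpose_apply]
          ring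
        have e6 := (ht.2 i p 1).2
        rw [hp'] at e6
        have e7 := ((e1 a 1).mul (ht.2 i p 1).1).sub (((h1 i p a 1).mul e6).mono (by omega))
        rw [← e4] at e7
        exact e7.cancel (k := 0) (not_mult_one (by rw [eval_kS]; exact hB'.nz i p hp'))
      exact fun a => Mult.sum _ _ fun d _ => (e5 d).mul_left _
  have := key a
  rw [hg, Matrix.mulVec_smul, Pi.smul_apply, smul_eq_mul, mul_comm] at this
  exact this.cancel ha

theorem rigid {k : ℕ} (u : Fin 3 → Fin 4 → ℂ) (K K' : Fin 3 → Matrix (Fin 2) (Fin 2) ℂ)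
    (γ γ' : Fin 3 → ℂ) (hu0 : ∀ i t, u i t ≠ 0) (hrel : RelOK (2 * k + 1) u)
    (hB : Bun u K γ drA) (hB' : Bun u K' γ' drB) (s t : Fin 2 → S3)
    (hs : Sec u K γ drA (nA k) (6 * k + 3) s) (ht : Sec u K' γ' drB (nB k) (6 * k + 3) t)
    (ps : Prim u K γ drA (nA k) s) (pt : Prim u K' γ' drB (nB k) t)
    (M : Matrix (Fin 2) (Fin 2) S3) (hM : ∀ a b, (M a b).IsHomogeneous (12 * k + 6))
    (h1 : ∀ i p a b, Mult (3 * k + 1) (Pt i (u i p)) (M a b))
    (h2 : ∀ i p a b, Mult (3 * k + 2) (Pt i (u i p)) ((kS K γ i * M * (kS K' γ' i)ᵀ) a b))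
    (h0 : s 0 * t 0 * M 1 1 - s 0 * t 1 * M 1 0 - s 1 * t 0 * M 0 1 + s 1 * t 1 * M 0 0 = 0) :
    ∃ c : ℂ, ∀ a b, M a b = C c * (s a * t b) := by
  have hu := hrel.inj hu0
  obtain ⟨g, hg⟩ := Rigid_quot (c := fun a => M a 0 * t 1 - M a 1 * t 0) ps.1
    (by linear_combination -h0)
  obtain ⟨g', hg'⟩ := Rigid_quot (c := fun a => Mᵀ a 0 * s 1 - Mᵀ a 1 * s 0) pt.1
    (by simp only [Matrix.transpose_apply]; linear_combination -h0)
  have e1 : g = 0 := by
    have h3 := Rigid_half hu hB hB' (fun p => by fin_cases p <;> rfl) ht ps M h1 h2 hg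
    refine vanD2 (r := 2 * k + 1) (by omega) hu0 hrel (Rigid_hom ps.1 hs.1 (fun a => ?_) hg)
      fun i => ⟨(h3 i 0).mono ?_, (h3 i 1).mono ?_, (h3 i 2).mono ?_, (h3 i 3).mono ?_⟩
    · rw [show 6 * (2 * k + 1) = 12 * k + 6 by ring]
      exact ((hM a 0).mul (ht.1 1)).sub ((hM a 1).mul (ht.1 0))
    all_goals
      simp [nA, nB, drA]
      omega
  have e2 : g' = 0 := by
    have h3 := Rigid_half hu hB' hB (fun p => by fin_cases p <;> rfl) hs pt Mᵀ
      (fun i p a b => h1 i p b a) (fun i p a b => by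
        have := h2 i p b a
        rwa [← Matrix.transpose_apply (kS K γ i * M * (kS K' γ' i)ᵀ), Matrix.transpose_mul,
          Matrix.transpose_mul, Matrix.transpose_transpose, ← Matrix.mul_assoc] at this) hg'
    refine vanD1 (r := 2 * k + 1) (by omega) hu0 hrel (Rigid_hom pt.1 ht.1 (fun a => ?_) hg')
      fun i => ⟨(h3 i 0).mono ?_, (h3 i 1).mono ?_, (h3 i 2).mono ?_⟩
    · rw [show 6 * (2 * k + 1) = 12 * k + 6 by ring]
      exact ((hM 0 a).mul (hs.1 1)).sub ((hM 1 a).mul (hs.1 0))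
    all_goals
      simp [nA, nB, drB]
      omega
  rw [e1, zero_smul] at hg
  rw [e2, zero_smul] at hg'
  have f1 : ∀ a, ∃ c : S3, M a = c • t := fun a => Rigid_quot pt.1 (by
    have := congrFun hg a
    simp only [Pi.zero_apply] at this
    linear_combination -this)
  choose c hc using f1
  have f2 : s 0 * c 1 = s 1 * c 0 := by
    obtain ⟨a, ha⟩ : ∃ a, t a ≠ 0 := by
      by_contra h3
      push Not at h3
      exact not_isUnit_zero (pt.1 (dvd_of_eq (h3 0).symm) (dvd_of_eq (h3 1).symm))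
    have := congrFun hg' a
    simp only [Pi.zero_apply, Matrix.transpose_apply, hc, Pi.smul_apply, smul_eq_mul] at this
    apply mul_left_cancel₀ ha
    linear_combination -this
  obtain ⟨d, hd⟩ := Rigid_quot ps.1 f2
  have f3 : ∀ a, (c a).IsHomogeneous (0 + (6 * k + 3)) := fun a =>
    Rigid_hom pt.1 ht.1 (fun b => by
      rw [show 0 + (6 * k + 3) + (6 * k + 3) = 12 * k + 6 by ring]
      exact hM a b) (hc a)
  obtain ⟨e, rfl⟩ := hom_zero_eq_C (Rigid_hom ps.1 hs.1 f3 hd)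
  refine ⟨e, fun a b => ?_⟩
  rw [hc, hd]
  simp only [Pi.smul_apply, smul_eq_mul]
  ring

end Pool.Agent.GM16
end

-- merged part: Pool.Agent.Work.MP_274aea_ag.Special
section
set_option autoImplicit false

open MvPolynomial Matrix

namespace Pool.Agent.GM16

theorem two_choose (n : ℕ) : 2 * (n + 1).choose 2 = (n + 1) * n := by
  induction n with
  | zero => simp
  | succ n ih =>
    rw [Nat.choose_succ_succ' (n + 1) 1, Nat.choose_one_right, mul_add, ih]
    ring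

theorem countA (k : ℕ) : 3 * ∑ t, ((nA (k + 1) t).choose 2 + (nA (k + 1) t + drA t).choose 2) <
    2 + 2 * (6 * (k + 1) + 3 - 1).choose 2 := by
  have h1 := two_choose (2 * k + 1)
  have h2 := two_choose (2 * k + 2)
  have h3 := two_choose (2 * k + 3)
  have h4 := two_choose (6 * k + 7)
  have e : ∑ t, ((nA (k + 1) t).choose 2 + (nA (k + 1) t + drA t).choose 2) =
      (2 * k + 2 + 1).choose 2 + (2 * k + 3 + 1).choose 2 + ((2 * k + 1 + 1).choose 2 +
        (2 * k + 2 + 1).choose 2) + ((2 * k + 2 + 1).choose 2 + (2 * k + 2 + 1).choose 2) := by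
    rw [Fin.sum_univ_four]
    rfl
  rw [e, show 6 * (k + 1) + 3 - 1 = 6 * k + 7 + 1 from rfl]
  nlinarith

theorem countB (k : ℕ) : 3 * ∑ t, ((nB (k + 1) t).choose 2 + (nB (k + 1) t + drB t).choose 2) <
    2 + 2 * (6 * (k + 1) + 3 - 1).choose 2 := by
  have h1 := two_choose k
  have h2 := two_choose (k + 1)
  have h3 := two_choose (3 * k + 3)
  have h3' := two_choose (3 * k + 4)
  have h4 := two_choose (6 * k + 7)
  have e : ∑ t, ((nB (k + 1) t).choose 2 + (nB (k + 1) t + drB t).choose 2) =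
      (k + 1).choose 2 + (k + 1).choose 2 + ((k + 1 + 1).choose 2 +
        (k + 1 + 1).choose 2) + ((k + 1).choose 2 + (k + 1 + 1).choose 2) +
        ((3 * k + 3 + 1).choose 2 + (3 * k + 4 + 1).choose 2) := by
    rw [Fin.sum_univ_four]
    rfl
  rw [e, show 6 * (k + 1) + 3 - 1 = 6 * k + 7 + 1 from rfl]
  nlinarith

theorem vec_N0 {R : Type*} [CommRing R] (M : Matrix (Fin 2) (Fin 2) R) (z : Fin 4 → R) :
    vec M ⬝ᵥ N0 *ᵥ z = -(M 0 0 * mat z 1 1 - M 0 1 * mat z 1 0 - M 1 0 * mat z 0 1 +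
      M 1 1 * mat z 0 0) := by
  simp [vec, mat, N0, Matrix.mulVec, dotProduct, Fin.sum_univ_four]
  ring

theorem special (k : ℕ) (b : ℂ) (hb : b ^ (2 * (k + 1) + 1) = cst (k + 1)) :
    ∃ v w : Fin 4 → S4, (∀ a, (v a).IsHomogeneous (3 * k + 4)) ∧
      (∀ a, (w a).IsHomogeneous (3 * k + 3)) ∧
      qs (C b) X ^ 2 - (Ns (C b) X).det ∣ pol (Ns (C b) X) (qs (C b) X) v w v w ∧
      zv v w ≠ 0 ∧
      ∀ v' w' : Fin 4 → S4, (∀ a, (v' a).IsHomogeneous (3 * k + 4)) →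
        (∀ a, (w' a).IsHomogeneous (3 * k + 3)) →
        qs (C b) X ^ 2 - (Ns (C b) X).det ∣ pol (Ns (C b) X) (qs (C b) X) v w v' w' →
        ∃ (c : ℂ) (y y' : Fin 4 → S4), (∀ a, (y a).IsHomogeneous (3 * k + 2)) ∧
          (∀ a, (y' a).IsHomogeneous (3 * k + 1)) ∧
          v' - (C c : S4) • v = qs (C b) X • y - (Ns (C b) X).adjugate *ᵥ y' ∧
          w' - (C c : S4) • w = qs (C b) X • y' - Ns (C b) X *ᵥ y := by
  obtain ⟨hb0, hb1⟩ := cst_ne hb
  have hrel := relOK_uu hb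
  have hu0 := uu_ne_zero hb0
  have hu := hrel.inj hu0
  have hA : ∀ i, gA b i ≠ 0 := fun i => by fin_cases i <;> simp [gA, hb0]
  have hB : ∀ i, gB b i ≠ 0 := fun i => by fin_cases i <;> simp [gB, hb0]
  obtain ⟨s, hs0, hs⟩ := exists_sec (uu b) KA (gA b) drA (nA (k + 1)) (6 * (k + 1) + 3) hu0 hA
    (bunA hb0) (by simp [Fin.sum_univ_four, nA]; ring) (by omega) (monA hb) (countA k)
  obtain ⟨t, ht0, ht⟩ := exists_sec (uu b) KB (gB b) drB (nB (k + 1)) (6 * (k + 1) + 3) hu0 hB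
    (bunB hb0) (by simp [Fin.sum_univ_four, nB]; ring) (by omega) (monB hb) (countB k)
  have ps := primA (by omega) _ _ _ hu0 hA hrel (bunA hb0) (monA' hb) s hs0 hs
  have pt := primB (by omega) _ _ _ hu0 hB hrel (bunB hb0) (dirB hb0) (monB' hb) t ht0 ht
  let M : Matrix (Fin 2) (Fin 2) S3 := Matrix.of fun a c => s a * t c
  obtain ⟨v, w, hv, hw, hM⟩ := Msec_of_mult hb0 hb1 hu (j := 3 * k + 3) M
    (fun a c => by
      have := (hs.1 a).mul (ht.1 c)
      rwa [show 6 * (k + 1) + 3 + (6 * (k + 1) + 3) = 4 * (3 * k + 3) + 6 by ring] at this)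
    (fun i p a c => ((hs.2 i p a).1.mul (ht.2 i p c).1).mono (by
      fin_cases p <;> simp [nA, nB] <;> omega))
    (fun i p a c => by
      have e : (kS KA (gA b) i * M * (kS KB (gB b) i)ᵀ) a c =
          (kS KA (gA b) i *ᵥ s) a * (kS KB (gB b) i *ᵥ t) c := by
        simp only [M, Matrix.mul_apply, Matrix.mulVec, dotProduct, Fin.sum_univ_two,
          Matrix.of_apply, Matrix.transpose_apply]
        ring
      rw [e]
      exact ((hs.2 i p a).2.mul (ht.2 i p c).2).mono (by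
        fin_cases p <;> simp [nA, nB, drA, drB] <;> omega))
  refine ⟨v, w, hv, hw, ?_, ?_, fun v' w' hv' hw' hd => ?_⟩
  · refine ker_rho hb0 hb1 (pol_hom _ _ (Ns_hom b) (qs_hom b) v w v w hv hw hv hw) ?_
    rw [← Msec_pol hb0, hM, vec_N0, mat_vec]
    simp only [M, Matrix.of_apply]
    ring
  · intro hz
    have h1 : ∀ a c, X 0 ∣ s a * t c := by
      refine (vec_apply M fun p => X 0 ∣ p).mp fun a => (X_dvd_iff _ _).mpr ?_
      rw [← hM, res_Msec b v w hv hw, hz]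
      simp [Matrix.mulVec, dotProduct]
    have hp := prime_X' (E := ℂ) 0
    by_cases h2 : X 0 ∣ s 0
    · have h3 : ¬ X 0 ∣ s 1 := fun h => hp.not_unit (ps.1 h2 h)
      exact hp.not_unit (pt.1 ((hp.dvd_or_dvd (h1 1 0)).resolve_left h3)
        ((hp.dvd_or_dvd (h1 1 1)).resolve_left h3))
    · exact hp.not_unit (pt.1 ((hp.dvd_or_dvd (h1 0 0)).resolve_left h2)
        ((hp.dvd_or_dvd (h1 0 1)).resolve_left h2))
  · obtain ⟨η, hη⟩ := hd
    have h0 := Msec_pol hb0 v w v' w'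
    rw [hη, map_mul, rho_G, zero_mul, hM, vec_N0, neg_eq_zero] at h0
    obtain ⟨c, hc⟩ := rigid (k := k + 1) (uu b) KA KB (gA b) (gB b) hu0 hrel (bunA hb0) (bunB hb0)
      s t hs ht ps pt (mat (Msec b v' w'))
      ((vec_apply _ fun p : S3 => p.IsHomogeneous (12 * (k + 1) + 6)).mp fun a => by
        rw [vec_mat, show 12 * (k + 1) + 6 = 4 * (3 * k + 3) + 6 by ring]
        exact Msec_hom b v' w' hv' hw' a)
      (fun i p => (vec_apply _ (Mult _ _)).mp fun a => by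
        rw [vec_mat]
        exact (mult_Msec hb0 v' w' hv' hw' i p).1 a)
      (fun i p => (mult_Msec hb0 v' w' hv' hw' i p).2) h0
    have h1 : Msec b (v' - (C c : S4) • v) (w' - (C c : S4) • w) = 0 := by
      rw [Msec_sub, hM, sub_eq_zero, ← vec_mat (Msec b v' w')]
      ext1 a
      fin_cases a <;> simp [vec, hc, M]
    obtain ⟨y, y', h2⟩ := rel_of_Msec hb0 hb1 (j := 3 * k + 1) _ _
      (fun a => (hv' a).sub ((hv a).C_mul c)) (fun a => (hw' a).sub ((hw a).C_mul c)) h1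
    exact ⟨c, y, y', h2⟩

end Pool.Agent.GM16
end
end

-- merged part: Pool.Agent.Work.MP_274aea_ag.Trans
section
set_option autoImplicit false

open MvPolynomial Matrix

namespace Pool.Agent.GM16

theorem Trans_rank {R : Type*} [CommRing R] [IsDomain R] [UniqueFactorizationMonoid R]
    (M : Matrix (Fin 2) (Fin 2) R) (h : M 0 0 * M 1 1 = M 0 1 * M 1 0) :
    ∃ s t : Fin 2 → R, ∀ a c, M a c = s a * t c := by
  have key : ∀ p q p' q' : R, (p ≠ 0 ∨ q ≠ 0) → p * q' = q * p' →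
      ∃ g g' a b : R, p = g * a ∧ q = g * b ∧ p' = g' * a ∧ q' = g' * b := by
    intro p q p' q' h0 h1
    obtain ⟨a, b, g, hr, rfl, rfl⟩ : ∃ a b g : R, IsRelPrime a b ∧ g * a = p ∧ g * b = q := by
      rcases h0 with h0 | h0
      · exact UniqueFactorizationMonoid.exists_reduced_factors p h0 q
      · exact UniqueFactorizationMonoid.exists_reduced_factors' p q h0
    have hg : g ≠ 0 := by
      rintro rfl
      simp at h0
    have h2 : a * q' = b * p' := mul_left_cancel₀ hg (by linear_combination h1)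
    obtain ⟨c, hc⟩ : a ∣ p' := hr.dvd_of_dvd_mul_left ⟨q', h2.symm⟩
    by_cases ha : a = 0
    · obtain ⟨c', hc'⟩ : b ∣ q' := (hr (by simp [ha]) dvd_rfl).dvd
      exact ⟨g, c', a, b, rfl, rfl, by simp [hc, ha], by rw [hc', mul_comm]⟩
    · refine ⟨g, c, a, b, rfl, rfl, by rw [hc, mul_comm], mul_left_cancel₀ ha ?_⟩
      rw [h2, hc]
      ring
  by_cases h0 : M 0 0 ≠ 0 ∨ M 0 1 ≠ 0
  · obtain ⟨g, g', a, b, h1, h2, h3, h4⟩ := key _ _ _ _ h0 h
    refine ⟨![g, g'], ![a, b], fun a c => ?_⟩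
    fin_cases a <;> fin_cases c
    exacts [h1, h2, h3, h4]
  · push Not at h0
    refine ⟨![0, 1], M 1, fun a c => ?_⟩
    fin_cases a <;> fin_cases c <;> simp [h0.1, h0.2]

theorem Trans_dvd {E : Type*} [Field E] (u : Fin 4 → E) (l : List (Fin 4)) (p : Polynomial E)
    (h : p ∣ (l.map fun t => Polynomial.C (u t) * (1 - Polynomial.X) + Polynomial.X).prod) :
    ∃ n : Fin 4 → ℕ, p.eval 0 = p.eval 1 * ∏ t, u t ^ n t := by
  induction l generalizing p with
  | nil =>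
    obtain ⟨c, -, rfl⟩ := Polynomial.isUnit_iff.mp (isUnit_of_dvd_one (by simpa using h))
    exact ⟨0, by simp⟩
  | cons t l ih =>
    rw [List.map_cons, List.prod_cons] at h
    obtain ⟨p1, p2, h1, h2, rfl⟩ := exists_dvd_and_dvd_of_dvd_mul h
    obtain ⟨n, hn⟩ := ih p2 h2
    obtain ⟨q, hq⟩ := h1
    have h0 : Polynomial.C (u t) * (1 - Polynomial.X) + Polynomial.X ≠ 0 := by
      intro h3
      simpa using congrArg (Polynomial.eval 1) h3
    have hd : (Polynomial.C (u t) * (1 - Polynomial.X) + Polynomial.X).natDegree ≤ 1 := by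
      compute_degree
    rw [hq] at h0 hd
    rw [Polynomial.natDegree_mul (left_ne_zero_of_mul h0) (right_ne_zero_of_mul h0)] at hd
    by_cases h4 : p1.natDegree = 0
    · rw [Polynomial.eq_C_of_natDegree_eq_zero h4]
      exact ⟨n, by simp [hn, mul_assoc]⟩
    · rw [Polynomial.eq_C_of_natDegree_eq_zero (show q.natDegree = 0 by omega)] at hq
      have e0 := congrArg (Polynomial.eval 0) hq
      have e1 := congrArg (Polynomial.eval 1) hq
      simp at e0 e1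
      refine ⟨n + Pi.single t 1, ?_⟩
      have e2 : ∏ t', u t' ^ (n + Pi.single t 1 : Fin 4 → ℕ) t' = (∏ t', u t' ^ n t') * u t := by
        simp only [Pi.add_apply, pow_add, Finset.prod_mul_distrib]
        congr 1
        rw [Finset.prod_eq_single t (fun t' _ h => by simp [h]) (by simp)]
        simp
      rw [e2, Polynomial.eval_mul, Polynomial.eval_mul, hn, e0]
      linear_combination (p1.eval 0 * p2.eval 1 * ∏ t', u t' ^ n t') * e1

theorem Trans_side {E : Type*} [Field E] (i : Fin 3) (u : Fin 4 → E) (N : ℕ) (c : E) (hc : c ≠ 0)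
    (φ ψ : MvPolynomial (Fin 3) E) (h : res i (φ * ψ) = C c * (∏ t, ell i (u t)) ^ N) :
    eval (Pi.single (i + 2) 1) φ ≠ 0 ∧ ∃ n : Fin 4 → ℕ,
      eval (Pi.single (i + 1) 1) φ = eval (Pi.single (i + 2) 1) φ * ∏ t, u t ^ n t := by
  let f : Fin 3 → Polynomial E := fun m =>
    if m = i then 0 else if m = i + 1 then 1 - Polynomial.X else Polynomial.X
  have h1 : ∀ p : MvPolynomial (Fin 3) E, aeval f (res i p) = aeval f p := by
    intro p
    obtain ⟨q, hq⟩ := X_dvd_sub_res i p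
    have := congrArg (aeval f) hq
    simp only [map_sub, map_mul, aeval_X, f, if_true, zero_mul] at this
    exact (sub_eq_zero.mp this).symm
  have h2 : ∀ (x : E) (p : MvPolynomial (Fin 3) E),
      (aeval f p).eval x = eval (fun m => (f m).eval x) p := by
    intro x p
    rw [← Polynomial.coe_aeval_eq_eval, comp_aeval_apply, aeval_eq_eval]
  have e0 : (fun m => (f m).eval 0) = Pi.single (i + 1) 1 := by
    ext m
    fin_cases i <;> fin_cases m <;> simp [f]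
  have e1 : (fun m => (f m).eval 1) = Pi.single (i + 2) 1 := by
    ext m
    fin_cases i <;> fin_cases m <;> simp [f]
  have h3 : ∀ v, aeval f (ell i v) = Polynomial.C v * (1 - Polynomial.X) + Polynomial.X := by
    intro v
    fin_cases i <;> simp [f, ell, add_comm]
  have h4 := congrArg (aeval f) h
  rw [h1, map_mul, map_mul, map_pow, map_prod] at h4
  simp only [h3, aeval_C, Polynomial.algebraMap_eq] at h4
  constructor
  · intro h5
    have := congrArg (Polynomial.eval 1) h4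
    rw [Polynomial.eval_mul, h2, e1, h5] at this
    simp [Polynomial.eval_prod, hc] at this
    exact hc this.symm
  · have h5 : aeval f φ ∣ (((List.replicate N [0, 1, 2, 3]).flatten).map fun t =>
        Polynomial.C (u t) * (1 - Polynomial.X) + Polynomial.X).prod := by
      have hu : IsUnit (Polynomial.C c) := (IsUnit.mk0 c hc).map Polynomial.C
      refine hu.dvd_mul_left.mp ⟨aeval f ψ, ?_⟩
      rw [h4]
      congr 1
      simp [List.map_flatten, List.prod_flatten, Fin.prod_univ_four, mul_assoc]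
    obtain ⟨n, hn⟩ := Trans_dvd u _ _ h5
    rw [h2, h2, e0, e1] at hn
    exact ⟨n, hn⟩

theorem trans_zv {E : Type*} [Field E] [Algebra ℂ E] {b : E} (hb : Transcendental ℂ b) {j : ℕ}
    (v w : Fin 4 → MvPolynomial (Fin 4) E) (hv : ∀ a, (v a).IsHomogeneous (j + 1))
    (hw : ∀ a, (w a).IsHomogeneous j)
    (h : qs (C b) X ^ 2 - (Ns (C b) X).det ∣ pol (Ns (C b) X) (qs (C b) X) v w v w) :
    zv v w = 0 := by
  haveI : CharZero E := charZero_of_injective_algebraMap (algebraMap ℂ E).injective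
  have hb0 : b ≠ 0 := by
    rintro rfl
    exact hb isAlgebraic_zero
  by_contra hz
  obtain ⟨η, hη⟩ := h
  have h0 := Msec_pol hb0 v w v w
  rw [hη, map_mul, rho_G, zero_mul] at h0
  obtain ⟨s, t, hst⟩ := Trans_rank (mat (Msec b v w)) (by
    simp [N0, Matrix.mulVec, dotProduct, Fin.sum_univ_four] at h0
    simp only [mat, Matrix.of_apply, Matrix.cons_val', Matrix.cons_val_zero, Matrix.cons_val_one,
      Matrix.cons_val_fin_one]
    apply mul_left_cancel₀ (two_ne_zero (α := MvPolynomial (Fin 3) E))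
    linear_combination -h0)
  obtain ⟨a, c, hac⟩ : ∃ a c, mat (zv v w) a c ≠ 0 := by
    by_contra h1
    push Not at h1
    apply hz
    rw [← vec_mat (zv v w)]
    exact funext ((vec_apply _ (· = 0)).mpr h1)
  have key : ∀ i, ∃ κ : E, κ ≠ 0 ∧ res i ((kS KA (gA b) i *ᵥ s) a * (kS KB (gB b) i *ᵥ t) c) =
      C κ * (∏ p, ell i (uu b i p)) ^ (j + 2) := by
    intro i
    obtain ⟨f, hf, hF⟩ := res_F4 hb0 i
    obtain ⟨c1, hc1, h1⟩ := sqA hb0 i
    obtain ⟨c2, hc2, h2⟩ := sqB hb0 i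
    have hg : gC b i ≠ 0 := by fin_cases i <;> simp [gC, hb0]
    refine ⟨f ^ (j + 1) * gC b i * c1 * c2 * mat (zv v w) a c,
      mul_ne_zero (mul_ne_zero (mul_ne_zero (mul_ne_zero (pow_ne_zero _ hf) hg) hc1) hc2) hac, ?_⟩
    have e1 : (mat (Msec b v w)).map (res i) =
        (res i (F4 (C b) X) ^ (j + 1) * C (gC b i)) •
          (kS KA (gA b) i * (mat (zv v w)).map C * (kS KB (gB b) i)ᵀ) := by
      have e2 : (fun c => (C (zv v w c) : MvPolynomial (Fin 3) E)) =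
          vec ((mat (zv v w)).map C) := by
        ext1 d
        fin_cases d <;> simp [vec, mat]
      have e3 := res_Msec b v w hv hw i
      simp only [res_Ps hb0, e2, Matrix.smul_mulVec, kron_vec, Pi.smul_apply, smul_eq_mul,
        ← mul_assoc] at e3
      ext1 a' c'
      fin_cases a' <;> fin_cases c'
      exacts [e3 0, e3 1, e3 2, e3 3]
    have e4 : res i ((kS KA (gA b) i *ᵥ s) a * (kS KB (gB b) i *ᵥ t) c) =
        (kS KA (gA b) i * (mat (Msec b v w)).map (res i) * (kS KB (gB b) i)ᵀ) a c := by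
      simp only [Matrix.mul_apply, Matrix.mulVec, dotProduct, Fin.sum_univ_two, Matrix.map_apply,
        Matrix.transpose_apply, hst, map_mul, map_add, res_kS]
      ring
    rw [e4, e1, Matrix.mul_smul, Matrix.smul_mul, ← Matrix.mul_assoc, ← Matrix.mul_assoc, h1,
      Matrix.mul_assoc, ← Matrix.transpose_mul, h2, hF]
    simp [Fin.prod_univ_four, drA, drB]
    ring
  choose κ hκ hk using key
  choose h1 n hn using fun i => Trans_side i (uu b i) (j + 2) (κ i) (hκ i) _ _ (hk i)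
  have ev : ∀ i (x : Fin 3 → E), eval x ((kS KA (gA b) i *ᵥ s) a) =
      (kk KA (gA b) x i *ᵥ fun d => eval x (s d)) a := by
    intro i x
    simp only [Matrix.mulVec, dotProduct, map_sum, map_mul, eval_kS]
  simp only [ev] at h1 hn
  have a0 := hn 0
  have a1 := hn 1
  have a2 := hn 2
  have b0 := h1 0
  apply trans_rel hb n
  rw [Fin.prod_univ_three]
  simp [kk, gA, Matrix.smul_mulVec] at a0 a1 a2 b0
  rw [a0] at a2
  rw [a2] at a1
  apply mul_left_cancel₀ b0.2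
  linear_combination -a1

end Pool.Agent.GM16
end

-- merged part: Pool.Agent.Work.MP_274aea_ag.Reduce
section
-- merged part: Pool.Agent.Work.MP_274aea_ag.Persist
section
set_option autoImplicit false

open MvPolynomial Matrix

namespace Pool.Agent.GM16

theorem Persist_der {σ : Type} (p : σ → ℂ) (φ : MvPolynomial σ ℂ →ₗ[ℂ] ℂ) (h1 : φ 1 = 0)
    (h2 : ∀ f g, eval p f = 0 → eval p g = 0 → φ (f * g) = 0) (f : MvPolynomial σ ℂ) :
    aeval (fun s => (TrivSqZeroExt.inl (p s) + TrivSqZeroExt.inr (φ (X s)) : DualNumber ℂ)) f =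
      TrivSqZeroExt.inl (eval p f) + TrivSqZeroExt.inr (φ f) := by
  have hC : ∀ a : ℂ, φ (C a) = 0 := by
    intro a
    rw [← mul_one (C a), C_mul', map_smul, h1, smul_zero]
  induction f using MvPolynomial.induction_on with
  | C a =>
    rw [aeval_C, eval_C, hC, TrivSqZeroExt.inr_zero, add_zero]
    rfl
  | add f g hf hg =>
    rw [map_add, hf, hg, map_add, map_add, TrivSqZeroExt.inl_add, TrivSqZeroExt.inr_add]
    abel
  | mul_X f s hf =>
    have e := h2 (f - C (eval p f)) (X s - C (p s)) (by simp) (by simp)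
    have e2 : (f - C (eval p f)) * (X s - C (p s)) =
        f * X s - p s • f - eval p f • X s + C (eval p f * p s) := by
      rw [← C_mul', ← C_mul', C_mul]
      ring
    rw [e2, map_add, map_sub, map_sub, map_smul, map_smul, hC, smul_eq_mul, smul_eq_mul] at e
    rw [map_mul, hf, aeval_X]
    refine TrivSqZeroExt.ext ?_ ?_
    · simp
    · simp only [TrivSqZeroExt.snd_mul, TrivSqZeroExt.snd_add, TrivSqZeroExt.fst_add,
        TrivSqZeroExt.fst_inl, TrivSqZeroExt.fst_inr, TrivSqZeroExt.snd_inl,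
        TrivSqZeroExt.snd_inr, add_zero, zero_add, smul_eq_mul, MulOpposite.smul_eq_mul_unop,
        MulOpposite.unop_op]
      linear_combination -e

theorem Persist_alg {σ ι : Type} (P : Ideal (MvPolynomial σ ℂ)) [P.IsPrime]
    (F : ι → MvPolynomial σ ℂ) (hF : ∀ i, F i ∈ P) (ie ib : σ) (hie : X ie ∈ P)
    (h : MvPolynomial σ ℂ) (hh : h ∉ P)
    (hT : ∀ (E : Type) [Field E] [Algebra ℂ E] (x : σ → E), (∀ i, aeval x (F i) = 0) →
      x ie = 0 → aeval x h ≠ 0 → IsAlgebraic ℂ (x ib)) : ∃ c : ℂ, X ib - C c ∈ P := by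
  let ψ : MvPolynomial σ ℂ →ₐ[ℂ] FractionRing (MvPolynomial σ ℂ ⧸ P) :=
    (IsScalarTower.toAlgHom ℂ (MvPolynomial σ ℂ ⧸ P) _).comp (Ideal.Quotient.mkₐ ℂ P)
  have hψ : ∀ f, ψ f = 0 ↔ f ∈ P := by
    intro f
    rw [← Ideal.Quotient.eq_zero_iff_mem]
    exact map_eq_zero_iff _ (IsFractionRing.injective (MvPolynomial σ ℂ ⧸ P) _)
  have ha : ∀ f, aeval (fun s => ψ (X s)) f = ψ f := by
    intro f
    have e : aeval (fun s => ψ (X s)) = ψ := algHom_ext fun s => aeval_X _ s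
    rw [e]
  have h1 := hT _ (fun s => ψ (X s)) (fun i => by rw [ha, hψ]; exact hF i) ((hψ _).2 hie)
    (by rw [ha]; exact fun h2 => hh ((hψ _).1 h2))
  obtain ⟨c, hc⟩ := minpoly.degree_eq_one_iff.1
    (IsAlgClosed.degree_eq_one_of_irreducible ℂ (minpoly.irreducible h1.isIntegral))
  refine ⟨c, (hψ _).1 ?_⟩
  rw [map_sub, ← hc, ← algebraMap_eq, AlgHom.commutes, sub_self]

theorem Persist_nak {σ ι : Type} [Finite σ] (P : Ideal (MvPolynomial σ ℂ)) [hprime : P.IsPrime]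
    (p : σ → ℂ) (hPm : P ≤ Lib.PRank.pt p) (F : ι → MvPolynomial σ ℂ) (hF : ∀ i, F i ∈ P)
    (ie ib : σ) (hie : X ie ∈ P) (c : ℂ) (hib : X ib - C c ∈ P)
    (hR : ∀ δ : σ → ℂ, δ ie = 0 → δ ib = 0 →
      (∀ i, aeval (fun s => (TrivSqZeroExt.inl (p s) + TrivSqZeroExt.inr (δ s) : DualNumber ℂ))
        (F i) = 0) → δ = 0) : Lib.PRank.pt p ≤ P := by
  have key : Lib.PRank.pt p ≤ P ⊔ Lib.PRank.pt p • Lib.PRank.pt p := by
    intro f hf
    by_contra hn
    have hle : P ⊔ Lib.PRank.pt p • Lib.PRank.pt p ≤ Lib.PRank.pt p :=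
      sup_le hPm Submodule.smul_le_right
    have hW : f ∉ Submodule.span ℂ {(1 : MvPolynomial σ ℂ)} ⊔
        (P ⊔ Lib.PRank.pt p • Lib.PRank.pt p).restrictScalars ℂ := by
      intro h1
      obtain ⟨y, hy, g, hg, e⟩ := Submodule.mem_sup.1 h1
      obtain ⟨a, rfl⟩ := Submodule.mem_span_singleton.1 hy
      have h2 : eval p g = 0 := hle hg
      have h3 : eval p f = 0 := hf
      rw [← e, map_add, h2, add_zero, ← C_mul', mul_one, eval_C] at h3
      rw [h3, zero_smul, zero_add] at e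
      exact hn (e ▸ hg)
    obtain ⟨φ, h1, h2⟩ := Submodule.exists_dual_map_eq_bot_of_notMem hW inferInstance
    have h3 : ∀ g ∈ Submodule.span ℂ {(1 : MvPolynomial σ ℂ)} ⊔
        (P ⊔ Lib.PRank.pt p • Lib.PRank.pt p).restrictScalars ℂ, φ g = 0 := by
      intro g hg
      have h4 := Submodule.mem_map_of_mem (f := φ) hg
      rwa [h2, Submodule.mem_bot] at h4
    have k1 : φ 1 = 0 := h3 _ (Submodule.mem_sup_left (Submodule.mem_span_singleton_self _))
    have k2 : ∀ g ∈ P, φ g = 0 := fun g hg =>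
      h3 _ (Submodule.mem_sup_right (Submodule.mem_sup_left hg))
    have k3 : ∀ g g', eval p g = 0 → eval p g' = 0 → φ (g * g') = 0 := fun g g' hg hg' =>
      h3 _ (Submodule.mem_sup_right (Submodule.mem_sup_right (Submodule.smul_mem_smul hg hg')))
    have k4 : φ (X ib) = 0 := by
      have h4 := k2 _ hib
      rwa [map_sub, ← mul_one (C c), C_mul', map_smul, k1, smul_zero, sub_zero] at h4
    have k5 := hR (fun s => φ (X s)) (k2 _ hie) k4 fun i => by
      have h4 : eval p (F i) = 0 := hPm (hF i)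
      rw [Persist_der p φ k1 k3, k2 _ (hF i), h4, TrivSqZeroExt.inl_zero,
        TrivSqZeroExt.inr_zero, add_zero]
    have k6 := Persist_der p φ k1 k3 f
    have k7 := Persist_der p 0 rfl (fun _ _ _ _ => rfl) f
    have k8 : (fun s => (TrivSqZeroExt.inl (p s) + TrivSqZeroExt.inr (φ (X s)) : DualNumber ℂ)) =
        fun s => (TrivSqZeroExt.inl (p s) +
          TrivSqZeroExt.inr ((0 : MvPolynomial σ ℂ →ₗ[ℂ] ℂ) (X s)) : DualNumber ℂ) := by
      funext s
      rw [congrFun k5 s]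
      rfl
    rw [k8, k7] at k6
    have k9 := congrArg TrivSqZeroExt.snd k6
    simp only [TrivSqZeroExt.snd_add, TrivSqZeroExt.snd_inl, TrivSqZeroExt.snd_inr, zero_add,
      LinearMap.zero_apply] at k9
    exact h1 k9.symm
  obtain ⟨r, hr, hrP⟩ := Submodule.exists_sub_one_mem_and_smul_le_of_fg_of_le_sup
    (IsNoetherian.noetherian (Lib.PRank.pt p)) le_rfl key
  intro g hg
  have h1 : r * g ∈ P := hrP (Submodule.smul_mem_pointwise_smul g r _ hg)
  refine (hprime.mem_or_mem h1).resolve_left fun h2 => ?_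
  have h3 : eval p (r - 1) = 0 := hr
  have h4 : eval p r = 0 := hPm h2
  rw [map_sub, h4, map_one, zero_sub, neg_eq_zero] at h3
  exact one_ne_zero h3

/-- Persistence of a rigid solution of an underdetermined system. -/
theorem persist {σ ι : Type} [Fintype σ] [Fintype ι] (F : ι → MvPolynomial σ ℂ)
    (hc : Fintype.card ι < Fintype.card σ) (p : σ → ℂ) (hp : ∀ i, eval p (F i) = 0) (ie ib : σ)
    (he : p ie = 0) (h : MvPolynomial σ ℂ) (hh : eval p h ≠ 0)
    (hT : ∀ (E : Type) [Field E] [Algebra ℂ E] (x : σ → E), (∀ i, aeval x (F i) = 0) →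
      x ie = 0 → aeval x h ≠ 0 → IsAlgebraic ℂ (x ib))
    (hR : ∀ δ : σ → ℂ, δ ie = 0 → δ ib = 0 →
      (∀ i, aeval (fun s => (TrivSqZeroExt.inl (p s) + TrivSqZeroExt.inr (δ s) : DualNumber ℂ))
        (F i) = 0) → δ = 0) :
    ∃ x : σ → ℂ, (∀ i, eval x (F i) = 0) ∧ x ie ≠ 0 ∧ eval x h ≠ 0 := by
  by_contra hno
  have hI : Ideal.span (Set.range F) ≤ Lib.PRank.pt p := by
    rw [Ideal.span_le]
    rintro _ ⟨i, rfl⟩
    exact hp i
  obtain ⟨P, hP, hPm⟩ := Ideal.exists_minimalPrimes_le hI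
  have hprime : P.IsPrime := hP.1.1
  have hF : ∀ i, F i ∈ P := fun i => hP.1.2 (Ideal.subset_span ⟨i, rfl⟩)
  have hrad : X ie * h ∈ (Ideal.span (Set.range F)).radical := by
    rw [← vanishingIdeal_zeroLocus_eq_radical (K := ℂ), mem_vanishingIdeal_iff]
    intro x hx
    by_contra h1
    rw [map_mul, aeval_X] at h1
    exact hno ⟨x, fun i => hx (F i) (Ideal.subset_span ⟨i, rfl⟩), left_ne_zero_of_mul h1,
      right_ne_zero_of_mul h1⟩
  have hhP : h ∉ P := fun h1 => hh (hPm h1)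
  have hie : X ie ∈ P :=
    (hprime.mem_or_mem (hprime.radical_le_iff.2 hP.1.2 hrad)).resolve_right hhP
  obtain ⟨c, hib⟩ := Persist_alg P F hF ie ib hie h hhP hT
  have hle := Persist_nak P p hPm F hF ie ib hie c hib hR
  rw [le_antisymm hPm hle] at hP
  exact absurd (Lib.PRank.card_le_of_pt_mem_minimalPrimes p F hP) (not_le.2 hc)

end Pool.Agent.GM16
end

-- merged part: Pool.Agent.Work.MP_274aea_ag.Family
section
set_option autoImplicit false

open MvPolynomial Matrix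

namespace Pool.Agent.GM16

theorem six_choose (n : ℕ) : 6 * (n + 2).choose 3 = (n + 2) * (n + 1) * n := by
  induction n with
  | zero => simp
  | succ n ih =>
    have h := two_choose (n + 1)
    rw [show n + 1 + 2 = n + 2 + 1 from rfl, Nat.choose_succ_succ' (n + 2) 2, mul_add, ih]
    nlinarith

theorem slice {V W : Type*} [AddCommGroup V] [Module ℂ V] [AddCommGroup W] [Module ℂ W]
    [Module.Finite ℂ V] [Module.Finite ℂ W] (ρ : W →ₗ[ℂ] V) (v0 : V) :
    ∃ (n : ℕ) (u : Fin n → V), Module.finrank ℂ V ≤ n + Module.finrank ℂ W + 1 ∧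
      ∀ (c : Fin n → ℂ) (a : ℂ) (w : W), ∑ i, c i • u i = a • v0 + ρ w → c = 0 := by
  obtain ⟨U, hU⟩ := Submodule.exists_isCompl (LinearMap.range ρ ⊔ Submodule.span ℂ {v0})
  let e := Module.finBasis ℂ U
  refine ⟨_, fun i => e i, ?_, fun c a w h => ?_⟩
  · have h1 := Submodule.finrank_add_eq_of_isCompl hU
    have h2 := Submodule.finrank_add_le_finrank_add_finrank (LinearMap.range ρ)
      (Submodule.span ℂ {v0})
    have h3 := ρ.finrank_range_le
    have h4 : Module.finrank ℂ (Submodule.span ℂ {v0}) ≤ 1 := by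
      simpa using finrank_span_le_card ({v0} : Set V)
    omega
  · have h1 : ((∑ i, c i • e i : U) : V) ∈ LinearMap.range ρ ⊔ Submodule.span ℂ {v0} := by
      rw [Submodule.coe_sum]
      simp only [Submodule.coe_smul]
      rw [h]
      exact add_mem (Submodule.mem_sup_right (Submodule.smul_mem _ _
        (Submodule.mem_span_singleton_self _))) (Submodule.mem_sup_left ⟨w, rfl⟩)
    have h2 := Submodule.disjoint_def.mp hU.disjoint _ h1 (∑ i, c i • e i : U).2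
    exact funext (Fintype.linearIndependent_iff.mp e.linearIndependent c
      (Subtype.ext h2))

instance fin_hom (d : ℕ) : Module.Finite ℂ (homogeneousSubmodule (Fin 4) ℂ d) :=
  Module.Finite.iff_fg.mpr (homogeneousSubmodule_fg _ _ _)

abbrev HH (d : ℕ) := Fin 4 → homogeneousSubmodule (Fin 4) ℂ d

theorem finrank_HH (d : ℕ) : Module.finrank ℂ (HH d) = 4 * (d + 3).choose 3 := by
  rw [Module.finrank_pi_fintype]
  simp [finrank_hom 3 d]

/-- The relations. -/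
noncomputable def relMap (b : ℂ) (j : ℕ) : (HH (j + 1) × HH j) →ₗ[ℂ] (HH (j + 3) × HH (j + 2)) where
  toFun p := (fun a => ⟨((qs (C b) X : S4) • (fun c => (p.1 c : S4)) -
      (Ns (C b) X).adjugate *ᵥ fun c => (p.2 c : S4)) a, by
        have h1 := (qs_hom b).mul (p.1 a).2
        have h2 := mulVec_hom _ (adj_hom _ (Ns_hom b)) _ (fun c => (p.2 c).2) a
        rw [show 2 + (j + 1) = j + 3 by ring] at h1
        rw [show 3 + j = j + 3 by ring] at h2
        exact h1.sub h2⟩,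
    fun a => ⟨((qs (C b) X : S4) • (fun c => (p.2 c : S4)) -
      Ns (C b) X *ᵥ fun c => (p.1 c : S4)) a, by
        have h1 := (qs_hom b).mul (p.2 a).2
        have h2 := mulVec_hom _ (Ns_hom b) _ (fun c => (p.1 c).2) a
        rw [show 2 + j = j + 2 by ring] at h1
        rw [show 1 + (j + 1) = j + 2 by ring] at h2
        exact h1.sub h2⟩)
  map_add' p p' := by
    refine Prod.ext (funext fun a => Subtype.ext ?_) (funext fun a => Subtype.ext ?_) <;>
      simp [Matrix.mulVec, dotProduct, Fin.sum_univ_four] <;> ring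
  map_smul' c p := by
    refine Prod.ext (funext fun a => Subtype.ext ?_) (funext fun a => Subtype.ext ?_) <;>
      simp [Matrix.mulVec, dotProduct, Fin.sum_univ_four, smul_eq_C_mul] <;> ring

section

variable {R : Type*} [CommRing R]

theorem pol_symm (N : Matrix (Fin 4) (Fin 4) R) (hN : Nᵀ = N) (q : R) (v w v' w' : Fin 4 → R) :
    pol N q v w v' w' = pol N q v' w' v w := by
  have h : ∀ (A : Matrix (Fin 4) (Fin 4) R), Aᵀ = A → ∀ x y, x ⬝ᵥ A *ᵥ y = y ⬝ᵥ A *ᵥ x := by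
    intro A hA x y
    rw [Matrix.dotProduct_mulVec, ← Matrix.mulVec_transpose, hA, dotProduct_comm]
  have h2 : N.adjugateᵀ = N.adjugate := by rw [Matrix.adjugate_transpose, hN]
  simp only [pol, dotProduct_add, dotProduct_smul, h N hN v v', h _ h2 w w', dotProduct_comm v w',
    dotProduct_comm w v']
  ring

theorem pol_expand (N : Matrix (Fin 4) (Fin 4) R) (q e : R) (v w v' w' : Fin 4 → R) :
    pol N q (v + e • v') (w + e • w') (v + e • v') (w + e • w') = pol N q v w v w +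
      e * (pol N q v w v' w' + pol N q v' w' v w) + e * e * pol N q v' w' v' w' := by
  simp only [pol, dotProduct_add, add_dotProduct, dotProduct_smul, smul_dotProduct,
    Matrix.mulVec_add, Matrix.mulVec_smul, smul_add, smul_eq_mul]
  ring

theorem Nf_zero (η : Th → R) (b : R) (x : Fin 4 → R) : Nf η b 0 x = Ns b x := by
  simp [Nf, Ns]

theorem qf_zero (η : Th → R) (b : R) (x : Fin 4 → R) : qf η b 0 x = qs b x := by
  simp [qf, qs]

noncomputable def zr (v w : Fin 4 → MvPolynomial (Fin 4) R) : Fin 4 → R :=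
  (fun a => eval P0 (v a)) + N0 *ᵥ fun a => eval P0 (w a)

theorem map_zr {S : Type*} [CommRing S] (φ : R →+* S) (v w : Fin 4 → MvPolynomial (Fin 4) R)
    (a : Fin 4) : φ (zr v w a) = zr (fun c => map φ (v c)) (fun c => map φ (w c)) a := by
  have h : φ ∘ P0 = P0 := by
    ext k
    fin_cases k <;> simp [P0]
  have h2 : ∀ c, φ (N0 a c) = N0 a c := fun c => congrFun (congrFun (map_N0 φ) a) c
  simp only [zr, Pi.add_apply, Matrix.mulVec, dotProduct, map_add, map_sum, map_mul, map_eval, h,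
    h2]

variable [Algebra ℂ R]

/-- A form with unknown coefficients. -/
noncomputable def vx {n : ℕ} (v0 : S4) (u : Fin n → S4) (y : Fin n → R) : MvPolynomial (Fin 4) R :=
  map (algebraMap ℂ R) v0 + ∑ i, C (y i) * map (algebraMap ℂ R) (u i)

theorem vx_hom {n d : ℕ} {v0 : S4} {u : Fin n → S4} (h0 : v0.IsHomogeneous d)
    (hu : ∀ i, (u i).IsHomogeneous d) (y : Fin n → R) : (vx v0 u y).IsHomogeneous d :=
  (h0.map _).add (IsHomogeneous.sum _ _ _ fun i _ => ((hu i).map _).C_mul _)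

theorem map_vx {S : Type*} [CommRing S] [Algebra ℂ S] (φ : R →ₐ[ℂ] S) {n : ℕ} (v0 : S4)
    (u : Fin n → S4) (y : Fin n → R) :
    map (φ : R →+* S) (vx v0 u y) = vx v0 u fun i => φ (y i) := by
  simp [vx, MvPolynomial.map_map]

theorem vx_dual {n : ℕ} (v0 : S4) (u : Fin n → S4) (e : R) (δ : Fin n → ℂ) :
    vx v0 u (fun i => e * algebraMap ℂ R (δ i)) =
      map (algebraMap ℂ R) v0 + C e * map (algebraMap ℂ R) (∑ i, δ i • u i) := by
  simp [vx, smul_eq_C_mul, Finset.mul_sum, mul_assoc]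

/-- The balanced equation with unknown coefficients. -/
noncomputable def Eqn (η : Th → ℂ) {n m : ℕ} (v0 w0 : Fin 4 → S4) (η0 : S4)
    (u1 u2 : Fin 4 → Fin n → S4) (u3 : Fin m → S4) (x : Fin 2 ⊕ (Fin n ⊕ Fin m) → R) :
    MvPolynomial (Fin 4) R :=
  pol (Nf (fun s => C (algebraMap ℂ R (η s))) (C (x (Sum.inl 1))) (C (x (Sum.inl 0))) X)
      (qf (fun s => C (algebraMap ℂ R (η s))) (C (x (Sum.inl 1))) (C (x (Sum.inl 0))) X)
      (fun a => vx (v0 a) (u1 a) fun i => x (Sum.inr (Sum.inl i)))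
      (fun a => vx (w0 a) (u2 a) fun i => x (Sum.inr (Sum.inl i)))
      (fun a => vx (v0 a) (u1 a) fun i => x (Sum.inr (Sum.inl i)))
      (fun a => vx (w0 a) (u2 a) fun i => x (Sum.inr (Sum.inl i))) -
    (qf (fun s => C (algebraMap ℂ R (η s))) (C (x (Sum.inl 1))) (C (x (Sum.inl 0))) X ^ 2 -
      (Nf (fun s => C (algebraMap ℂ R (η s))) (C (x (Sum.inl 1))) (C (x (Sum.inl 0))) X).det) *
      vx η0 u3 fun i => x (Sum.inr (Sum.inr i))

theorem map_Eqn {S : Type*} [CommRing S] [Algebra ℂ S] (φ : R →ₐ[ℂ] S) (η : Th → ℂ) {n m : ℕ}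
    (v0 w0 : Fin 4 → S4) (η0 : S4) (u1 u2 : Fin 4 → Fin n → S4) (u3 : Fin m → S4)
    (x : Fin 2 ⊕ (Fin n ⊕ Fin m) → R) :
    map (φ : R →+* S) (Eqn η v0 w0 η0 u1 u2 u3 x) = Eqn η v0 w0 η0 u1 u2 u3 fun s => φ (x s) := by
  simp only [Eqn, map_sub, map_mul, map_pow, map_pol, map_det', map_Nf, map_qf, map_vx, map_C,
    map_X, RingHom.coe_coe, AlgHom.commutes]

theorem Eqn_hom (η : Th → ℂ) {n m j : ℕ} {v0 w0 : Fin 4 → S4} {η0 : S4}
    {u1 u2 : Fin 4 → Fin n → S4} {u3 : Fin m → S4} (h1 : ∀ a, (v0 a).IsHomogeneous (j + 2))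
    (h2 : ∀ a, (w0 a).IsHomogeneous (j + 1)) (h3 : η0.IsHomogeneous (2 * j + 1))
    (h4 : ∀ a i, (u1 a i).IsHomogeneous (j + 2)) (h5 : ∀ a i, (u2 a i).IsHomogeneous (j + 1))
    (h6 : ∀ i, (u3 i).IsHomogeneous (2 * j + 1)) (x : Fin 2 ⊕ (Fin n ⊕ Fin m) → R) :
    (Eqn η v0 w0 η0 u1 u2 u3 x).IsHomogeneous (2 * j + 5) := by
  refine IsHomogeneous.sub (pol_hom _ _ (Nf_hom _ _ _) (qf_hom _ _ _) (j := j + 1) _ _ _ _
    (fun a => vx_hom (h1 a) (h4 a) _) (fun a => vx_hom (h2 a) (h5 a) _)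
    (fun a => vx_hom (h1 a) (h4 a) _) fun a => vx_hom (h2 a) (h5 a) _) ?_
  have := (((qf_hom (fun s => algebraMap ℂ R (η s)) (x (Sum.inl 1)) (x (Sum.inl 0))).pow 2).sub
    (det_hom _ (Nf_hom (fun s => algebraMap ℂ R (η s)) (x (Sum.inl 1)) (x (Sum.inl 0))))).mul
    (vx_hom h3 h6 fun i => x (Sum.inr (Sum.inr i)))
  rwa [show 2 * 2 + (2 * j + 1) = 2 * j + 5 by ring] at this

theorem Eqn_special (η : Th → ℂ) {n m : ℕ} (v0 w0 : Fin 4 → S4) (η0 : S4)
    (u1 u2 : Fin 4 → Fin n → S4) (u3 : Fin m → S4) (x : Fin 2 ⊕ (Fin n ⊕ Fin m) → R) (b : ℂ)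
    (e : R) (he : e * e = 0) (δ1 : Fin n → ℂ) (δ2 : Fin m → ℂ) (h0 : x (Sum.inl 0) = 0)
    (h1 : x (Sum.inl 1) = algebraMap ℂ R b)
    (h2 : ∀ i, x (Sum.inr (Sum.inl i)) = e * algebraMap ℂ R (δ1 i))
    (h3 : ∀ i, x (Sum.inr (Sum.inr i)) = e * algebraMap ℂ R (δ2 i))
    (h : pol (Ns (C b) X) (qs (C b) X) v0 w0 v0 w0 = (qs (C b) X ^ 2 - (Ns (C b) X).det) * η0) :
    Eqn η v0 w0 η0 u1 u2 u3 x = C e * map (algebraMap ℂ R)
      (2 * pol (Ns (C b) X) (qs (C b) X) v0 w0 (fun a => ∑ i, δ1 i • u1 a i)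
        (fun a => ∑ i, δ1 i • u2 a i) -
      (qs (C b) X ^ 2 - (Ns (C b) X).det) * ∑ i, δ2 i • u3 i) := by
  have h4 := congrArg (map (algebraMap ℂ R)) h
  have h5 : (C e : MvPolynomial (Fin 4) R) * C e = 0 := by rw [← map_mul, he, map_zero]
  have h6 : ∀ (v0 : Fin 4 → S4) (u1 : Fin 4 → Fin n → S4),
      (fun a => vx (v0 a) (u1 a) fun i => e * algebraMap ℂ R (δ1 i)) =
        (fun a => map (algebraMap ℂ R) (v0 a)) + (C e : MvPolynomial (Fin 4) R) •
          fun a => map (algebraMap ℂ R) (∑ i, δ1 i • u1 a i) :=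
    fun v0 u1 => funext fun a => vx_dual _ _ _ _
  simp only [map_sub, map_mul, map_pow, map_pol, map_det', map_Ns, map_qs, map_C, map_X,
    map_ofNat] at h4 ⊢
  simp only [Eqn, h0, h1, h2, h3, map_zero, Nf_zero, qf_zero]
  rw [h6, h6, vx_dual, pol_expand, h4, h5, pol_symm (Ns _ _) (NN_tr _ _ _ _) _ (fun a => map (algebraMap ℂ R) (∑ i, δ1 i • u1 a i))]
  ring

end

/-- Solutions of the balanced system off the special family. -/
theorem family (η : Th → ℂ) (g : Polynomial (Polynomial ℂ)) (hg : g.coeff 0 ≠ 0) :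
    ∃ (b e : ℂ) (j : ℕ) (v w : Fin 4 → S4), e ≠ 0 ∧ b ≠ 1 ∧ (g.eval (Polynomial.C e)).eval b ≠ 0 ∧
      (∀ a, (v a).IsHomogeneous (j + 1)) ∧ (∀ a, (w a).IsHomogeneous j) ∧
      qf (fun s => C (η s)) (C b) (C e) X ^ 2 - (Nf (fun s => C (η s)) (C b) (C e) X).det ∣
        pol (Nf (fun s => C (η s)) (C b) (C e) X) (qf (fun s => C (η s)) (C b) (C e) X) v w v w ∧
      zv v w ≠ 0 := by
  classical
  obtain ⟨k, b, hk, hb, hgb⟩ := exists_special _ hg
  obtain ⟨k, rfl⟩ : ∃ k', k = k' + 1 := ⟨k - 1, by omega⟩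
  obtain ⟨hb0, hb1⟩ := cst_ne hb
  obtain ⟨v0, w0, hv0, hw0, ⟨η0, hη0⟩, hz, hrig⟩ := special k b hb
  obtain ⟨a0, ha0⟩ := Function.ne_iff.mp hz
  have hη : η0.IsHomogeneous (2 * (3 * k + 2) + 1) := by
    have := pol_hom _ _ (Ns_hom b) (qs_hom b) v0 w0 v0 w0 hv0 hw0 hv0 hw0
    rw [hη0] at this
    exact (hom_quot (G_hom b) (G_ne hb0) this).1
  obtain ⟨n, u, hn, hu⟩ := slice (relMap b (3 * k + 1))
    (fun a => ⟨v0 a, hv0 a⟩, fun a => ⟨w0 a, hw0 a⟩)
  let e := Module.finBasis ℂ (homogeneousSubmodule (Fin 4) ℂ (2 * (3 * k + 2) + 1))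
  set m := Module.finrank ℂ (homogeneousSubmodule (Fin 4) ℂ (2 * (3 * k + 2) + 1)) with hm
  let u1 : Fin 4 → Fin n → S4 := fun a i => (u i).1 a
  let u2 : Fin 4 → Fin n → S4 := fun a i => (u i).2 a
  let u3 : Fin m → S4 := fun i => e i
  let ι := ((Finset.univ : Finset (Fin 4)).finsuppAntidiag (2 * (3 * k + 2) + 5) : Type)
  let Fq : ι → MvPolynomial (Fin 2 ⊕ (Fin n ⊕ Fin m)) ℂ := fun μ =>
    coeff μ.1 (Eqn η v0 w0 η0 u1 u2 u3 X)
  have hF : ∀ (R : Type) [CommRing R] [Algebra ℂ R] (x : Fin 2 ⊕ (Fin n ⊕ Fin m) → R),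
      (∀ μ, aeval x (Fq μ) = 0) ↔ Eqn η v0 w0 η0 u1 u2 u3 x = 0 := by
    intro R _ _ x
    have h1 : ∀ μ : ι, aeval x (Fq μ) = coeff μ.1 (Eqn η v0 w0 η0 u1 u2 u3 x) := by
      intro μ
      have := congrArg (coeff μ.1) (map_Eqn (aeval x) η v0 w0 η0 u1 u2 u3 X)
      rw [coeff_map] at this
      simpa using this
    simp only [h1]
    refine ⟨fun h => ?_, fun h μ => by rw [h, coeff_zero]⟩
    ext μ
    by_cases hμ : μ.degree = 2 * (3 * k + 2) + 5
    · exact h ⟨μ, (mem_mon μ).mpr hμ⟩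
    · exact (Eqn_hom η (j := 3 * k + 2) hv0 hw0 hη (fun a i => ((u i).1 a).2)
        (fun a i => ((u i).2 a).2) (fun i => (e i).2) x).coeff_eq_zero hμ
  let hh : MvPolynomial (Fin 2 ⊕ (Fin n ⊕ Fin m)) ℂ :=
    g.eval₂ (Polynomial.aeval (X (Sum.inl 1))).toRingHom (X (Sum.inl 0)) * (1 - X (Sum.inl 1)) *
      zr (fun a => vx (v0 a) (u1 a) fun i => X (Sum.inr (Sum.inl i)))
        (fun a => vx (w0 a) (u2 a) fun i => X (Sum.inr (Sum.inl i))) a0
  have hzr : ∀ (R : Type) [CommRing R] [Algebra ℂ R] (x : Fin 2 ⊕ (Fin n ⊕ Fin m) → R),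
      aeval x (zr (fun a => vx (v0 a) (u1 a) fun i => X (Sum.inr (Sum.inl i)))
        (fun a => vx (w0 a) (u2 a) fun i => X (Sum.inr (Sum.inl i))) a0 :
          MvPolynomial (Fin 2 ⊕ (Fin n ⊕ Fin m)) ℂ) =
        zr (fun a => vx (v0 a) (u1 a) fun i => x (Sum.inr (Sum.inl i)))
          (fun a => vx (w0 a) (u2 a) fun i => x (Sum.inr (Sum.inl i))) a0 := by
    intro R _ _ x
    have := map_zr ((aeval x : MvPolynomial (Fin 2 ⊕ (Fin n ⊕ Fin m)) ℂ →ₐ[ℂ] R) :
        MvPolynomial (Fin 2 ⊕ (Fin n ⊕ Fin m)) ℂ →+* R)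
      (fun a => vx (v0 a) (u1 a) fun i => X (Sum.inr (Sum.inl i)))
      (fun a => vx (w0 a) (u2 a) fun i => X (Sum.inr (Sum.inl i))) a0
    simpa only [map_vx, aeval_X, RingHom.coe_coe] using this
  have hev : ∀ x : Fin 2 ⊕ (Fin n ⊕ Fin m) → ℂ, eval x hh =
      (g.eval (Polynomial.C (x (Sum.inl 0)))).eval (x (Sum.inl 1)) * (1 - x (Sum.inl 1)) *
        zr (fun a => vx (v0 a) (u1 a) fun i => x (Sum.inr (Sum.inl i)))
          (fun a => vx (w0 a) (u2 a) fun i => x (Sum.inr (Sum.inl i))) a0 := by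
    intro x
    rw [← hzr, aeval_eq_eval]
    simp only [hh, map_mul, map_sub, map_one, eval_X]
    congr 2
    rw [Polynomial.hom_eval₂, ← Polynomial.coe_evalRingHom, ← Polynomial.eval₂_id,
      Polynomial.hom_eval₂]
    congr 1
    · ext <;> simp
    · simp
  let p : Fin 2 ⊕ (Fin n ⊕ Fin m) → ℂ := Sum.elim ![0, b] 0
  obtain ⟨x, hx, hxe, hxh⟩ := persist Fq (by
      have h1 : Fintype.card ι = (2 * (3 * k + 2) + 5 + 3).choose 3 := by
        rw [← card_mon 3]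
        exact Fintype.card_coe _
      have h2 : m = (2 * (3 * k + 2) + 1 + 3).choose 3 := finrank_hom 3 _
      simp only [Module.finrank_prod, finrank_HH] at hn
      simp only [h1, Fintype.card_sum, Fintype.card_fin]
      have e1 := six_choose (6 * k + 10)
      have e2 := six_choose (6 * k + 6)
      have e3 := six_choose (3 * k + 5)
      have e4 := six_choose (3 * k + 4)
      have e5 := six_choose (3 * k + 3)
      have e6 := six_choose (3 * k + 2)
      rw [show 2 * (3 * k + 2) + 5 + 3 = 6 * k + 10 + 2 by ring]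
      rw [show 2 * (3 * k + 2) + 1 + 3 = 6 * k + 6 + 2 by ring] at h2
      rw [show 3 * k + 1 + 3 + 3 = 3 * k + 5 + 2 by ring,
        show 3 * k + 1 + 2 + 3 = 3 * k + 4 + 2 by ring,
        show 3 * k + 1 + 1 + 3 = 3 * k + 3 + 2 by ring,
        show 3 * k + 1 + 3 = 3 * k + 2 + 2 by ring] at hn
      nlinarith) p
    (fun μ => by
      rw [← aeval_eq_eval]
      refine (hF ℂ p).mpr ?_ μ
      rw [Eqn_special η v0 w0 η0 u1 u2 u3 p b 0 (by simp) 0 0 rfl rfl (by simp [p]) (by simp [p])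
        hη0, map_zero, zero_mul])
    (Sum.inl 0) (Sum.inl 1) rfl hh
    (by
      rw [hev]
      refine mul_ne_zero (mul_ne_zero ?_ (sub_ne_zero.mpr hb1.symm)) ?_
      · simpa [p, ← Polynomial.coeff_zero_eq_eval_zero] using hgb
      · have : zr v0 w0 a0 ≠ 0 := ha0
        simpa [p, vx, MvPolynomial.map_id] using this)
    (fun E _ _ x hx hxe hxh => by
      by_contra htr
      have h1 := (hF E x).mp hx
      rw [Eqn, hxe, map_zero, Nf_zero, qf_zero, sub_eq_zero] at h1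
      have h2 := trans_zv (j := 3 * k + 3) htr _ _
        (fun a => vx_hom (hv0 a) (fun i => ((u i).1 a).2) _)
        (fun a => vx_hom (hw0 a) (fun i => ((u i).2 a).2) _) ⟨_, h1⟩
      apply hxh
      simp only [hh, map_mul, hzr]
      exact mul_eq_zero_of_right _ (congrFun h2 a0))
    (fun δ h0 h1 hδ => by
      have h2 := (hF _ _).mp hδ
      rw [Eqn_special η v0 w0 η0 u1 u2 u3 _ b DualNumber.eps DualNumber.eps_mul_eps
        (fun i => δ (Sum.inr (Sum.inl i))) (fun i => δ (Sum.inr (Sum.inr i))) (by simp [p, h0])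
        (by simp [p, h1, TrivSqZeroExt.algebraMap_eq_inl])
        (fun i => by ext <;> simp [p, TrivSqZeroExt.algebraMap_eq_inl])
        (fun i => by ext <;> simp [p, TrivSqZeroExt.algebraMap_eq_inl]) hη0] at h2
      have h3 : 2 * pol (Ns (C b) X) (qs (C b) X) v0 w0 (fun a => ∑ i, δ (Sum.inr (Sum.inl i)) • u1 a i)
          (fun a => ∑ i, δ (Sum.inr (Sum.inl i)) • u2 a i) -
          (qs (C b) X ^ 2 - (Ns (C b) X).det) * ∑ i, δ (Sum.inr (Sum.inr i)) • u3 i = 0 := by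
        ext μ
        have := congrArg (fun z => (coeff μ z).snd) h2
        simpa only [coeff_C_mul, coeff_map, coeff_zero, TrivSqZeroExt.snd_zero,
          TrivSqZeroExt.snd_mul, DualNumber.fst_eps, DualNumber.snd_eps, zero_smul, zero_add,
          TrivSqZeroExt.algebraMap_eq_inl, TrivSqZeroExt.fst_inl, MulOpposite.smul_eq_mul_unop,
          MulOpposite.unop_op, one_mul] using this
      have h4 : IsUnit (2 : S4) := by
        simpa [map_ofNat] using (IsUnit.mk0 (2 : ℂ) two_ne_zero).map (C : ℂ →+* S4)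
      obtain ⟨c, y, y', hy, hy', e1, e2⟩ := hrig _ _
        (fun a => Submodule.sum_mem (homogeneousSubmodule (Fin 4) ℂ _) fun i _ =>
          Submodule.smul_mem _ _ ((u i).1 a).2)
        (fun a => Submodule.sum_mem (homogeneousSubmodule (Fin 4) ℂ _) fun i _ =>
          Submodule.smul_mem _ _ ((u i).2 a).2)
        (h4.dvd_mul_left.mp ⟨_, sub_eq_zero.mp h3⟩)
      have h5 := hu (fun i => δ (Sum.inr (Sum.inl i))) c (fun a => ⟨y a, hy a⟩, fun a => ⟨y' a, hy' a⟩)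
        (by
          refine Prod.ext (funext fun a => Subtype.ext ?_) (funext fun a => Subtype.ext ?_)
          · have := congrFun (sub_eq_iff_eq_add'.mp e1) a
            simpa [Prod.fst_sum, relMap, smul_eq_C_mul, u1] using this
          · have := congrFun (sub_eq_iff_eq_add'.mp e2) a
            simpa [Prod.snd_sum, relMap, smul_eq_C_mul, u2] using this)
      have h6 : ∀ i, δ (Sum.inr (Sum.inl i)) = 0 := congrFun h5
      simp only [h6, zero_smul, Finset.sum_const_zero] at h3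
      have h7 : ∑ i, δ (Sum.inr (Sum.inr i)) • e i = 0 := by
        apply Subtype.ext
        have h8 : pol (Ns (C b) X) (qs (C b) X) v0 w0 (fun _ => 0) (fun _ => (0 : S4)) = 0 := by
          simp [pol, dotProduct, Matrix.mulVec]
        rw [h8, mul_zero, zero_sub, neg_eq_zero] at h3
        simpa [u3] using (mul_eq_zero.mp h3).resolve_left (G_ne hb0)
      have h9 := Fintype.linearIndependent_iff.mp e.linearIndependent _ h7
      ext s
      rcases s with s | s | s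
      · fin_cases s
        exacts [h0, h1]
      · exact h6 s
      · exact h9 s)
  rw [hev] at hxh
  have h1 := (hF ℂ x).mp (by simpa only [aeval_eq_eval] using hx)
  rw [Eqn, sub_eq_zero] at h1
  refine ⟨x (Sum.inl 1), x (Sum.inl 0), 3 * k + 3, _, _, hxe, ?_, ?_,
    fun a => vx_hom (hv0 a) (fun i => ((u i).1 a).2) _,
    fun a => vx_hom (hw0 a) (fun i => ((u i).2 a).2) _, ⟨_, h1⟩, fun h => ?_⟩
  · exact (sub_ne_zero.mp (right_ne_zero_of_mul (left_ne_zero_of_mul hxh))).symm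
  · exact left_ne_zero_of_mul (left_ne_zero_of_mul hxh)
  · exact right_ne_zero_of_mul hxh (congrFun h a0)

end Pool.Agent.GM16
end

-- merged part: Pool.Agent.Work.MP_274aea_ag.Density
section
set_option autoImplicit false

open MvPolynomial Matrix

namespace Pool.Agent.GM16

theorem quad_y {R : Type*} [CommRing R] (N : Matrix (Fin 4) (Fin 4) R) (hN : Nᵀ = N) (q : R)
    (v w : Fin 4 → R) :
    (q • v + N.adjugate *ᵥ w) ⬝ᵥ N *ᵥ (q • v + N.adjugate *ᵥ w) = q ^ 2 * pol N q v w v w -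
      (q ^ 2 - N.det) * (2 * q * (v ⬝ᵥ w) + w ⬝ᵥ N.adjugate *ᵥ w) := by
  have h1 : N *ᵥ (N.adjugate *ᵥ w) = N.det • w := by
    rw [Matrix.mulVec_mulVec, Matrix.mul_adjugate, Matrix.smul_mulVec, Matrix.one_mulVec]
  have h2 : (N.adjugate *ᵥ w) ⬝ᵥ N *ᵥ v = N.det * (v ⬝ᵥ w) := by
    rw [Matrix.dotProduct_mulVec, ← Matrix.mulVec_transpose, hN, h1, smul_dotProduct,
      dotProduct_comm, smul_eq_mul]
  simp only [pol, Matrix.mulVec_add, Matrix.mulVec_smul, h1, h2, dotProduct_add, add_dotProduct,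
    dotProduct_smul, smul_dotProduct, smul_eq_mul, dotProduct_comm w v,
    dotProduct_comm (N.adjugate *ᵥ w) w]
  ring

theorem iso_of_family (η : Th → ℂ) (b e : ℂ) (κ : Matrix (Fin 3) (Fin 3) ℂ) (hκ : Kb b * κ = 1)
    (j : ℕ) (v w : Fin 4 → S4) (hv : ∀ a, (v a).IsHomogeneous (j + 1))
    (hw : ∀ a, (w a).IsHomogeneous j)
    (h : qf (fun s => C (η s)) (C b) (C e) X ^ 2 - (Nf (fun s => C (η s)) (C b) (C e) X).det ∣
      pol (Nf (fun s => C (η s)) (C b) (C e) X) (qf (fun s => C (η s)) (C b) (C e) X) v w v w)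
    (hz : zv v w ≠ 0) : IsoS (act κ (vth b + e • η)) := by
  set N : Matrix (Fin 4) (Fin 4) S4 := Nf (fun s => C (η s)) (C b) (C e) X with hN
  set q : S4 := qf (fun s => C (η s)) (C b) (C e) X with hq
  let g : Fin 4 → S4 := Fin.cons (X 0) (κ.map C *ᵥ fun k => X k.succ)
  let σ : S4 →ₐ[ℂ] S4 := aeval g
  have hg : ∀ i, (g i).IsHomogeneous 1 := by
    refine Fin.cases (isHomogeneous_X _ _) fun k => ?_
    exact mulVec_hom (d := 0) _ (fun _ _ => isHomogeneous_C _ _) _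
      (fun _ => isHomogeneous_X _ _) k
  have hC : ∀ c : ℂ, σ (C c) = C c := fun c => algHom_C σ c
  have h0 : σ (X 0) = X 0 := aeval_X _ _
  have hs : (fun k : Fin 3 => σ (X k.succ)) = κ.map C *ᵥ fun k => X k.succ :=
    funext fun k => aeval_X _ _
  have ha : (fun s => (C (act κ (vth b + e • η) s) : S4)) =
      act (κ.map C) fun s => C ((vth b + e • η) s) := funext fun s => map_act _ _ _ _
  have h1 : N.map σ = NN (fun s => C (act κ (vth b + e • η) s)) (fun k => X k.succ)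
      (fun k => X k.succ) (X 0) := by
    rw [hN, map_Nf, Nf, ha, NN_act]
    simp only [hC, h0, hs, vth_C]
    rw [Matrix.mulVec_mulVec, ← map_Kb (C : ℂ →+* S4), ← Matrix.map_mul, hκ,
      Matrix.map_one _ (map_zero _) (map_one _), Matrix.one_mulVec]
  have h2 : σ q = qq (fun s => C (act κ (vth b + e • η) s)) (fun k => X k.succ) (X 0) := by
    rw [hq, map_qf, qf, ha, qq_act]
    simp only [hC, h0, hs, vth_C]
  have h3 : ∀ y : S4, eval P0 (σ y) = eval P0 y := by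
    intro y
    have : (fun i => eval P0 (g i)) = P0 := by
      funext i
      refine Fin.cases (by simp [g]) (fun k => ?_) i
      simp only [g, Fin.cons_succ]
      fin_cases k <;> simp [P0, Matrix.mulVec, dotProduct, Fin.sum_univ_three]
    rw [← aeval_eq_eval, ← AlgHom.comp_apply, comp_aeval]
    simp only [aeval_eq_eval, this]
  have h4 : N.map (eval P0) = N0 := by
    rw [hN, map_Nf, Nf, ← NN_P0]
    congr 1
    · ext k
      simp [P0, Matrix.mulVec, dotProduct, Fin.sum_univ_three]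
    · ext k
      fin_cases k <;> simp [P0]
    · simp [P0]
  have h5 : eval P0 q = 1 := by
    rw [hq, map_qf, qf, ← qq_P0]
    congr 1
    · ext k
      fin_cases k <;> simp [P0]
    · simp [P0]
  refine ⟨j + 3, fun i => σ ((q • v + N.adjugate *ᵥ w) i), fun i => ?_, ?_, ?_⟩
  · have h6 := (qf_hom η b e).mul (hv i)
    have h7 := mulVec_hom _ (adj_hom _ (Nf_hom η b e)) _ hw i
    rw [show 2 + (j + 1) = j + 3 by ring] at h6
    rw [show 3 + j = j + 3 by ring] at h7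
    have h8 := (h6.add h7).aeval g hg
    rwa [one_mul] at h8
  · have h6 : q ^ 2 - N.det ∣ (q • v + N.adjugate *ᵥ w) ⬝ᵥ N *ᵥ (q • v + N.adjugate *ᵥ w) := by
      rw [quad_y N (NN_tr _ _ _ _)]
      exact (h.mul_left _).sub (dvd_mul_right _ _)
    have h7 := map_dvd σ h6
    rw [map_sub, map_pow, map_det', h1, h2] at h7
    rw [GG, ← h1]
    rw [← h1] at h7
    simpa only [dotProduct, Matrix.mulVec, map_sum, map_mul, Matrix.map_apply] using h7
  · obtain ⟨i, hi⟩ := Function.ne_iff.mp hz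
    refine ⟨i, ?_⟩
    rw [h3]
    have h6 : ∀ c, eval P0 (N.adjugate i c) = N0 i c := fun c => by
      rw [← Matrix.map_apply (f := eval P0), map_adj', h4, N0_adj]
    simpa only [zv, Pi.add_apply, Pi.smul_apply, smul_eq_mul, map_add, map_mul, h5, one_mul,
      Matrix.mulVec, dotProduct, map_sum, h6, Pi.zero_apply] using hi

theorem density (F : MvPolynomial Th ℂ) (hF : F ≠ 0) : ∃ θ, eval θ F ≠ 0 ∧ IsoS θ := by
  obtain ⟨θ1, h1⟩ : ∃ θ, eval θ F ≠ 0 := by
    by_contra h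
    push Not at h
    exact hF (MvPolynomial.funext fun x => by simpa using h x)
  let η : Th → ℂ := act (Kb 0) θ1 - vth 0
  let κ : ℂ → Matrix (Fin 3) (Fin 3) ℂ := fun b =>
    ((160288104 : ℂ)⁻¹ * (1 - b)⁻¹) • (Kb b).adjugate
  have hκ : ∀ b, b ≠ 1 → Kb b * κ b = 1 := by
    intro b hb
    have := sub_ne_zero.mpr hb.symm
    rw [Matrix.mul_smul, Matrix.mul_adjugate, Kb_det, smul_smul]
    rw [show (160288104 : ℂ)⁻¹ * (1 - b)⁻¹ * (160288104 * (1 - b)) = 1 by field_simp, one_smul]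
  let ι : ℂ →+* Polynomial (Polynomial (Polynomial ℂ)) :=
    Polynomial.C.comp (Polynomial.C.comp Polynomial.C)
  let B : Polynomial (Polynomial (Polynomial ℂ)) := Polynomial.C (Polynomial.C Polynomial.X)
  let Φ := eval₂ ι (act ((ι (160288104 : ℂ)⁻¹ * Polynomial.X) • (Kb B).adjugate)
    (vth B + (Polynomial.C Polynomial.X : Polynomial (Polynomial (Polynomial ℂ))) •
      fun s => ι (η s))) F
  let G := Φ.reverse.eval (Polynomial.C (1 - Polynomial.X))
  have hG : ∀ b e, b ≠ 1 → (G.eval (Polynomial.C e)).eval b * (1 - b)⁻¹ ^ Φ.natDegree =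
      eval (act (κ b) (vth b + e • η)) F := by
    intro b e hb
    have hb' := sub_ne_zero.mpr hb.symm
    let ev : Polynomial (Polynomial ℂ) →+* ℂ :=
      (Polynomial.evalRingHom b).comp (Polynomial.evalRingHom (Polynomial.C e))
    letI := invertibleOfNonzero (inv_ne_zero hb')
    have h2 := Polynomial.eval₂_reverse_mul_pow ev (1 - b)⁻¹ Φ
    rw [invOf_eq_inv, inv_inv] at h2
    have h3 : (G.eval (Polynomial.C e)).eval b = Φ.reverse.eval₂ ev (1 - b) := by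
      rw [show (1 - b) = ev (Polynomial.C (1 - Polynomial.X)) by simp [ev],
        Polynomial.eval₂_at_apply]
      rfl
    rw [h3, h2, ← Polynomial.coe_eval₂RingHom]
    refine (hom_eval₂ (S₁ := Polynomial (Polynomial (Polynomial ℂ))) (S₂ := ℂ) F ι
      (Polynomial.eval₂RingHom ev (1 - b)⁻¹) _).trans ?_
    have h4 : (Polynomial.eval₂RingHom ev (1 - b)⁻¹).comp ι = RingHom.id ℂ := by
      ext
      simp [ι, ev]
    have h5 : Polynomial.eval₂RingHom ev (1 - b)⁻¹ B = b := by simp [B, ev]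
    have h6 : ∀ c, Polynomial.eval₂RingHom ev (1 - b)⁻¹ (ι c) = c := fun c =>
      RingHom.congr_fun h4 c
    rw [h4, eval₂_id]
    congr 2
    funext s
    rw [map_act]
    congr 1
    · rw [Matrix.map_smul' _ _ _ (map_mul _), map_adj', map_Kb, h5, map_mul, h6]
      simp [κ]
    · funext s
      simp only [Pi.add_apply, Pi.smul_apply, smul_eq_mul, map_add, map_mul, map_vth, h5, h6]
      simp [ev]
  have h2 : G ≠ 0 := by
    intro h
    have := hG 0 1 zero_ne_one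
    rw [one_smul, add_sub_cancel, act_act, hκ 0 zero_ne_one, act_one, h] at this
    exact h1 (by simpa using this.symm)
  obtain ⟨g, hg, hg0⟩ := Polynomial.exists_eq_pow_rootMultiplicity_mul_and_not_dvd G h2 0
  rw [map_zero, sub_zero, Polynomial.X_dvd_iff] at hg0
  obtain ⟨b, e, j, v, w, he, hb, hge, hv, hw, hd, hz⟩ := family η g hg0
  refine ⟨_, ?_, iso_of_family η b e (κ b) (hκ b hb) j v w hv hw hd hz⟩
  rw [← hG b e hb, hg]
  have := sub_ne_zero.mpr hb.symm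
  simp [he, hge, this]

end Pool.Agent.GM16
end

-- merged part: Pool.Agent.Work.MP_274aea_ag.Normal
section
set_option autoImplicit false

open MvPolynomial Matrix

namespace Pool.Agent.GM16

theorem normal_main (F : MvPolynomial Th ℂ) (hF : F ≠ 0) :
    ∃ θ, eval θ F ≠ 0 ∧ SmoothN θ ∧ (Jn θ).IsPrime ∧
      Nonempty (FractionRing (MvPolynomial (Fin 6) ℂ ⧸ Jn θ) ≃ₐ[ℂ]
        FractionRing (MvPolynomial (Fin 4) ℂ)) := by
  obtain ⟨g1, n1, h1⟩ := smooth_open
  obtain ⟨g2, n2, h2⟩ := prime_open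
  obtain ⟨g3, n3, h3⟩ := irr_open
  obtain ⟨g4, n4, h4⟩ := iso_open
  obtain ⟨θ, hθ, hiso⟩ := density (F * g1 * g2 * g3 * g4)
    (mul_ne_zero (mul_ne_zero (mul_ne_zero (mul_ne_zero hF n1) n2) n3) n4)
  simp only [map_mul, mul_ne_zero_iff] at hθ
  obtain ⟨⟨⟨⟨e0, e1⟩, e2⟩, e3⟩, e4⟩ := hθ
  obtain ⟨hp, htr⟩ := h2 θ e2
  obtain ⟨hν, hirr⟩ := h3 θ e3
  obtain ⟨z, hz, hN⟩ := h4 θ e4 hiso
  haveI : Fact (∀ r : K2, r ^ 2 ≠ ka + kb * r) := ⟨fact_ab⟩
  obtain ⟨x, hx, hx1, hx2⟩ := kpoint ka kb _ hν hirr z hz hN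
  obtain ⟨Y, hH, hQ, hgen⟩ := param ka kb _ hν hirr x hx hx1 hx2
  obtain ⟨e⟩ := omega_equiv
  refine ⟨θ, e0, h1 θ e1, hp, ?_⟩
  haveI := hp
  let ψ : MvPolynomial (Fin 6) ℂ →ₐ[ℂ] FractionRing (MvPolynomial (Fin 2) K2) := aeval Y
  have hC : ∀ c : ℂ, ψ (C c) = algebraMap K2 _ (algebraMap ℂ K2 c) := fun c => by
    rw [algHom_C, IsScalarTower.algebraMap_apply ℂ K2]
  have hg : (fun k => ψ (gch X k)) = gch Y := funext fun k => by
    rw [map_gch]
    simp [ψ]
  have hker : ∀ a ∈ Jn θ, ψ a = 0 := by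
    intro a ha
    refine (Ideal.span_le (I := RingHom.ker ψ.toRingHom)).mpr ?_ ha
    rintro _ (rfl | rfl)
    · change ψ _ = 0
      rw [map_Hn, hg, ← hH]
      simp only [hC]
    · change ψ _ = 0
      rw [map_Qn, hg, ← hQ]
      simp only [hC]
  refine frac_equiv (Ideal.Quotient.liftₐ (Jn θ) ψ hker) htr e fun T hT => ?_
  have hT' : ∀ a, ψ a ∈ T := fun a => hT (Ideal.Quotient.mk _ a)
  obtain ⟨ha, hb, htop⟩ := hgen T fun i => by simpa [ψ] using hT' (X i)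
  exact htop (K2_gen (algebraMap K2 _) T (fun c => hC c ▸ hT' (C c)) ha hb)

end Pool.Agent.GM16
end

-- merged part: Pool.Agent.Work.MP_274aea_ag.Reduce
section
set_option autoImplicit false

open MvPolynomial Matrix

namespace Pool.Agent.GM16

theorem Reduce_sum (φ : Fin 10 → ℂ) :
    ∑ i, φ i = φ 0 + φ 1 + φ 2 + φ 3 + φ 4 + φ 5 + φ 6 + φ 7 + φ 8 + φ 9 := by
  rw [Fin.sum_univ_castSucc, Fin.sum_univ_castSucc, Fin.sum_univ_eight]
  rfl

theorem Reduce_quartic {c0 c1 c2 c3 c4 : ℂ}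
    (h : ∀ a : ℂ, c0 + c1 * a + c2 * a ^ 2 + c3 * a ^ 3 + c4 * a ^ 4 = 0) :
    c0 = 0 ∧ c1 = 0 ∧ c2 = 0 ∧ c3 = 0 ∧ c4 = 0 :=
  ⟨by linear_combination h 0,
    by linear_combination (2 / 3) * (h 1 - h (-1)) - (1 / 12) * (h 2 - h (-2)),
    by linear_combination (2 / 3) * (h 1 + h (-1)) - (1 / 24) * (h 2 + h (-2)) - (5 / 4) * h 0,
    by linear_combination (1 / 12) * (h 2 - h (-2)) - (1 / 6) * (h 1 - h (-1)),
    by linear_combination (1 / 24) * (h 2 + h (-2)) - (1 / 6) * (h 1 + h (-1)) + (1 / 4) * h 0⟩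

theorem Reduce_pluecker (u v : Fin 5 → ℂ) {g : Fin 10 → ℂ} (hg : g = gp u v) :
    -2 * g 0 * g 6 + g 2 * g 5 + g 2 * g 8 - 2 * g 3 * g 7 = 0 ∧
    -2 * g 1 * g 6 + 2 * g 2 * g 9 + g 3 * g 5 - g 3 * g 8 = 0 ∧
    -4 * g 4 * g 6 + g 5 ^ 2 + 4 * g 7 * g 9 - g 8 ^ 2 = 0 ∧
    2 * g 0 * g 6 - 2 * g 0 * g 9 + g 1 * g 5 + g 1 * g 8 - g 2 * g 5 - g 2 * g 8 - 2 * g 3 * g 4 +
      2 * g 3 * g 7 = 0 ∧
    g 0 * g 5 - g 0 * g 8 + 2 * g 1 * g 7 - 2 * g 2 * g 4 = 0 := by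
  subst hg
  simp only [gp, gc, pk, Matrix.cons_val]
  refine ⟨?_, ?_, ?_, ?_, ?_⟩ <;> ring

theorem Reduce_scroll (a0 a1 b0 b1 w : ℂ) :
    gp ![0, a0 ^ 2, 0, a0 * a1, a1 ^ 2] ![a0 * b1 - a1 * b0, a0 * b0, w, a1 * b0, a1 * b1] =
      ![-(a0 ^ 2 * w), -(a0 * a1 * w), -(a0 * a1 * w), -(a1 ^ 2 * w), a0 ^ 2 * (a0 * b1 - a1 * b0),
        2 * a0 * a1 * (a0 * b1 - a1 * b0), a1 ^ 2 * (a0 * b1 - a1 * b0), 0, 0, 0] := by
  ext i
  fin_cases i <;> simp [gp, gc, pk] <;> ring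

/-- A quadratic form that vanishes on the scroll. -/
theorem Reduce_core (b : Fin 10 → Fin 10 → ℂ)
    (h : ∀ (a w d : ℂ) (g : Fin 10 → ℂ),
      g = ![-w, -(a * w), -(a * w), -(a ^ 2 * w), d, 2 * a * d, a ^ 2 * d, 0, 0, 0] →
        ∑ i, ∑ j, g i * g j * b i j = 0) :
    ∃ (c : ℂ) (L l0 l1 l2 : Fin 10 → ℂ), ∀ u v g, g = gp u v →
      ∑ i, ∑ j, g i * g j * b i j = c * (g 0 * g 3 - g 1 * g 2) + (g 1 - g 2) * ∑ i, L i * g i +
        g 7 * ∑ i, l0 i * g i + g 8 * ∑ i, l1 i * g i + g 9 * ∑ i, l2 i * g i := by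
  have h' := fun a w d => h a w d _ rfl
  simp only [Reduce_sum, Matrix.cons_val] at h'
  obtain ⟨A0, A1, A2, A3, A4⟩ := Reduce_quartic (c0 := b 0 0) (c1 := b 0 1 + b 0 2 + b 1 0 + b 2 0)
    (c2 := b 0 3 + b 1 1 + b 1 2 + b 2 1 + b 2 2 + b 3 0) (c3 := b 1 3 + b 2 3 + b 3 1 + b 3 2)
    (c4 := b 3 3) fun a => by linear_combination h' a 1 0
  obtain ⟨B0, B1, B2, B3, B4⟩ := Reduce_quartic (c0 := b 0 4 + b 4 0)
    (c1 := 2 * b 0 5 + b 1 4 + b 2 4 + b 4 1 + b 4 2 + 2 * b 5 0)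
    (c2 := b 0 6 + 2 * b 1 5 + 2 * b 2 5 + b 3 4 + b 4 3 + 2 * b 5 1 + 2 * b 5 2 + b 6 0)
    (c3 := b 1 6 + b 2 6 + 2 * b 3 5 + 2 * b 5 3 + b 6 1 + b 6 2)
    (c4 := b 3 6 + b 6 3) fun a => by linear_combination h' a 1 0 + h' a 0 1 - h' a 1 1
  obtain ⟨C0, C1, C2, C3, C4⟩ := Reduce_quartic (c0 := b 4 4) (c1 := 2 * b 4 5 + 2 * b 5 4)
    (c2 := b 4 6 + 4 * b 5 5 + b 6 4) (c3 := 2 * b 5 6 + 2 * b 6 5)
    (c4 := b 6 6) fun a => by linear_combination h' a 0 1
  refine ⟨b 0 3 + b 3 0,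
    ![b 0 1 + b 1 0, b 1 1, b 0 3 + b 1 1 + b 1 2 + b 2 1 + b 3 0, b 1 3 + b 3 1, b 1 4 + b 4 1,
      b 1 5 + b 3 4 / 2 + b 4 3 / 2 + b 5 1, b 1 6 + 2 * b 3 5 + 2 * b 5 3 + b 6 1, 0, 0, 0],
    ![b 0 7 + b 7 0, -2 * b 0 5 + b 1 7 - 2 * b 5 0 + b 7 1, b 2 7 + b 7 2,
      2 * b 1 5 + 2 * b 2 5 + b 3 4 + b 3 7 + b 4 3 + 2 * b 5 1 + 2 * b 5 2 + b 7 3, b 4 7 + b 7 4,
      b 5 7 + b 7 5, b 6 7 + b 7 6, b 7 7, b 7 8 + b 8 7, -4 * b 5 5 + b 7 9 + b 9 7],
    ![b 0 5 + b 0 8 + b 5 0 + b 8 0, b 1 8 + b 3 4 / 2 + b 4 3 / 2 + b 8 1,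
      -b 1 5 - b 2 5 + b 2 8 - b 3 4 / 2 - b 4 3 / 2 - b 5 1 - b 5 2 + b 8 2,
      b 3 5 + b 3 8 + b 5 3 + b 8 3, b 4 8 + b 8 4, b 5 8 + b 8 5, b 6 8 + b 8 6, 0, b 5 5 + b 8 8,
      b 8 9 + b 9 8],
    ![b 0 9 - b 3 4 - b 4 3 + b 9 0, b 1 9 + b 9 1, b 2 9 - 2 * b 3 5 - 2 * b 5 3 + b 9 2,
      b 3 9 + b 9 3, b 4 9 + b 9 4, b 5 9 + b 9 5, b 6 9 + b 9 6, 0, 0, b 9 9],
    fun u v g hg => ?_⟩
  obtain ⟨R0, R1, R2, R3, R4⟩ := Reduce_pluecker u v hg
  simp only [Reduce_sum, Matrix.cons_val]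
  linear_combination (g 0 * g 2) * A1 + (g 0 * g 4) * B0 + (g 0 * g 6) * B2 + (g 0 ^ 2) * A0 +
    (g 2 * g 3) * A3 + (g 2 * g 4) * B1 + (g 2 * g 6) * B3 + (g 2 ^ 2) * A2 + (g 3 * g 6) * B4 +
    (g 3 ^ 2) * A4 + (g 4 * g 5 / 2) * C1 + (g 4 * g 6) * C2 + (g 4 ^ 2) * C0 +
    (g 5 * g 6 / 2) * C3 + (g 6 ^ 2) * C4 + (b 1 5 + b 2 5 + b 5 1 + b 5 2) * R0 +
    (b 3 5 + b 5 3) * R1 + b 5 5 * R2 + (-b 3 4 / 2 - b 4 3 / 2) * R3 + (b 0 5 + b 5 0) * R4

/-- A linear form that vanishes on the scroll. -/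
theorem Reduce_lin (η : Fin 10 → ℂ)
    (h : ∀ (a w d : ℂ) (g : Fin 10 → ℂ),
      g = ![-w, -(a * w), -(a * w), -(a ^ 2 * w), d, 2 * a * d, a ^ 2 * d, 0, 0, 0] →
        ∑ i, g i * η i = 0) (g : Fin 10 → ℂ) :
    ∑ i, g i * η i = η 1 * (g 1 - g 2) + η 7 * g 7 + η 8 * g 8 + η 9 * g 9 := by
  have h' := fun a w d => h a w d _ rfl
  simp only [Reduce_sum, Matrix.cons_val] at h' ⊢
  obtain ⟨A0, A1, A2, -⟩ := Reduce_quartic (c0 := η 0) (c1 := η 1 + η 2) (c2 := η 3) (c3 := 0) (c4 := 0)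
    fun a => by linear_combination -h' a 1 0
  obtain ⟨C0, C1, C2, -⟩ := Reduce_quartic (c0 := η 4) (c1 := 2 * η 5) (c2 := η 6) (c3 := 0) (c4 := 0)
    fun a => by linear_combination h' a 0 1
  linear_combination g 0 * A0 + g 2 * A1 + g 3 * A2 + g 4 * C0 + g 5 / 2 * C1 + g 6 * C2

theorem Reduce_norm {h c : ℂ} (hh : h ≠ 0) (hc : c ≠ 0) (n : Fin 3 → ℂ) (L : Fin 10 → ℂ)
    (l : Fin 3 → Fin 10 → ℂ) : ∃ θ : Th → ℂ, ∀ g : Fin 10 → ℂ,
      h * (g 1 - g 2) + n 0 * g 7 + n 1 * g 8 + n 2 * g 9 = h * Hn θ g ∧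
      c * (g 0 * g 3 - g 1 * g 2) + (g 1 - g 2) * ∑ i, L i * g i + g 7 * ∑ i, l 0 i * g i +
        g 8 * ∑ i, l 1 i * g i + g 9 * ∑ i, l 2 i * g i =
        c * Qn θ g g + Hn θ g * ∑ i, L i * g i := by
  obtain ⟨ν, hν⟩ : ∃ ν : Fin 3 → ℂ, ∀ k, n k = -(h * ν k) :=
    ⟨fun k => -n k / h, fun k => by field_simp⟩
  obtain ⟨m, hm⟩ : ∃ m : Fin 3 → Fin 10 → ℂ, ∀ k a, l k a = c * m k a - ν k * L a :=
    ⟨fun k a => (l k a + ν k * L a) / c, fun k a => by field_simp; ring⟩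
  refine ⟨fun ka => (![m ka.1 0, m ka.1 1, m ka.1 2, m ka.1 3, m ka.1 4, m ka.1 5, m ka.1 6, m ka.1 7,
    m ka.1 8, m ka.1 9, ν ka.1] : Fin 11 → ℂ) ka.2, fun g => ?_⟩
  simp only [Hn, Qn, lf, ll, Matrix.cons_val, hν, hm, Reduce_sum]
  constructor <;> ring

/-- The linear form as a linear map. -/
noncomputable def Reduce_H (t : Par → ℂ) : (Idx → ℂ) →ₗ[ℂ] ℂ where
  toFun := Hf t
  map_add' p q := by simp [Hf, mul_add, Finset.sum_add_distrib]
  map_smul' a p := by simp [Hf, Finset.mul_sum, mul_left_comm]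

/-- The bilinear form as a bilinear map. -/
noncomputable def Reduce_Q (t : Par → ℂ) : (Idx → ℂ) →ₗ[ℂ] (Idx → ℂ) →ₗ[ℂ] ℂ :=
  LinearMap.mk₂ ℂ (Qf t) (fun p p' q => by simp [Qf, mul_add, add_mul, Finset.sum_add_distrib])
    (fun a p q => by simp [Qf, Finset.mul_sum, mul_left_comm, mul_assoc])
    (fun p q q' => by simp [Qf, mul_add, Finset.sum_add_distrib])
    (fun a p q => by simp [Qf, Finset.mul_sum, mul_left_comm, mul_assoc])

theorem Reduce_inv : ∃ E : Fin 10 → Idx → ℂ, ∀ u v, pl u v = ∑ a, gp u v a • E a := by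
  refine ⟨fun a s => (![![0, ![0, 0, 0, 0, -1, 0, 0, 1, 0, 0], ![0, -1, 1, 0, 0, 0, 0, 0, 0, 0],
      ![0, 0, 0, 0, 0, -1 / 2, 0, 0, 1 / 2, 0], ![0, 0, 0, 0, 0, 0, -1, 0, 0, 1]],
    ![0, 0, ![-1, 0, 0, 0, 0, 0, 0, 0, 0, 0], ![0, 0, 0, 0, 0, 0, 0, 1, 0, 0],
      ![0, 0, 0, 0, 0, 1 / 2, 0, 0, 1 / 2, 0]],
    ![0, 0, 0, ![0, 0, 1, 0, 0, 0, 0, 0, 0, 0], ![0, 0, 0, 1, 0, 0, 0, 0, 0, 0]],
    ![0, 0, 0, 0, ![0, 0, 0, 0, 0, 0, 1, 0, 0, 0]], 0] : Fin 5 → Fin 5 → Fin 10 → ℂ) s.1.1 s.1.2 a,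
    fun u v => funext ?_⟩
  rintro ⟨⟨i, j⟩, h⟩
  rw [Finset.sum_apply, Reduce_sum]
  fin_cases i <;> fin_cases j <;> first
    | exact absurd h (by decide)
    | (simp [pl, gp, gc, pk]; try ring)

theorem Reduce_G : ∃ G : (Idx → ℂ) →ₗ[ℂ] Fin 10 → ℂ, ∀ u v, G (pl u v) = gp u v := by
  refine ⟨⟨⟨fun p => gc fun i j => if h : i < j then p ⟨(i, j), h⟩ else 0, fun p q => ?_⟩,
    fun a p => ?_⟩, fun u v => ?_⟩
  · ext i
    fin_cases i <;> simp [gc] <;> ring
  · ext i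
    fin_cases i <;> simp [gc] <;> ring
  · ext i
    fin_cases i <;> simp [gc, gp, pk, pl]

/-- The coefficients of the forms in normal form. -/
def Reduce_co {R : Type} [CommRing R] (h c : R) (L : Fin 10 → R) (E : Idx → Fin 10 → R) (θ : Th → R) :
    Par → R := Sum.elim (fun s => h * Hn θ (E s))
  fun ss => c * Qn θ (E ss.1) (E ss.2) + Hn θ (E ss.1) * ∑ a, L a * E ss.2 a

theorem Reduce_co_eq (G : (Idx → ℂ) →ₗ[ℂ] Fin 10 → ℂ) (h c : ℂ) (L : Fin 10 → ℂ) (θ : Th → ℂ)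
    (p q : Idx → ℂ) :
    Hf (Reduce_co h c L (fun s => G fun j => if s = j then 1 else 0) θ) p = h * Hn θ (G p) ∧
    Qf (Reduce_co h c L (fun s => G fun j => if s = j then 1 else 0) θ) p q =
      c * Qn θ (G p) (G q) + Hn θ (G p) * ∑ a, L a * G q a := by
  obtain ⟨φ, hφ⟩ : ∃ φ : (Fin 10 → ℂ) →ₗ[ℂ] ℂ, ∀ g, h * Hn θ g = φ g :=
    ⟨⟨⟨fun g => h * Hn θ g, fun g g' => by simp [Hn, lf]; ring⟩, fun a g => by simp [Hn, lf]; ring⟩,
      fun _ => rfl⟩
  obtain ⟨ψ, hψ⟩ : ∃ ψ : (Fin 10 → ℂ) →ₗ[ℂ] (Fin 10 → ℂ) →ₗ[ℂ] ℂ,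
      ∀ g g', c * Qn θ g g' + Hn θ g * ∑ a, L a * g' a = ψ g g' :=
    ⟨LinearMap.mk₂ ℂ (fun g g' => c * Qn θ g g' + Hn θ g * ∑ a, L a * g' a)
      (fun g g' k => by simp [Hn, Qn, lf, ll]; ring) (fun a g k => by simp [Hn, Qn, lf, ll]; ring)
      (fun g k k' => by simp [Hn, Qn, lf, ll, Reduce_sum]; ring)
      (fun a g k => by simp [Hn, Qn, lf, ll, Reduce_sum]; ring), fun _ _ => rfl⟩
  simp only [Hf, Qf, Reduce_co, Sum.elim_inl, Sum.elim_inr, hφ, hψ]
  rw [G.pi_apply_eq_sum_univ p, G.pi_apply_eq_sum_univ q]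
  simp only [map_sum, map_smul, LinearMap.sum_apply, LinearMap.smul_apply, smul_eq_mul]
  refine ⟨Finset.sum_congr rfl fun _ _ => mul_comm _ _, ?_⟩
  rw [Finset.sum_comm]
  simp only [Finset.mul_sum]
  exact Finset.sum_congr rfl fun _ _ => Finset.sum_congr rfl fun _ _ => by ring

theorem Reduce_add (t t' : Par → ℂ) (a : ℂ) (p q : Idx → ℂ) :
    Hf (t + a • t') p = Hf t p + a * Hf t' p ∧ Qf (t + a • t') p q = Qf t p q + a * Qf t' p q := by
  simp [Hf, Qf, add_mul, Finset.sum_add_distrib, Finset.mul_sum, mul_assoc]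

theorem Reduce_line (f : MvPolynomial Par ℂ) (t t' : Par → ℂ) (hf : eval t f ≠ 0) (h c : ℂ) :
    ∃ a : ℂ, eval (t + a • t') f ≠ 0 ∧ h + a ≠ 0 ∧ c + a ≠ 0 := by
  obtain ⟨r, hr⟩ : ∃ r : Polynomial ℂ, ∀ a, r.eval a = eval (t + a • t') f :=
    ⟨eval₂ Polynomial.C (fun s => Polynomial.C (t s) + Polynomial.X * Polynomial.C (t' s)) f, fun a => by
      rw [← Polynomial.coe_evalRingHom, hom_eval₂]
      congr 1
      · ext x
        simp
      · ext s
        simp [mul_comm a]⟩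
  by_contra hn
  have h1 : r * (Polynomial.X + Polynomial.C h) * (Polynomial.X + Polynomial.C c) = 0 :=
    Polynomial.funext fun a => by
      by_contra h2
      simp only [Polynomial.eval_mul, Polynomial.eval_add, Polynomial.eval_X, Polynomial.eval_C,
        Polynomial.eval_zero, mul_eq_zero, not_or, hr] at h2
      exact hn ⟨a, h2.1.1, by rw [add_comm]; exact h2.1.2, by rw [add_comm]; exact h2.2⟩
  have h2 : r = 0 := by
    simpa only [mul_eq_zero, Polynomial.X_add_C_ne_zero, or_false] using h1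
  apply hf
  simpa [h2] using (hr 0).symm

theorem Reduce_nf {G : (Idx → ℂ) →ₗ[ℂ] Fin 10 → ℂ} (hG : ∀ u v, G (pl u v) = gp u v)
    (f : MvPolynomial Par ℂ) {t : Par → ℂ} (ht : ContainsScroll t) (hf : eval t f ≠ 0) :
    ∃ (t : Par → ℂ) (h c : ℂ) (L : Fin 10 → ℂ) (θ : Th → ℂ), eval t f ≠ 0 ∧ h ≠ 0 ∧ c ≠ 0 ∧ ∀ u v,
      Hf t (pl u v) = h * Hn θ (gp u v) ∧ Qf t (pl u v) (pl u v) =
        c * Qn θ (gp u v) (gp u v) + Hn θ (gp u v) * ∑ a, L a * gp u v a := by
  obtain ⟨E, hE⟩ := Reduce_inv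
  have h1 : ∀ u v, Hf t (pl u v) = ∑ i, gp u v i * Hf t (E i) := fun u v => by
    change Reduce_H t (pl u v) = ∑ i, gp u v i * Reduce_H t (E i)
    rw [hE]
    simp only [map_sum, map_smul, smul_eq_mul]
  have h2 : ∀ u v, Qf t (pl u v) (pl u v) = ∑ i, ∑ j, gp u v i * gp u v j * Qf t (E j) (E i) := fun u v => by
    change Reduce_Q t (pl u v) (pl u v) = ∑ i, ∑ j, gp u v i * gp u v j * Reduce_Q t (E j) (E i)
    rw [hE]
    simp only [map_sum, map_smul, smul_eq_mul, LinearMap.sum_apply, LinearMap.smul_apply, Finset.mul_sum,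
      mul_assoc]
  have h3 : ∀ (a w d : ℂ) (g : Fin 10 → ℂ),
      g = ![-w, -(a * w), -(a * w), -(a ^ 2 * w), d, 2 * a * d, a ^ 2 * d, 0, 0, 0] →
        ∑ i, g i * Hf t (E i) = 0 ∧ ∑ i, ∑ j, g i * g j * Qf t (E j) (E i) = 0 := by
    intro a w d g hg
    have := ht 1 a 0 d w
    rw [h1, h2, Reduce_scroll] at this
    simpa only [hg, one_pow, one_mul, mul_one, mul_zero, sub_zero] using this
  have h4 := Reduce_lin (fun i => Hf t (E i)) fun a w d g hg => (h3 a w d g hg).1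
  obtain ⟨c, L, l0, l1, l2, h5⟩ := Reduce_core (fun i j => Qf t (E j) (E i))
    fun a w d g hg => (h3 a w d g hg).2
  obtain ⟨a, ha, ha1, ha2⟩ := Reduce_line f t
    (Reduce_co 1 1 0 (fun s => G fun j => if s = j then 1 else 0) 0) hf (Hf t (E 1)) c
  obtain ⟨θ, hθ⟩ := Reduce_norm ha1 ha2 ![Hf t (E 7), Hf t (E 8), Hf t (E 9)] L ![l0, l1, l2]
  refine ⟨_, _, _, L, θ, ha, ha1, ha2, fun u v => ?_⟩
  rw [(Reduce_add _ _ _ _ (pl u v)).1, (Reduce_add _ _ _ _ _).2, (Reduce_co_eq _ _ _ _ _ _ (pl u v)).1,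
    (Reduce_co_eq _ _ _ _ _ _ _).2, hG, h1, h2, h4, h5 u v _ rfl, ← (hθ _).1, ← (hθ _).2]
  simp only [Hn, Qn, lf, ll, Matrix.cons_val, Pi.zero_apply, zero_mul, Finset.sum_const_zero]
  constructor <;> ring

theorem Reduce_polar {d : Par → ℂ} (h : ∀ u v, Qf d (pl u v) (pl u v) = 0) (u v u' v' : Fin 5 → ℂ) :
    Qf d (pl u v) (pl u' v + pl u v') + Qf d (pl u' v + pl u v') (pl u v) = 0 := by
  have e : ∀ a : ℂ, pl (u + a • u') (v + a • v') =
      pl u v + a • (pl u' v + pl u v') + a ^ 2 • pl u' v' := fun a => funext fun s => by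
    simp only [pl, Pi.add_apply, Pi.smul_apply, smul_eq_mul]
    ring
  obtain ⟨p1, hp⟩ : ∃ p1, p1 = pl u' v + pl u v' := ⟨_, rfl⟩
  rw [← hp] at e ⊢
  refine (Reduce_quartic (c0 := Reduce_Q d (pl u v) (pl u v))
    (c1 := Reduce_Q d (pl u v) p1 + Reduce_Q d p1 (pl u v))
    (c2 := Reduce_Q d (pl u v) (pl u' v') + Reduce_Q d p1 p1 + Reduce_Q d (pl u' v') (pl u v))
    (c3 := Reduce_Q d p1 (pl u' v') + Reduce_Q d (pl u' v') p1)
    (c4 := Reduce_Q d (pl u' v') (pl u' v')) fun a => ?_).2.1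
  have : Reduce_Q d (pl (u + a • u') (v + a • v')) (pl (u + a • u') (v + a • v')) = 0 := h _ _
  rw [e] at this
  simp only [map_add, map_smul, LinearMap.add_apply, LinearMap.smul_apply, smul_eq_mul] at this
  linear_combination this

theorem main (f : MvPolynomial Par ℂ) (hf : ∃ t, ContainsScroll t ∧ eval t f ≠ 0) :
    ∃ t, ContainsScroll t ∧ eval t f ≠ 0 ∧ IsSmoothGM t ∧
      ∀ A : Matrix (Fin 2) (Fin 5) (MvPolynomial (Fin 6) ℂ),
        A = !![(1 : MvPolynomial (Fin 6) ℂ), 0, X 0, X 1, X 2; 0, 1, X 3, X 4, X 5] →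
      ∀ J : Ideal (MvPolynomial (Fin 6) ℂ),
        J = Ideal.span
          {∑ s : Idx, C (t (Sum.inl s)) * (A 0 s.1.1 * A 1 s.1.2 - A 0 s.1.2 * A 1 s.1.1),
           ∑ s : Idx, ∑ s' : Idx, C (t (Sum.inr (s, s'))) *
              (A 0 s.1.1 * A 1 s.1.2 - A 0 s.1.2 * A 1 s.1.1) *
              (A 0 s'.1.1 * A 1 s'.1.2 - A 0 s'.1.2 * A 1 s'.1.1)} →
        J.IsPrime ∧ Nonempty (FractionRing (MvPolynomial (Fin 6) ℂ ⧸ J) ≃ₐ[ℂ]
          FractionRing (MvPolynomial (Fin 4) ℂ)) := by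
  obtain ⟨t0, ht0, hf0⟩ := hf
  obtain ⟨G, hG⟩ := Reduce_G
  obtain ⟨t1, h, c, L, θ0, hf1, hh, hc, h1⟩ := Reduce_nf hG f ht0 hf0
  obtain ⟨E, hE⟩ : ∃ E : Idx → Fin 10 → ℂ, E = fun s => G fun j => if s = j then 1 else 0 := ⟨_, rfl⟩
  obtain ⟨d, hd⟩ : ∃ d, d = t1 + (-1 : ℂ) • Reduce_co h c L E θ0 := ⟨_, rfl⟩
  have hd1 : ∀ u v, Hf d (pl u v) = 0 ∧ Qf d (pl u v) (pl u v) = 0 := fun u v => by
    rw [hd, hE, (Reduce_add _ _ _ _ (pl u v)).1, (Reduce_add _ _ _ _ _).2,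
      (Reduce_co_eq _ _ _ _ _ _ (pl u v)).1, (Reduce_co_eq _ _ _ _ _ _ _).2, hG, (h1 u v).1, (h1 u v).2]
    constructor <;> ring
  obtain ⟨F, hF⟩ : ∃ F : MvPolynomial Th ℂ, ∀ θ,
      eval θ F = eval (d + (1 : ℂ) • Reduce_co h c L E θ) f :=
    ⟨eval₂ C (fun s => C (d s) + Reduce_co (C h) (C c) (fun a => C (L a)) (fun s a => C (E s a)) X s) f,
      fun θ => by
      rw [hom_eval₂]
      congr 1
      · ext x
        simp
      · ext s
        cases s <;> simp [Reduce_co, map_Hn, map_Qn]⟩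
  obtain ⟨θ, hθ, hs, hp, hr⟩ := normal_main F fun h0 => hf1 (by
    have := hF θ0
    rw [h0, map_zero, hd, add_assoc, ← add_smul, neg_add_cancel, zero_smul, add_zero] at this
    exact this.symm)
  rw [hF] at hθ
  obtain ⟨t, ht⟩ : ∃ t, t = d + (1 : ℂ) • Reduce_co h c L E θ := ⟨_, rfl⟩
  rw [← ht] at hθ
  have hH : ∀ p, Hf t p = Hf d p + h * Hn θ (G p) := fun p => by
    rw [ht, hE, (Reduce_add _ _ _ _ p).1, (Reduce_co_eq _ _ _ _ _ _ p).1, one_mul]
  have hQ : ∀ p q, Qf t p q = Qf d p q + (c * Qn θ (G p) (G q) + Hn θ (G p) * ∑ a, L a * G q a) :=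
    fun p q => by rw [ht, hE, (Reduce_add _ _ _ _ _).2, (Reduce_co_eq _ _ _ _ _ _ _).2, one_mul]
  have hH' : ∀ u v, Hf t (pl u v) = h * Hn θ (gp u v) := fun u v => by
    rw [hH, (hd1 u v).1, zero_add, hG]
  have hQ' : ∀ u v, Qf t (pl u v) (pl u v) =
      c * Qn θ (gp u v) (gp u v) + Hn θ (gp u v) * ∑ a, L a * gp u v a := fun u v => by
    rw [hQ, (hd1 u v).2, zero_add, hG]
  refine ⟨t, fun a0 a1 b0 b1 w => ?_, hθ, fun u v huv h2 h3 a b h4 => ?_, fun A hA J hJ => ?_⟩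
  · rw [hH', hQ', Reduce_scroll]
    simp only [Hn, Qn, lf, Matrix.cons_val]
    constructor <;> ring
  · rw [hH'] at h2
    have h5 := (mul_eq_zero.1 h2).resolve_left hh
    rw [hQ', h5, zero_mul, add_zero] at h3
    obtain ⟨h6, h7⟩ := hs u v huv h5 ((mul_eq_zero.1 h3).resolve_left hc)
      (a * h + b * ∑ a, L a * gp u v a) (b * c) fun u' v' => by
      have e1 : Hf d (pl u' v + pl u v') = 0 :=
        (map_add (Reduce_H d) _ _).trans (by
          change Hf d _ + Hf d _ = 0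
          rw [(hd1 _ _).1, (hd1 _ _).1, add_zero])
      have e2 := h4 u' v'
      rw [hH, hQ, hQ, e1, map_add, hG, hG, hG, h5] at e2
      linear_combination e2 - b * Reduce_polar (fun u v => (hd1 u v).2) u v u' v'
    have hb : b = 0 := (mul_eq_zero.1 h7).resolve_right hc
    rw [hb, zero_mul, add_zero] at h6
    exact ⟨(mul_eq_zero.1 h6).resolve_right hh, hb⟩
  · have hp' : ∀ (x : Fin 6 → ℂ) (s : Idx), eval x (A 0 s.1.1 * A 1 s.1.2 - A 0 s.1.2 * A 1 s.1.1) =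
        pl ![1, 0, x 0, x 1, x 2] ![0, 1, x 3, x 4, x 5] s := fun x s => by
      have e0 : ∀ i, eval x (A 0 i) = ![1, 0, x 0, x 1, x 2] i := fun i => by
        fin_cases i <;> simp [hA]
      have e1 : ∀ i, eval x (A 1 i) = ![0, 1, x 3, x 4, x 5] i := fun i => by
        fin_cases i <;> simp [hA]
      simp only [map_sub, map_mul, e0, e1, pl]
    have e1 : ∑ s : Idx, C (t (Sum.inl s)) * (A 0 s.1.1 * A 1 s.1.2 - A 0 s.1.2 * A 1 s.1.1) =
        C h * Hn (fun s => C (θ s)) (gch X) := MvPolynomial.funext fun x => by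
      rw [map_sum, map_mul, map_Hn]
      simp only [map_mul (eval x) (C _), hp', eval_C, map_gch, eval_X]
      exact hH' _ _
    have e2 : ∑ s : Idx, ∑ s' : Idx, C (t (Sum.inr (s, s'))) *
          (A 0 s.1.1 * A 1 s.1.2 - A 0 s.1.2 * A 1 s.1.1) *
          (A 0 s'.1.1 * A 1 s'.1.2 - A 0 s'.1.2 * A 1 s'.1.1) =
        C c * Qn (fun s => C (θ s)) (gch X) (gch X) +
          Hn (fun s => C (θ s)) (gch X) * ∑ a, C (L a) * gch X a := MvPolynomial.funext fun x => by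
      rw [map_add, map_mul, map_mul, map_Hn, map_Qn]
      simp only [map_sum, map_mul (eval x) (C _), map_mul (eval x) (C _ * _), hp', eval_C, map_gch, eval_X]
      exact hQ' _ _
    have e3 : J = Jn θ := by
      rw [hJ, e1, e2, Jn]
      generalize Hn (fun s => C (θ s)) (gch X) = H
      generalize Qn (fun s => C (θ s)) (gch X) (gch X) = Q
      generalize ∑ a, C (L a) * gch X a = M
      have u1 : (C h⁻¹ * C h : MvPolynomial (Fin 6) ℂ) = 1 := by rw [← C_mul, inv_mul_cancel₀ hh, C_1]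
      have u2 : (C c⁻¹ * C c : MvPolynomial (Fin 6) ℂ) = 1 := by rw [← C_mul, inv_mul_cancel₀ hc, C_1]
      refine le_antisymm (Ideal.span_le.2 (Set.pair_subset ?_ ?_))
        (Ideal.span_le.2 (Set.pair_subset ?_ ?_)) <;> refine Ideal.mem_span_pair.2 ?_
      · exact ⟨C h, 0, by ring⟩
      · exact ⟨M, C c, by ring⟩
      · exact ⟨C h⁻¹, 0, by linear_combination H * u1⟩
      · exact ⟨-(C c⁻¹ * M * C h⁻¹), C c⁻¹, by linear_combination Q * u2 - C c⁻¹ * M * H * u1⟩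
    rw [e3]
    exact ⟨hp, hr⟩

end Pool.Agent.GM16
end
end
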